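import Pool.Agent.Work.MP_0f91f8_co.K.StmtsD

/-!
# Item KAv (helper42): `AvK` of the pair correlations
-/

set_option autoImplicit false

namespace Pool.Agent.F0f91f8.KR

open Filter Topology ComplexConjugate
open Pool.Agent.F0f91f8.HD Pool.Agent.F0f91f8.RC
open scoped BigOperators

/-- item KAv -/
theorem pr_KAv (hBx : StDBx) : StKAv := by
  intro f E w K M
  unfold AvK
  congr 1
  refine Finset.sum_congr rfl fun e _ => Finset.sum_congr rfl fun e' _ => ?_
  obtain ⟨h, -⟩ := hBx w.factorial (DR E w K) 1 M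
  unfold CXK CYK CZK BFK BxR pc
  rw [← h, ← h]

end Pool.Agent.F0f91f8.KR
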