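import Pool.Agent.Work.MP_0f91f8_co.K.I_KTr
import Pool.Agent.Work.MP_0f91f8_co.RC.I_RFi

/-!
# Kronecker form, module D″: item KFi (helper83), `PWK0`
-/

set_option autoImplicit false

namespace Pool.Agent.F0f91f8.KR

open Filter Topology ComplexConjugate
open Pool.Agent.F0f91f8.HD Pool.Agent.F0f91f8.RC
open scoped BigOperators

namespace IKFi

theorem pair_re {f : ℕ → ℂ} (hf : CM f) (x y : ℕ) :
    1 - (‖1 - f x‖ + ‖1 - f y‖) ≤ (f x * conj (f y)).re := by
  have h1 : 1 - f x * conj (f y) = (1 - f x) + f x * conj (1 - f y) := by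
    rw [map_sub, map_one]; ring
  have h2 : ‖1 - f x * conj (f y)‖ ≤ ‖1 - f x‖ + ‖1 - f y‖ := by
    rw [h1]
    refine (norm_add_le _ _).trans ?_
    rw [norm_mul, Complex.norm_conj]
    have := mul_le_of_le_one_left (norm_nonneg (1 - f y)) (DFi.cm_le hf x)
    linarith
  have h3 := Complex.re_le_norm (1 - f x * conj (f y))
  rw [Complex.sub_re, Complex.one_re] at h3
  linarith

theorem pc_re {f : ℕ → ℂ} (hf : CM f) (x y z : ℕ) :
    3 + (-2) * (‖1 - f x‖ + ‖1 - f y‖ + ‖1 - f z‖) ≤ (pc f x y z).re := by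
  unfold pc
  rw [Complex.add_re, Complex.add_re]
  have h1 := pair_re hf x y
  have h2 := pair_re hf y z
  have h3 := pair_re hf z x
  linarith

theorem pow_all {f : ℕ → ℂ} (hf : CM f) {E : ℕ} (h : ∀ p : ℕ, p.Prime → f p ^ E = 1) :
    ∀ n : ℕ, 0 < n → f n ^ E = 1 := by
  have h1 : f 1 = 1 := by
    have e1 := hf.2.1 1 1
    rw [mul_one] at e1
    have e2 : f 1 ≠ 0 := by
      intro e3
      have := hf.2.2 1 one_pos
      rw [e3, norm_zero] at this
      exact zero_ne_one this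
    exact (mul_right_cancel₀ e2 (by rw [one_mul]; exact e1)).symm
  intro n hn
  induction n using Nat.recOnMul with
  | zero => exact absurd hn (lt_irrefl _)
  | one => rw [h1, one_pow]
  | prime p hp => exact h p hp
  | mul a b iha ihb =>
    have ha : 0 < a := Nat.pos_of_mul_pos_right hn
    have hb : 0 < b := Nat.pos_of_mul_pos_left hn
    rw [hf.2.1, mul_pow, iha ha, ihb hb, one_mul]

end IKFi

open IKTr IKFi Pool.Agent.F0f91f8.RC.IRFi Pool.Agent.F0f91f8.HD.DFi in
/-- Item KFi. -/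
theorem pr_KFi (hAv : StKAv) (hMo : StKMo) (hTl : StDTl) (hPr : StKPr) (hXm : StKXm)
    (hZm : StKZm) (hYm : StKYm) (hUb : StKUb) (hKe : StKKe) (hRKp : StRKp) (hDe : StDDe)
    (hFv : StRFv) (hV1 : StKV1) (hTr : StKTr) : StKFi := by
  intro E hE f hf hp ε hε
  by_cases hall : ∀ p : ℕ, p.Prime → f p ^ E = 1
  · -- finite order
    have h1 := hTr E hE f hf hp (pow_all hf hall) (ε / 2) (by positivity)
    have h1' : ∀ᶠ w in atTop, ∀ᶠ K in atTop, ∀ᶠ M in atTop,
        (AvK E w K M fun x y z => ((‖1 - f x‖ + ‖1 - f y‖ + ‖1 - f z‖ : ℝ) : ℂ)).re ≤ ε / 2 := h1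
    show ∀ᶠ w in atTop, ∀ᶠ K in atTop, ∀ᶠ M in atTop, -ε ≤ (AvK E w K M (pc f)).re
    filter_upwards [h1'] with w h2
    filter_upwards [h2, eventually_ge_atTop 1] with K h3 hK
    filter_upwards [h3, eventually_ge_atTop 1] with M h4 hM
    obtain ⟨hadd, hmul, -, hre, hmono, hone⟩ := hMo E w K M hE
    have h5 := hmono (fun x y z => 3 + (-2) * (‖1 - f x‖ + ‖1 - f y‖ + ‖1 - f z‖))
      (fun x y z => (pc f x y z).re) fun x y z _ _ _ _ => pc_re hf x y z
    rw [← hre] at h5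
    have h6 : (AvK E w K M fun x y z =>
        ((3 + (-2) * (‖1 - f x‖ + ‖1 - f y‖ + ‖1 - f z‖) : ℝ) : ℂ)) =
        3 + (-2) * (AvK E w K M fun x y z => ((‖1 - f x‖ + ‖1 - f y‖ + ‖1 - f z‖ : ℝ) : ℂ)) := by
      have e1 := hadd (fun _ _ _ => 3 * 1)
        (fun x y z => (-2) * ((‖1 - f x‖ + ‖1 - f y‖ + ‖1 - f z‖ : ℝ) : ℂ))
      rw [hmul 3 (fun _ _ _ => 1), hmul (-2), hone hK hM, mul_one] at e1
      rw [← e1]
      congr 1
      funext x y z
      push_cast
      ring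
    rw [h6] at h5
    have h7 : (3 + (-2) * (AvK E w K M fun x y z =>
        ((‖1 - f x‖ + ‖1 - f y‖ + ‖1 - f z‖ : ℝ) : ℂ)) : ℂ).re =
        3 - 2 * (AvK E w K M fun x y z => ((‖1 - f x‖ + ‖1 - f y‖ + ‖1 - f z‖ : ℝ) : ℂ)).re := by
      simp [Complex.add_re, Complex.mul_re]
      ring
    rw [h7] at h5
    linarith
  push Not at hall
  obtain ⟨p0, hp0, hfp0⟩ := hall
  obtain ⟨g, t, q, hd⟩ := hDe f hf hp
  obtain ⟨cX, hcX, hX⟩ := hXm
  obtain ⟨cZ, hcZ, hZ⟩ := hZm
  obtain ⟨cY, hcY, hY⟩ := hYm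
  obtain ⟨cV, hcV, hV⟩ := hV1
  have hg := hd.hg
  obtain ⟨-, -, htlt, hert, -, hcLQ, -⟩ := hTl g hg
  set C : ℝ := cX + cZ + cY + cV with hC
  have hC0 : 0 < C := by positivity
  have hXC : cX ≤ C := by linarith
  have hZC : cZ ≤ C := by linarith
  have hYC : cY ≤ C := by linarith
  have hVC : cV ≤ C := by linarith
  set δ : ℝ := ε / 40 with hδ
  have hδ0 : 0 < δ := by positivity
  have her0 : ∀ K, 0 ≤ er g K := fun K => Real.sqrt_nonneg _
  -- the correlation `y, z`
  have hYpart : ∀ᶠ w : ℕ in atTop, ∀ᶠ K : ℕ in atTop, ∀ᶠ M : ℕ in atTop,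
      -(7 * δ) ≤ (avg (fun (e : Fin (w + 1) → Fin K) e' => CYK f E w K e e' M)).re := by
    by_cases hN : ∃ w₁ : ℕ, ∀ p : ℕ, p.Prime → w₁ < p →
        g p ^ (E * Nat.totient w₁.factorial) = 1
    · obtain ⟨w₁, hw₁⟩ := hN
      have hN1 : 1 ≤ E * Nat.totient w₁.factorial :=
        Nat.mul_pos hE (Nat.totient_pos.mpr (Nat.factorial_pos _))
      set B : ℝ := ((E * Nat.totient w₁.factorial : ℕ) : ℝ) with hB
      have hB0 : 0 ≤ B := Nat.cast_nonneg _
      filter_upwards [ev_inv C _ hδ0, ev_of htlt (C * B) _ hδ0, eventually_ge_atTop q,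
        eventually_ge_atTop 2, eventually_ge_atTop w₁] with w hw1 hw2 hqw hw3 hw4
      have hqd : q ∣ w.factorial := Nat.dvd_factorial hd.hq hqw
      have hgw : ∀ p : ℕ, p.Prime → w < p → g p ^ (E * Nat.totient w.factorial) = 1 := by
        intro p hp hwp
        obtain ⟨c, hc⟩ := Nat.totient_dvd_of_dvd (Nat.factorial_dvd_factorial hw4)
        have h1 : E * Nat.totient w.factorial = (E * Nat.totient w₁.factorial) * c := by
          rw [hc]; ring
        rw [h1, pow_mul, hw₁ p hp (by omega), one_pow]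
      have hBw : ∀ p : ℕ, p.Prime → w < p → ‖1 - g p‖ ≤ B * ‖1 - g p‖ ^ 2 := fun p hp hwp =>
        hFv (g p) _ hN1 (hw₁ p hp (by omega))
      filter_upwards [ev_of hert C _ hδ0, ev_inv (C * (1 + |t|)) _ hδ0,
        eventually_ge_atTop w] with K h1 h2 hwK
      have hK1 : 1 ≤ K := by omega
      obtain ⟨MY, hMY⟩ := hY f g t q hd E w K hE hw3 hwK hqd δ hδ0
      obtain ⟨MV, hMV⟩ := hV g hg B E w K hB0 hE hw3 hwK hBw δ hδ0
      filter_upwards [eventually_ge_atTop MY, eventually_ge_atTop MV] with M hM1 hM2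
      refine avg_re hK1 _ _ fun e e' => ?_
      have b0 := eT_le g w K t cY C δ hYC h1 h2 hw1
      have b1 := hMY M hM1 e e'
      have b2 := hMV M hM2
      obtain ⟨-, -, -, -, -, -, -, hPg⟩ := hPr E w K e e' hE hw3 hwK
      rw [(hPg g hg.cm).2 hgw, one_mul] at b1
      have b3 : ‖CYK f E w K e e' M - 1‖ ≤ 7 * δ := by
        have b4 : CYK f E w K e e' M - 1 = (CYK f E w K e e' M - VYK g E w K M) +
            (VYK g E w K M - 1) := by ring
        rw [b4]
        refine (norm_add_le _ _).trans ?_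
        have b5 : cV * (er g K + B * tl g w) ≤ C * (er g K + B * tl g w) := by
          refine mul_le_mul_of_nonneg_right hVC ?_
          have := her0 K
          have h3 : 0 ≤ tl g w := (hTl g hg).1 w
          positivity
        have b6 : C * (er g K + B * tl g w) = C * er g K + C * B * tl g w := by ring
        linarith
      have b7 := re_of_norm b3
      rw [Complex.sub_re, Complex.one_re] at b7
      linarith
    · push Not at hN
      filter_upwards [ev_inv C _ hδ0, eventually_ge_atTop q,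
        eventually_ge_atTop 2] with w hw1 hqw hw3
      have hqd : q ∣ w.factorial := Nat.dvd_factorial hd.hq hqw
      obtain ⟨p1, hp1, hwp1, hgp1⟩ := hN w
      have hg1 : 0 < ‖1 - g p1 ^ (E * Nat.totient w.factorial)‖ := by
        rw [norm_pos_iff, sub_ne_zero]; exact fun h => hgp1 h.symm
      filter_upwards [ev_of hert C _ hδ0, ev_inv (C * (1 + |t|)) _ hδ0,
        eventually_ge_atTop w, eventually_ge_atTop p1,
        ev_inv (2 / ‖1 - g p1 ^ (E * Nat.totient w.factorial)‖) _ hδ0] with K h1 h2 hwK hpK h3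
      have hK1 : 1 ≤ K := by omega
      have hK0 : (0 : ℝ) < K := by exact_mod_cast hK1
      have hk : ‖(∑ e' : Fin (K + 1) → Fin K, g (kK E w K e')) / (K : ℂ) ^ (K + 1)‖ ≤ δ := by
        refine (hKe g hg.cm E w K p1 hE hK1 hp1 hgp1 hwp1 hpK).trans ?_
        have : 2 / (K * ‖1 - g p1 ^ (E * Nat.totient w.factorial)‖) =
            (2 / ‖1 - g p1 ^ (E * Nat.totient w.factorial)‖) * ((K : ℝ))⁻¹ := by
          field_simp
        rw [this]; exact h3
      obtain ⟨MY, hMY⟩ := hY f g t q hd E w K hE hw3 hwK hqd δ hδ0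
      filter_upwards [eventually_ge_atTop MY] with M hM1
      have b0 := eT_le g w K t cY C δ hYC h1 h2 hw1
      let e0 : Fin (K + 1) → Fin K := fun _ => ⟨0, by omega⟩
      have hVle : ‖VYK g E w K M‖ ≤ 1 := (hUb f g t hf hg E w K e0 M).2.2
      have hb : ∀ (e : Fin (w + 1) → Fin K) (e' : Fin (K + 1) → Fin K),
          ‖CYK f E w K e e' M - 1 * (g (kK E w K e') * VYK g E w K M)‖ ≤ 4 * δ := by
        intro e e'
        rw [one_mul]
        exact (hMY M hM1 e e').trans (by linarith)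
      have hm : ‖(∑ e' : Fin (K + 1) → Fin K, g (kK E w K e') * VYK g E w K M) /
          (K : ℂ) ^ (K + 1)‖ ≤ δ := by
        rw [← Finset.sum_mul, mul_div_right_comm, norm_mul]
        calc _ ≤ δ * 1 := mul_le_mul hk hVle (norm_nonneg _) hδ0.le
          _ = δ := mul_one _
      have h4 := avg_prod hK1 (fun (e : Fin (w + 1) → Fin K) e' => CYK f E w K e e' M)
        (fun _ => 1) (fun e' => g (kK E w K e') * VYK g E w K M) (4 * δ) δ hδ0.le hb
        (Or.inr ⟨fun _ => by simp, hm⟩)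
      have h5 := re_of_norm h4
      linarith
  -- the correlations `x, y` and `z, x`
  have hf1 : 0 < ‖1 - f p0 ^ E‖ := by
    rw [norm_pos_iff, sub_ne_zero]; exact fun h => hfp0 h.symm
  have hXZ : ∀ᶠ w : ℕ in atTop, ∀ᶠ K : ℕ in atTop, ∀ᶠ M : ℕ in atTop,
      -(7 * δ) ≤ (avg (fun (e : Fin (w + 1) → Fin K) e' => CXK f E w K e e' M)).re ∧
      -(7 * δ) ≤ (avg (fun (e : Fin (w + 1) → Fin K) e' => CZK f E w K e e' M)).re := by
    filter_upwards [ev_inv C _ hδ0, eventually_ge_atTop q,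
      eventually_ge_atTop 2, eventually_ge_atTop p0] with w hw1 hqw hw3 hpw
    have hqd : q ∣ w.factorial := Nat.dvd_factorial hd.hq hqw
    filter_upwards [ev_of hert C _ hδ0, ev_inv (C * (1 + |t|)) _ hδ0,
      eventually_ge_atTop w, ev_inv (2 / ‖1 - f p0 ^ E‖) _ hδ0] with K h1 h2 hwK h3
    have hK1 : 1 ≤ K := by omega
    have hK0 : (0 : ℝ) < K := by exact_mod_cast hK1
    obtain ⟨MX, hMX⟩ := hX f g t q hd E w K hE hw3 hwK hqd δ hδ0
    obtain ⟨MZ, hMZ⟩ := hZ f g t q hd E w K hE hw3 hwK hqd δ hδ0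
    have hk : ‖(∑ e : Fin (w + 1) → Fin K, f (kp w K e) ^ E) / (K : ℂ) ^ (w + 1)‖ ≤ δ := by
      refine (hRKp f hf E w K p0 hE hK1 hp0 hfp0 hpw).trans ?_
      have : 2 / (K * ‖1 - f p0 ^ E‖) = (2 / ‖1 - f p0 ^ E‖) * ((K : ℝ))⁻¹ := by
        field_simp
      rw [this]; exact h3
    have hk' : ‖(∑ e : Fin (w + 1) → Fin K, conj (f (kp w K e)) ^ E) / (K : ℂ) ^ (w + 1)‖ ≤
        δ := by
      have e1 : (∑ e : Fin (w + 1) → Fin K, conj (f (kp w K e)) ^ E) / (K : ℂ) ^ (w + 1) =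
          conj ((∑ e : Fin (w + 1) → Fin K, f (kp w K e) ^ E) / (K : ℂ) ^ (w + 1)) := by
        rw [map_div₀, map_sum, map_pow, Complex.conj_natCast]
        simp only [map_pow]
      rw [e1, Complex.norm_conj]
      exact hk
    filter_upwards [eventually_ge_atTop MX, eventually_ge_atTop MZ] with M hM1 hM2
    refine ⟨?_, ?_⟩
    · have h4 := avg_prod hK1 (fun (e : Fin (w + 1) → Fin K) e' => CXK f E w K e e' M)
        (fun e => f (kp w K e) ^ E) (fun e' => UXK f g t E w K e' M) (4 * δ) δ hδ0.le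
        (fun e e' => (hMX M hM1 e e').trans (by linarith [eT_le g w K t cX C δ hXC h1 h2 hw1]))
        (Or.inl ⟨hk, fun e' => (hUb f g t hf hg E w K e' M).1⟩)
      have h5 := re_of_norm h4
      linarith
    · have h4 := avg_prod hK1 (fun (e : Fin (w + 1) → Fin K) e' => CZK f E w K e e' M)
        (fun e => conj (f (kp w K e)) ^ E) (fun e' => UZK f g t E w K e' M) (4 * δ) δ hδ0.le
        (fun e e' => (hMZ M hM2 e e').trans (by linarith [eT_le g w K t cZ C δ hZC h1 h2 hw1]))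
        (Or.inl ⟨hk', fun e' => (hUb f g t hf hg E w K e' M).2.1⟩)
      have h5 := re_of_norm h4
      linarith
  -- conclusion
  show ∀ᶠ w in atTop, ∀ᶠ K in atTop, ∀ᶠ M in atTop, -ε ≤ (AvK E w K M (pc f)).re
  filter_upwards [hXZ, hYpart] with w h1 h2
  filter_upwards [h1, h2] with K h3 h4
  filter_upwards [h3, h4] with M h5 h6
  obtain ⟨bX, bZ⟩ := h5
  have e1 : AvK E w K M (pc f) =
      avg (fun (e : Fin (w + 1) → Fin K) e' => CXK f E w K e e' M) +
      avg (fun (e : Fin (w + 1) → Fin K) e' => CYK f E w K e e' M) +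
      avg (fun (e : Fin (w + 1) → Fin K) e' => CZK f E w K e e' M) := by
    rw [hAv, ← avg_add, ← avg_add]
    rfl
  rw [e1, Complex.add_re, Complex.add_re]
  have c5 : ε = 40 * δ := by rw [hδ]; ring
  linarith

end Pool.Agent.F0f91f8.KR
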