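import Pool.Agent.Work.MP_0f91f8_co.K.StmtsD

/-!
# Item KKe of the block K-D (MP_0f91f8_co): averages over the exponents `e'` (helper78)
-/

set_option autoImplicit false

namespace Pool.Agent.F0f91f8.KR

open Filter Topology ComplexConjugate
open Pool.Agent.F0f91f8.HD Pool.Agent.F0f91f8.RC
open scoped BigOperators

namespace IKKe

/-- a positive power of a function in `CM` is in `CM` -/
theorem cm_pow (f : ℕ → ℂ) (hf : CM f) (E : ℕ) (hE : 1 ≤ E) : CM (fun n => f n ^ E) := by
  refine ⟨?_, ?_, ?_⟩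
  · show f 0 ^ E = 0
    rw [hf.1]
    exact zero_pow (by omega)
  · intro m n
    show f (m * n) ^ E = f m ^ E * f n ^ E
    rw [hf.2.1 m n, mul_pow]
  · intro n hn
    show ‖f n ^ E‖ = 1
    rw [norm_pow, hf.2.2 n hn, one_pow]

theorem map_pow (g : ℕ → ℂ) (hg : CM g) (x : ℕ) : ∀ N : ℕ, 1 ≤ N → g (x ^ N) = g x ^ N := by
  intro N hN
  induction N, hN using Nat.le_induction with
  | base => rw [pow_one, pow_one]
  | succ n _ ih => rw [pow_succ, pow_succ, hg.2.1, ih]

end IKKe

theorem pr_KKe (hKp : StDKp) : StKKe := by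
  intro g hg E w K p hE hK hp h1 hwp hpK
  have hN : 1 ≤ E * Nat.totient w.factorial :=
    Nat.mul_pos hE (Nat.totient_pos.2 (Nat.factorial_pos w))
  have h2 : ∀ e' : Fin (K + 1) → Fin K, g (kK E w K e') =
      g (kk w K e') ^ (E * Nat.totient w.factorial) := fun e' => IKKe.map_pow g hg _ _ hN
  rw [Finset.sum_congr rfl fun e' _ => h2 e']
  exact (hKp (fun n => g n ^ (E * Nat.totient w.factorial)) (IKKe.cm_pow g hg _ hN) w K p hK hp
    h1).2 hwp hpK

end Pool.Agent.F0f91f8.KR
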