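import Pool.Agent.Work.MP_0f91f8_co.K.I_KRe
import Pool.Agent.Work.MP_0f91f8_co.HD.I_DYm

/-!
# Item KMo of the block K-D (helper87): rules for the average over the family
-/

set_option autoImplicit false

namespace Pool.Agent.F0f91f8.KR

open Filter Topology ComplexConjugate
open Pool.Agent.F0f91f8.HD Pool.Agent.F0f91f8.RC
open scoped BigOperators

namespace IKMo

theorem kpP (w K : ℕ) (e : Fin (w + 1) → Fin K) : 0 < kp w K e := by
  unfold kp
  refine Finset.prod_pos fun p _ => ?_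
  split_ifs with hp
  · exact Nat.pow_pos hp.pos
  · exact Nat.one_pos

theorem kkP (w K : ℕ) (e : Fin (K + 1) → Fin K) : 0 < kk w K e := by
  unfold kk
  refine Finset.prod_pos fun p _ => ?_
  split_ifs with hp
  · exact Nat.pow_pos hp.1.pos
  · exact Nat.one_pos

theorem kRP (E w K : ℕ) (e : Fin (w + 1) → Fin K) : 0 < kR E w K e := by
  unfold kR
  exact Nat.mul_pos (Nat.pow_pos (by norm_num))
    (Nat.pow_pos (Nat.mul_pos (Nat.factorial_pos w) (kpP w K e)))

theorem kKP (E w K : ℕ) (e : Fin (K + 1) → Fin K) : 0 < kK E w K e := by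
  unfold kK
  exact Nat.pow_pos (kkP w K e)

theorem DRP (E w K : ℕ) (hK : 1 ≤ K) : 0 < DR E w K := by
  unfold DR
  have := Nat.factorial_pos w
  positivity

theorem normK (w K : ℕ) : ‖((K : ℂ) ^ (w + 1) * (K : ℂ) ^ (K + 1))‖ =
    (K : ℝ) ^ (w + 1) * (K : ℝ) ^ (K + 1) := by
  rw [norm_mul, norm_pow, norm_pow, Complex.norm_natCast]

end IKMo

open IKMo in
/-- rules for `AvK` -/
theorem pr_KMo (hBx : StDBx) : StKMo := by
  intro E w K M hE
  refine ⟨?_, ?_, ?_, ?_, ?_, ?_⟩
  · intro Φ Ψ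
    unfold AvK
    rw [← add_div]
    refine congrArg (fun t => t / ((K : ℂ) ^ (w + 1) * (K : ℂ) ^ (K + 1))) ?_
    rw [← Finset.sum_add_distrib]
    refine Finset.sum_congr rfl fun e _ => ?_
    rw [← Finset.sum_add_distrib]
    refine Finset.sum_congr rfl fun e' _ => ?_
    exact (hBx _ _ _ _).1 _ _
  · intro c Φ
    unfold AvK
    rw [← mul_div_assoc]
    refine congrArg (fun t => t / ((K : ℂ) ^ (w + 1) * (K : ℂ) ^ (K + 1))) ?_
    rw [Finset.mul_sum]
    refine Finset.sum_congr rfl fun e _ => ?_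
    rw [Finset.mul_sum]
    refine Finset.sum_congr rfl fun e' _ => ?_
    exact (hBx _ _ _ _).2.1 _ _
  · intro Φ
    rw [IKRe.avK_real, Complex.ofReal_re]
    unfold AvK
    rw [norm_div, normK]
    refine div_le_div_of_nonneg_right ?_ (by positivity)
    refine (norm_sum_le _ _).trans (Finset.sum_le_sum fun e _ => ?_)
    refine (norm_sum_le _ _).trans (Finset.sum_le_sum fun e' _ => ?_)
    exact (hBx _ _ _ _).2.2.1 _
  · intro Φ
    rw [IKRe.avK_real, Complex.ofReal_re]
    unfold AvK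
    have hc : ((K : ℂ) ^ (w + 1) * (K : ℂ) ^ (K + 1)) =
        (((K : ℝ) ^ (w + 1) * (K : ℝ) ^ (K + 1) : ℝ) : ℂ) := by push_cast; rfl
    rw [hc, Complex.div_ofReal_re, Complex.re_sum]
    refine congrArg (fun t => t / ((K : ℝ) ^ (w + 1) * (K : ℝ) ^ (K + 1))) ?_
    refine Finset.sum_congr rfl fun e _ => ?_
    rw [Complex.re_sum]
    refine Finset.sum_congr rfl fun e' _ => ?_
    exact IDYm.re _ _ _ _ _
  · intro F G h
    rw [IKRe.avK_real, IKRe.avK_real, Complex.ofReal_re, Complex.ofReal_re]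
    refine div_le_div_of_nonneg_right ?_ (by positivity)
    refine Finset.sum_le_sum fun e _ => Finset.sum_le_sum fun e' _ => ?_
    refine (hBx _ _ _ _).2.2.2.1 _ _ fun a n hn ha => ?_
    have h1 := kRP E w K e
    have h2 := kKP E w K e'
    have h3 : 0 < a := ha
    have h4 : 0 < w.factorial * n + 1 := Nat.succ_pos _
    refine h _ _ _ ?_ ?_ ?_ (tXYZ _ _ _ _)
    · unfold tX
      positivity
    · unfold tY
      positivity
    · unfold tZ
      positivity
  · intro hK hM
    have hD := DRP E w K hK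
    have hK0 : (K : ℂ) ≠ 0 := by exact_mod_cast (show K ≠ 0 by omega)
    have h1 : ∀ (e : Fin (w + 1) → Fin K) (e' : Fin (K + 1) → Fin K),
        (BxR w.factorial (DR E w K) 1 M fun _ _ => (1 : ℂ)) = 1 :=
      fun e e' => ((hBx w.factorial (DR E w K) 1 M).2.2.2.2.2.2 hD hM).1
    unfold AvK
    rw [Finset.sum_congr rfl fun e _ => Finset.sum_congr rfl fun e' _ => h1 e e']
    rw [div_eq_one_iff_eq (by positivity)]
    simp

end Pool.Agent.F0f91f8.KR
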