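import Pool.Agent.Work.MP_0f91f8_co.K.StmtsD
import Pool.Agent.Work.MP_0f91f8_co.RC.I_RPr

/-!
# Kronecker form, module D double prime, item KPr: the parameters
-/

set_option autoImplicit false

namespace Pool.Agent.F0f91f8.KR

open Filter Topology ComplexConjugate
open Pool.Agent.F0f91f8.HD Pool.Agent.F0f91f8.RC
open scoped BigOperators

namespace IKPr

theorem g_one {g : ℕ → ℂ} (hg : CM g) : g 1 = 1 := by
  have h1 : g 1 * g 1 = g 1 * 1 := by rw [← hg.2.1, mul_one, mul_one]
  have h2 : g 1 ≠ 0 := by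
    intro h
    have := hg.2.2 1 one_pos
    rw [h, norm_zero] at this
    exact zero_ne_one this
  exact mul_left_cancel₀ h2 h1

theorem g_pow {g : ℕ → ℂ} (hg : CM g) (a n : ℕ) : g (a ^ n) = g a ^ n := by
  induction n with
  | zero => rw [pow_zero, pow_zero, g_one hg]
  | succ n ih => rw [pow_succ, hg.2.1, ih, pow_succ]

theorem g_prod {g : ℕ → ℂ} (hg : CM g) {ι : Type} (s : Finset ι) (h : ι → ℕ) :
    g (∏ i ∈ s, h i) = ∏ i ∈ s, g (h i) := by
  classical
  induction s using Finset.induction_on with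
  | empty => rw [Finset.prod_empty, Finset.prod_empty, g_one hg]
  | insert a s ha ih => rw [Finset.prod_insert ha, Finset.prod_insert ha, hg.2.1, ih]

end IKPr

open IKPr in
/-- Item KPr. -/
theorem pr_KPr (hK2 : StRK2) (hPr : StRPr) (_hMd : StDMd) : StKPr := by
  intro E w K e e' hE hw hwK
  obtain ⟨-, k2, k3, k4, k5, k6, -⟩ := hK2 E w K e hE hw (by omega)
  obtain ⟨hP, -, -, -⟩ := hPr E w K e e' hE hw hwK
  have hφ : 0 < Nat.totient w.factorial := Nat.totient_pos.2 (Nat.factorial_pos w)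
  have hN : E * Nat.totient w.factorial ≠ 0 := Nat.mul_ne_zero (by omega) hφ.ne'
  have hkp : ∀ p : ℕ, p.Prime → p ∣ kK E w K e' → p ≤ K := fun p hp h =>
    hP.kp p hp (hp.dvd_of_dvd_pow h)
  have hcop : Nat.Coprime (kk w K e') w.factorial := hP.kc
  refine ⟨⟨hP.κ0, pow_pos hP.k0 _, hP.κd, hP.κp, hcop.pow_left _, hkp, fun p hp h5 h6 =>
    (hP.ks p hp h5 h6).trans (dvd_pow_self _ hN)⟩, k6, k5, Nat.factorial_pos w, ?_, ?_, ?_, ?_⟩
  · intro p hp h
    rcases (hp.dvd_mul).1 h with h1 | h1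
    · rcases (hp.dvd_mul).1 h1 with h5 | h5
      · exact (k3 p hp h5).trans hwK
      · exact hkp p hp h5
    · exact ((hp.dvd_factorial).1 h1).trans hwK
  · intro p hp h
    rcases (hp.dvd_mul).1 h with h1 | h1
    · exact (k3 p hp h1).trans hwK
    · exact ((hp.dvd_factorial).1 h1).trans hwK
  · intro b
    have h1 : kk w K e' ^ Nat.totient w.factorial ≡ 1 [MOD w.factorial] := Nat.ModEq.pow_totient hcop
    have h2 : kK E w K e' ≡ 1 [MOD w.factorial] := by
      have h3 := h1.pow E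
      rw [one_pow, ← pow_mul, mul_comm] at h3
      exact h3
    have h4 : w.factorial * b + 1 ≡ 1 [MOD w.factorial] := by
      have h5 : w.factorial * b ≡ 0 [MOD w.factorial] := (Nat.modEq_zero_iff_dvd).2 (dvd_mul_right _ _)
      exact h5.add_right 1
    have h6 := h2.mul h4
    rw [mul_one] at h6
    exact h6
  · intro g hg
    have h1 : g (kK E w K e') = g (kk w K e') ^ (E * Nat.totient w.factorial) := g_pow hg _ _
    refine ⟨h1, fun h2 => ?_⟩
    rw [h1]
    unfold kk
    rw [g_prod hg, ← Finset.prod_pow]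
    refine Finset.prod_eq_one fun p _ => ?_
    split_ifs with h3
    · rw [g_pow hg, ← pow_mul, mul_comm, pow_mul, h2 p h3.1 h3.2, one_pow]
    · rw [g_one hg, one_pow]

end Pool.Agent.F0f91f8.KR
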