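import Pool.Agent.Work.MP_0f91f8_co.K.StmtsD

/-!
# Item KRe of the block K-D (helper10): averages of real functions
-/

set_option autoImplicit false

namespace Pool.Agent.F0f91f8.KR

open Filter Topology ComplexConjugate
open Pool.Agent.F0f91f8.HD Pool.Agent.F0f91f8.RC
open scoped BigOperators

namespace IKRe

theorem bx_real (Q D a₀ M : ℕ) (G : ℕ → ℕ → ℝ) :
    (Bx Q D a₀ M fun a n => ((G a n : ℝ) : ℂ)) = ((BR Q D a₀ M G : ℝ) : ℂ) := by
  unfold Bx BR
  push_cast
  rfl

theorem avK_real (E w K M : ℕ) (F : ℕ → ℕ → ℕ → ℝ) :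
    (AvK E w K M fun x y z => ((F x y z : ℝ) : ℂ)) =
      (((∑ e : Fin (w + 1) → Fin K, ∑ e' : Fin (K + 1) → Fin K,
        BRK E w K M fun a n => F (tX (kR E w K e) (kK E w K e') a n)
          (tY (kR E w K e) (kK E w K e') a n) (tZ (kR E w K e) (kK E w K e') a n)) /
        ((K : ℝ) ^ (w + 1) * (K : ℝ) ^ (K + 1)) : ℝ) : ℂ) := by
  have h : ∀ (e : Fin (w + 1) → Fin K) (e' : Fin (K + 1) → Fin K),
      (BxR w.factorial (DR E w K) 1 M fun a n =>
        ((F (tX (kR E w K e) (kK E w K e') a n) (tY (kR E w K e) (kK E w K e') a n)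
          (tZ (kR E w K e) (kK E w K e') a n) : ℝ) : ℂ)) =
      ((BRK E w K M fun a n => F (tX (kR E w K e) (kK E w K e') a n)
          (tY (kR E w K e) (kK E w K e') a n) (tZ (kR E w K e) (kK E w K e') a n) : ℝ) : ℂ) := by
    intro e e'
    unfold BxR BRK
    exact bx_real _ _ _ _ _
  unfold AvK
  simp only [h]
  push_cast
  rfl

end IKRe

/-- the average of a real function is bounded by the largest of the averages -/
theorem pr_KRe : StKRe := by
  intro E w K M F c hK h
  have hK0 : (0 : ℝ) < K := by exact_mod_cast hK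
  rw [IKRe.avK_real, Complex.ofReal_re, div_le_iff₀ (by positivity)]
  have h4 := Finset.sum_le_sum fun (e : Fin (w + 1) → Fin K) (_ : e ∈ Finset.univ) =>
    Finset.sum_le_sum fun (e' : Fin (K + 1) → Fin K) (_ : e' ∈ Finset.univ) => h e e'
  have h5 : ∑ e : Fin (w + 1) → Fin K, ∑ e' : Fin (K + 1) → Fin K, c =
      (K : ℝ) ^ (w + 1) * ((K : ℝ) ^ (K + 1) * c) := by
    simp
  rw [h5] at h4
  linarith

end Pool.Agent.F0f91f8.KR
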