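import Pool.Agent.Work.MP_0f91f8_co.K.StmtsD
import Pool.Agent.Work.MP_0f91f8_co.HD.I_DPX

/-!
# Kronecker form of the collision theorem, item KTp: pointwise bound (helper59)
-/

set_option autoImplicit false

namespace Pool.Agent.F0f91f8.KR

open Filter Topology ComplexConjugate
open Pool.Agent.F0f91f8.HD Pool.Agent.F0f91f8.RC
open scoped BigOperators

namespace IKTp

/-- `|1 - u v| ≤ |1 - u| + |1 - v|` if `|u| ≤ 1` -/
theorem one_sub_mul {u v : ℂ} (hu : ‖u‖ ≤ 1) : ‖1 - u * v‖ ≤ ‖1 - u‖ + ‖1 - v‖ := by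
  have e : 1 - u * v = (1 - u) + u * (1 - v) := by ring
  rw [e]
  refine (norm_add_le _ _).trans ?_
  rw [norm_mul]
  have := mul_le_mul_of_nonneg_right hu (norm_nonneg (1 - v))
  linarith

theorem tri {u c : ℂ} : ‖1 - u‖ ≤ ‖u - c‖ + ‖c - 1‖ := by
  have e : 1 - u = -((u - c) + (c - 1)) := by ring
  rw [e, norm_neg]
  exact norm_add_le _ _

theorem two {u : ℂ} (hu : ‖u‖ ≤ 1) : ‖1 - u‖ ≤ 2 := by
  have := norm_sub_le (1 : ℂ) u
  rw [norm_one] at this
  linarith

end IKTp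

open HD.IDPX IKTp in
theorem pr_KTp (hFc : StDFc) (hMd : StRMd) (hSp : StRSp) : StKTp := by
  intro f g q hD w K κ k hw hwK hq hP hf2 hgk M a n hmod hnmod ha hn
  obtain ⟨c2, c3, c4, c5⟩ := hMd w K κ k hP a n hmod
  have hκ0 : 0 < κ := hP.κ0
  have hk0 : 0 < k := hP.k0
  have hka : 0 < k * a := Nat.mul_pos hk0 ha
  have hm : 0 < k * a + κ * n := by omega
  have hm' : 0 < k * a + 2 * (κ * n) := by omega
  have hz : 0 < tZ κ k a n := tZ_pos hk0 ha
  have hf := hD.hf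
  have hg := hD.hg.cm
  have hfg : ∀ x : ℕ, 0 < x → x % w.factorial = 1 % w.factorial → f x = g x := by
    intro x hx hx1
    rw [hD.eq x hx (mod_of_dvd hq hx1)]
    simp
  have hnp : ∀ p : ℕ, p.Prime → p ≤ w → ¬ p ∣ n := by
    intro p hp hpw hd
    have h1 : n % p = 1 % p := mod_of_dvd (hp.dvd_factorial.2 hpw) hnmod
    rw [Nat.mod_eq_zero_of_dvd hd, Nat.mod_eq_of_lt hp.one_lt] at h1
    exact zero_ne_one h1
  have ex : f (tX κ k a n) = g n * g (k * a + κ * n) := by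
    have e0 : tX κ k a n = (2 * κ) * n * (k * a + κ * n) := by
      unfold tX
      ring
    rw [e0, hf.2.1, hf.2.1, hf2, one_mul, hfg n hn hnmod, hfg _ hm c2]
  have ey : f (tY κ k a n) = g a * g (k * a + 2 * (κ * n)) := by
    have e0 : tY κ k a n = (k * a) * (k * a + 2 * (κ * n)) := rfl
    rw [e0, hf.2.1, hfg _ hka hmod, hfg _ hm' c3, hg.2.1, hgk, one_mul]
  have ez : f (tZ κ k a n) = g (tZ κ k a n) := hfg _ hz c4
  have vn := gval hFc hg hn hwK hnp
  have va := gval hFc hg ha hwK (fun p hp hpw => (c5 p hp hpw).1)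
  have vm := gval hFc hg hm hwK (fun p hp hpw => (c5 p hp hpw).2.2.1)
  have vm' := gval hFc hg hm' hwK (fun p hp hpw => (c5 p hp hpw).2.2.2.1)
  have vz := gval hFc hg hz hwK (fun p hp hpw => (c5 p hp hpw).2.2.2.2)
  have pn := (hFc g hg w K n hn hwK).2
  have pa := (hFc g hg w K a ha hwK).2
  have pm := (hFc g hg w K _ hm hwK).2
  have pm' := (hFc g hg w K _ hm' hwK).2
  have pz := (hFc g hg w K _ hz hwK).2
  have bx : ‖1 - f (tX κ k a n)‖ ≤ ‖1 - gP g w K n‖ + ‖1 - gT g K n‖ +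
      (‖1 - gP g w K (k * a + κ * n)‖ + ‖1 - gT g K (k * a + κ * n)‖) := by
    rw [ex]
    refine (one_sub_mul (norm_le hg hn)).trans (add_le_add ?_ ?_)
    · rw [vn]
      exact one_sub_mul pn.1.le
    · rw [vm]
      exact one_sub_mul pm.1.le
  have bY : ‖1 - f (tY κ k a n)‖ ≤ ‖1 - gP g w K a‖ + ‖1 - gT g K a‖ +
      (‖1 - gP g w K (k * a + 2 * (κ * n))‖ + ‖1 - gT g K (k * a + 2 * (κ * n))‖) := by
    rw [ey]
    refine (one_sub_mul (norm_le hg ha)).trans (add_le_add ?_ ?_)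
    · rw [va]
      exact one_sub_mul pa.1.le
    · rw [vm']
      exact one_sub_mul pm'.1.le
  have bz : ‖1 - f (tZ κ k a n)‖ ≤ ‖1 - gP g w K (tZ κ k a n)‖ + ‖1 - gT g K (tZ κ k a n)‖ := by
    rw [ez, vz]
    exact one_sub_mul pz.1.le
  have tn := tri (u := gT g K n) (c := cL g K M)
  have ta := tri (u := gT g K a) (c := cL g K M)
  have tm := tri (u := gT g K (k * a + κ * n)) (c := cL g K M)
  have tm' := tri (u := gT g K (k * a + 2 * (κ * n))) (c := cL g K M)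
  have tz := tri (u := gT g K (tZ κ k a n)) (c := cQ g K M)
  have key : ‖1 - gP g w K n‖ + ‖1 - gP g w K (k * a + κ * n)‖ +
      ‖1 - gP g w K (k * a + 2 * (κ * n))‖ + ‖1 - gP g w K (tZ κ k a n)‖ ≤
      5 * ‖1 - gP g w K n‖ + 6 * iPq w n := by
    rcases iPq01 w n with h0 | h1
    · obtain ⟨s1, s2, s3⟩ := hSp g hg w K κ k hw hwK hP a n ha hn (iPq0 h0)
      rw [s1, s2, s3, h0, pow_two]
      have := one_sub_mul (u := gP g w K n) (v := gP g w K n) pn.1.le
      linarith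
    · rw [h1]
      have q1 := IKTp.two pm.1.le
      have q2 := IKTp.two pm'.1.le
      have q3 := IKTp.two pz.1.le
      have q4 := norm_nonneg (1 - gP g w K n)
      linarith
  rw [norm_sub_rev (gP g w K n) 1, norm_sub_rev (gP g w K a) 1]
  linarith

end Pool.Agent.F0f91f8.KR
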