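import Pool.Agent.Work.MP_0f91f8_co.K.StmtsD
import Pool.Agent.Work.MP_0f91f8_co.RC.T0

/-!
# Kronecker form, module D″: item KTr (helper83), `TrivK`
-/

set_option autoImplicit false

namespace Pool.Agent.F0f91f8.KR

open Filter Topology ComplexConjugate
open Pool.Agent.F0f91f8.HD Pool.Agent.F0f91f8.RC
open scoped BigOperators

namespace IKTr

theorem ev_inv (c δ : ℝ) (hδ : 0 < δ) : ∀ᶠ K : ℕ in atTop, c * ((K : ℝ))⁻¹ ≤ δ := by
  have hinv : Tendsto (fun K : ℕ => ((K : ℝ))⁻¹) atTop (𝓝 0) := tendsto_inv_atTop_nhds_zero_nat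
  have h1 : Tendsto (fun K : ℕ => c * ((K : ℝ))⁻¹) atTop (𝓝 (c * 0)) := hinv.const_mul c
  rw [mul_zero] at h1
  exact (h1.eventually (gt_mem_nhds hδ)).mono fun K h => h.le

theorem ev_of {F : ℕ → ℝ} (hF : Tendsto F atTop (𝓝 0)) (c δ : ℝ) (hδ : 0 < δ) :
    ∀ᶠ K : ℕ in atTop, c * F K ≤ δ := by
  have h1 : Tendsto (fun K : ℕ => c * F K) atTop (𝓝 (c * 0)) := hF.const_mul c
  rw [mul_zero] at h1
  exact (h1.eventually (gt_mem_nhds hδ)).mono fun K h => h.le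

theorem eT_le (g : ℕ → ℂ) (w K : ℕ) (s c C δ : ℝ) (hc : c ≤ C) (h1 : C * er g K ≤ δ)
    (h2 : (C * (1 + |s|)) * ((K : ℝ))⁻¹ ≤ δ) (h3 : C * ((w : ℝ))⁻¹ ≤ δ) :
    c * eT g s w K ≤ 3 * δ := by
  have her0 : 0 ≤ er g K := Real.sqrt_nonneg _
  have h4 : c * eT g s w K ≤ C * eT g s w K := by
    refine mul_le_mul_of_nonneg_right hc ?_
    unfold eT
    positivity
  refine h4.trans ?_
  have h5 : C * eT g s w K =
      C * er g K + C * ((w : ℝ))⁻¹ + (C * (1 + |s|)) * ((K : ℝ))⁻¹ := by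
    unfold eT; ring
  rw [h5]; linarith

end IKTr

open IKTr in
/-- Item KTr. -/
theorem pr_KTr (hBL : S_BL) (hDe : StDDe) (hTl : StDTl) (hFv : StRFv) (hRe : StKRe)
    (hTv : StKTv) : StKTr := by
  intro E hE f hf hp hfE ε hε
  obtain ⟨g, t, q, hd⟩ := hDe f hf hp
  obtain ⟨ht, hgN⟩ := dec_zero hBL hd hE (fun p hp => hfE p hp.pos)
  subst ht
  obtain ⟨C, hC, hTv⟩ := hTv
  have hg := hd.hg
  obtain ⟨-, -, htlt, hert, -, -, -⟩ := hTl g hg
  set B : ℝ := ((q.totient * E : ℕ) : ℝ) with hB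
  have hB0 : 0 ≤ B := Nat.cast_nonneg _
  have hN1 : 1 ≤ q.totient * E := Nat.mul_pos (Nat.totient_pos.mpr hd.hq) hE
  have hδ0 : 0 < ε / 5 := by positivity
  show ∀ᶠ w in atTop, _
  filter_upwards [ev_inv C _ hδ0, ev_of htlt (C * B) _ hδ0, eventually_ge_atTop q,
    eventually_ge_atTop 2] with w hw1 hw2 hqw hw3
  have hqd : q ∣ w.factorial := Nat.dvd_factorial hd.hq hqw
  have hnd : ∀ p : ℕ, w < p → ¬ p ∣ q := fun p hwp hpq => by
    have := Nat.le_of_dvd hd.hq hpq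
    omega
  have hgw : ∀ p : ℕ, p.Prime → w < p → g p ^ (E * Nat.totient w.factorial) = 1 := by
    intro p hp hwp
    obtain ⟨c, hc⟩ := Nat.totient_dvd_of_dvd hqd
    have h1 : E * Nat.totient w.factorial = (q.totient * E) * c := by rw [hc]; ring
    rw [h1, pow_mul, hgN p hp (hnd p hwp), one_pow]
  have hBw : ∀ p : ℕ, p.Prime → w < p → ‖1 - g p‖ ≤ B * ‖1 - g p‖ ^ 2 := fun p hp hwp =>
    hFv (g p) (q.totient * E) hN1 (hgN p hp (hnd p hwp))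
  filter_upwards [ev_of hert C _ hδ0, ev_inv (C * (1 + |(0 : ℝ)|)) _ hδ0,
    eventually_ge_atTop w] with K h1 h2 hwK
  obtain ⟨M0, hM0⟩ := hTv f g q hd E w K hE hw3 hwK hqd hfE hgw B hB0 hBw (ε / 5) hδ0
  filter_upwards [eventually_ge_atTop M0] with M hM
  refine hRe E w K M (fun x y z => ‖1 - f x‖ + ‖1 - f y‖ + ‖1 - f z‖) ε (by omega)
    fun e e' => (hM0 M hM e e').trans ?_
  have h3 := eT_le g w K 0 C C (ε / 5) le_rfl h1 h2 hw1
  have h4 : C * (eT g 0 w K + B * tl g w) = C * eT g 0 w K + C * B * tl g w := by ring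
  rw [h4]
  linarith

end Pool.Agent.F0f91f8.KR
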