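import Pool.Agent.Work.MP_0f91f8_co.K.StmtsD

/-!
# Kronecker form, module D, item KTv: the average of the pointwise bound
-/

set_option autoImplicit false

namespace Pool.Agent.F0f91f8.KR

open Filter Topology ComplexConjugate
open Pool.Agent.F0f91f8.HD Pool.Agent.F0f91f8.RC
open scoped BigOperators

namespace IKTv

lemma mono (Q D a₀ M : ℕ) (F G : ℕ → ℕ → ℝ)
    (h : ∀ b n, 0 < b → 0 < n → F (Q * b + a₀) n ≤ G (Q * b + a₀) n) :
    BR Q D a₀ M F ≤ BR Q D a₀ M G := by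
  unfold BR
  refine div_le_div_of_nonneg_right ?_ (by positivity)
  refine Finset.sum_le_sum fun u hu => Finset.sum_le_sum fun u' hu' =>
    Finset.sum_le_sum fun v hv => Finset.sum_le_sum fun v' hv' => ?_
  rw [Finset.mem_Icc] at hu hu' hv hv'
  exact h (v + v') (u + u') (by omega) (by omega)

/-- the average of a bound of the form of `StKTp` -/
lemma avg (hBx : StDBx) (Q D a₀ M : ℕ) (hD : 0 < D) (hM : 0 < M)
    (c x1 x2 x3 x4 x5 x6 x7 x8 : ℝ) (F1 F2 F3 F4 F5 F6 F7 F8 : ℕ → ℕ → ℝ)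
    (h1 : BR Q D a₀ M F1 ≤ x1) (h2 : BR Q D a₀ M F2 ≤ x2)
    (h3 : BR Q D a₀ M F3 ≤ x3) (h4 : BR Q D a₀ M F4 ≤ x4)
    (h5 : BR Q D a₀ M F5 ≤ x5) (h6 : BR Q D a₀ M F6 ≤ x6)
    (h7 : BR Q D a₀ M F7 ≤ x7) (h8 : BR Q D a₀ M F8 ≤ x8) :
    BR Q D a₀ M (fun a n => 5 * F1 a n + F2 a n + 6 * F3 a n + F4 a n + F5 a n + F6 a n +
      F7 a n + F8 a n + c) ≤ 5 * x1 + x2 + 6 * x3 + x4 + x5 + x6 + x7 + x8 + c := by
  obtain ⟨-, -, -, -, hadd, hmul, hone⟩ := hBx Q D a₀ M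
  have e0 : BR Q D a₀ M (fun _ _ => c) = c := by
    have := hmul c (fun _ _ => 1)
    rw [(hone hD hM).2, mul_one] at this
    simpa only [mul_one] using this
  have e1 : BR Q D a₀ M (fun a n => 5 * F1 a n + F2 a n + 6 * F3 a n + F4 a n + F5 a n + F6 a n +
      F7 a n + F8 a n + c) = 5 * BR Q D a₀ M F1 + BR Q D a₀ M F2 + 6 * BR Q D a₀ M F3 +
      BR Q D a₀ M F4 + BR Q D a₀ M F5 + BR Q D a₀ M F6 + BR Q D a₀ M F7 + BR Q D a₀ M F8 + c := by
    rw [hadd (fun a n => 5 * F1 a n + F2 a n + 6 * F3 a n + F4 a n + F5 a n + F6 a n +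
        F7 a n + F8 a n) (fun _ _ => c),
      hadd (fun a n => 5 * F1 a n + F2 a n + 6 * F3 a n + F4 a n + F5 a n + F6 a n +
        F7 a n) F8,
      hadd (fun a n => 5 * F1 a n + F2 a n + 6 * F3 a n + F4 a n + F5 a n + F6 a n) F7,
      hadd (fun a n => 5 * F1 a n + F2 a n + 6 * F3 a n + F4 a n + F5 a n) F6,
      hadd (fun a n => 5 * F1 a n + F2 a n + 6 * F3 a n + F4 a n) F5,
      hadd (fun a n => 5 * F1 a n + F2 a n + 6 * F3 a n) F4,
      hadd (fun a n => 5 * F1 a n + F2 a n) (fun a n => 6 * F3 a n),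
      hadd (fun a n => 5 * F1 a n) F2, hmul 5 F1, hmul 6 F3, e0]
  rw [e1]
  linarith

end IKTv

/-- Item KTv. -/
theorem pr_KTv (hBx : StDBx) (hK2 : StRK2) (hPr : StKPr) (hTl : StDTl) (hPq : StRPq)
    (hLm : StRLm) (hLa : StDLm) (hQd : StRQd) (hcT : StRcT) (hgP : StKgP) (hTp : StKTp) :
    StKTv := by
  obtain ⟨C1, hC1, hL⟩ := hLm
  obtain ⟨C2, hC2, hA⟩ := hLa
  obtain ⟨C3, hC3, hQ⟩ := hQd
  refine ⟨18 + 3 * C1 + C2 + C3, by positivity, ?_⟩
  intro f g q hDec E w K hE hw hK hq hfE hgN B hB hgB η hη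
  have hK1 : 1 ≤ K := by omega
  have hη4 : 0 < η / 17 := by positivity
  have hQ0 : 0 < w.factorial := Nat.factorial_pos w
  have hpw : ∀ p : ℕ, p.Prime → p ∣ w.factorial → p ≤ w := fun p hp hd => (hp.dvd_factorial).1 hd
  obtain ⟨M0, hM0⟩ := hPq w w.factorial (by omega) hQ0 hpw (η / 17) hη4
  have hall : ∀ (e : Fin (w + 1) → Fin K) (e' : Fin (K + 1) → Fin K), ∃ M1 : ℕ, ∀ M ≥ M1,
      ((BR w.factorial (DR E w K) 1 M fun _ s => ‖gP g w K (w.factorial * s + 1) - 1‖) ≤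
        2 * (B * tl g w) + η / 17) ∧
      ((BR w.factorial (DR E w K) 1 M fun a _ => ‖gP g w K a - 1‖) ≤
        2 * (B * tl g w) + η / 17) ∧
      ((BR w.factorial (DR E w K) 1 M fun _ s => ‖gT g K (w.factorial * s + 1) - cL g K M‖) ≤
        C1 * er g K + η / 17) ∧
      ((BR w.factorial (DR E w K) 1 M fun a _ => ‖gT g K a - cL g K M‖) ≤
        C2 * er g K + η / 17) ∧
      ((BR w.factorial (DR E w K) 1 M fun a s =>
        ‖gT g K (kK E w K e' * a + kR E w K e * (w.factorial * s + 1)) - cL g K M‖) ≤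
        C1 * er g K + η / 17) ∧
      ((BR w.factorial (DR E w K) 1 M fun a s =>
        ‖gT g K (kK E w K e' * a + 2 * (kR E w K e * (w.factorial * s + 1))) - cL g K M‖) ≤
        C1 * er g K + η / 17) ∧
      ((BR w.factorial (DR E w K) 1 M fun a s =>
        ‖gT g K (tZ (kR E w K e) (kK E w K e') a (w.factorial * s + 1)) - cQ g K M‖) ≤
        C3 * er g K + η / 17) := by
    intro e e'
    obtain ⟨-, -, -, hκ0, -, hDp, -⟩ := hK2 E w K e hE hw hK1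
    obtain ⟨hPar, -, -, -, hpr, hpr', -, -⟩ := hPr E w K e e' hE hw hK
    obtain ⟨M1, hM1⟩ := hL g hDec.hg K (kR E w K e) (kK E w K e') w.factorial (DR E w K)
      (by omega) hκ0 hPar.k0 hQ0 hDp hpr' (η / 17) hη4
    obtain ⟨M2, hM2⟩ := hA g hDec.hg K (kR E w K e) (kK E w K e') w.factorial (DR E w K)
      (by omega) hκ0 hPar.k0 hQ0 hDp hpr' (η / 17) hη4
    obtain ⟨M3, hM3⟩ := hQ g hDec.hg K (kR E w K e) (kK E w K e') w.factorial (DR E w K)
      (by omega) hκ0 hPar.k0 hQ0 hDp hpr (η / 17) hη4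
    obtain ⟨M4, hM4⟩ := hgP g hDec.hg B w K w.factorial (DR E w K) hB (by omega) hQ0 hDp hpw
      hgB (η / 17) hη4
    refine ⟨M1 + M2 + M3 + M4, fun M hM => ?_⟩
    obtain ⟨a1, a2, a3⟩ := hM1 M (by omega) 1 hQ0
    obtain ⟨b1, -, -⟩ := hM2 M (by omega) 1 hQ0
    have c1 := hM3 M (by omega) 1 hQ0
    obtain ⟨d1, d2⟩ := hM4 M (by omega) 1 hQ0
    exact ⟨d2, d1, a1, b1, a2, a3, c1⟩
  choose M1 hM1 using hall
  refine ⟨M0 + 1 + ∑ e, ∑ e', M1 e e', fun M hM e e' => ?_⟩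
  have s1 : M1 e e' ≤ ∑ e, ∑ e', M1 e e' :=
    (Finset.single_le_sum (f := fun e' => M1 e e') (fun _ _ => Nat.zero_le _)
      (Finset.mem_univ e')).trans
      (Finset.single_le_sum (f := fun e => ∑ e', M1 e e') (fun _ _ => Nat.zero_le _)
        (Finset.mem_univ e))
  obtain ⟨hκE, -, -, hκ0, -, hDp, hfκ⟩ := hK2 E w K e hE hw hK1
  obtain ⟨hPar, -, -, -, -, -, hcon, hgk⟩ := hPr E w K e e' hE hw hK
  have hf2 : f (2 * kR E w K e) = 1 := by
    have hkp : 0 < kp w K e := by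
      rcases Nat.eq_zero_or_pos (kp w K e) with h | h
      · rw [h, mul_zero, mul_zero, zero_pow (by omega)] at hκE
        omega
      · exact h
    rw [hfκ f hDec.hf, hfE _ (by positivity), hfE _ hkp, one_mul]
  have hg1 : g (kK E w K e') = 1 := (hgk g hDec.hg.cm).2 hgN
  obtain ⟨r1, r2, r3, r4, r5, r6, r7⟩ := hM1 e e' M (by omega)
  have r0 := hM0 M (by omega) (DR E w K) 1 hDp
  obtain ⟨t0, tm, -⟩ := hTl g hDec.hg
  obtain ⟨z1, z2⟩ := hcT g hDec.hg B K hB (fun p hp hp' => hgB p hp (by omega)) M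
  have htl : B * tl g K ≤ B * tl g w := mul_le_mul_of_nonneg_left (tm w K hK) hB
  have hMp : 0 < M := by omega
  have havg := IKTv.avg hBx w.factorial (DR E w K) 1 M hDp hMp (6 * (B * tl g w)) _ _ _ _ _ _ _ _
    _ _ _ _ _ _ _ _ r1 r2 r0 r3 r4 r5 r6 r7
  refine (le_trans ?_ havg).trans ?_
  · unfold BRK
    refine IKTv.mono _ _ _ _ _ _ fun b s hb hs => ?_
    have h1 := hTp f g q hDec w K (kR E w K e) (kK E w K e') hw hK hq hPar hf2 hg1 M
      (w.factorial * b + 1) (w.factorial * s + 1) (hcon b) (Nat.mul_add_mod _ _ _)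
      (Nat.succ_pos _) (Nat.succ_pos _)
    refine h1.trans ?_
    linarith
  have hKr : (0 : ℝ) < K := by exact_mod_cast (by omega : 0 < K)
  have hwr : (0 : ℝ) < w := by exact_mod_cast (by omega : 0 < w)
  have her : 0 ≤ er g K := Real.sqrt_nonneg _
  have hBt : 0 ≤ B * tl g w := mul_nonneg hB (t0 w)
  have b2 : 0 ≤ (1 + |(0 : ℝ)|) / (K : ℝ) := by positivity
  have b3 : 0 ≤ 1 / (w : ℝ) := by positivity
  unfold eT
  generalize er g K = x at *
  generalize B * tl g w = y at *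
  generalize 1 / (w : ℝ) = u at *
  generalize (1 + |(0 : ℝ)|) / (K : ℝ) = v at *
  have k1 : 0 ≤ (18 + 3 * C1 + C2 + C3) * v := by positivity
  have k2 : 0 ≤ (12 + 3 * C1 + C2 + C3) * u := by positivity
  have k3 : 0 ≤ (3 * C1 + C2 + C3) * y := by positivity
  have k4 : 0 ≤ 18 * x := by positivity
  linarith

end Pool.Agent.F0f91f8.KR
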