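import Pool.Agent.Work.MP_0f91f8_co.K.StmtsD
import Pool.Agent.Work.MP_0f91f8_co.RC.I_RPq

/-!
# [0f91f8 K-D Kg1]: the part of `g` in `(w, K]` is close to `1` on linear forms
-/

set_option autoImplicit false

namespace Pool.Agent.F0f91f8.KR

open Filter Topology ComplexConjugate
open Pool.Agent.F0f91f8.HD Pool.Agent.F0f91f8.RC
open scoped BigOperators

namespace IKg1

lemma pow_sub_one_le (z : ℂ) (hz : ‖z‖ ≤ 1) (v : ℕ) : ‖z ^ v - 1‖ ≤ v * ‖1 - z‖ := by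
  induction v with
  | zero => simp
  | succ v ih =>
    have h1 : z ^ (v + 1) - 1 = z * (z ^ v - 1) + (z - 1) := by ring
    rw [h1]
    calc ‖z * (z ^ v - 1) + (z - 1)‖ ≤ ‖z * (z ^ v - 1)‖ + ‖z - 1‖ := norm_add_le _ _
      _ ≤ 1 * (v * ‖1 - z‖) + ‖1 - z‖ := by
        rw [norm_mul, norm_sub_rev z 1]
        have := mul_le_mul hz ih (norm_nonneg _) zero_le_one
        linarith
      _ = ((v + 1 : ℕ) : ℝ) * ‖1 - z‖ := by push_cast; ring

/-- the primes in `(w, K]` -/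
def PP (w K : ℕ) : Finset ℕ := (Finset.Ioc w K).filter Nat.Prime

lemma cm_le {g : ℕ → ℂ} (hg : CM g) (p : ℕ) : ‖g p‖ ≤ 1 := by
  rcases Nat.eq_zero_or_pos p with h | h
  · rw [h, hg.1]; simp
  · exact (hg.2.2 p h).le

lemma gP_sub (hEx : StDEx) (g : ℕ → ℂ) (hg : CM g) (w K n : ℕ) :
    ‖gP g w K n - 1‖ ≤ ∑ p ∈ PP w K, (n.factorization p : ℝ) * ‖1 - g p‖ := by
  unfold gP
  have h1 := hEx.2.2 (n.primeFactors.filter (fun p => w < p ∧ p ≤ K))
    (fun p => g p ^ n.factorization p) (fun _ => 1)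
    (fun p _ => by rw [norm_pow]; exact pow_le_one₀ (norm_nonneg _) (cm_le hg p))
    (fun p _ => by simp)
  rw [Finset.prod_const_one] at h1
  refine h1.trans ?_
  refine (Finset.sum_le_sum fun p _ => pow_sub_one_le (g p) (cm_le hg p) _).trans ?_
  refine Finset.sum_le_sum_of_subset_of_nonneg ?_ fun p _ _ => by positivity
  intro p hp
  rw [Finset.mem_filter] at hp
  unfold PP
  rw [Finset.mem_filter, Finset.mem_Ioc]
  exact ⟨hp.2, Nat.prime_of_mem_primeFactors hp.1⟩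

lemma fac_le (p n J : ℕ) (hp : p.Prime) (hn : 0 < n) (hJ : n ≤ 2 ^ J) :
    (n.factorization p : ℝ) ≤ ∑ j ∈ Finset.Icc 1 J, if p ^ j ∣ n then (1 : ℝ) else 0 := by
  have h1 : p ^ n.factorization p ≤ n := Nat.ordProj_le p hn.ne'
  have h2 : 2 ^ n.factorization p ≤ 2 ^ J :=
    (Nat.pow_le_pow_left hp.two_le _).trans (h1.trans hJ)
  have h3 : n.factorization p ≤ J := (Nat.pow_le_pow_iff_right (by norm_num)).1 h2
  rw [← Finset.sum_filter, Finset.sum_const, nsmul_eq_mul, mul_one]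
  have h4 : (Finset.Icc 1 (n.factorization p)) ⊆ (Finset.Icc 1 J).filter (fun j => p ^ j ∣ n) := by
    intro j hj
    rw [Finset.mem_Icc] at hj
    rw [Finset.mem_filter, Finset.mem_Icc]
    exact ⟨⟨hj.1, hj.2.trans h3⟩, (hp.pow_dvd_iff_le_factorization hn.ne').2 hj.2⟩
  have h5 := Finset.card_le_card h4
  rw [Nat.card_Icc] at h5
  have h6 : n.factorization p ≤ ((Finset.Icc 1 J).filter (fun j => p ^ j ∣ n)).card := by omega
  exact_mod_cast h6

lemma cnt2 (m α β M : ℕ) (hm : 0 < m) (hQ : Nat.Coprime m α) :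
    (((Finset.Icc 1 M).filter (fun u => m ∣ α * u + β)).card : ℝ) ≤ (M : ℝ) / m + 1 := by
  classical
  rcases Finset.eq_empty_or_nonempty
    ((Finset.Icc 1 M).filter (fun u => m ∣ α * u + β)) with h | ⟨u₀, hu₀⟩
  · rw [h, Finset.card_empty, Nat.cast_zero]
    positivity
  · have hd0 := (Finset.mem_filter.1 hu₀).2
    have hsub : (Finset.Icc 1 M).filter (fun u => m ∣ α * u + β) ⊆
        (Finset.Icc 1 M).filter (fun u => m ∣ u + (m - 1) * u₀) := by
      intro u hu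
      rw [Finset.mem_filter] at hu ⊢
      refine ⟨hu.1, ?_⟩
      have h1 : (m : ℤ) ∣ (α : ℤ) * ((u : ℤ) - u₀) := by
        have ha : (m : ℤ) ∣ ((α * u + β : ℕ) : ℤ) := Int.natCast_dvd_natCast.2 hu.2
        have hb : (m : ℤ) ∣ ((α * u₀ + β : ℕ) : ℤ) := Int.natCast_dvd_natCast.2 hd0
        have hc := dvd_sub ha hb
        have he : ((α * u + β : ℕ) : ℤ) - ((α * u₀ + β : ℕ) : ℤ) =
            (α : ℤ) * ((u : ℤ) - u₀) := by push_cast; ring
        rwa [he] at hc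
      have h2 : (m : ℤ) ∣ (u : ℤ) - u₀ :=
        (Nat.isCoprime_iff_coprime.2 hQ).dvd_of_dvd_mul_left h1
      have h3 : (m : ℤ) ∣ ((u + (m - 1) * u₀ : ℕ) : ℤ) := by
        have he : ((u + (m - 1) * u₀ : ℕ) : ℤ) = ((u : ℤ) - u₀) + (m : ℤ) * u₀ := by
          push_cast [Nat.cast_sub (show 1 ≤ m from hm)]
          ring
        rw [he]
        exact dvd_add h2 (dvd_mul_right _ _)
      exact Int.natCast_dvd_natCast.1 h3
    have h4 : (((Finset.Icc 1 M).filter (fun u => m ∣ α * u + β)).card : ℝ) ≤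
        (((Finset.Icc 1 M).filter (fun u => m ∣ u + (m - 1) * u₀)).card : ℝ) := by
      exact_mod_cast Finset.card_le_card hsub
    exact h4.trans (IRPq.cnt m _ M hm)

lemma geo (x : ℝ) (h0 : 0 ≤ x) (h1 : 2 * x ≤ 1) (J : ℕ) :
    ∑ j ∈ Finset.Icc 1 J, x ^ j ≤ 2 * x - 2 * x ^ (J + 1) := by
  induction J with
  | zero => simp
  | succ J ih =>
    rw [Finset.sum_Icc_succ_top (by omega)]
    have h2 : 2 * x ^ (J + 1 + 1) ≤ x ^ (J + 1) := by
      have h3 : 0 ≤ x ^ (J + 1) := pow_nonneg h0 _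
      calc 2 * x ^ (J + 1 + 1) = (2 * x) * x ^ (J + 1) := by ring
        _ ≤ 1 * x ^ (J + 1) := mul_le_mul_of_nonneg_right h1 h3
        _ = x ^ (J + 1) := one_mul _
    linarith

lemma geo' (p : ℕ) (hp : 2 ≤ p) (J : ℕ) : ∑ j ∈ Finset.Icc 1 J, (1 / (p : ℝ)) ^ j ≤ 2 / (p : ℝ) := by
  have hp' : (2 : ℝ) ≤ p := by exact_mod_cast hp
  have h0 : (0 : ℝ) ≤ 1 / (p : ℝ) := by positivity
  have h1 : 2 * (1 / (p : ℝ)) ≤ 1 := by
    rw [mul_one_div, div_le_one (by linarith)]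
    exact hp'
  have h2 := geo (1 / (p : ℝ)) h0 h1 J
  have h3 : (0 : ℝ) ≤ (1 / (p : ℝ)) ^ (J + 1) := pow_nonneg h0 _
  have h4 : 2 / (p : ℝ) = 2 * (1 / (p : ℝ)) := by ring
  rw [h4]
  linarith

/-- the sum of the valuations -/
lemma sum_val (p α β M J : ℕ) (hp : p.Prime) (hα : 0 < α) (hc : ¬ p ∣ α)
    (hJ : α * M + β ≤ 2 ^ J) :
    ∑ u ∈ Finset.Icc 1 M, ((α * u + β).factorization p : ℝ) ≤ M * (2 / (p : ℝ)) + J := by
  have h1 : ∑ u ∈ Finset.Icc 1 M, ((α * u + β).factorization p : ℝ) ≤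
      ∑ u ∈ Finset.Icc 1 M, ∑ j ∈ Finset.Icc 1 J, if p ^ j ∣ α * u + β then (1 : ℝ) else 0 := by
    refine Finset.sum_le_sum fun u hu => ?_
    rw [Finset.mem_Icc] at hu
    refine fac_le p _ J hp ?_ ?_
    · have : 0 < α * u := Nat.mul_pos hα (by omega)
      omega
    · have : α * u ≤ α * M := Nat.mul_le_mul_left _ hu.2
      omega
  rw [Finset.sum_comm] at h1
  have h2 : ∀ j ∈ Finset.Icc 1 J, ∑ u ∈ Finset.Icc 1 M, (if p ^ j ∣ α * u + β then (1 : ℝ) else 0) ≤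
      M * (1 / (p : ℝ)) ^ j + 1 := by
    intro j _
    rw [← Finset.sum_filter, Finset.sum_const, nsmul_eq_mul, mul_one]
    have h3 := cnt2 (p ^ j) α β M (pow_pos hp.pos _)
      (Nat.Coprime.pow_left j ((Nat.Prime.coprime_iff_not_dvd hp).2 hc))
    refine h3.trans (le_of_eq ?_)
    push_cast
    rw [one_div, inv_pow, div_eq_mul_inv]
  refine h1.trans ((Finset.sum_le_sum h2).trans ?_)
  rw [Finset.sum_add_distrib, ← Finset.mul_sum, Finset.sum_const, Nat.card_Icc, nsmul_eq_mul, mul_one]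
  have h4 : (M : ℝ) * ∑ j ∈ Finset.Icc 1 J, (1 / (p : ℝ)) ^ j ≤ M * (2 / (p : ℝ)) :=
    mul_le_mul_of_nonneg_left (geo' p hp.two_le J) (Nat.cast_nonneg _)
  have h5 : ((J + 1 - 1 : ℕ) : ℝ) = J := by
    rw [Nat.add_sub_cancel]
  rw [h5]
  linarith

lemma main_bd (hEx : StDEx) (hTl : StDTl) (g : ℕ → ℂ) (hg : G1 g) (B : ℝ) (w K α β M J : ℕ)
    (hB : 0 ≤ B) (hα : 0 < α) (hd : ∀ p : ℕ, p.Prime → p ∣ α → p ≤ w)
    (h2 : ∀ p : ℕ, p.Prime → w < p → ‖1 - g p‖ ≤ B * ‖1 - g p‖ ^ 2)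
    (hJ : α * M + β ≤ 2 ^ J) :
    ∑ u ∈ Finset.Icc 1 M, ‖gP g w K (α * u + β) - 1‖ ≤ M * (2 * (B * tl g w)) + 2 * K * J := by
  have hp : ∀ p ∈ PP w K, p.Prime ∧ w < p := by
    intro p hp
    unfold PP at hp
    rw [Finset.mem_filter, Finset.mem_Ioc] at hp
    exact ⟨hp.2, hp.1.1⟩
  calc ∑ u ∈ Finset.Icc 1 M, ‖gP g w K (α * u + β) - 1‖
      ≤ ∑ u ∈ Finset.Icc 1 M, ∑ p ∈ PP w K, ((α * u + β).factorization p : ℝ) * ‖1 - g p‖ :=
        Finset.sum_le_sum fun u _ => gP_sub hEx g hg.cm w K _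
    _ = ∑ p ∈ PP w K, (∑ u ∈ Finset.Icc 1 M, ((α * u + β).factorization p : ℝ)) * ‖1 - g p‖ := by
        rw [Finset.sum_comm]
        refine Finset.sum_congr rfl fun p _ => ?_
        rw [Finset.sum_mul]
    _ ≤ ∑ p ∈ PP w K, (M * (2 * (B * (‖1 - g p‖ ^ 2 / (p : ℝ)))) + 2 * (J : ℝ)) := by
        refine Finset.sum_le_sum fun p hpp => ?_
        obtain ⟨hpr, hw⟩ := hp p hpp
        have h3 := sum_val p α β M J hpr hα (fun h => by have := hd p hpr h; omega) hJ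
        have h4 := h2 p hpr hw
        have h5 : ‖1 - g p‖ ≤ 2 := by
          calc ‖1 - g p‖ ≤ ‖(1 : ℂ)‖ + ‖g p‖ := norm_sub_le _ _
            _ ≤ 1 + 1 := by rw [norm_one]; linarith [cm_le hg.cm p]
            _ = 2 := by norm_num
        have hp0 : (0 : ℝ) < p := by exact_mod_cast hpr.pos
        calc (∑ u ∈ Finset.Icc 1 M, ((α * u + β).factorization p : ℝ)) * ‖1 - g p‖
            ≤ (M * (2 / (p : ℝ)) + J) * ‖1 - g p‖ :=
              mul_le_mul_of_nonneg_right h3 (norm_nonneg _)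
          _ = M * (2 / (p : ℝ)) * ‖1 - g p‖ + J * ‖1 - g p‖ := by ring
          _ ≤ M * (2 / (p : ℝ)) * (B * ‖1 - g p‖ ^ 2) + J * 2 :=
              add_le_add (mul_le_mul_of_nonneg_left h4 (by positivity))
                (mul_le_mul_of_nonneg_left h5 (Nat.cast_nonneg _))
          _ = M * (2 * (B * (‖1 - g p‖ ^ 2 / (p : ℝ)))) + 2 * (J : ℝ) := by ring
    _ = M * (2 * (B * ∑ p ∈ PP w K, ‖1 - g p‖ ^ 2 / (p : ℝ))) + (PP w K).card * (2 * (J : ℝ)) := by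
        rw [Finset.sum_add_distrib, Finset.sum_const, nsmul_eq_mul, ← Finset.mul_sum,
          ← Finset.mul_sum, ← Finset.mul_sum]
    _ ≤ M * (2 * (B * tl g w)) + K * (2 * (J : ℝ)) := by
        have h6 := (hTl g hg).2.2.2.2.1 w (PP w K) hp
        have h7 : ((PP w K).card : ℝ) ≤ K := by
          have h8 : (PP w K).card ≤ K := by
            unfold PP
            refine (Finset.card_filter_le _ _).trans ?_
            rw [Nat.card_Ioc]
            omega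
          exact_mod_cast h8
        have h9 : (M : ℝ) * (2 * (B * ∑ p ∈ PP w K, ‖1 - g p‖ ^ 2 / (p : ℝ))) ≤
            M * (2 * (B * tl g w)) :=
          mul_le_mul_of_nonneg_left (mul_le_mul_of_nonneg_left
            (mul_le_mul_of_nonneg_left h6 hB) zero_le_two) (Nat.cast_nonneg _)
        have h10 : ((PP w K).card : ℝ) * (2 * (J : ℝ)) ≤ K * (2 * (J : ℝ)) :=
          mul_le_mul_of_nonneg_right h7 (by positivity)
        linarith
    _ = M * (2 * (B * tl g w)) + 2 * K * J := by ring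

lemma lim (c : ℝ) (C : ℕ) : Tendsto (fun M : ℕ => c * ((C + Nat.log 2 M + 1 : ℕ) : ℝ) / (M : ℝ))
    atTop (𝓝 0) := by
  have h1 : Tendsto (fun M : ℕ => Real.log (M : ℝ) / (M : ℝ)) atTop (𝓝 0) := by
    have h2 := (Real.tendsto_pow_log_div_mul_add_atTop 1 0 1 one_ne_zero).comp
      (tendsto_natCast_atTop_atTop (R := ℝ))
    refine h2.congr fun M => ?_
    simp
  have h3 : Tendsto (fun M : ℕ => 1 / (M : ℝ)) atTop (𝓝 0) := tendsto_one_div_atTop_nhds_zero_nat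
  have h4 : Tendsto (fun M : ℕ => |c| * ((C + 1 : ℝ) * (1 / (M : ℝ)) +
      (1 / Real.log 2) * (Real.log (M : ℝ) / (M : ℝ)))) atTop (𝓝 0) := by
    have h5 := ((h3.const_mul (C + 1 : ℝ)).add (h1.const_mul (1 / Real.log 2))).const_mul |c|
    simpa using h5
  refine squeeze_zero_norm (fun M => ?_) h4
  have hl : ((Nat.log 2 M : ℕ) : ℝ) ≤ Real.log M / Real.log 2 := by
    have := Real.natLog_le_logb M 2
    rw [Real.logb] at this
    exact_mod_cast this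
  rw [Real.norm_eq_abs, abs_div, abs_mul, Nat.abs_cast, Nat.abs_cast]
  have h6 : ((C + Nat.log 2 M + 1 : ℕ) : ℝ) ≤ (C + 1 : ℝ) + Real.log M / Real.log 2 := by
    push_cast
    linarith
  calc |c| * ((C + Nat.log 2 M + 1 : ℕ) : ℝ) / (M : ℝ)
      ≤ |c| * ((C + 1 : ℝ) + Real.log M / Real.log 2) / (M : ℝ) :=
        div_le_div_of_nonneg_right (mul_le_mul_of_nonneg_left h6 (abs_nonneg _)) (Nat.cast_nonneg _)
    _ = |c| * ((C + 1 : ℝ) * (1 / (M : ℝ)) +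
      (1 / Real.log 2) * (Real.log (M : ℝ) / (M : ℝ))) := by ring

end IKg1

open IKg1 in
/-- **Kg1** -/
theorem pr_Kg1 (hEx : StDEx) (hTl : StDTl) : StKg1 := by
  intro g hg B w K α C0 hB hw hα hd h2 η hη
  obtain ⟨M0, hM0⟩ := eventually_atTop.1
    (((lim (2 * K) (α + C0)).eventually (gt_mem_nhds hη)).and (eventually_ge_atTop 1))
  refine ⟨M0, fun M hM β hβ => ?_⟩
  obtain ⟨h3, h4⟩ := hM0 M hM
  have hMpos : (0 : ℝ) < M := by exact_mod_cast h4
  set J := α + C0 + Nat.log 2 M + 1 with hJdef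
  have hJ : α * M + β ≤ 2 ^ J := by
    have h5 : M < 2 ^ (Nat.log 2 M + 1) := Nat.lt_pow_succ_log_self (by norm_num) M
    have h6 : α + C0 < 2 ^ (α + C0) := Nat.lt_two_pow_self
    calc α * M + β ≤ α * M + C0 * M := by omega
      _ = (α + C0) * M := by ring
      _ ≤ 2 ^ (α + C0) * 2 ^ (Nat.log 2 M + 1) := Nat.mul_le_mul h6.le h5.le
      _ = 2 ^ J := by rw [← pow_add, hJdef]; rfl
  have h7 := main_bd hEx hTl g hg B w K α β M J hB hα hd h2 hJ
  rw [div_le_iff₀ hMpos]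
  have h8 : 2 * (K : ℝ) * (J : ℝ) / (M : ℝ) < η := h3
  rw [div_lt_iff₀ hMpos] at h8
  calc ∑ u ∈ Finset.Icc 1 M, ‖gP g w K (α * u + β) - 1‖
      ≤ M * (2 * (B * tl g w)) + 2 * K * J := h7
    _ ≤ M * (2 * (B * tl g w)) + η * M := by linarith
    _ = (2 * (B * tl g w) + η) * M := by ring

end Pool.Agent.F0f91f8.KR
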