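import Pool.Agent.Work.MP_0f91f8_co.K.StmtsD
import Pool.Agent.Work.MP_0f91f8_co.RC.I_RLm

set_option autoImplicit false

namespace Pool.Agent.F0f91f8.KR

open Filter Topology ComplexConjugate
open Pool.Agent.F0f91f8.HD Pool.Agent.F0f91f8.RC
open scoped BigOperators

namespace IKgP

/-- one linear form in the variable `v` -/
theorem part (Q D a₀ M : ℕ) (hM : 1 ≤ M) (hD : 0 < D) (F : ℕ → ℝ) (X : ℝ)
    (h : ∀ v' ∈ Finset.Icc 1 (D * M),
      ∑ v ∈ Finset.Icc 1 (D * M), F (Q * (v + v') + a₀) ≤ X * ((D * M : ℕ) : ℝ)) :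
    (BR Q D a₀ M fun a _ => F a) ≤ X := by
  have hMr : (0 : ℝ) < M := by exact_mod_cast hM
  have hDMr : (0 : ℝ) < ((D * M : ℕ) : ℝ) := by
    exact_mod_cast Nat.mul_pos hD hM
  have hden : (0 : ℝ) < (M : ℝ) ^ 2 * ((D * M : ℕ) : ℝ) ^ 2 := by positivity
  unfold BR
  rw [div_le_iff₀ hden]
  have h9 := IDLm.mv2 (Finset.Icc 1 M) (Finset.Icc 1 M) (Finset.Icc 1 (D * M))
    (Finset.Icc 1 (D * M)) (fun v v' => F (Q * (v + v') + a₀)) _ h
  simp only [Nat.card_Icc, Nat.add_sub_cancel] at h9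
  refine h9.trans (le_of_eq ?_)
  ring

end IKgP

theorem pr_KgP (hg1 : StKg1) : StKgP := by
  intro g hg B w K Q D hB hw hQ hD hpQ hp η hη
  obtain ⟨M1, hM1⟩ := hg1 g hg B w K Q (2 * Q) hB hw hQ hpQ hp η hη
  obtain ⟨M2, hM2⟩ := hg1 g hg B w K Q (Q + 1) hB hw hQ hpQ hp η hη
  refine ⟨M1 + M2 + 1, fun M hM a₀ ha₀ => ?_⟩
  have hMp : 1 ≤ M := by omega
  have hMr : (0 : ℝ) < M := by exact_mod_cast hMp
  have hDM : M ≤ D * M := Nat.le_mul_of_pos_left M hD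
  have hDMp : 1 ≤ D * M := hMp.trans hDM
  have hDMr : (0 : ℝ) < ((D * M : ℕ) : ℝ) := by exact_mod_cast hDMp
  refine ⟨?_, ?_⟩
  · refine IKgP.part Q D a₀ M hMp hD (fun a => ‖gP g w K a - 1‖) _ fun v' hv' => ?_
    rw [Finset.mem_Icc] at hv'
    have h5 := hM1 (D * M) (by omega) (Q * v' + a₀) (by
      calc Q * v' + a₀ ≤ Q * (D * M) + Q * (D * M) := by
            apply Nat.add_le_add (Nat.mul_le_mul_left Q hv'.2)
            exact ha₀.trans (Nat.le_mul_of_pos_right Q hDMp)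
        _ = 2 * Q * (D * M) := by ring)
    rw [div_le_iff₀ hDMr] at h5
    refine le_trans (le_of_eq ?_) h5
    refine Finset.sum_congr rfl fun v _ => ?_
    have e : Q * (v + v') + a₀ = Q * v + (Q * v' + a₀) := by ring
    rw [e]
  · refine IRLm.part Q D a₀ M hMp hD (fun _ s => ‖gP g w K (Q * s + 1) - 1‖) _
      fun u' hu' v _ v' _ => ?_
    rw [Finset.mem_Icc] at hu'
    have h5 := hM2 M (by omega) (Q * u' + 1) (by
      calc Q * u' + 1 ≤ Q * M + M := Nat.add_le_add (Nat.mul_le_mul_left Q hu'.2) hMp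
        _ = (Q + 1) * M := by ring)
    rw [div_le_iff₀ hMr] at h5
    refine le_trans (le_of_eq ?_) h5
    refine Finset.sum_congr rfl fun u _ => ?_
    have e : Q * (u + u') + 1 = Q * u + (Q * u' + 1) := by ring
    rw [e]

end Pool.Agent.F0f91f8.KR
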