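import Pool.Agent.Work.MP_0f91f8_co.RC.AllD
import Pool.Agent.Work.MP_0f91f8_co.K.I_KAv
import Pool.Agent.Work.MP_0f91f8_co.K.I_KFi
import Pool.Agent.Work.MP_0f91f8_co.K.I_KKe
import Pool.Agent.Work.MP_0f91f8_co.K.I_KMo
import Pool.Agent.Work.MP_0f91f8_co.K.I_KPr
import Pool.Agent.Work.MP_0f91f8_co.K.I_KRe
import Pool.Agent.Work.MP_0f91f8_co.K.I_KTp
import Pool.Agent.Work.MP_0f91f8_co.K.I_KTr
import Pool.Agent.Work.MP_0f91f8_co.K.I_KTv
import Pool.Agent.Work.MP_0f91f8_co.K.I_KV1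
import Pool.Agent.Work.MP_0f91f8_co.K.I_KXm
import Pool.Agent.Work.MP_0f91f8_co.K.I_KYm
import Pool.Agent.Work.MP_0f91f8_co.K.I_KZm
import Pool.Agent.Work.MP_0f91f8_co.K.I_Kg1
import Pool.Agent.Work.MP_0f91f8_co.K.I_KgP

/-!
# Kronecker form of the collision theorem, module D″: composition
-/

set_option autoImplicit false

namespace Pool.Agent.F0f91f8.KR

open Pool.Agent.F0f91f8.HD Pool.Agent.F0f91f8.RC

open Pool.Agent.F0f91f8.HD.DFi ComplexConjugate in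
/-- the main terms have modulus at most one -/
theorem all_KUb_aux (hTl : StDTl) : StKUb := by
  intro f g t hf hg E w K e' M
  obtain ⟨-, -, -, -, -, hcLQ, -⟩ := hTl g hg
  have hfE : ‖f (2 * w.factorial) ^ E‖ ≤ 1 := by
    rw [norm_pow]
    exact pow_le_one₀ (norm_nonneg _) (cm_le hf _)
  refine ⟨?_, ?_, ?_⟩
  · unfold UXK BFK BxR
    rw [norm_mul, norm_mul, norm_mul]
    have a2 : ‖conj (g (kK E w K e'))‖ ≤ 1 := by
      rw [Complex.norm_conj]; exact cm_le hg.cm _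
    have a3 : ‖cL g K M * conj (cL g K M)‖ ≤ 1 := by
      rw [norm_mul, Complex.norm_conj]
      exact mul_le_one₀ (hcLQ K M).1 (norm_nonneg _) (hcLQ K M).1
    refine mul_le_one₀ (mul_le_one₀ (mul_le_one₀ hfE (norm_nonneg _) a2) (norm_nonneg _) a3)
      (norm_nonneg _) ?_
    refine bx_le _ _ _ _ _ fun a n => ?_
    rw [norm_mul, norm_mul, Complex.norm_conj, Complex.norm_conj]
    exact mul_le_one₀ (mul_le_one₀ (cm_le hf _) (norm_nonneg _) (pow_le _ t)) (norm_nonneg _)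
      (cm_le hg.cm a)
  · unfold UZK BFK BxR
    rw [norm_mul, norm_mul]
    have a1 : ‖conj (f (2 * w.factorial)) ^ E‖ ≤ 1 := by
      rw [norm_pow, Complex.norm_conj]
      exact pow_le_one₀ (norm_nonneg _) (cm_le hf _)
    have a3 : ‖cQ g K M * conj (cL g K M)‖ ≤ 1 := by
      rw [norm_mul, Complex.norm_conj]
      exact mul_le_one₀ (hcLQ K M).2 (norm_nonneg _) (hcLQ K M).1
    refine mul_le_one₀ (mul_le_one₀ a1 (norm_nonneg _) a3) (norm_nonneg _) ?_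
    refine bx_le _ _ _ _ _ fun a n => ?_
    rw [norm_mul, norm_mul, Complex.norm_conj]
    exact mul_le_one₀ (mul_le_one₀ (cm_le hf _) (norm_nonneg _) (pow_le _ t)) (norm_nonneg _)
      (gP_le hg.cm _ _ _)
  · unfold VYK BFK BxR
    rw [norm_mul]
    have a3 : ‖cL g K M * conj (cQ g K M)‖ ≤ 1 := by
      rw [norm_mul, Complex.norm_conj]
      exact mul_le_one₀ (hcLQ K M).1 (norm_nonneg _) (hcLQ K M).2
    refine mul_le_one₀ a3 (norm_nonneg _) ?_
    refine bx_le _ _ _ _ _ fun a n => ?_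
    rw [norm_mul, Complex.norm_conj]
    exact mul_le_one₀ (cm_le hg.cm a) (norm_nonneg _) (gP_le hg.cm _ _ _)

theorem all_KPr : StKPr := pr_KPr pr_RK2 all_RPr pr_DMd

theorem all_KXm : StKXm := pr_KXm pr_DBx pr_RK2 all_KPr pr_RSz pr_RPq all_RLm all_RPX

theorem all_KZm : StKZm := pr_KZm pr_DBx pr_RK2 all_KPr pr_RSz pr_RPq all_RLm all_RQd all_RPZ

theorem all_KYm : StKYm := pr_KYm pr_DBx pr_RK2 all_KPr pr_RSz pr_RPq all_RLm all_RQd all_RPY

theorem all_KgP : StKgP := pr_KgP (pr_Kg1 pr_DEx pr_DTl)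

theorem all_KV1 : StKV1 := pr_KV1 pr_DBx pr_DFc pr_DTl all_DLm all_RcT all_KgP

theorem all_KTp : StKTp := pr_KTp pr_DFc pr_RMd pr_RSp

theorem all_KTv : StKTv :=
  pr_KTv pr_DBx pr_RK2 all_KPr pr_DTl pr_RPq all_RLm all_DLm all_RQd all_RcT all_KgP all_KTp

/-- MODULE D″, second part -/
theorem all_TrivK : TrivK := pr_KTr dBL pr_DDe pr_DTl pr_RFv pr_KRe all_KTv

/-- MODULE D″, first part -/
theorem all_PWK0 : PWK0 :=
  pr_KFi (pr_KAv pr_DBx) (pr_KMo pr_DBx) pr_DTl all_KPr all_KXm all_KZm all_KYm (all_KUb_aux pr_DTl)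
    (pr_KKe pr_DKp) (pr_RKp pr_DKp) pr_DDe pr_RFv all_KV1 all_TrivK

end Pool.Agent.F0f91f8.KR
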