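import Pool.Agent.Work.MP_0f91f8_co.K.IG

/-!
# Kronecker form of the collision theorem, module B″: `Aper3`

`f₁(x) f₂(y) f₃(z)` has mean value zero over the family of triples as soon as `f₁` or `f₂` is
aperiodic, from the vanishing of correlations along 8 linear forms (`TmU 7`). Katai's lemma over
the Gaussian integers cancels `f₃(z)`, `z` a norm.
-/

set_option autoImplicit false

namespace Pool.Agent.F0f91f8.K

open Filter Topology ComplexConjugate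
open Pool.Agent.F0f91f8.HD
open Pool.Agent.F0f91f8.HD.B2
open Pool.Agent.F0f91f8.HD.B3
open Pool.Agent.F0f91f8.RC
open Pool.Agent.U3 (ee lf dt sz bx)
open scoped BigOperators Classical

/-- MODULE B″ -/
def Aper3 : Prop :=
  ∀ f₁ f₂ f₃ : ℕ → ℂ, CM f₁ → CM f₂ → CM f₃ → (Aper f₁ ∨ Aper f₂) →
    ∀ κ k Q D a₀ : ℕ, 0 < κ → 0 < k → 0 < Q → 0 < D →
    Tendsto (fun M : ℕ => BxR Q D a₀ M fun a n => f₁ (tX κ k a n) * f₂ (tY κ k a n) *
      f₃ (tZ κ k a n)) atTop (𝓝 0)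

/-- the two orders of the four forms -/
def Or4 (r : Fin 4 → ℤ × ℤ) : Prop :=
  r = ![(1, -1), (1, 1), (1, 0), (0, 1)] ∨ r = ![(1, 0), (0, 1), (1, -1), (1, 1)]

theorem dt_pb (w w' r r' : ℤ × ℤ) : dt (pb w r) (pb w' r') =
    (w.1 * w'.1 + w.2 * w'.2) * dt r r' +
      (w.2 * w'.1 - w.1 * w'.2) * (r.1 * r'.1 + r.2 * r'.2) := by
  unfold dt pb
  ring

/-- the eight forms -/
def l8 (w w' : ℤ × ℤ) (r : Fin 4 → ℤ × ℤ) : Fin 8 → ℤ × ℤ :=
  ![pb w (r 0), pb w (r 1), pb w (r 2), pb w (r 3),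
    pb w' (r 0), pb w' (r 1), pb w' (r 2), pb w' (r 3)]

theorem dt_neg (a b : ℤ × ℤ) : dt a b = - dt b a := by unfold dt; ring

theorem or4_tab {r : Fin 4 → ℤ × ℤ} (hr : Or4 r) (i j : Fin 4) :
    (i ≠ j → dt (r i) (r j) ≠ 0) ∧
    (dt (r i) (r j), (r i).1 * (r j).1 + (r i).2 * (r j).2) ∈
      ([(0, 1), (0, 2), (1, 0), (-1, 0), (2, 0), (-2, 0), (1, 1), (1, -1), (-1, 1), (-1, -1)] :
        List (ℤ × ℤ)) := by
  rcases hr with rfl | rfl <;> revert i j <;> unfold dt <;> decide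

theorem same_ne {w : ℤ × ℤ} (hw : GP w) {r : Fin 4 → ℤ × ℤ} (hr : Or4 r) (i j : Fin 4)
    (hij : i ≠ j) : dt (pb w (r i)) (pb w (r j)) ≠ 0 := by
  rw [dt_pb]
  have hb : 0 < w.2 := hw.1
  have ha : 0 < w.1 := hw.1.trans hw.2.1
  have q1 : 0 < w.1 * w.1 + w.2 * w.2 := add_pos (mul_pos ha ha) (mul_pos hb hb)
  have q2 : w.2 * w.1 - w.1 * w.2 = 0 := by ring
  rw [q2, zero_mul, add_zero]
  exact mul_ne_zero q1.ne' ((or4_tab hr i j).1 hij)

theorem diff_ne {w w' : ℤ × ℤ} (hw : GP w) (hw' : GP w') (hne : w ≠ w') {r : Fin 4 → ℤ × ℤ}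
    (hr : Or4 r) (i j : Fin 4) : dt (pb w (r i)) (pb w' (r j)) ≠ 0 := by
  rw [dt_pb]
  have hc := XInd.cross hw hw' hne
  obtain ⟨a, b⟩ := w
  obtain ⟨a', b'⟩ := w'
  have hb : 0 < b := hw.1
  have hab : b < a := hw.2.1
  have hb' : 0 < b' := hw'.1
  have hab' : b' < a' := hw'.2.1
  have hc' : a * b' ≠ a' * b := hc
  have ha : 0 < a := hb.trans hab
  have ha' : 0 < a' := hb'.trans hab'
  have q3 : 0 < a * a' + b * b' := add_pos (mul_pos ha ha') (mul_pos hb hb')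
  have q4 : 0 < a * a' + b * b' + (b * a' - a * b') := by
    have h1 : 0 < a * (a' - b') := mul_pos ha (by linarith)
    have h2 : 0 < b * (a' + b') := mul_pos hb (by linarith)
    nlinarith
  have q5 : 0 < a * a' + b * b' - (b * a' - a * b') := by
    have h1 : 0 < a' * (a - b) := mul_pos ha' (by linarith)
    have h2 : 0 < b' * (a + b) := mul_pos hb' (by linarith)
    nlinarith
  have q6 : b * a' - a * b' ≠ 0 := fun h => hc' (by linarith)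
  show (a * a' + b * b') * dt (r i) (r j) +
    (b * a' - a * b') * ((r i).1 * (r j).1 + (r i).2 * (r j).2) ≠ 0
  have h := (or4_tab hr i j).2
  generalize a * a' + b * b' = X at q3 q4 q5 ⊢
  generalize b * a' - a * b' = Y at q4 q5 q6 ⊢
  generalize dt (r i) (r j) = d at h ⊢
  generalize (r i).1 * (r j).1 + (r i).2 * (r j).2 = s at h ⊢
  simp only [List.mem_cons, Prod.mk.injEq, List.not_mem_nil, or_false] at h
  rcases h with h | h | h | h | h | h | h | h | h | h <;> obtain ⟨rfl, rfl⟩ := h <;>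
    intro h0 <;> omega

theorem l8_eq (w w' : ℤ × ℤ) (r : Fin 4 → ℤ × ℤ) (i : Fin 8) :
    l8 w w' r i = pb (if i.val < 4 then w else w') (r ⟨i.val % 4, Nat.mod_lt _ (by norm_num)⟩) := by
  fin_cases i <;> rfl

theorem l8_ne {w w' : ℤ × ℤ} (hw : GP w) (hw' : GP w') (hne : w ≠ w') {r : Fin 4 → ℤ × ℤ}
    (hr : Or4 r) (i j : Fin 8) (hij : i ≠ j) : dt (l8 w w' r i) (l8 w w' r j) ≠ 0 := by
  have h0 : i.val ≠ j.val := fun h => hij (Fin.ext h)
  have hi := i.isLt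
  have hj := j.isLt
  rw [l8_eq, l8_eq]
  by_cases h1 : i.val < 4 <;> by_cases h2 : j.val < 4
  · rw [if_pos h1, if_pos h2]
    refine same_ne hw hr _ _ fun h => ?_
    have := congrArg Fin.val h
    dsimp only at this
    omega
  · rw [if_pos h1, if_neg h2]
    exact diff_ne hw hw' hne hr _ _
  · rw [if_neg h1, if_pos h2]
    exact diff_ne hw' hw (Ne.symm hne) hr _ _
  · rw [if_neg h1, if_neg h2]
    refine same_ne hw' hr _ _ fun h => ?_
    have := congrArg Fin.val h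
    dsimp only at this
    omega

/-- the product of the four values -/
noncomputable def P4 (h : Fin 4 → ℕ → ℂ) (r : Fin 4 → ℤ × ℤ) (b : ℤ × ℤ) : ℂ :=
  h 0 (lf (r 0) b).toNat * h 1 (lf (r 1) b).toNat * (h 2 (lf (r 2) b).toNat *
    h 3 (lf (r 3) b).toNat)

theorem cm_le {f : ℕ → ℂ} (hf : CM f) (n : ℕ) : ‖f n‖ ≤ 1 := by
  rcases Nat.eq_zero_or_pos n with h | h
  · rw [h, hf.1, norm_zero]
    exact zero_le_one
  · exact (hf.2.2 n h).le

theorem P4_le {h : Fin 4 → ℕ → ℂ} (hh : ∀ i, CM (h i)) (r : Fin 4 → ℤ × ℤ) (b : ℤ × ℤ) :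
    ‖P4 h r b‖ ≤ 1 := by
  unfold P4
  rw [norm_mul, norm_mul, norm_mul]
  have := fun i n => cm_le (hh i) n
  exact mul_le_one₀ (mul_le_one₀ (this _ _) (norm_nonneg _) (this _ _)) (by positivity)
    (mul_le_one₀ (this _ _) (norm_nonneg _) (this _ _))

def StGK8 : Prop := ∀ h : Fin 4 → ℕ → ℂ, (∀ i, CM (h i)) → Aper (h 3) → ∀ f₃ : ℕ → ℂ, CM f₃ →
  ∀ κ k Q D a₀ : ℕ, 0 < κ → 0 < k → 0 < Q → ∀ r : Fin 4 → ℤ × ℤ, Or4 r →
  ∀ ε : ℝ, 0 < ε → ∃ M₀ : ℕ, ∀ M ≥ M₀,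
    ‖∑ b ∈ box (CR κ k Q D a₀ * M), (WR κ k Q D a₀ M b : ℂ) * (P4 h r b * f₃ (nm b))‖ ≤
      ε * (M : ℝ) ^ 2 * ((M : ℝ) * (D * M : ℕ))

open Pool.Agent.F0f91f8.HD.B3.XGK2 in
theorem GK8_pf (hAlg : StAlg) (hKat : StKat) (hIG : IGm 7) (hSup : StSupR) : StGK8 := by
  intro h hh haf f₃ hf₃ κ k Q D a₀ hκ hk hQ r hr ε hε
  have hfb := fun i n => cm_le (hh i) n
  obtain ⟨C, hC⟩ : ∃ C : ℕ, C = CR κ k Q D a₀ := ⟨_, rfl⟩
  have hC1 : 1 ≤ C := by
    rw [hC]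
    unfold CR
    omega
  rw [← hC]
  have hCr : (0 : ℝ) < C := by exact_mod_cast hC1
  rcases Nat.eq_zero_or_pos D with hD | hD
  · refine ⟨0, fun M _ => ?_⟩
    have h0 : ∀ b ∈ box (C * M), (WR κ k Q D a₀ M b : ℂ) *
        (P4 h r b * f₃ (nm b)) = 0 := by
      intro b _
      unfold WR
      rw [hD, zero_mul, tent_zero, mul_zero, Nat.cast_zero, zero_mul]
    rw [Finset.sum_eq_zero h0, norm_zero]
    positivity
  obtain ⟨P, hP, κ', hκ', R₀, hK⟩ := hKat (ε / (C : ℝ) ^ 2) (by positivity)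
  -- the pairs
  have hpair : ∀ w w' : ℤ × ℤ, ∃ M₁ : ℕ, w ∈ P → w' ∈ P → w ≠ w' → ∀ M ≥ M₁,
      ‖∑ v ∈ box (C * M), ((WR κ k Q D a₀ M (gm w v) : ℂ) * (WR κ k Q D a₀ M (gm w' v) : ℂ)) *
        (P4 h r (gm w v) * conj (P4 h r (gm w' v)))‖
        ≤ κ' * (C : ℝ) ^ 2 / 2 * (M : ℝ) ^ 2 * ((M : ℝ) * (D * M : ℕ)) ^ 2 := by
    intro w w'
    by_cases hP3 : w ∈ P ∧ w' ∈ P ∧ w ≠ w'
    · obtain ⟨hw, hw', hne⟩ := hP3
      have hkQ : 0 < k * Q := Nat.mul_pos hk hQ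
      have hκQ : 0 < κ * Q := Nat.mul_pos hκ hQ
      obtain ⟨M₁, hM₁⟩ := hIG (h 3) (hh 3) haf (l8 w w' r)
        (l8_ne (hP w hw) (hP w' hw') hne hr) 4
        ![pb w (0, 1), pb w (1, -1), pb w' (0, 1), pb w' (1, -1)] ![1, D, 1, D]
        ![κ * Q, k * Q, κ * Q, k * Q] ![(κ : ℤ), ((k * a₀ : ℕ) : ℤ), (κ : ℤ), ((k * a₀ : ℕ) : ℤ)]
        (by intro j; fin_cases j <;> simp [hκQ, hkQ]) C
        (by
          intro M v hv
          have h0 := hv 0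
          have h1 := hv 1
          have h0' : tent (1 * M) (κ * Q) κ (lf (pb w (0, 1)) v) ≠ 0 := h0
          have h1' : tent (D * M) (k * Q) ((k * a₀ : ℕ) : ℤ) (lf (pb w (1, -1)) v) ≠ 0 := h1
          rw [one_mul, lf_pb] at h0'
          rw [lf_pb] at h1'
          have h2 : WR κ k Q D a₀ M (gm w v) ≠ 0 := by
            unfold WR
            have e1 : lf (0, 1) (gm w v) = (gm w v).2 := by unfold lf; ring
            have e2 : lf (1, -1) (gm w v) = (gm w v).1 - (gm w v).2 := by unfold lf; ring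
            rw [e1] at h0'
            rw [e2] at h1'
            exact mul_ne_zero h0' h1'
          have h3 := ((hSup κ k Q D a₀ M hκ hk hQ).1 _ h2).2.2
          rw [← hC] at h3
          exact hAlg.2.2.2.2 w v (C * M) (hP w hw) h3)
        (κ' * (C : ℝ) ^ 2 / 2) (by positivity)
      refine ⟨M₁, fun _ _ _ M hM => ?_⟩
      have h4 := hM₁ M hM ![fun s => conj (h 0 s.toNat), fun s => conj (h 1 s.toNat),
        fun s => conj (h 2 s.toNat), fun s => conj (h 3 s.toNat), fun s => h 0 s.toNat,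
        fun s => h 1 s.toNat, fun s => h 2 s.toNat] (by
          intro i s
          have e1 : ∀ j, ‖conj (h j s.toNat)‖ ≤ 1 := by
            intro j
            rw [RCLike.norm_conj]
            exact hfb _ _
          fin_cases i
          · exact e1 0
          · exact e1 1
          · exact e1 2
          · exact e1 3
          · exact hfb 0 _
          · exact hfb 1 _
          · exact hfb 2 _)
      have h5 : (κ' * (C : ℝ) ^ 2 / 2) * (M : ℝ) ^ 2 *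
          ∏ j : Fin 4, (((![1, D, 1, D] : Fin 4 → ℕ) j * M : ℕ) : ℝ)
          = κ' * (C : ℝ) ^ 2 / 2 * (M : ℝ) ^ 2 * ((M : ℝ) * (D * M : ℕ)) ^ 2 := by
        rw [Fin.prod_univ_four]
        show (κ' * (C : ℝ) ^ 2 / 2) * (M : ℝ) ^ 2 * (((1 * M : ℕ) : ℝ) * ((D * M : ℕ) : ℝ) *
          ((1 * M : ℕ) : ℝ) * ((D * M : ℕ) : ℝ)) = _
        push_cast
        ring
      rw [h5] at h4
      refine le_trans (le_of_eq ?_) h4
      rw [← RCLike.norm_conj, map_sum]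
      congr 1
      apply Finset.sum_congr rfl
      intro v _
      rw [Fin.prod_univ_four, Fin.prod_univ_seven]
      show _ = ((tent (1 * M) (κ * Q) κ (lf (pb w (0, 1)) v) : ℂ) *
        (tent (D * M) (k * Q) ((k * a₀ : ℕ) : ℤ) (lf (pb w (1, -1)) v) : ℂ) *
        (tent (1 * M) (κ * Q) κ (lf (pb w' (0, 1)) v) : ℂ) *
        (tent (D * M) (k * Q) ((k * a₀ : ℕ) : ℤ) (lf (pb w' (1, -1)) v) : ℂ)) *
        (conj (h 0 (lf (pb w (r 0)) v).toNat) * conj (h 1 (lf (pb w (r 1)) v).toNat) *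
          conj (h 2 (lf (pb w (r 2)) v).toNat) * conj (h 3 (lf (pb w (r 3)) v).toNat) *
          h 0 (lf (pb w' (r 0)) v).toNat * h 1 (lf (pb w' (r 1)) v).toNat *
          h 2 (lf (pb w' (r 2)) v).toNat) * h 3 (lf (pb w' (r 3)) v).toNat
      simp only [lf_pb, one_mul]
      have e1 : ∀ u : ℤ × ℤ, lf (0, 1) u = u.2 := by intro u; unfold lf; ring
      have e2 : ∀ u : ℤ × ℤ, lf (1, -1) u = u.1 - u.2 := by intro u; unfold lf; ring
      rw [e1, e2, e1, e2]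
      unfold WR P4
      simp only [map_mul, Complex.conj_conj, map_natCast, Nat.cast_mul]
      ring
    · exact ⟨0, fun h1 h2 h3 => absurd ⟨h1, h2, h3⟩ hP3⟩
  choose M₁ hM₁ using hpair
  refine ⟨∑ w ∈ P, ∑ w' ∈ P, M₁ w w' + R₀ + 1, fun M hM => ?_⟩
  have hM1 : 1 ≤ M := by omega
  have hMr : (0 : ℝ) < M := by exact_mod_cast hM1
  have hDr : (0 : ℝ) < D := by exact_mod_cast hD
  have hR₀ : R₀ ≤ C * M := by
    have : R₀ ≤ M := by omega
    exact this.trans (Nat.le_mul_of_pos_left M hC1)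
  obtain ⟨L, hL⟩ : ∃ L : ℝ, L = (M : ℝ) * (D * M : ℕ) := ⟨_, rfl⟩
  have hLp : 0 < L := by
    rw [hL]
    push_cast
    positivity
  rw [← hL]
  by_contra hlt
  push Not at hlt
  obtain ⟨ψ, hψ⟩ : ∃ ψ : ℤ × ℤ → ℂ, ψ = fun b => (WR κ k Q D a₀ M b : ℂ) / (L : ℂ) *
      P4 h r b := ⟨_, rfl⟩
  obtain ⟨g, hg⟩ : ∃ g : ℤ × ℤ → ℂ, g = fun b => f₃ (nm b) := ⟨_, rfl⟩
  have hLc : (L : ℂ) ≠ 0 := by exact_mod_cast hLp.ne'
  have hψ1 : ∀ b, ‖ψ b‖ ≤ 1 := by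
    intro b
    rw [hψ]
    dsimp only
    rw [norm_mul, norm_div, Complex.norm_natCast, Complex.norm_real,
      Real.norm_of_nonneg hLp.le]
    have h1 : (WR κ k Q D a₀ M b : ℝ) ≤ L := by
      rw [hL]
      exact_mod_cast (hSup κ k Q D a₀ M hκ hk hQ).2 b
    have h2 : (WR κ k Q D a₀ M b : ℝ) / L ≤ 1 := by
      rw [div_le_one hLp]
      exact h1
    exact mul_le_one₀ h2 (norm_nonneg _) (P4_le hh r b)
  have hψ0 : ∀ b, b ∉ box (C * M) → ψ b = 0 := by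
    intro b hb
    have h1 : WR κ k Q D a₀ M b = 0 := by
      by_contra h
      apply hb
      have := ((hSup κ k Q D a₀ M hκ hk hQ).1 b h).2.2
      rwa [← hC] at this
    rw [hψ]
    dsimp only
    rw [h1, Nat.cast_zero, zero_div, zero_mul]
  have hg1 : ∀ b, ‖g b‖ ≤ 1 := by
    intro b
    rw [hg]
    exact cm_le hf₃ _
  have hgm : ∀ w ∈ P, ∀ b, g (gm w b) = g w * g b := by
    intro w _ b
    rw [hg]
    dsimp only
    rw [hAlg.2.1, hf₃.2.1]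
  have hsum : ∑ b ∈ box (C * M), ψ b * g b = (∑ b ∈ box (C * M), (WR κ k Q D a₀ M b : ℂ) *
      (P4 h r b * f₃ (nm b))) / (L : ℂ) := by
    rw [Finset.sum_div]
    apply Finset.sum_congr rfl
    intro b _
    rw [hψ, hg]
    dsimp only
    ring
  obtain ⟨w, hw, w', hw', hne, hbig⟩ := hK (C * M) hR₀ ψ g hψ1 hψ0 hg1 hgm (by
    rw [hsum, norm_div, Complex.norm_real, Real.norm_of_nonneg hLp.le, le_div_iff₀ hLp]
    refine le_trans (le_of_eq ?_) hlt.le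
    push_cast
    field_simp)
  have hMw : M₁ w w' ≤ M := by
    have h1 : M₁ w w' ≤ ∑ w' ∈ P, M₁ w w' :=
      Finset.single_le_sum (f := fun w' => M₁ w w') (fun _ _ => Nat.zero_le _) hw'
    have h2 : ∑ w' ∈ P, M₁ w w' ≤ ∑ w ∈ P, ∑ w' ∈ P, M₁ w w' :=
      Finset.single_le_sum (f := fun w => ∑ w' ∈ P, M₁ w w') (fun _ _ => Nat.zero_le _) hw
    omega
  have hsmall := hM₁ w w' hw hw' hne M hMw
  have hsum2 : ∑ b ∈ box (C * M), ψ (gm w b) * conj (ψ (gm w' b))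
      = (∑ v ∈ box (C * M), ((WR κ k Q D a₀ M (gm w v) : ℂ) * (WR κ k Q D a₀ M (gm w' v) : ℂ)) *
        (P4 h r (gm w v) * conj (P4 h r (gm w' v)))) / (L : ℂ) ^ 2 := by
    rw [Finset.sum_div]
    apply Finset.sum_congr rfl
    intro b _
    rw [hψ]
    dsimp only
    simp only [map_mul, map_div₀, map_natCast, Complex.conj_ofReal]
    field_simp
  rw [hsum2, norm_div, norm_pow, Complex.norm_real, Real.norm_of_nonneg hLp.le,
    le_div_iff₀ (by positivity)] at hbig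
  rw [← hL] at hsmall
  have h1 := hbig.trans hsmall
  have h2 : κ' * (C : ℝ) ^ 2 / 2 * (M : ℝ) ^ 2 * L ^ 2 < κ' * ((C * M : ℕ) : ℝ) ^ 2 * L ^ 2 := by
    push_cast
    have h3 : 0 < κ' * (C : ℝ) ^ 2 * (M : ℝ) ^ 2 * L ^ 2 := by positivity
    nlinarith
  exact absurd h1 (not_le.mpr h2)



/-- a general form of the last step -/
theorem fin_aux (f₁ f₂ f₃ : ℕ → ℂ) (h1 : CM f₁) (h2 : CM f₂) (h3 : CM f₃)
    (κ k Q D a₀ : ℕ) (hκ : 0 < κ) (hk : 0 < k) (hQ : 0 < Q) (hD : 0 < D)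
    (P : ℤ × ℤ → ℂ)
    (hP : ∀ x y : ℕ, 0 < y → y < x → P ((x : ℤ), (y : ℤ)) =
      f₁ x * f₁ y * (f₂ (x - y) * f₂ (x + y)))
    (hS : ∀ ε : ℝ, 0 < ε → ∃ M₀ : ℕ, ∀ M ≥ M₀,
      ‖∑ b ∈ box (CR κ k Q D a₀ * M), (WR κ k Q D a₀ M b : ℂ) * (P b * f₃ (nm b))‖ ≤
        ε * (M : ℝ) ^ 2 * ((M : ℝ) * (D * M : ℕ))) :
    Tendsto (fun M : ℕ => BxR Q D a₀ M fun a n => f₁ (tX κ k a n) * f₂ (tY κ k a n) *
      f₃ (tZ κ k a n)) atTop (𝓝 0) := by
  have n2 : ‖f₁ 2‖ = 1 := h1.2.2 2 (by norm_num)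
  refine Pool.Agent.F0f91f8.RC.XFin.tend D hD _ (fun M => ∑ b ∈ box (CR κ k Q D a₀ * M),
    (WR κ k Q D a₀ M b : ℂ) * (P b * f₃ (nm b))) ?_ hS
  intro M
  refine Pool.Agent.F0f91f8.RC.XFin.bx_norm RewR_pf κ k Q D a₀ M hκ hk hQ
    (fun m n => f₁ (2 * n * m) * f₂ ((m - n) * (m + n)) * f₃ (m ^ 2 + n ^ 2)) _ ?_ _ ?_
  · intro a n
    have e1 : k * a + κ * n - κ * n = k * a := Nat.add_sub_cancel _ _
    have e2 : k * a + κ * n + κ * n = k * a + 2 * (κ * n) := by ring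
    show f₁ (tX κ k a n) * f₂ (tY κ k a n) * f₃ (tZ κ k a n) =
      f₁ (2 * (κ * n) * (k * a + κ * n)) *
        f₂ ((k * a + κ * n - κ * n) * (k * a + κ * n + κ * n)) *
        f₃ ((k * a + κ * n) ^ 2 + (κ * n) ^ 2)
    rw [e1, e2]
    rfl
  · have e := Pool.Agent.F0f91f8.RC.XFin.sum_eq SupR_pf κ k Q D a₀ M hκ hk hQ
      (fun b => f₁ (2 * b.2.toNat * b.1.toNat) *
        f₂ ((b.1.toNat - b.2.toNat) * (b.1.toNat + b.2.toNat)) *
        f₃ (b.1.toNat ^ 2 + b.2.toNat ^ 2))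
      (fun b => f₁ 2 * (P b * f₃ (nm b))) (by
        intro x y hy hxy
        rw [hP x y hy hxy]
        simp only [Int.toNat_natCast, Pool.Agent.F0f91f8.RC.XFin.nm_nat, h1.2.1, h2.2.1]
        ring)
    rw [e]
    have e3 : ∑ b ∈ box (CR κ k Q D a₀ * M), (WR κ k Q D a₀ M b : ℂ) *
        (f₁ 2 * (P b * f₃ (nm b))) =
        f₁ 2 * ∑ b ∈ box (CR κ k Q D a₀ * M), (WR κ k Q D a₀ M b : ℂ) *
        (P b * f₃ (nm b)) := by
      rw [Finset.mul_sum]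
      exact Finset.sum_congr rfl fun b _ => by ring
    rw [e3, norm_mul, n2, one_mul]

/-- MODULE B″ from the vanishing of correlations along eight linear forms -/
theorem aper3 (hT : TmU 7) : Aper3 := by
  have hG : StGK8 := GK8_pf Alg_pf katai (IGm_pf 5 hT Ten_pf) SupR_pf
  intro f₁ f₂ f₃ h1 h2 h3 hap κ k Q D a₀ hκ hk hQ hD
  have l1 : ∀ x y : ℕ, (lf (1, -1) ((x : ℤ), (y : ℤ))).toNat = x - y := by
    intro x y
    show (1 * (x : ℤ) + -1 * (y : ℤ)).toNat = x - y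
    omega
  have l2 : ∀ x y : ℕ, (lf (1, 1) ((x : ℤ), (y : ℤ))).toNat = x + y := by
    intro x y
    show (1 * (x : ℤ) + 1 * (y : ℤ)).toNat = x + y
    omega
  have l3 : ∀ x y : ℕ, (lf (1, 0) ((x : ℤ), (y : ℤ))).toNat = x := by
    intro x y
    show (1 * (x : ℤ) + 0 * (y : ℤ)).toNat = x
    omega
  have l4 : ∀ x y : ℕ, (lf (0, 1) ((x : ℤ), (y : ℤ))).toNat = y := by
    intro x y
    show (0 * (x : ℤ) + 1 * (y : ℤ)).toNat = y
    omega
  rcases hap with hap | hap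
  · refine fin_aux f₁ f₂ f₃ h1 h2 h3 κ k Q D a₀ hκ hk hQ hD
      (P4 ![f₂, f₂, f₁, f₁] ![(1, -1), (1, 1), (1, 0), (0, 1)]) ?_ ?_
    · intro x y _ _
      show f₂ (lf (1, -1) ((x : ℤ), (y : ℤ))).toNat * f₂ (lf (1, 1) ((x : ℤ), (y : ℤ))).toNat *
        (f₁ (lf (1, 0) ((x : ℤ), (y : ℤ))).toNat * f₁ (lf (0, 1) ((x : ℤ), (y : ℤ))).toNat) = _
      rw [l1, l2, l3, l4]
      ring
    · refine hG ![f₂, f₂, f₁, f₁] ?_ hap f₃ h3 κ k Q D a₀ hκ hk hQ _ (Or.inl rfl)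
      intro i
      fin_cases i <;> assumption
  · refine fin_aux f₁ f₂ f₃ h1 h2 h3 κ k Q D a₀ hκ hk hQ hD
      (P4 ![f₁, f₁, f₂, f₂] ![(1, 0), (0, 1), (1, -1), (1, 1)]) ?_ ?_
    · intro x y _ _
      show f₁ (lf (1, 0) ((x : ℤ), (y : ℤ))).toNat * f₁ (lf (0, 1) ((x : ℤ), (y : ℤ))).toNat *
        (f₂ (lf (1, -1) ((x : ℤ), (y : ℤ))).toNat * f₂ (lf (1, 1) ((x : ℤ), (y : ℤ))).toNat) = _
      rw [l1, l2, l3, l4]
    · refine hG ![f₁, f₁, f₂, f₂] ?_ hap f₃ h3 κ k Q D a₀ hκ hk hQ _ (Or.inr rfl)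
      intro i
      fin_cases i <;> assumption

end Pool.Agent.F0f91f8.K
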