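import Pool.Agent.Work.MP_0f91f8_co.RC.Defs

/-!
# Kronecker form of the collision theorem: definitions and interface statements (block K)

Cells `{n : φ n ∈ S}` of ARBITRARY homomorphisms `φ` of the positive integers into finite abelian
groups `H`. Family: as `RC/Defs.lean` with `k = (∏_{w < p ≤ K} p^(e p + 2))^(E φ(w!))`; so `k` is an
`E`-th power, `k ≡ 1` mod `w!`, and `a = w! (v + v') + 1`, `n = w! (u + u') + 1`.

* B″ `Aper3`           (helper68, from `T_8` of helper75);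
* D″ `PWK0`, `TrivK`   (helper7, helper83);
* W  `PWK`, `PK1`      (helper40): from `Aper3`, `PWK0`, `TrivK`, `HD.PretStmt`;
* E″ `GenP`, `KCnt`    (helper79): from `PWK`, `PK1`.
-/

set_option autoImplicit false

namespace Pool.Agent.F0f91f8.KR

open Filter Topology ComplexConjugate
open Pool.Agent.F0f91f8.HD Pool.Agent.F0f91f8.RC
open scoped BigOperators

/-- `k = (kk w K e')^(E φ(w!))` -/
def kK (E w K : ℕ) (e' : Fin (K + 1) → Fin K) : ℕ := kk w K e' ^ (E * Nat.totient w.factorial)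

/-- the average of `Φ(x,y,z)` over the family with parameters `E w K M` -/
noncomputable def AvK (E w K M : ℕ) (Φ : ℕ → ℕ → ℕ → ℂ) : ℂ :=
  (∑ e : Fin (w + 1) → Fin K, ∑ e' : Fin (K + 1) → Fin K,
    BxR w.factorial (DR E w K) 1 M fun a n =>
      Φ (tX (kR E w K e) (kK E w K e') a n) (tY (kR E w K e) (kK E w K e') a n)
        (tZ (kR E w K e) (kK E w K e') a n)) /
    ((K : ℂ) ^ (w + 1) * (K : ℂ) ^ (K + 1))

/-- eventually, in nested limits: first `M`, then `K`, then `w` -/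
def Nest (P : ℕ → ℕ → ℕ → Prop) : Prop := ∀ᶠ w in atTop, ∀ᶠ K in atTop, ∀ᶠ M in atTop, P w K M

/-- MODULE B″ -/
def Aper3 : Prop :=
  ∀ f1 f2 f3 : ℕ → ℂ, CM f1 → CM f2 → CM f3 → (Aper f1 ∨ Aper f2) →
    ∀ κ k Q D a₀ : ℕ, 0 < κ → 0 < k → 0 < Q → 0 < D →
    Tendsto (fun M : ℕ => BxR Q D a₀ M fun a n =>
      f1 (tX κ k a n) * f2 (tY κ k a n) * f3 (tZ κ k a n)) atTop (𝓝 0)

/-- MODULE D″, first part: pretentious functions -/
def PWK0 : Prop := ∀ E : ℕ, 0 < E → ∀ f : ℕ → ℂ, CM f → Pret f → ∀ ε : ℝ, 0 < ε →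
  Nest fun w K M => -ε ≤ (AvK E w K M (pc f)).re

/-- MODULE D″, second part: pretentious functions of finite order are `1` at most members -/
def TrivK : Prop := ∀ E : ℕ, 0 < E → ∀ f : ℕ → ℂ, CM f → Pret f →
  (∀ n : ℕ, 0 < n → f n ^ E = 1) → ∀ ε : ℝ, 0 < ε →
  Nest fun w K M =>
    (AvK E w K M fun x y z => ((‖1 - f x‖ + ‖1 - f y‖ + ‖1 - f z‖ : ℝ) : ℂ)).re ≤ ε

/-- the three members have the same value under `φ` -/
def wt {H : Type} [CommGroup H] (φ : ℕ+ →* H) (x y z : ℕ) : Prop :=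
  φ x.toPNat' = φ y.toPNat' ∧ φ y.toPNat' = φ z.toPNat'

open Classical in
/-- the weighted correlations -/
noncomputable def wpc {H : Type} [CommGroup H] (φ : ℕ+ →* H) (f : ℕ → ℂ) (x y z : ℕ) : ℂ :=
  if wt φ x y z then pc f x y z else 0

open Classical in
/-- the weight -/
noncomputable def w1 {H : Type} [CommGroup H] (φ : ℕ+ →* H) (x y z : ℕ) : ℂ :=
  if wt φ x y z then 1 else 0

/-- MODULE W, the lower bound -/
def PWK : Prop := ∀ (H : Type) (_ : CommGroup H) (_ : Finite H) (φ : ℕ+ →* H) (f : ℕ → ℂ), CM f →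
  ∀ ε : ℝ, 0 < ε → Nest fun w K M => -ε ≤ (AvK (Nat.card H) w K M (wpc φ f)).re

/-- MODULE W, the mass of the weight -/
def PK1 : Prop := ∀ (H : Type) (_ : CommGroup H) (_ : Finite H) (φ : ℕ+ →* H), ∃ c : ℝ, 0 < c ∧
  Nest fun w K M => c ≤ (AvK (Nat.card H) w K M (w1 φ)).re

/-- MODULE E″, the final form: `B = F ∩ φ⁻¹(S)`, `φ` an arbitrary homomorphism -/
def KCnt : Prop :=
  ∀ (H : Type) (_ : CommGroup H) (_ : Finite H) (ε : ℝ), 0 < ε → ∃ (k : ℕ) (δ : ℝ), 0 < δ ∧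
    ∀ (φ : ℕ+ →* H) (S : Set H) (F B : Finset ℕ+), F.Nonempty →
    (∀ n, n ∈ B ↔ n ∈ F ∧ φ n ∈ S) →
    (∀ p : ℕ+, (p : ℕ) ≤ k → (p : ℕ).Prime →
      (1 - δ) * (F.card : ℝ) ≤ ((F.filter fun n => p * n ∈ F).card : ℝ)) →
    ∀ (r : ℕ) (A : Fin r → Finset ℕ+), (∀ i, A i ⊆ B) → (∀ i j, i ≠ j → Disjoint (A i) (A j)) →
    ∃ x y z : ℕ+, (x : ℕ) ≤ k ∧ (y : ℕ) ≤ k ∧ (z : ℕ) ≤ k ∧ x ^ 2 + y ^ 2 = z ^ 2 ∧
      φ x = φ y ∧ φ y = φ z ∧
      3 / 2 * (∑ i, ((A i).card : ℝ) ^ 2 -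
        min ((B.card : ℝ) ^ 2 / 3) ((B.card : ℝ) * (∑ i, ((A i).card : ℝ)) / 2) -
          ε * (F.card : ℝ) ^ 2) ≤
        (B.card : ℝ) *
          ((F.filter fun n => ∃ i, x * n ∈ A i ∧ y * n ∈ A i ∧ z * n ∈ A i).card : ℝ)

end Pool.Agent.F0f91f8.KR
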