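import Pool.Agent.Work.MP_0f91f8_co.K.B
import Pool.Agent.Work.MP_0f91f8_co.K.Defs
import Pool.Agent.Work.MP_0f91f8_co.US.Defs

/-!
# Kronecker form, module B″: `Aper3` from `US.StTm 7`
-/

set_option autoImplicit false

namespace Pool.Agent.F0f91f8.KR

theorem pr_Aper3 (h : Pool.Agent.US.StTm 7) : Aper3 := Pool.Agent.F0f91f8.K.aper3 h

end Pool.Agent.F0f91f8.KR
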