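import Pool.Agent.Work.MP_0f91f8_co.K.Defs
import Pool.Agent.Work.MP_0f91f8_co.RC.DefsD2

/-!
# Kronecker form of the collision theorem, module D″: definitions (helper83)

Correlations and main terms for the family with `κ = kR E w K e`, `k = kK E w K e'`,
`a ≡ n ≡ 1 mod w!`.
-/

set_option autoImplicit false

namespace Pool.Agent.F0f91f8.KR

open Filter Topology ComplexConjugate
open Pool.Agent.F0f91f8.HD Pool.Agent.F0f91f8.RC
open scoped BigOperators

/-- the average over `a` and `n` -/
noncomputable def BFK (E w K M : ℕ) (G : ℕ → ℕ → ℂ) : ℂ := BxR w.factorial (DR E w K) 1 M G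

/-- the average over `a` and `n` of a real function -/
noncomputable def BRK (E w K M : ℕ) (G : ℕ → ℕ → ℝ) : ℝ :=
  BR w.factorial (DR E w K) 1 M fun a s => G a (w.factorial * s + 1)

/-- the correlation `x, y` -/
noncomputable def CXK (f : ℕ → ℂ) (E w K : ℕ) (e : Fin (w + 1) → Fin K)
    (e' : Fin (K + 1) → Fin K) (M : ℕ) : ℂ :=
  BFK E w K M fun a n => f (tX (kR E w K e) (kK E w K e') a n) *
    conj (f (tY (kR E w K e) (kK E w K e') a n))

/-- the correlation `y, z` -/
noncomputable def CYK (f : ℕ → ℂ) (E w K : ℕ) (e : Fin (w + 1) → Fin K)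
    (e' : Fin (K + 1) → Fin K) (M : ℕ) : ℂ :=
  BFK E w K M fun a n => f (tY (kR E w K e) (kK E w K e') a n) *
    conj (f (tZ (kR E w K e) (kK E w K e') a n))

/-- the correlation `z, x` -/
noncomputable def CZK (f : ℕ → ℂ) (E w K : ℕ) (e : Fin (w + 1) → Fin K)
    (e' : Fin (K + 1) → Fin K) (M : ℕ) : ℂ :=
  BFK E w K M fun a n => f (tZ (kR E w K e) (kK E w K e') a n) *
    conj (f (tX (kR E w K e) (kK E w K e') a n))

/-- main term of `CXK` without the factor `f (kp w K e) ^ E` (it does not depend on `e`) -/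
noncomputable def UXK (f g : ℕ → ℂ) (t : ℝ) (E w K : ℕ) (e' : Fin (K + 1) → Fin K) (M : ℕ) : ℂ :=
  f (2 * w.factorial) ^ E * conj (g (kK E w K e')) * (cL g K M * conj (cL g K M)) *
    BFK E w K M fun a n => f n * conj (((kK E w K e' * a : ℕ) : ℂ) ^ (t * Complex.I)) * conj (g a)

/-- main term of `CZK` without the factor `conj (f (kp w K e)) ^ E` -/
noncomputable def UZK (f g : ℕ → ℂ) (t : ℝ) (E w K : ℕ) (e' : Fin (K + 1) → Fin K) (M : ℕ) : ℂ :=
  conj (f (2 * w.factorial)) ^ E * (cQ g K M * conj (cL g K M)) *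
    BFK E w K M fun a n => conj (f n) * ((kK E w K e' * a : ℕ) : ℂ) ^ (t * Complex.I) * gP g w K n

/-- main term of `CYK` without the factor `g (kK E w K e')`; it does not depend on `e`, `e'` -/
noncomputable def VYK (g : ℕ → ℂ) (E w K M : ℕ) : ℂ :=
  cL g K M * conj (cQ g K M) * BFK E w K M fun a n => g a * conj (gP g w K n)

end Pool.Agent.F0f91f8.KR
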