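import Pool.Agent.Work.MP_0f91f8_co.K.Defs
import Pool.Agent.Work.MP_0f91f8_co.RC.FinG

/-!
# Kronecker form: the finite form `KCnt` from the inequality `GenP` for kernels
-/

set_option autoImplicit false

open Filter Topology MeasureTheory

noncomputable section

namespace Pool.Agent.F0f91f8.KR

open Pool.Agent.F0f91f8.HD Pool.Agent.F0f91f8.RC
open Pool.Agent.Work.MP_0f91f8_co.EF

/-- The general inequality for kernels, at a triple in one fibre of `φ`. -/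
def GenP : Prop := ∀ (H : Type) (_ : CommGroup H) (_ : Finite H) (φ : ℕ+ →* H) (r : ℕ)
  (κ : Fin r → ℕ → ℕ → ℝ), (∀ i, IsPK (κ i)) → ∀ ε : ℝ, 0 < ε →
  ∃ x y z : ℕ, 0 < x ∧ 0 < y ∧ 0 < z ∧ x ^ 2 + y ^ 2 = z ^ 2 ∧ wt φ x y z ∧
    -ε ≤ ∑ i, (κ i x y + κ i x z + κ i y z)

/-- The finite form with pair counts. -/
def KPairs : Prop :=
  ∀ (H : Type) (_ : CommGroup H) (_ : Finite H) (ε : ℝ), 0 < ε → ∃ (k : ℕ) (δ : ℝ), 0 < δ ∧
    ∀ (φ : ℕ+ →* H) (S : Set H) (F B : Finset ℕ), F.Nonempty → (∀ n ∈ F, 0 < n) →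
    (∀ n, n ∈ B ↔ n ∈ F ∧ φ n.toPNat' ∈ S) →
    (∀ p ≤ k, p.Prime → (1 - δ) * (F.card : ℝ) ≤ ((F.filter fun n => p * n ∈ F).card : ℝ)) →
    ∀ (r : ℕ) (A : Fin r → Finset ℕ), (∀ i, A i ⊆ B) → (∀ i j, i ≠ j → Disjoint (A i) (A j)) →
    ∃ x y z : ℕ, 0 < x ∧ x ≤ k ∧ 0 < y ∧ y ≤ k ∧ 0 < z ∧ z ≤ k ∧ x ^ 2 + y ^ 2 = z ^ 2 ∧
      wt φ x y z ∧
      3 * ∑ i, ((A i).card : ℝ) ^ 2 - ε * (F.card : ℝ) ^ 2 ≤
        (B.card : ℝ) * ∑ i, ((cc F (A i) x y : ℝ) + (cc F (A i) x z : ℝ) + (cc F (A i) y z : ℝ))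

/-- The finite form with counts of monochromatic dilates, natural numbers. -/
def KCntN : Prop :=
  ∀ (H : Type) (_ : CommGroup H) (_ : Finite H) (ε : ℝ), 0 < ε → ∃ (k : ℕ) (δ : ℝ), 0 < δ ∧
    ∀ (φ : ℕ+ →* H) (S : Set H) (F B : Finset ℕ), F.Nonempty → (∀ n ∈ F, 0 < n) →
    (∀ n, n ∈ B ↔ n ∈ F ∧ φ n.toPNat' ∈ S) →
    (∀ p ≤ k, p.Prime → (1 - δ) * (F.card : ℝ) ≤ ((F.filter fun n => p * n ∈ F).card : ℝ)) →
    ∀ (r : ℕ) (A : Fin r → Finset ℕ), (∀ i, A i ⊆ B) → (∀ i j, i ≠ j → Disjoint (A i) (A j)) →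
    ∃ x y z : ℕ, 0 < x ∧ x ≤ k ∧ 0 < y ∧ y ≤ k ∧ 0 < z ∧ z ≤ k ∧ x ^ 2 + y ^ 2 = z ^ 2 ∧
      wt φ x y z ∧
      3 / 2 * (∑ i, ((A i).card : ℝ) ^ 2 -
        min ((B.card : ℝ) ^ 2 / 3) ((B.card : ℝ) * (∑ i, ((A i).card : ℝ)) / 2) -
          ε * (F.card : ℝ) ^ 2) ≤
        (B.card : ℝ) *
          ((F.filter fun n => ∃ i, x * n ∈ A i ∧ y * n ∈ A i ∧ z * n ∈ A i).card : ℝ)

namespace XK

/-- Limit of homomorphisms into a finite group along an ultrafilter. -/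
theorem limHom (U : Ultrafilter ℕ) {H : Type} [CommGroup H] [Finite H] (f : ℕ → ℕ+ →* H) :
    ∃ φ : ℕ+ →* H, ∀ n : ℕ+, ∀ᶠ j in (U : Filter ℕ), f j n = φ n := by
  have h1 : ∀ n : ℕ+, ∃ h : H, ∀ᶠ j in (U : Filter ℕ), f j n = h := by
    intro n
    have h2 : ∀ᶠ j in (U : Filter ℕ), ∃ h : H, f j n = h := Eventually.of_forall fun j => ⟨_, rfl⟩
    by_contra hno
    push Not at hno
    have h3 : ∀ h : H, ∀ᶠ j in (U : Filter ℕ), f j n ≠ h := hno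
    obtain ⟨j, hj⟩ := (eventually_all.2 h3).exists
    exact hj _ rfl
  choose g hg using h1
  refine ⟨{ toFun := g, map_one' := ?_, map_mul' := ?_ }, hg⟩
  · obtain ⟨j, hj⟩ := (hg 1).exists
    rw [← hj, map_one]
  · intro a b
    obtain ⟨j, ⟨h2, h3⟩, h4⟩ := (((hg (a * b)).and (hg a)).and (hg b)).exists
    rw [← h2, ← h3, ← h4, map_mul]

/-- equality of limits, eventual form -/
theorem uniqE (U : Ultrafilter ℕ) (f g e : ℕ → ℝ) (x y : ℝ) (hf : Tendsto f U (𝓝 x))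
    (hg : Tendsto g U (𝓝 y)) (he : Tendsto e U (𝓝 0))
    (h : ∀ᶠ j in (U : Filter ℕ), |f j - g j| ≤ e j) : x = y := by
  have h1 : Tendsto (fun j => f j - g j) U (𝓝 0) :=
    squeeze_zero_norm' (h.mono fun j hj => by rw [Real.norm_eq_abs]; exact hj) he
  have h2 : Tendsto (fun j => f j - g j) U (𝓝 (x - y)) := hf.sub hg
  have h3 := tendsto_nhds_unique h1 h2
  linarith

open XUlm in
/-- the cell clause, eventual form -/
theorem cellE (U : Ultrafilter ℕ) (hU : (U : Filter ℕ) ≤ atTop) (F B : ℕ → Finset ℕ)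
    (hFo : IsFo F) (hBF : ∀ j, B j ⊆ F j) (μ : Set (ℕ × ℕ) → ℝ)
    (hμl : ∀ S, Tendsto (qq F S) U (𝓝 (μ S))) (β : ℝ)
    (hμB : ∀ n, 0 < n → μ {p | n * p.2 ∈ B p.1} = β) (x y : ℕ) (hx : 0 < x) (hy : 0 < y)
    (hxy : ∀ᶠ j in (U : Filter ℕ), ∀ s, x * s ∈ F j → y * s ∈ F j → (x * s ∈ B j ↔ y * s ∈ B j)) :
    μ ({p | x * p.2 ∈ B p.1} ∩ {p | y * p.2 ∈ B p.1}) = β := by
  classical
  have hFne : ∀ j, 0 < (F j).card := fun j => Finset.card_pos.2 (hFo.ne j)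
  have hdef : Tendsto (fun j => 1 - (((F j).filter fun k => y * k ∈ F j).card : ℝ) /
      ((F j).card : ℝ)) U (𝓝 0) := by
    have h1 := (hFo.lim y hy).mono_left hU
    have h2 := h1.const_sub 1
    rw [sub_self] at h2
    exact h2
  rw [← hμB x hx]
  refine uniqE U _ _ _ _ _ (hμl _) (hμl _) hdef (hxy.mono fun j hj => ?_)
  have h1 := IUlR.cell (F j) (B j) x y (hBF j) hj
  rw [qq_eq F ({p : ℕ × ℕ | x * p.2 ∈ B p.1} ∩ {p : ℕ × ℕ | y * p.2 ∈ B p.1}) j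
    ((F j).filter fun s => x * s ∈ B j ∧ y * s ∈ B j) (fun s => Finset.mem_filter),
    qq_eq F {p : ℕ × ℕ | x * p.2 ∈ B p.1} j
    ((F j).filter fun s => x * s ∈ B j) (fun s => Finset.mem_filter)]
  have h3 : ((F j).filter fun s => y * s ∈ F j).card ≤ (F j).card := Finset.card_filter_le _ _
  exact absd _ _ _ _ (hFne j) (by omega) h1.2

/-- members of one fibre: the membership in the cell is the same -/
theorem cell2 {H : Type} [CommGroup H] (φ : ℕ+ →* H) (S : Set H) (F B : Finset ℕ)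
    (hpos : ∀ n ∈ F, 0 < n) (hB : ∀ n, n ∈ B ↔ n ∈ F ∧ φ n.toPNat' ∈ S) (x y : ℕ) (hx : 0 < x)
    (hy : 0 < y) (h : φ x.toPNat' = φ y.toPNat') (s : ℕ) (h1 : x * s ∈ F) (h2 : y * s ∈ F) :
    x * s ∈ B ↔ y * s ∈ B := by
  have hs : 0 < s := Nat.pos_of_ne_zero fun h0 => by
    have := hpos _ h1
    rw [h0, mul_zero] at this
    exact lt_irrefl 0 this
  rw [hB, hB, IFinN.toPNat_mul x s hx hs, IFinN.toPNat_mul y s hy hs, map_mul, map_mul, h]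
  exact ⟨fun h3 => ⟨h2, h3.2⟩, fun h3 => ⟨h1, h3.2⟩⟩

end XK

open XG XK in
/-- The finite form with pair counts. -/
theorem kPairs (hG : GenP) : KPairs := by
  intro H iH iF ε hε
  by_contra hcon
  have hcon' : ∀ j : ℕ, ∃ (φ : ℕ+ →* H) (S : Set H) (F B : Finset ℕ), F.Nonempty ∧
      (∀ n ∈ F, 0 < n) ∧ (∀ n, n ∈ B ↔ n ∈ F ∧ φ n.toPNat' ∈ S) ∧
      (∀ p ≤ j, p.Prime → (1 - 1 / ((j : ℝ) + 1)) * (F.card : ℝ) ≤
        ((F.filter fun n => p * n ∈ F).card : ℝ)) ∧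
      ∃ A : Fin ⌈2 / (ε / 3)⌉₊ → Finset ℕ, (∀ i, A i ⊆ B) ∧
      (∀ i j, i ≠ j → Disjoint (A i) (A j)) ∧
      ∀ x y z : ℕ, 0 < x → 0 < y → 0 < z → x ^ 2 + y ^ 2 = z ^ 2 → wt φ x y z →
        x ≤ j → y ≤ j → z ≤ j →
        (B.card : ℝ) * ∑ i, ((cc F (A i) x y : ℝ) + (cc F (A i) x z : ℝ) + (cc F (A i) y z : ℝ)) ≤
          3 * ∑ i, ((A i).card : ℝ) ^ 2 - ε / 2 * (F.card : ℝ) ^ 2 := by
    intro j
    by_contra hno
    apply hcon
    refine ⟨j, 1 / ((j : ℝ) + 1), by positivity,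
      fun φ S F B a1 a2 a3 a4 r A a5 a6 => ?_⟩
    by_contra a8
    have hBF : B ⊆ F := fun n hn => ((a3 n).1 hn).1
    obtain ⟨A', b1, b2, b3, b4⟩ := red3 (show 0 < ε / 3 by positivity) a1 hBF A a5 a6
    refine hno ⟨φ, S, F, B, a1, a2, a3, a4, A', b1, b2, ?_⟩
    intro x y z p1 p2 p3 p4 hwt hx hy hz
    by_contra c8
    refine a8 ⟨x, y, z, p1, hx, p2, hy, p3, hz, p4, hwt, ?_⟩
    have h1 := b4 (fun S => ((cc F S x y : ℝ) + (cc F S x z : ℝ) + (cc F S y z : ℝ)))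
      (fun S => by positivity) (by simp [cc])
    have h2 : (B.card : ℝ) *
        ∑ i, ((cc F (A' i) x y : ℝ) + (cc F (A' i) x z : ℝ) + (cc F (A' i) y z : ℝ)) ≤
        (B.card : ℝ) *
        ∑ i, ((cc F (A i) x y : ℝ) + (cc F (A i) x z : ℝ) + (cc F (A i) y z : ℝ)) :=
      mul_le_mul_of_nonneg_left h1 (Nat.cast_nonneg _)
    have h3 := not_le.1 c8
    nlinarith
  choose ψ S F B hne hpos hB hinv0 A hA hD hno using hcon'
  have hBF : ∀ j, B j ⊆ F j := fun j n hn => ((hB j n).1 hn).1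
  have hFo := XFinF.isFo_of hne hpos fun j p hp1 hp2 => hinv0 j p hp1 hp2
  obtain ⟨U, μ, d, β, hU, hFA, hlim, hd, hβ, hμA, hμB, hAA, hAB, hBB, -⟩ :=
    ulR ⌈2 / (ε / 3)⌉₊ F B A hFo hA hBF
  obtain ⟨φ, hφ⟩ := limHom U ψ
  have hwtE : ∀ x y z : ℕ, wt φ x y z → ∀ᶠ j in (U : Filter ℕ), wt (ψ j) x y z := by
    intro x y z h
    filter_upwards [hφ x.toPNat', hφ y.toPNat', hφ z.toPNat'] with j h1 h2 h3
    unfold wt
    rw [h1, h2, h3]
    exact h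
  have hcc : ∀ x y : ℕ, 0 < x → 0 < y → φ x.toPNat' = φ y.toPNat' →
      μ ({p | x * p.2 ∈ B p.1} ∩ {p | y * p.2 ∈ B p.1}) = β := by
    intro x y hx hy hxy
    refine cellE U hU F B hFo hBF μ hlim β hμB x y hx hy ?_
    filter_upwards [hφ x.toPNat', hφ y.toPNat'] with j h1 h2 s h3 h4
    exact cell2 (ψ j) (S j) (F j) (B j) (hpos j) (hB j) x y hx hy (by rw [h1, h2, hxy]) s h3 h4
  have hF : ∀ j, (0 : ℝ) < ((F j).card : ℝ) := fun j => by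
    exact_mod_cast (hne j).card_pos
  have hsub : ∀ i n, {p : ℕ × ℕ | n * p.2 ∈ A p.1 i} ⊆ {p : ℕ × ℕ | n * p.2 ∈ B p.1} :=
    fun i n p hp => hA p.1 i hp
  have hβ0 : 0 ≤ β := by rw [← hμB 1 one_pos]; exact hFA.nonneg _
  have hd0 : ∀ i, 0 ≤ d i := fun i => by rw [← hμA i 1 one_pos]; exact hFA.nonneg _
  have hdβ : ∀ i, d i ≤ β := fun i => by
    rw [← hμA i 1 one_pos, ← hμB 1 one_pos]
    exact XCou.fa_mono hFA (hsub i 1)
  -- the limit of the inequality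
  have hq' : ∀ (i : Fin ⌈2 / (ε / 3)⌉₊) (a b : ℕ),
      Tendsto (fun j => (cc (F j) (A j i) a b : ℝ) / ((F j).card : ℝ)) U
        (𝓝 (μ ({p : ℕ × ℕ | a * p.2 ∈ A p.1 i} ∩ {p | b * p.2 ∈ A p.1 i}))) := by
    intro i a b
    refine (hlim _).congr fun j => ?_
    rw [XUlm.qq_eq F ({p : ℕ × ℕ | a * p.2 ∈ A p.1 i} ∩ {p : ℕ × ℕ | b * p.2 ∈ A p.1 i}) j
      ((F j).filter fun s => a * s ∈ A j i ∧ b * s ∈ A j i) (fun s => Finset.mem_filter)]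
    rfl
  have hs2 : Tendsto (fun j => ∑ i, (((A j i).card : ℝ) / ((F j).card : ℝ)) ^ 2) U
      (𝓝 (∑ i, d i ^ 2)) := tendsto_finsetSum _ fun i _ => (hd i).pow 2
  have key : ∀ x y z : ℕ, 0 < x → 0 < y → 0 < z → x ^ 2 + y ^ 2 = z ^ 2 → wt φ x y z →
      β * ∑ i, (μ ({p : ℕ × ℕ | x * p.2 ∈ A p.1 i} ∩ {p | y * p.2 ∈ A p.1 i}) +
        μ ({p : ℕ × ℕ | x * p.2 ∈ A p.1 i} ∩ {p | z * p.2 ∈ A p.1 i}) +
        μ ({p : ℕ × ℕ | y * p.2 ∈ A p.1 i} ∩ {p | z * p.2 ∈ A p.1 i})) ≤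
      3 * ∑ i, d i ^ 2 - ε / 2 := by
    intro x y z p1 p2 p3 p4 hwt
    have hs3 : Tendsto (fun j => ∑ i, ((cc (F j) (A j i) x y : ℝ) / ((F j).card : ℝ) +
        (cc (F j) (A j i) x z : ℝ) / ((F j).card : ℝ) +
        (cc (F j) (A j i) y z : ℝ) / ((F j).card : ℝ))) U
        (𝓝 (∑ i, (μ ({p : ℕ × ℕ | x * p.2 ∈ A p.1 i} ∩ {p | y * p.2 ∈ A p.1 i}) +
          μ ({p : ℕ × ℕ | x * p.2 ∈ A p.1 i} ∩ {p | z * p.2 ∈ A p.1 i}) +
          μ ({p : ℕ × ℕ | y * p.2 ∈ A p.1 i} ∩ {p | z * p.2 ∈ A p.1 i})))) :=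
      tendsto_finsetSum _ fun i _ => ((hq' i x y).add (hq' i x z)).add (hq' i y z)
    refine le_of_tendsto_of_tendsto (hβ.mul hs3) ((hs2.const_mul 3).sub_const (ε / 2)) ?_
    have e2 : ∀ᶠ j in (U : Filter ℕ), max x (max y z) ≤ j := hU (eventually_ge_atTop _)
    filter_upwards [e2, hwtE x y z hwt] with j c2 c3
    have h := hno j x y z p1 p2 p3 p4 c3 (by omega) (by omega) (by omega)
    have hFF : 0 < ((F j).card : ℝ) ^ 2 := by
      have := hF j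
      positivity
    have q2 : ∑ i, ((A j i).card : ℝ) ^ 2 =
        (∑ i, (((A j i).card : ℝ) / ((F j).card : ℝ)) ^ 2) * ((F j).card : ℝ) ^ 2 := by
      rw [Finset.sum_mul]
      refine Finset.sum_congr rfl fun i _ => ?_
      have := (hF j).ne'
      field_simp
    have q3 : (((B j).card : ℝ) * ∑ i, ((cc (F j) (A j i) x y : ℝ) + (cc (F j) (A j i) x z : ℝ) +
        (cc (F j) (A j i) y z : ℝ))) = (((B j).card : ℝ) / ((F j).card : ℝ) *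
          ∑ i, ((cc (F j) (A j i) x y : ℝ) / ((F j).card : ℝ) +
        (cc (F j) (A j i) x z : ℝ) / ((F j).card : ℝ) +
        (cc (F j) (A j i) y z : ℝ) / ((F j).card : ℝ))) * ((F j).card : ℝ) ^ 2 := by
      rw [Finset.mul_sum, Finset.mul_sum, Finset.sum_mul]
      refine Finset.sum_congr rfl fun i _ => ?_
      have := (hF j).ne'
      field_simp
    rw [q2, q3] at h
    refine le_of_mul_le_mul_right ?_ hFF
    linarith
  -- the kernels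
  have hK : ∀ i, IsPK (ker μ (fun n => {p : ℕ × ℕ | n * p.2 ∈ A p.1 i})
      (fun n => {p : ℕ × ℕ | n * p.2 ∈ B p.1}) (d i) β) := fun i =>
    pr_PrK (ℕ × ℕ) μ hFA _ _ (d i) β (hsub i) (hμA i) hμB (hAA i) (hAB i) hBB
  rcases hβ0.eq_or_lt with hβz | hβp
  · have h0 : ∀ i, d i = 0 := fun i => le_antisymm (hβz ▸ hdβ i) (hd0 i)
    obtain ⟨x, y, z, p1, p2, p3, p4, hwt, -⟩ := hG H iH iF φ _ _ hK 1 one_pos
    have h1 := key x y z p1 p2 p3 p4 hwt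
    rw [← hβz, zero_mul] at h1
    simp only [h0] at h1
    have h2 : ∑ _i : Fin ⌈2 / (ε / 3)⌉₊, (0 : ℝ) ^ 2 = 0 := by simp
    rw [h2] at h1
    linarith
  · obtain ⟨x, y, z, p1, p2, p3, p4, hwt, hle⟩ :=
      hG H iH iF φ _ _ hK (β * (ε / 4)) (by positivity)
    have h1 := key x y z p1 p2 p3 p4 hwt
    have v : ∀ i (a b : ℕ), 0 < a → 0 < b → φ a.toPNat' = φ b.toPNat' →
        ker μ (fun n => {p : ℕ × ℕ | n * p.2 ∈ A p.1 i})
          (fun n => {p : ℕ × ℕ | n * p.2 ∈ B p.1}) (d i) β a b =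
        β ^ 2 * μ ({p : ℕ × ℕ | a * p.2 ∈ A p.1 i} ∩ {p | b * p.2 ∈ A p.1 i}) - β * d i ^ 2 :=
      fun i a b ha hb h => pr_KeV (ℕ × ℕ) μ hFA _ _ (d i) β a b (hsub i a) (hsub i b)
        (hμA i a ha) (hμA i b hb) (hμB a ha) (hμB b hb) (hcc a b ha hb h)
    have hle2 : -(β * (ε / 4)) ≤
        ∑ i, ((β ^ 2 * μ ({p : ℕ × ℕ | x * p.2 ∈ A p.1 i} ∩ {p | y * p.2 ∈ A p.1 i}) -
            β * d i ^ 2) +
          (β ^ 2 * μ ({p : ℕ × ℕ | x * p.2 ∈ A p.1 i} ∩ {p | z * p.2 ∈ A p.1 i}) -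
            β * d i ^ 2) +
          (β ^ 2 * μ ({p : ℕ × ℕ | y * p.2 ∈ A p.1 i} ∩ {p | z * p.2 ∈ A p.1 i}) -
            β * d i ^ 2)) := by
      refine hle.trans (le_of_eq (Finset.sum_congr rfl fun i _ => ?_))
      rw [v i x y p1 p2 hwt.1, v i x z p1 p3 (hwt.1.trans hwt.2), v i y z p2 p3 hwt.2]
    have hle3 : ∑ i, ((β ^ 2 * μ ({p : ℕ × ℕ | x * p.2 ∈ A p.1 i} ∩ {p | y * p.2 ∈ A p.1 i}) -
            β * d i ^ 2) +
          (β ^ 2 * μ ({p : ℕ × ℕ | x * p.2 ∈ A p.1 i} ∩ {p | z * p.2 ∈ A p.1 i}) -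
            β * d i ^ 2) +
          (β ^ 2 * μ ({p : ℕ × ℕ | y * p.2 ∈ A p.1 i} ∩ {p | z * p.2 ∈ A p.1 i}) -
            β * d i ^ 2)) =
        β * (β * ∑ i, (μ ({p : ℕ × ℕ | x * p.2 ∈ A p.1 i} ∩ {p | y * p.2 ∈ A p.1 i}) +
        μ ({p : ℕ × ℕ | x * p.2 ∈ A p.1 i} ∩ {p | z * p.2 ∈ A p.1 i}) +
        μ ({p : ℕ × ℕ | y * p.2 ∈ A p.1 i} ∩ {p | z * p.2 ∈ A p.1 i})) - 3 * ∑ i, d i ^ 2) := by
      rw [Finset.mul_sum, Finset.mul_sum, ← Finset.sum_sub_distrib, Finset.mul_sum]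
      refine Finset.sum_congr rfl fun i _ => ?_
      ring
    rw [hle3] at hle2
    have h5 : β * (-(ε / 4)) ≤
        β * (β * ∑ i, (μ ({p : ℕ × ℕ | x * p.2 ∈ A p.1 i} ∩ {p | y * p.2 ∈ A p.1 i}) +
        μ ({p : ℕ × ℕ | x * p.2 ∈ A p.1 i} ∩ {p | z * p.2 ∈ A p.1 i}) +
        μ ({p : ℕ × ℕ | y * p.2 ∈ A p.1 i} ∩ {p | z * p.2 ∈ A p.1 i})) - 3 * ∑ i, d i ^ 2) := by
      linarith
    have h6 := le_of_mul_le_mul_left h5 hβp
    linarith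

namespace XK

/-- few elements of `F` leave `F` -/
theorem bad_le (F : Finset ℕ) (k : ℕ) (δ : ℝ) (hδ : 0 ≤ δ)
    (h : ∀ p ≤ k, p.Prime → (1 - δ) * (F.card : ℝ) ≤ ((F.filter fun n => p * n ∈ F).card : ℝ)) :
    ∀ n : ℕ, 0 < n → n ≤ k → (XFinF.bad F n : ℝ) ≤ ((n : ℝ) - 1) * (δ * (F.card : ℝ)) := by
  have hc : 0 ≤ δ * (F.card : ℝ) := mul_nonneg hδ (Nat.cast_nonneg _)
  intro n
  induction n using Nat.recOnMul with
  | zero => intro h0; exact absurd h0 (lt_irrefl 0)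
  | one =>
    intro _ _
    simp [XFinF.bad_one]
  | prime p hp =>
    intro _ hpk
    have h2 := h p hpk hp
    have h3 : (((F.filter fun k => p * k ∈ F).card : ℝ)) + (XFinF.bad F p : ℝ) =
        (F.card : ℝ) := by exact_mod_cast XFinF.bad_add F p
    have h4 : (2 : ℝ) ≤ p := by exact_mod_cast hp.two_le
    nlinarith
  | mul a b iha ihb =>
    intro hab hk
    have ha : 0 < a := Nat.pos_of_mul_pos_right hab
    have hb : 0 < b := Nat.pos_of_mul_pos_left hab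
    have ha1 : (1 : ℝ) ≤ a := by exact_mod_cast ha
    have hb1 : (1 : ℝ) ≤ b := by exact_mod_cast hb
    have h1 := iha ha (le_trans (Nat.le_mul_of_pos_right a hb) hk)
    have h2 := ihb hb (le_trans (Nat.le_mul_of_pos_left b ha) hk)
    have h3 : (XFinF.bad F (a * b) : ℝ) ≤ (XFinF.bad F a : ℝ) + (XFinF.bad F b : ℝ) := by
      exact_mod_cast XFinF.bad_mul F a b ha
    have h4 : ((a : ℝ) - 1) + ((b : ℝ) - 1) ≤ ((a * b : ℕ) : ℝ) - 1 := by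
      push_cast
      nlinarith
    have h5 := mul_le_mul_of_nonneg_right h4 hc
    linarith

lemma fin2 {Q S c m P e f a : ℝ} (hc : 0 ≤ c) (hm : 0 ≤ m) (ha : 0 ≤ a)
    (hcf : c * a ≤ e * f)
    (hle : 3 * Q - e * f ≤ c * P)
    (b1 : P ≤ c + a + 2 * m) (b2 : 2 * P ≤ 3 * S + 3 * m) :
    3 / 2 * (Q - min (c ^ 2 / 3) (c * S / 2) - e * f) ≤ c * m := by
  have hcm : 0 ≤ c * m := mul_nonneg hc hm
  have hef : 0 ≤ e * f := le_trans (mul_nonneg hc ha) hcf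
  rcases min_choice (c ^ 2 / 3) (c * S / 2) with h6 | h6
  · rw [h6]
    have h7 := mul_le_mul_of_nonneg_left b1 hc
    nlinarith
  · rw [h6]
    have h7 := mul_le_mul_of_nonneg_left b2 hc
    by_cases h10 : 0 ≤ Q - c * S / 2 - e * f
    · nlinarith
    · push Not at h10
      linarith

end XK

open scoped Classical in
open XFinG XG XK in
/-- The finite form with counts. -/
theorem kCntN (hP : KPairs) : KCntN := by
  intro H iH iF ε hε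
  obtain ⟨k, δ', hδ', hk⟩ := hP H iH iF ε hε
  obtain ⟨δ, hδ, hδ1, hδ2⟩ : ∃ δ : ℝ, 0 < δ ∧ δ ≤ δ' ∧ (k : ℝ) * δ ≤ ε := by
    refine ⟨min δ' (ε / ((k : ℝ) + 1)), lt_min hδ' (by positivity), min_le_left _ _, ?_⟩
    have h1 : min δ' (ε / ((k : ℝ) + 1)) ≤ ε / ((k : ℝ) + 1) := min_le_right _ _
    have h2 : (0 : ℝ) ≤ k := Nat.cast_nonneg k
    have h3 := mul_le_mul_of_nonneg_left h1 h2
    have h4 : (k : ℝ) * (ε / ((k : ℝ) + 1)) ≤ ε := by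
      rw [mul_div_assoc', div_le_iff₀ (by positivity)]
      nlinarith
    linarith
  refine ⟨k, δ, hδ, fun φ S F B a1 a2 a3 a4 r A hA hd => ?_⟩
  have hF0 : (0 : ℝ) ≤ (F.card : ℝ) := Nat.cast_nonneg _
  obtain ⟨x, y, z, c1, c2, c3, c4, c5, c6, c7, hwt, hle⟩ :=
    hk φ S F B a1 a2 a3 (fun p hp1 hp2 => le_trans (by nlinarith) (a4 p hp1 hp2)) r A hA hd
  refine ⟨x, y, z, c1, c2, c3, c4, c5, c6, c7, hwt, ?_⟩
  have hBF : B ⊆ F := fun n hn => ((a3 n).1 hn).1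
  have uq : ∀ (m : ℕ) (i j : Fin r), m ∈ A i → m ∈ A j → i = j := by
    intro m i j h1 h2
    by_contra h
    exact (Finset.disjoint_left.1 (hd i j h)) h1 h2
  -- the cell that `x, y, z` map into `B`
  obtain ⟨C, hC⟩ : ∃ C : Finset ℕ, C = F.filter fun n => φ x.toPNat' * φ n.toPNat' ∈ S := ⟨_, rfl⟩
  have hCF : C ⊆ F := by rw [hC]; exact Finset.filter_subset _ _
  have hcell : ∀ (a : ℕ), 0 < a → φ x.toPNat' = φ a.toPNat' → ∀ n ∈ F, a * n ∈ B → n ∈ C := by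
    intro a ha hφa n hn han
    have h1 := ((a3 _).1 han).2
    rw [IFinN.toPNat_mul a n ha (a2 n hn), map_mul, ← hφa] at h1
    rw [hC, Finset.mem_filter]
    exact ⟨hn, h1⟩
  have hCB : (C.card : ℝ) ≤ (B.card : ℝ) + ε * (F.card : ℝ) := by
    have h1 : C ⊆ (F.filter fun n => x * n ∈ B) ∪ (F.filter fun n => x * n ∉ F) := by
      intro n hn
      rw [hC, Finset.mem_filter] at hn
      rw [Finset.mem_union, Finset.mem_filter, Finset.mem_filter]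
      by_cases h : x * n ∈ F
      · left
        refine ⟨hn.1, (a3 _).2 ⟨h, ?_⟩⟩
        rw [IFinN.toPNat_mul x n c1 (a2 n hn.1), map_mul]
        exact hn.2
      · right
        exact ⟨hn.1, h⟩
    have h2 : C.card ≤ (F.filter fun n => x * n ∈ B).card + XFinF.bad F x :=
      (Finset.card_le_card h1).trans (Finset.card_union_le _ _)
    have h3 : (F.filter fun n => x * n ∈ B).card ≤ B.card := (XUlm.shift F B hBF x c1).1
    have h4 := bad_le F k δ hδ.le a4 x c1 c2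
    have h5 : (C.card : ℝ) ≤ (B.card : ℝ) + (XFinF.bad F x : ℝ) := by
      exact_mod_cast h2.trans (by omega)
    have h6 : (x : ℝ) ≤ k := by exact_mod_cast c2
    have h7 : ((x : ℝ) - 1) * (δ * (F.card : ℝ)) ≤ ε * (F.card : ℝ) := by
      have h8 : ((x : ℝ) - 1) * δ ≤ ε := by nlinarith
      calc ((x : ℝ) - 1) * (δ * (F.card : ℝ)) = (((x : ℝ) - 1) * δ) * (F.card : ℝ) := by ring
        _ ≤ ε * (F.card : ℝ) := mul_le_mul_of_nonneg_right h8 hF0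
    linarith
  set m : ℝ := ((F.filter fun n => ∃ i, x * n ∈ A i ∧ y * n ∈ A i ∧ z * n ∈ A i).card : ℝ) with hm
  have hm0 : 0 ≤ m := Nat.cast_nonneg _
  have hm1 : m = ∑ n ∈ F, ind (∃ i, x * n ∈ A i ∧ y * n ∈ A i ∧ z * n ∈ A i) := by
    rw [hm, ← card_ind F fun n => ∃ i, x * n ∈ A i ∧ y * n ∈ A i ∧ z * n ∈ A i]
  set P : ℝ := ∑ i, ((cc F (A i) x y : ℝ) + (cc F (A i) x z : ℝ) + (cc F (A i) y z : ℝ)) with hPd
  have hcc : ∀ a b : ℕ, ∑ i, (cc F (A i) a b : ℝ) =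
      ∑ n ∈ F, ind (∃ i, a * n ∈ A i ∧ b * n ∈ A i) := by
    intro a b
    have h1 : ∀ i, (cc F (A i) a b : ℝ) = ∑ n ∈ F, ind (a * n ∈ A i ∧ b * n ∈ A i) := fun i => by
      unfold cc
      exact card_ind F _
    rw [Finset.sum_congr rfl fun i _ => h1 i, Finset.sum_comm]
    refine Finset.sum_congr rfl fun n _ => ?_
    exact sum_ind _ fun i j h2 h3 => uq _ i j h2.1 h3.1
  have hP1 : P = ∑ n ∈ F, (ind (∃ i, x * n ∈ A i ∧ y * n ∈ A i) +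
      ind (∃ i, x * n ∈ A i ∧ z * n ∈ A i) + ind (∃ i, y * n ∈ A i ∧ z * n ∈ A i)) := by
    rw [hPd, Finset.sum_add_distrib, Finset.sum_add_distrib, hcc, hcc, hcc,
      Finset.sum_add_distrib, Finset.sum_add_distrib]
  have t1 : ∀ n : ℕ, (∃ i, x * n ∈ A i ∧ y * n ∈ A i) → (∃ i, x * n ∈ A i ∧ z * n ∈ A i) →
      ∃ i, x * n ∈ A i ∧ y * n ∈ A i ∧ z * n ∈ A i := by
    rintro n ⟨i, h1, h2⟩ ⟨j, h3, h4⟩
    have h5 := uq _ i j h1 h3
    rw [← h5] at h4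
    exact ⟨i, h1, h2, h4⟩
  have t2 : ∀ n : ℕ, (∃ i, x * n ∈ A i ∧ y * n ∈ A i) → (∃ i, y * n ∈ A i ∧ z * n ∈ A i) →
      ∃ i, x * n ∈ A i ∧ y * n ∈ A i ∧ z * n ∈ A i := by
    rintro n ⟨i, h1, h2⟩ ⟨j, h3, h4⟩
    have h5 := uq _ i j h2 h3
    rw [← h5] at h4
    exact ⟨i, h1, h2, h4⟩
  have t3 : ∀ n : ℕ, (∃ i, x * n ∈ A i ∧ z * n ∈ A i) → (∃ i, y * n ∈ A i ∧ z * n ∈ A i) →
      ∃ i, x * n ∈ A i ∧ y * n ∈ A i ∧ z * n ∈ A i := by
    rintro n ⟨i, h1, h2⟩ ⟨j, h3, h4⟩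
    have h5 := uq _ i j h2 h4
    rw [← h5] at h3
    exact ⟨i, h1, h3, h2⟩
  have b0 : P ≤ (C.card : ℝ) + 2 * m := by
    rw [hP1, hm1]
    have hb : (C.card : ℝ) = ∑ n ∈ F, ind (n ∈ C) := by
      rw [← card_ind F fun n => n ∈ C]
      congr 2
      ext n
      rw [Finset.mem_filter]
      exact ⟨fun h => ⟨hCF h, h⟩, fun h => h.2⟩
    rw [hb, Finset.mul_sum, ← Finset.sum_add_distrib]
    refine Finset.sum_le_sum fun n hn => ?_
    by_cases hnB : n ∈ C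
    · rw [ind_pos hnB]
      exact pt1 (t1 n) (t2 n) (t3 n)
    · have w1 : ¬ ∃ i, x * n ∈ A i ∧ y * n ∈ A i := by
        rintro ⟨i, h1, -⟩
        exact hnB (hcell x c1 rfl n hn (hA i h1))
      have w2 : ¬ ∃ i, x * n ∈ A i ∧ z * n ∈ A i := by
        rintro ⟨i, h1, -⟩
        exact hnB (hcell x c1 rfl n hn (hA i h1))
      have w3 : ¬ ∃ i, y * n ∈ A i ∧ z * n ∈ A i := by
        rintro ⟨i, h1, -⟩
        exact hnB (hcell y c3 hwt.1 n hn (hA i h1))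
      rw [ind_neg w1, ind_neg w2, ind_neg w3, ind_neg hnB]
      have := ind_nonneg (∃ i, x * n ∈ A i ∧ y * n ∈ A i ∧ z * n ∈ A i)
      linarith
  have hone : ∀ a : ℕ, 0 < a → ∑ n ∈ F, ind (∃ i, a * n ∈ A i) ≤ ∑ i, ((A i).card : ℝ) := by
    intro a ha
    have h1 : ∀ n ∈ F, ind (∃ i, a * n ∈ A i) = ∑ i, ind (a * n ∈ A i) := fun n _ =>
      (sum_ind _ fun i j h2 h3 => uq _ i j h2 h3).symm
    rw [Finset.sum_congr rfl h1, Finset.sum_comm]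
    refine Finset.sum_le_sum fun i _ => ?_
    rw [← card_ind F fun n => a * n ∈ A i]
    exact_mod_cast (XUlm.shift F (A i) ((hA i).trans hBF) a ha).1
  have b2 : 2 * P ≤ 3 * ∑ i, ((A i).card : ℝ) + 3 * m := by
    have h1 : 2 * P ≤ ∑ n ∈ F, (ind (∃ i, x * n ∈ A i) + ind (∃ i, y * n ∈ A i) +
        ind (∃ i, z * n ∈ A i) +
        3 * ind (∃ i, x * n ∈ A i ∧ y * n ∈ A i ∧ z * n ∈ A i)) := by
      rw [hP1, Finset.mul_sum]
      refine Finset.sum_le_sum fun n _ => pt2 (t1 n) (t2 n) (t3 n) ?_ ?_ ?_ ?_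
      · rintro ⟨i, h1, h2⟩; exact ⟨⟨i, h1⟩, ⟨i, h2⟩⟩
      · rintro ⟨i, h1, h2⟩; exact ⟨⟨i, h1⟩, ⟨i, h2⟩⟩
      · rintro ⟨i, h1, h2⟩; exact ⟨⟨i, h1⟩, ⟨i, h2⟩⟩
      · rintro ⟨i, h1, h2, h3⟩; exact ⟨⟨i, h1⟩, ⟨i, h2⟩, ⟨i, h3⟩⟩
    rw [Finset.sum_add_distrib, Finset.sum_add_distrib, Finset.sum_add_distrib, ← Finset.mul_sum,
      ← hm1] at h1
    have h2 := hone x c1
    have h3 := hone y c3
    have h4 := hone z c5
    linarith
  have b1 : P ≤ (B.card : ℝ) + ε * (F.card : ℝ) + 2 * m := by linarith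
  have hBF' : (B.card : ℝ) ≤ (F.card : ℝ) := by exact_mod_cast Finset.card_le_card hBF
  have hcf : (B.card : ℝ) * (ε * (F.card : ℝ)) ≤ ε * (F.card : ℝ) ^ 2 := by
    have h1 := mul_le_mul_of_nonneg_right hBF' (mul_nonneg hε.le hF0)
    linarith
  exact XK.fin2 (Nat.cast_nonneg _) hm0 (mul_nonneg hε.le hF0) hcf hle b1 b2

open scoped Classical in
open IFinP in
/-- Transport to positive integers. -/
theorem kCnt (h : KCntN) : KCnt := by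
  intro G iG iF ε hε
  obtain ⟨k, δ, hδ, H⟩ := h G iG iF ε hε
  refine ⟨k, δ, hδ, ?_⟩
  intro φ S F B hF hB hd r A hA hdis
  obtain ⟨x, y, z, c1, c2, c3, c4, c5, c6, c7, hwt, hle⟩ :=
    H φ S (F.map IFinP.cc) (B.map IFinP.cc)
    (Finset.map_nonempty.2 hF) (by
      intro n hn
      obtain ⟨m, _, rfl⟩ := (mem_cc' F n).1 hn
      exact m.pos) (by
      intro n
      rw [mem_cc', mem_cc']
      constructor
      · rintro ⟨m, hm, rfl⟩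
        have := (hB m).1 hm
        refine ⟨⟨m, this.1, rfl⟩, ?_⟩
        rw [PNat.coe_toPNat']
        exact this.2
      · rintro ⟨⟨m, hm, rfl⟩, h2⟩
        rw [PNat.coe_toPNat'] at h2
        exact ⟨m, (hB m).2 ⟨hm, h2⟩, rfl⟩) (by
      intro p hp hpp
      have h1 := hd ⟨p, hpp.pos⟩ hp hpp
      rw [Finset.card_map]
      have h2 := card_filt F ⟨p, hpp.pos⟩
      rw [← h2] at h1
      exact h1) r (fun i => (A i).map IFinP.cc) (fun i => Finset.map_subset_map.2 (hA i))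
    (fun i j hij => (Finset.disjoint_map IFinP.cc).2 (hdis i j hij))
  lift x to ℕ+ using c1
  lift y to ℕ+ using c3
  lift z to ℕ+ using c5
  obtain ⟨u1, u2⟩ := hwt
  rw [PNat.coe_toPNat', PNat.coe_toPNat'] at u1 u2
  refine ⟨x, y, z, c2, c4, c6, PNat.eq (by push_cast; exact c7), u1, u2, ?_⟩
  simp only [Finset.card_map] at hle
  have hcard : ((F.map IFinP.cc).filter fun n => ∃ i, (x : ℕ) * n ∈ (A i).map IFinP.cc ∧
      (y : ℕ) * n ∈ (A i).map IFinP.cc ∧ (z : ℕ) * n ∈ (A i).map IFinP.cc).card =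
      (F.filter fun n => ∃ i, x * n ∈ A i ∧ y * n ∈ A i ∧ z * n ∈ A i).card := by
    have h : ((F.map IFinP.cc).filter fun n => ∃ i, (x : ℕ) * n ∈ (A i).map IFinP.cc ∧
      (y : ℕ) * n ∈ (A i).map IFinP.cc ∧ (z : ℕ) * n ∈ (A i).map IFinP.cc) =
        (F.filter fun n => ∃ i, x * n ∈ A i ∧ y * n ∈ A i ∧ z * n ∈ A i).map IFinP.cc := by
      ext n
      rw [Finset.mem_filter, mem_cc' F n, mem_cc' _ n]
      constructor
      · rintro ⟨⟨m, hm, rfl⟩, i, h2, h3, h4⟩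
        refine ⟨m, Finset.mem_filter.2 ⟨hm, i, ?_, ?_, ?_⟩, rfl⟩
        · rw [← PNat.mul_coe, mem_cc] at h2
          exact h2
        · rw [← PNat.mul_coe, mem_cc] at h3
          exact h3
        · rw [← PNat.mul_coe, mem_cc] at h4
          exact h4
      · rintro ⟨m, hm, rfl⟩
        rw [Finset.mem_filter] at hm
        obtain ⟨hm1, i, h2, h3, h4⟩ := hm
        refine ⟨⟨m, hm1, rfl⟩, i, ?_, ?_, ?_⟩
        · rw [← PNat.mul_coe, mem_cc]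
          exact h2
        · rw [← PNat.mul_coe, mem_cc]
          exact h3
        · rw [← PNat.mul_coe, mem_cc]
          exact h4
    rw [h, Finset.card_map]
  rw [← hcard]
  convert hle using 2

/-- the final form from the inequality for kernels -/
theorem kCnt_of (hG : GenP) : KCnt := kCnt (kCntN (kPairs hG))

end Pool.Agent.F0f91f8.KR
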