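import Pool.Agent.Work.MP_0f91f8_co.RC.FinG

/-!
# Kronecker form of the collision theorem: the limit process
-/

set_option autoImplicit false

open Filter Topology MeasureTheory

noncomputable section

namespace Pool.Agent.F0f91f8.KR

open Pool.Agent.F0f91f8.HD Pool.Agent.F0f91f8.RC
open Pool.Agent.Work.MP_0f91f8_co.EF

namespace XLimQ

theorem uniqU (U : Ultrafilter ℕ) (f g e : ℕ → ℝ) (x y : ℝ) (hf : Tendsto f U (𝓝 x))
    (hg : Tendsto g U (𝓝 y)) (he : Tendsto e U (𝓝 0))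
    (h : ∀ᶠ j in (U : Filter ℕ), |f j - g j| ≤ e j) : x = y := by
  have h1 : Tendsto (fun j => f j - g j) U (𝓝 0) :=
    squeeze_zero_norm' (h.mono fun j hj => by rw [Real.norm_eq_abs]; exact hj) he
  have h2 : Tendsto (fun j => f j - g j) U (𝓝 (x - y)) := hf.sub hg
  have h3 := tendsto_nhds_unique h1 h2
  linarith

/-- a sequence of homomorphisms into a finite group converges along an ultrafilter -/
theorem limHom (U : Ultrafilter ℕ) {H : Type} [CommGroup H] [Finite H] (φ : ℕ → ℕ+ →* H) :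
    ∃ ψ : ℕ+ →* H, ∀ n, ∀ᶠ j in (U : Filter ℕ), φ j n = ψ n := by
  have h1 : ∀ n : ℕ+, ∃ h : H, ∀ᶠ j in (U : Filter ℕ), φ j n = h := by
    intro n
    obtain ⟨h, hh⟩ := (U.map fun j => φ j n).eq_pure_of_finite
    refine ⟨h, ?_⟩
    have h2 : ({h} : Set H) ∈ (U.map fun j => φ j n) := by
      rw [hh]
      exact Filter.mem_pure.2 rfl
    exact h2
  choose ψ hψ using h1
  refine ⟨{ toFun := ψ, map_one' := ?_, map_mul' := ?_ }, hψ⟩
  · obtain ⟨j, hj⟩ := (hψ 1).exists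
    rw [← hj, map_one]
  · intro a b
    obtain ⟨j, ⟨hj1, hj2⟩, hj3⟩ := (((hψ (a * b)).and (hψ a)).and (hψ b)).exists
    rw [← hj1, ← hj2, ← hj3, map_mul]

open scoped Classical in
open Pool.Agent.Work.MP_0f91f8_co.EF.XUlm in
theorem ulK (r : ℕ) (F B : ℕ → Finset ℕ) (A : ℕ → Fin r → Finset ℕ) (hFo : IsFo F)
    (hAB : ∀ j i, A j i ⊆ B j) (hBF : ∀ j, B j ⊆ F j) :
  ∃ (U : Ultrafilter ℕ) (μ : Set (ℕ × ℕ) → ℝ) (d : Fin r → ℝ) (β : ℝ), (U : Filter ℕ) ≤ atTop ∧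
    IsFA μ ∧ (∀ S, Tendsto (qq F S) U (𝓝 (μ S))) ∧
    (∀ i, Tendsto (fun j => ((A j i).card : ℝ) / ((F j).card : ℝ)) U (𝓝 (d i))) ∧
    Tendsto (fun j => ((B j).card : ℝ) / ((F j).card : ℝ)) U (𝓝 β) ∧
    (∀ i n, 0 < n → μ {p | n * p.2 ∈ A p.1 i} = d i) ∧
    (∀ n, 0 < n → μ {p | n * p.2 ∈ B p.1} = β) ∧
    (∀ i k a b, 0 < k → 0 < a → 0 < b →
      μ ({p | k * a * p.2 ∈ A p.1 i} ∩ {p | k * b * p.2 ∈ A p.1 i}) =
        μ ({p | a * p.2 ∈ A p.1 i} ∩ {p | b * p.2 ∈ A p.1 i})) ∧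
    (∀ i k a b, 0 < k → 0 < a → 0 < b →
      μ ({p | k * a * p.2 ∈ A p.1 i} ∩ {p | k * b * p.2 ∈ B p.1}) =
        μ ({p | a * p.2 ∈ A p.1 i} ∩ {p | b * p.2 ∈ B p.1})) ∧
    (∀ k a b, 0 < k → 0 < a → 0 < b →
      μ ({p | k * a * p.2 ∈ B p.1} ∩ {p | k * b * p.2 ∈ B p.1}) =
        μ ({p | a * p.2 ∈ B p.1} ∩ {p | b * p.2 ∈ B p.1})) ∧
    ∀ x y, 0 < x → 0 < y →
      (∀ᶠ j in (U : Filter ℕ), ∀ s, x * s ∈ F j → y * s ∈ F j → (x * s ∈ B j ↔ y * s ∈ B j)) →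
      μ ({p | x * p.2 ∈ B p.1} ∩ {p | y * p.2 ∈ B p.1}) = β := by
  have hAF : ∀ j i, A j i ⊆ F j := fun j i => (hAB j i).trans (hBF j)
  have hFne : ∀ j, 0 < (F j).card := fun j => Finset.card_pos.2 (hFo.ne j)
  have hFR : ∀ j, (0 : ℝ) < (F j).card := fun j => by exact_mod_cast hFne j
  obtain ⟨U, hU⟩ : ∃ U : Ultrafilter ℕ, (U : Filter ℕ) ≤ atTop :=
    ⟨Ultrafilter.of atTop, Ultrafilter.of_le atTop⟩
  choose μ hμ hμl using fun S : Set (ℕ × ℕ) => ulim U (qq F S) (qq_mem F S)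
  have hdm : ∀ i j, ((A j i).card : ℝ) / ((F j).card : ℝ) ∈ Set.Icc (0 : ℝ) 1 := by
    intro i j
    refine ⟨by positivity, div_le_one_of_le₀ ?_ (by positivity)⟩
    exact_mod_cast Finset.card_le_card (hAF j i)
  have hbm : ∀ j, ((B j).card : ℝ) / ((F j).card : ℝ) ∈ Set.Icc (0 : ℝ) 1 := by
    intro j
    refine ⟨by positivity, div_le_one_of_le₀ ?_ (by positivity)⟩
    exact_mod_cast Finset.card_le_card (hBF j)
  choose d hd hdl using fun i : Fin r => ulim U (fun j => ((A j i).card : ℝ) / ((F j).card : ℝ))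
    (hdm i)
  obtain ⟨β, -, hβl⟩ := ulim U (fun j => ((B j).card : ℝ) / ((F j).card : ℝ)) hbm
  have hdef : ∀ n : ℕ, 0 < n → Tendsto (fun j => 1 - (((F j).filter fun k => n * k ∈ F j).card : ℝ) /
      ((F j).card : ℝ)) U (𝓝 0) := by
    intro n hn
    have h1 := (hFo.lim n hn).mono_left hU
    have h2 := h1.const_sub 1
    rw [sub_self] at h2
    exact h2
  have hone : ∀ (T : ℕ → Finset ℕ) (δ : ℝ), (∀ j, T j ⊆ F j) →
      Tendsto (fun j => ((T j).card : ℝ) / ((F j).card : ℝ)) U (𝓝 δ) → ∀ n : ℕ, 0 < n →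
      μ {p | n * p.2 ∈ T p.1} = δ := by
    intro T δ hT hTl n hn
    refine uniq U _ _ _ _ _ (hμl _) hTl (hdef n hn) fun j => ?_
    have h1 := shift (F j) (T j) (hT j) n hn
    rw [qq_eq F {p : ℕ × ℕ | n * p.2 ∈ T p.1} j ((F j).filter fun s => n * s ∈ T j)
      (fun s => Finset.mem_filter)]
    have h3 : ((F j).filter fun s => n * s ∈ F j).card ≤ (F j).card := Finset.card_filter_le _ _
    exact absd _ _ _ _ (hFne j) (by omega) (by omega)
  have htwo : ∀ (T T' : ℕ → Finset ℕ) (k a b : ℕ), 0 < k →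
      μ ({p | k * a * p.2 ∈ T p.1} ∩ {p | k * b * p.2 ∈ T' p.1}) =
        μ ({p | a * p.2 ∈ T p.1} ∩ {p | b * p.2 ∈ T' p.1}) := by
    intro T T' k a b hk
    refine uniq U _ _ _ _ _ (hμl _) (hμl _) (hdef k hk) fun j => ?_
    have h1 := IUlR.pair (F j) (T j) (T' j) a b k hk
    rw [qq_eq F ({p : ℕ × ℕ | k * a * p.2 ∈ T p.1} ∩ {p : ℕ × ℕ | k * b * p.2 ∈ T' p.1}) j
      ((F j).filter fun s => k * a * s ∈ T j ∧ k * b * s ∈ T' j) (fun s => Finset.mem_filter),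
      qq_eq F ({p : ℕ × ℕ | a * p.2 ∈ T p.1} ∩ {p : ℕ × ℕ | b * p.2 ∈ T' p.1}) j
      ((F j).filter fun s => a * s ∈ T j ∧ b * s ∈ T' j) (fun s => Finset.mem_filter)]
    exact absd _ _ _ _ (hFne j) h1.1 h1.2
  refine ⟨U, μ, d, β, hU, ⟨fun S => (hμ S).1, ?_, ?_⟩, hμl, hdl, hβl, ?_, ?_, ?_, ?_, ?_, ?_⟩
  · refine tendsto_nhds_unique (hμl Set.univ) ?_
    have h1 : qq F Set.univ = fun _ => (1 : ℝ) := by
      funext j
      unfold qq
      simp only [Set.mem_univ, Finset.filter_true]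
      exact div_self (hFR j).ne'
    rw [h1]
    exact tendsto_const_nhds
  · intro S T hST
    refine tendsto_nhds_unique (hμl (S ∪ T)) ?_
    have h1 : qq F (S ∪ T) = fun j => qq F S j + qq F T j := by
      funext j
      unfold qq
      rw [← add_div]
      congr 1
      rw [← Nat.cast_add, ← Finset.card_union_of_disjoint]
      · congr 2
        ext s
        simp only [Finset.mem_filter, Finset.mem_union, Set.mem_union]
        tauto
      · rw [Finset.disjoint_left]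
        intro s hs hs'
        exact Set.disjoint_left.1 hST (Finset.mem_filter.1 hs).2 (Finset.mem_filter.1 hs').2
    rw [h1]
    exact (hμl S).add (hμl T)
  · exact fun i n hn => hone (fun j => A j i) (d i) (fun j => hAF j i) (hdl i) n hn
  · exact fun n hn => hone B β hBF hβl n hn
  · exact fun i k a b hk _ _ => htwo (fun j => A j i) (fun j => A j i) k a b hk
  · exact fun i k a b hk _ _ => htwo (fun j => A j i) B k a b hk
  · exact fun k a b hk _ _ => htwo B B k a b hk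
  · intro x y hx hy hxy
    have h0 : μ {p | x * p.2 ∈ B p.1} = β := hone B β hBF hβl x hx
    rw [← h0]
    refine uniqU U _ _ _ _ _ (hμl _) (hμl _) (hdef y hy) (hxy.mono fun j hj => ?_)
    have h1 := IUlR.cell (F j) (B j) x y (hBF j) hj
    rw [qq_eq F ({p : ℕ × ℕ | x * p.2 ∈ B p.1} ∩ {p : ℕ × ℕ | y * p.2 ∈ B p.1}) j
      ((F j).filter fun s => x * s ∈ B j ∧ y * s ∈ B j) (fun s => Finset.mem_filter),
      qq_eq F {p : ℕ × ℕ | x * p.2 ∈ B p.1} j
      ((F j).filter fun s => x * s ∈ B j) (fun s => Finset.mem_filter)]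
    have h3 : ((F j).filter fun s => y * s ∈ F j).card ≤ (F j).card := Finset.card_filter_le _ _
    exact absd _ _ _ _ (hFne j) (by omega) h1.2

end XLimQ

end Pool.Agent.F0f91f8.KR
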