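import Mathlib

/-!
# Kronecker form of the collision theorem: separation of a finite subgroup

An abelian group `H` of exponent `E`, a subgroup `K` with at most `N` elements: there is a
homomorphism from `H` into the fixed finite group `(ℤ/E)^N` which is injective on `K`.
-/

set_option autoImplicit false

namespace Pool.Agent.F0f91f8.KR

/-- the elements of `ℚ/ℤ` killed by `E` -/
abbrev TE (E : ℕ) : Type :=
  (nsmulAddMonoidHom (α := AddCircle (1 : ℚ)) E).ker

instance finite_TE (E : ℕ) [NeZero E] : Finite (TE E) := by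
  have h : ({u : AddCircle (1 : ℚ) | E • u = 0}).Finite := by
    refine Set.Finite.subset (Set.finite_range fun m : Fin E =>
      (((((m : ℕ) : ℚ) / (E : ℚ) * 1 : ℚ)) : AddCircle (1 : ℚ))) ?_
    intro u hu
    obtain ⟨m, hm, hmu⟩ := (AddCircle.nsmul_eq_zero_iff (p := (1 : ℚ)) (NeZero.pos E)).1 hu
    exact ⟨⟨m, hm⟩, hmu⟩
  exact Set.Finite.subset h fun u hu => hu

/-- characters of exponent `E` -/
theorem exists_char {H : Type} [CommGroup H] (E : ℕ) (hE : ∀ h : H, h ^ E = 1) (h : H)
    (hh : h ≠ 1) : ∃ χ : H →* Multiplicative (TE E), χ h ≠ 1 := by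
  have h0 : Additive.ofMul h ≠ 0 := fun h' => hh (Additive.ofMul.injective h')
  obtain ⟨c, hc⟩ := CharacterModule.exists_character_apply_ne_zero_of_ne_zero h0
  have hker : ∀ a : Additive H, E • c a = 0 := by
    intro a
    rw [← map_nsmul]
    have h1 : E • a = 0 := by
      apply Additive.toMul.injective
      rw [toMul_nsmul, toMul_zero]
      exact hE _
    rw [h1, map_zero]
  let c' : Additive H →+ TE E :=
    AddMonoidHom.codRestrict (c : Additive H →+ AddCircle (1 : ℚ)) _ fun a => hker a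
  refine ⟨AddMonoidHom.toMultiplicativeRight c', fun h' => hc ?_⟩
  have h2 : c' (Additive.ofMul h) = 0 := Multiplicative.ofAdd.injective h'
  exact congrArg Subtype.val h2

/-- the fixed finite group -/
abbrev GE (E N : ℕ) : Type := Fin N → Multiplicative (TE E)

theorem exists_sep {H : Type} [CommGroup H] (E N : ℕ) (hE : ∀ h : H, h ^ E = 1)
    (K : Subgroup H) (hK : Finite K) (hN : Nat.card K ≤ N) :
    ∃ ρ : H →* GE E N, ∀ h ∈ K, ρ h = 1 → h = 1 := by
  classical
  have hch : ∀ h : H, ∃ χ : H →* Multiplicative (TE E), h ≠ 1 → χ h ≠ 1 := by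
    intro h
    by_cases hh : h = 1
    · exact ⟨1, fun h' => absurd hh h'⟩
    · obtain ⟨χ, hχ⟩ := exists_char E hE h hh
      exact ⟨χ, fun _ => hχ⟩
  choose χ hχ using hch
  obtain e := Finite.equivFin K
  refine ⟨MonoidHom.pi fun i : Fin N =>
    if hi : (i : ℕ) < Nat.card K then χ (e.symm ⟨i, hi⟩ : K) else 1, fun h hh hρ => ?_⟩
  by_contra hne
  have hi : ((e ⟨h, hh⟩ : Fin (Nat.card K)) : ℕ) < N := lt_of_lt_of_le (e ⟨h, hh⟩).2 hN
  have h1 := congrFun hρ ⟨(e ⟨h, hh⟩ : Fin (Nat.card K)), hi⟩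
  rw [MonoidHom.pi_apply] at h1
  simp only [Fin.is_lt, dif_pos, Fin.eta, Equiv.symm_apply_apply, Pi.one_apply] at h1
  exact hχ h hne h1

end Pool.Agent.F0f91f8.KR
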