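import Pool.Agent.Work.MP_0f91f8_co.K.GenQ
import Pool.Agent.Work.MP_0f91f8_co.K.LimQ
import Pool.Agent.Work.MP_0f91f8_co.K.Sep

/-!
# Kronecker form of the collision theorem: the final finite forms

`H` is an abelian group of exponent dividing `E` (of any cardinality), `φ : ℕ+ → H` a homomorphism
whose values at the integers `≡ 1 mod q` lie in a subgroup with at most `N` elements; the cell is
`B = F ∩ φ⁻¹(S)`. For `N = 1` this is `RelCnt` (`RC/FinG.lean`); for finite `H` with `|H| ≤ N` the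
homomorphism is arbitrary (`KCnt1`, uniformly in `H`).
-/

set_option autoImplicit false

open Filter Topology MeasureTheory

noncomputable section

namespace Pool.Agent.F0f91f8.KR

open Pool.Agent.F0f91f8.HD Pool.Agent.F0f91f8.RC
open Pool.Agent.Work.MP_0f91f8_co.EF

/-- The finite form with pair counts. -/
def QPairs : Prop :=
  ∀ (q E N : ℕ), 0 < q → 0 < E → ∀ ε : ℝ, 0 < ε → ∃ (k : ℕ) (δ : ℝ), 0 < δ ∧
    ∀ (H : Type) (_ : CommGroup H), (∀ h : H, h ^ E = 1) → ∀ φ : ℕ+ →* H,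
    ∀ L : Subgroup H, Finite L → Nat.card L ≤ N → (∀ n : ℕ+, (n : ℕ) ≡ 1 [MOD q] → φ n ∈ L) →
    ∀ (S : Set H) (F B : Finset ℕ), F.Nonempty → (∀ n ∈ F, 0 < n) →
    (∀ n, n ∈ B ↔ n ∈ F ∧ φ n.toPNat' ∈ S) →
    (∀ p ≤ k, p.Prime → (1 - δ) * (F.card : ℝ) ≤ ((F.filter fun n => p * n ∈ F).card : ℝ)) →
    ∀ (r : ℕ) (A : Fin r → Finset ℕ), (∀ i, A i ⊆ B) → (∀ i j, i ≠ j → Disjoint (A i) (A j)) →
    ∃ x y z : ℕ, 0 < x ∧ x ≤ k ∧ 0 < y ∧ y ≤ k ∧ 0 < z ∧ z ≤ k ∧ x ^ 2 + y ^ 2 = z ^ 2 ∧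
      φ x.toPNat' = 1 ∧ φ y.toPNat' = 1 ∧ φ z.toPNat' = 1 ∧
      3 * ∑ i, ((A i).card : ℝ) ^ 2 - ε * (F.card : ℝ) ^ 2 ≤
        (B.card : ℝ) * ∑ i, ((cc F (A i) x y : ℝ) + (cc F (A i) x z : ℝ) + (cc F (A i) y z : ℝ))

/-- The finite form with counts of monochromatic dilates. -/
def QCntN : Prop :=
  ∀ (q E N : ℕ), 0 < q → 0 < E → ∀ ε : ℝ, 0 < ε → ∃ (k : ℕ) (δ : ℝ), 0 < δ ∧
    ∀ (H : Type) (_ : CommGroup H), (∀ h : H, h ^ E = 1) → ∀ φ : ℕ+ →* H,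
    ∀ L : Subgroup H, Finite L → Nat.card L ≤ N → (∀ n : ℕ+, (n : ℕ) ≡ 1 [MOD q] → φ n ∈ L) →
    ∀ (S : Set H) (F B : Finset ℕ), F.Nonempty → (∀ n ∈ F, 0 < n) →
    (∀ n, n ∈ B ↔ n ∈ F ∧ φ n.toPNat' ∈ S) →
    (∀ p ≤ k, p.Prime → (1 - δ) * (F.card : ℝ) ≤ ((F.filter fun n => p * n ∈ F).card : ℝ)) →
    ∀ (r : ℕ) (A : Fin r → Finset ℕ), (∀ i, A i ⊆ B) → (∀ i j, i ≠ j → Disjoint (A i) (A j)) →
    ∃ x y z : ℕ, 0 < x ∧ x ≤ k ∧ 0 < y ∧ y ≤ k ∧ 0 < z ∧ z ≤ k ∧ x ^ 2 + y ^ 2 = z ^ 2 ∧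
      φ x.toPNat' = 1 ∧ φ y.toPNat' = 1 ∧ φ z.toPNat' = 1 ∧
      3 / 2 * (∑ i, ((A i).card : ℝ) ^ 2 -
        min ((B.card : ℝ) ^ 2 / 3) ((B.card : ℝ) * (∑ i, ((A i).card : ℝ)) / 2) -
          ε * (F.card : ℝ) ^ 2) ≤
        (B.card : ℝ) *
          ((B.filter fun n => ∃ i, x * n ∈ A i ∧ y * n ∈ A i ∧ z * n ∈ A i).card : ℝ)

/-- The final form. -/
def QCnt : Prop :=
  ∀ (q E N : ℕ), 0 < q → 0 < E → ∀ ε : ℝ, 0 < ε → ∃ (k : ℕ) (δ : ℝ), 0 < δ ∧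
    ∀ (H : Type) (_ : CommGroup H), (∀ h : H, h ^ E = 1) → ∀ φ : ℕ+ →* H,
    ∀ L : Subgroup H, Finite L → Nat.card L ≤ N → (∀ n : ℕ+, (n : ℕ) ≡ 1 [MOD q] → φ n ∈ L) →
    ∀ (S : Set H) (F B : Finset ℕ+), F.Nonempty → (∀ n, n ∈ B ↔ n ∈ F ∧ φ n ∈ S) →
    (∀ p : ℕ+, (p : ℕ) ≤ k → (p : ℕ).Prime →
      (1 - δ) * (F.card : ℝ) ≤ ((F.filter fun n => p * n ∈ F).card : ℝ)) →
    ∀ (r : ℕ) (A : Fin r → Finset ℕ+), (∀ i, A i ⊆ B) → (∀ i j, i ≠ j → Disjoint (A i) (A j)) →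
    ∃ x y z : ℕ+, (x : ℕ) ≤ k ∧ (y : ℕ) ≤ k ∧ (z : ℕ) ≤ k ∧ x ^ 2 + y ^ 2 = z ^ 2 ∧
      φ x = 1 ∧ φ y = 1 ∧ φ z = 1 ∧
      3 / 2 * (∑ i, ((A i).card : ℝ) ^ 2 -
        min ((B.card : ℝ) ^ 2 / 3) ((B.card : ℝ) * (∑ i, ((A i).card : ℝ)) / 2) -
          ε * (F.card : ℝ) ^ 2) ≤
        (B.card : ℝ) *
          ((B.filter fun n => ∃ i, x * n ∈ A i ∧ y * n ∈ A i ∧ z * n ∈ A i).card : ℝ)

namespace XFinQ

/-- a homomorphism of exponent `E` is trivial at `x` if its separated form is -/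
theorem loc_val {H G : Type} [CommGroup H] [CommGroup G] (q E x : ℕ) (hE : ∀ h : H, h ^ E = 1)
    (φ : ℕ+ →* H) (L : Subgroup H) (hL : ∀ n : ℕ+, (n : ℕ) ≡ 1 [MOD q] → φ n ∈ L) (ρ : H →* G)
    (hρ : ∀ h ∈ L, ρ h = 1 → h = 1) (hx : Loc q E x) (h1 : ρ (φ x.toPNat') = 1) :
    φ x.toPNat' = 1 := by
  obtain ⟨c, m, hc, hm, rfl, hmq⟩ := hx
  have e1 : φ (c ^ E * m).toPNat' = φ m.toPNat' := by
    rw [ICel.toPNat_mul (Nat.pow_pos hc) hm, ICel.toPNat_pow hc, map_mul, map_pow, hE, one_mul]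
  rw [e1] at h1 ⊢
  refine hρ _ (hL _ ?_) h1
  rw [Nat.toPNat'_coe, if_pos hm]
  exact hmq

end XFinQ

open XG XLimQ XFinQ in
/-- The finite form with pair counts. -/
theorem qPairs (hG : GenQ) : QPairs := by
  intro q E N hq hE ε hε
  have : NeZero E := ⟨hE.ne'⟩
  by_contra hcon
  have hcon' : ∀ j : ℕ, ∃ (φ : ℕ+ →* GE E N) (F B : Finset ℕ), F.Nonempty ∧
      (∀ n ∈ F, 0 < n) ∧ B ⊆ F ∧
      (∀ x y : ℕ, 0 < x → 0 < y → Loc q E x → Loc q E y → φ x.toPNat' = 1 → φ y.toPNat' = 1 →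
        ∀ s, x * s ∈ F → y * s ∈ F → (x * s ∈ B ↔ y * s ∈ B)) ∧
      (∀ p ≤ j, p.Prime → (1 - 1 / ((j : ℝ) + 1)) * (F.card : ℝ) ≤
        ((F.filter fun n => p * n ∈ F).card : ℝ)) ∧
      ∃ A : Fin ⌈2 / (ε / 3)⌉₊ → Finset ℕ, (∀ i, A i ⊆ B) ∧
      (∀ i j, i ≠ j → Disjoint (A i) (A j)) ∧
      ∀ x y z : ℕ, 0 < x → x ≤ j → 0 < y → y ≤ j → 0 < z → z ≤ j → x ^ 2 + y ^ 2 = z ^ 2 →
        Loc q E x → Loc q E y → Loc q E z →
        φ x.toPNat' = 1 → φ y.toPNat' = 1 → φ z.toPNat' = 1 →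
        (B.card : ℝ) * ∑ i, ((cc F (A i) x y : ℝ) + (cc F (A i) x z : ℝ) + (cc F (A i) y z : ℝ)) ≤
          3 * ∑ i, ((A i).card : ℝ) ^ 2 - ε / 2 * (F.card : ℝ) ^ 2 := by
    intro j
    by_contra hno
    apply hcon
    refine ⟨j, 1 / ((j : ℝ) + 1), by positivity,
      fun H iH hH φ L fL hLN hL S F B a1 a2 a3 a4 r A a5 a6 => ?_⟩
    by_contra a8
    obtain ⟨ρ, hρ⟩ := exists_sep E N hH L fL hLN
    have hv : ∀ x : ℕ, Loc q E x → (ρ.comp φ) x.toPNat' = 1 → φ x.toPNat' = 1 := fun x hx h1 =>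
      loc_val q E x hH φ L hL ρ hρ hx h1
    have hBF : B ⊆ F := fun n hn => ((a3 n).1 hn).1
    obtain ⟨A', b1, b2, b3, b4⟩ := red3 (show 0 < ε / 3 by positivity) a1 hBF A a5 a6
    refine hno ⟨ρ.comp φ, F, B, a1, a2, hBF, ?_, a4, A', b1, b2, ?_⟩
    · intro x y p1 p2 l1 l2 v1 v2
      exact IFinN.cell φ S F B a2 a3 x y p1 p2 (hv x l1 v1) (hv y l2 v2)
    · intro x y z p1 hx p2 hy p3 hz p4 l1 l2 l3 v1 v2 v3
      have c1 := hv x l1 v1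
      have c2 := hv y l2 v2
      have c3 := hv z l3 v3
      by_contra c8
      refine a8 ⟨x, y, z, p1, hx, p2, hy, p3, hz, p4, c1, c2, c3, ?_⟩
      have h1 := b4 (fun S => ((cc F S x y : ℝ) + (cc F S x z : ℝ) + (cc F S y z : ℝ)))
        (fun S => by positivity) (by simp [cc])
      have h2 : (B.card : ℝ) *
          ∑ i, ((cc F (A' i) x y : ℝ) + (cc F (A' i) x z : ℝ) + (cc F (A' i) y z : ℝ)) ≤
          (B.card : ℝ) *
          ∑ i, ((cc F (A i) x y : ℝ) + (cc F (A i) x z : ℝ) + (cc F (A i) y z : ℝ)) :=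
        mul_le_mul_of_nonneg_left h1 (Nat.cast_nonneg _)
      have h3 := not_le.1 c8
      nlinarith
  choose φ F B hne hpos hBF hcel hinv0 A hA hD hno using hcon'
  have hFo := XFinF.isFo_of hne hpos fun j p hp1 hp2 => hinv0 j p hp1 hp2
  obtain ⟨U, μ, d, β, hU, hFA, hlim, hd, hβ, hμA, hμB, hAA, hAB, hBB, hcc⟩ :=
    ulK ⌈2 / (ε / 3)⌉₊ F B A hFo hA hBF
  obtain ⟨ψ, hψ⟩ := limHom U φ
  have hF : ∀ j, (0 : ℝ) < ((F j).card : ℝ) := fun j => by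
    exact_mod_cast (hne j).card_pos
  have hsub : ∀ i n, {p : ℕ × ℕ | n * p.2 ∈ A p.1 i} ⊆ {p : ℕ × ℕ | n * p.2 ∈ B p.1} :=
    fun i n p hp => hA p.1 i hp
  have hβ0 : 0 ≤ β := by rw [← hμB 1 one_pos]; exact hFA.nonneg _
  have hd0 : ∀ i, 0 ≤ d i := fun i => by rw [← hμA i 1 one_pos]; exact hFA.nonneg _
  have hdβ : ∀ i, d i ≤ β := fun i => by
    rw [← hμA i 1 one_pos, ← hμB 1 one_pos]
    exact XCou.fa_mono hFA (hsub i 1)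
  -- the limit of the inequality
  have hq' : ∀ (i : Fin ⌈2 / (ε / 3)⌉₊) (a b : ℕ),
      Tendsto (fun j => (cc (F j) (A j i) a b : ℝ) / ((F j).card : ℝ)) U
        (𝓝 (μ ({p : ℕ × ℕ | a * p.2 ∈ A p.1 i} ∩ {p | b * p.2 ∈ A p.1 i}))) := by
    intro i a b
    refine (hlim _).congr fun j => ?_
    rw [XUlm.qq_eq F ({p : ℕ × ℕ | a * p.2 ∈ A p.1 i} ∩ {p : ℕ × ℕ | b * p.2 ∈ A p.1 i}) j
      ((F j).filter fun s => a * s ∈ A j i ∧ b * s ∈ A j i) (fun s => Finset.mem_filter)]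
    rfl
  have hs2 : Tendsto (fun j => ∑ i, (((A j i).card : ℝ) / ((F j).card : ℝ)) ^ 2) U
      (𝓝 (∑ i, d i ^ 2)) := tendsto_finsetSum _ fun i _ => (hd i).pow 2
  have key : ∀ x y z : ℕ, 0 < x → 0 < y → 0 < z → x ^ 2 + y ^ 2 = z ^ 2 →
      Loc q E x → Loc q E y → Loc q E z → ψ x.toPNat' = 1 → ψ y.toPNat' = 1 → ψ z.toPNat' = 1 →
      β * ∑ i, (μ ({p : ℕ × ℕ | x * p.2 ∈ A p.1 i} ∩ {p | y * p.2 ∈ A p.1 i}) +
        μ ({p : ℕ × ℕ | x * p.2 ∈ A p.1 i} ∩ {p | z * p.2 ∈ A p.1 i}) +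
        μ ({p : ℕ × ℕ | y * p.2 ∈ A p.1 i} ∩ {p | z * p.2 ∈ A p.1 i})) ≤
      3 * ∑ i, d i ^ 2 - ε / 2 := by
    intro x y z p1 p2 p3 p4 l1 l2 l3 u1 u2 u3
    have hs3 : Tendsto (fun j => ∑ i, ((cc (F j) (A j i) x y : ℝ) / ((F j).card : ℝ) +
        (cc (F j) (A j i) x z : ℝ) / ((F j).card : ℝ) +
        (cc (F j) (A j i) y z : ℝ) / ((F j).card : ℝ))) U
        (𝓝 (∑ i, (μ ({p : ℕ × ℕ | x * p.2 ∈ A p.1 i} ∩ {p | y * p.2 ∈ A p.1 i}) +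
          μ ({p : ℕ × ℕ | x * p.2 ∈ A p.1 i} ∩ {p | z * p.2 ∈ A p.1 i}) +
          μ ({p : ℕ × ℕ | y * p.2 ∈ A p.1 i} ∩ {p | z * p.2 ∈ A p.1 i})))) :=
      tendsto_finsetSum _ fun i _ => ((hq' i x y).add (hq' i x z)).add (hq' i y z)
    refine le_of_tendsto_of_tendsto (hβ.mul hs3) ((hs2.const_mul 3).sub_const (ε / 2)) ?_
    have e2 : ∀ᶠ j in (U : Filter ℕ), max x (max y z) ≤ j := hU (eventually_ge_atTop _)
    filter_upwards [e2, hψ x.toPNat', hψ y.toPNat', hψ z.toPNat'] with j c2 c3 c4 c5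
    have h := hno j x y z p1 (by omega) p2 (by omega) p3 (by omega) p4 l1 l2 l3 (c3.trans u1)
      (c4.trans u2) (c5.trans u3)
    have hFF : 0 < ((F j).card : ℝ) ^ 2 := by
      have := hF j
      positivity
    have q2 : ∑ i, ((A j i).card : ℝ) ^ 2 =
        (∑ i, (((A j i).card : ℝ) / ((F j).card : ℝ)) ^ 2) * ((F j).card : ℝ) ^ 2 := by
      rw [Finset.sum_mul]
      refine Finset.sum_congr rfl fun i _ => ?_
      have := (hF j).ne'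
      field_simp
    have q3 : (((B j).card : ℝ) * ∑ i, ((cc (F j) (A j i) x y : ℝ) + (cc (F j) (A j i) x z : ℝ) +
        (cc (F j) (A j i) y z : ℝ))) = (((B j).card : ℝ) / ((F j).card : ℝ) *
          ∑ i, ((cc (F j) (A j i) x y : ℝ) / ((F j).card : ℝ) +
        (cc (F j) (A j i) x z : ℝ) / ((F j).card : ℝ) +
        (cc (F j) (A j i) y z : ℝ) / ((F j).card : ℝ))) * ((F j).card : ℝ) ^ 2 := by
      rw [Finset.mul_sum, Finset.mul_sum, Finset.sum_mul]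
      refine Finset.sum_congr rfl fun i _ => ?_
      have := (hF j).ne'
      field_simp
    rw [q2, q3] at h
    refine le_of_mul_le_mul_right ?_ hFF
    linarith
  -- the kernels
  have hK : ∀ i, IsPK (ker μ (fun n => {p : ℕ × ℕ | n * p.2 ∈ A p.1 i})
      (fun n => {p : ℕ × ℕ | n * p.2 ∈ B p.1}) (d i) β) := fun i =>
    pr_PrK (ℕ × ℕ) μ hFA _ _ (d i) β (hsub i) (hμA i) hμB (hAA i) (hAB i) hBB
  rcases hβ0.eq_or_lt with hβz | hβp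
  · have h0 : ∀ i, d i = 0 := fun i => le_antisymm (hβz ▸ hdβ i) (hd0 i)
    obtain ⟨x, y, z, p1, p2, p3, p4, u1, u2, u3, l1, l2, l3, -⟩ :=
      hG (GE E N) inferInstance inferInstance ψ q E hq hE _ _ hK 1 one_pos
    have h1 := key x y z p1 p2 p3 p4 l1 l2 l3 u1 u2 u3
    rw [← hβz, zero_mul] at h1
    simp only [h0] at h1
    have h2 : ∑ _i : Fin ⌈2 / (ε / 3)⌉₊, (0 : ℝ) ^ 2 = 0 := by simp
    rw [h2] at h1
    linarith
  · obtain ⟨x, y, z, p1, p2, p3, p4, u1, u2, u3, l1, l2, l3, hle⟩ :=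
      hG (GE E N) inferInstance inferInstance ψ q E hq hE _ _ hK (β * (ε / 4)) (by positivity)
    have h1 := key x y z p1 p2 p3 p4 l1 l2 l3 u1 u2 u3
    have hev : ∀ a b : ℕ, 0 < a → 0 < b → Loc q E a → Loc q E b →
        ψ a.toPNat' = 1 → ψ b.toPNat' = 1 →
        ∀ᶠ j in (U : Filter ℕ), ∀ s, a * s ∈ F j → b * s ∈ F j → (a * s ∈ B j ↔ b * s ∈ B j) := by
      intro a b ha hb k1 k2 v1 v2
      filter_upwards [hψ a.toPNat', hψ b.toPNat'] with j c3 c4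
      exact hcel j a b ha hb k1 k2 (c3.trans v1) (c4.trans v2)
    have v : ∀ i (a b : ℕ), 0 < a → 0 < b →
        (∀ᶠ j in (U : Filter ℕ), ∀ s, a * s ∈ F j → b * s ∈ F j → (a * s ∈ B j ↔ b * s ∈ B j)) →
        ker μ (fun n => {p : ℕ × ℕ | n * p.2 ∈ A p.1 i})
          (fun n => {p : ℕ × ℕ | n * p.2 ∈ B p.1}) (d i) β a b =
        β ^ 2 * μ ({p : ℕ × ℕ | a * p.2 ∈ A p.1 i} ∩ {p | b * p.2 ∈ A p.1 i}) - β * d i ^ 2 :=
      fun i a b ha hb h => pr_KeV (ℕ × ℕ) μ hFA _ _ (d i) β a b (hsub i a) (hsub i b)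
        (hμA i a ha) (hμA i b hb) (hμB a ha) (hμB b hb) (hcc a b ha hb h)
    have hle2 : -(β * (ε / 4)) ≤
        ∑ i, ((β ^ 2 * μ ({p : ℕ × ℕ | x * p.2 ∈ A p.1 i} ∩ {p | y * p.2 ∈ A p.1 i}) -
            β * d i ^ 2) +
          (β ^ 2 * μ ({p : ℕ × ℕ | x * p.2 ∈ A p.1 i} ∩ {p | z * p.2 ∈ A p.1 i}) -
            β * d i ^ 2) +
          (β ^ 2 * μ ({p : ℕ × ℕ | y * p.2 ∈ A p.1 i} ∩ {p | z * p.2 ∈ A p.1 i}) -
            β * d i ^ 2)) := by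
      refine hle.trans (le_of_eq (Finset.sum_congr rfl fun i _ => ?_))
      rw [v i x y p1 p2 (hev x y p1 p2 l1 l2 u1 u2), v i x z p1 p3 (hev x z p1 p3 l1 l3 u1 u3),
        v i y z p2 p3 (hev y z p2 p3 l2 l3 u2 u3)]
    have hle3 : ∑ i, ((β ^ 2 * μ ({p : ℕ × ℕ | x * p.2 ∈ A p.1 i} ∩ {p | y * p.2 ∈ A p.1 i}) -
            β * d i ^ 2) +
          (β ^ 2 * μ ({p : ℕ × ℕ | x * p.2 ∈ A p.1 i} ∩ {p | z * p.2 ∈ A p.1 i}) -
            β * d i ^ 2) +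
          (β ^ 2 * μ ({p : ℕ × ℕ | y * p.2 ∈ A p.1 i} ∩ {p | z * p.2 ∈ A p.1 i}) -
            β * d i ^ 2)) =
        β * (β * ∑ i, (μ ({p : ℕ × ℕ | x * p.2 ∈ A p.1 i} ∩ {p | y * p.2 ∈ A p.1 i}) +
        μ ({p : ℕ × ℕ | x * p.2 ∈ A p.1 i} ∩ {p | z * p.2 ∈ A p.1 i}) +
        μ ({p : ℕ × ℕ | y * p.2 ∈ A p.1 i} ∩ {p | z * p.2 ∈ A p.1 i})) - 3 * ∑ i, d i ^ 2) := by
      rw [Finset.mul_sum, Finset.mul_sum, ← Finset.sum_sub_distrib, Finset.mul_sum]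
      refine Finset.sum_congr rfl fun i _ => ?_
      ring
    rw [hle3] at hle2
    have h5 : β * (-(ε / 4)) ≤
        β * (β * ∑ i, (μ ({p : ℕ × ℕ | x * p.2 ∈ A p.1 i} ∩ {p | y * p.2 ∈ A p.1 i}) +
        μ ({p : ℕ × ℕ | x * p.2 ∈ A p.1 i} ∩ {p | z * p.2 ∈ A p.1 i}) +
        μ ({p : ℕ × ℕ | y * p.2 ∈ A p.1 i} ∩ {p | z * p.2 ∈ A p.1 i})) - 3 * ∑ i, d i ^ 2) := by
      linarith
    have h6 := le_of_mul_le_mul_left h5 hβp
    linarith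

open scoped Classical in
open XFinG XG in
/-- The finite form with counts. -/
theorem qCntN (hP : QPairs) : QCntN := by
  intro q E N hq hE ε hε
  obtain ⟨k, δ, hδ, hk⟩ := hP q E N hq hE (3 * ε) (by positivity)
  refine ⟨k, δ, hδ, fun H iH hH φ L fL hLN hL S F B a1 a2 a3 a4 r A hA hd => ?_⟩
  obtain ⟨x, y, z, c1, c2, c3, c4, c5, c6, c7, u1, u2, u3, hle⟩ :=
    hk H iH hH φ L fL hLN hL S F B a1 a2 a3 a4 r A hA hd
  refine ⟨x, y, z, c1, c2, c3, c4, c5, c6, c7, u1, u2, u3, ?_⟩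
  have hBF : B ⊆ F := fun n hn => ((a3 n).1 hn).1
  have uq : ∀ (m : ℕ) (i j : Fin r), m ∈ A i → m ∈ A j → i = j := by
    intro m i j h1 h2
    by_contra h
    exact (Finset.disjoint_left.1 (hd i j h)) h1 h2
  -- if `a n` is in `B` and `φ a = 1` then `n` is in the cell
  have hcell : ∀ (a : ℕ), 0 < a → φ a.toPNat' = 1 → ∀ n ∈ F, a * n ∈ B → n ∈ B := by
    intro a ha hφa n hn han
    have h1 := ((a3 _).1 han).2
    rw [IFinN.toPNat_mul a n ha (a2 n hn), map_mul, hφa, one_mul] at h1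
    exact (a3 n).2 ⟨hn, h1⟩
  set m : ℝ := ((B.filter fun n => ∃ i, x * n ∈ A i ∧ y * n ∈ A i ∧ z * n ∈ A i).card : ℝ) with hm
  have hm0 : 0 ≤ m := Nat.cast_nonneg _
  have hm1 : m = ∑ n ∈ F, ind (∃ i, x * n ∈ A i ∧ y * n ∈ A i ∧ z * n ∈ A i) := by
    rw [hm, ← card_ind F fun n => ∃ i, x * n ∈ A i ∧ y * n ∈ A i ∧ z * n ∈ A i]
    congr 2
    ext n
    rw [Finset.mem_filter, Finset.mem_filter]
    constructor
    · rintro ⟨h1, h2⟩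
      exact ⟨hBF h1, h2⟩
    · rintro ⟨h1, i, h2, h3, h4⟩
      exact ⟨hcell x c1 u1 n h1 (hA i h2), i, h2, h3, h4⟩
  set P : ℝ := ∑ i, ((cc F (A i) x y : ℝ) + (cc F (A i) x z : ℝ) + (cc F (A i) y z : ℝ)) with hPd
  have hcc : ∀ a b : ℕ, ∑ i, (cc F (A i) a b : ℝ) =
      ∑ n ∈ F, ind (∃ i, a * n ∈ A i ∧ b * n ∈ A i) := by
    intro a b
    have h1 : ∀ i, (cc F (A i) a b : ℝ) = ∑ n ∈ F, ind (a * n ∈ A i ∧ b * n ∈ A i) := fun i => by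
      unfold cc
      exact card_ind F _
    rw [Finset.sum_congr rfl fun i _ => h1 i, Finset.sum_comm]
    refine Finset.sum_congr rfl fun n _ => ?_
    exact sum_ind _ fun i j h2 h3 => uq _ i j h2.1 h3.1
  have hP1 : P = ∑ n ∈ F, (ind (∃ i, x * n ∈ A i ∧ y * n ∈ A i) +
      ind (∃ i, x * n ∈ A i ∧ z * n ∈ A i) + ind (∃ i, y * n ∈ A i ∧ z * n ∈ A i)) := by
    rw [hPd, Finset.sum_add_distrib, Finset.sum_add_distrib, hcc, hcc, hcc,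
      Finset.sum_add_distrib, Finset.sum_add_distrib]
  have t1 : ∀ n : ℕ, (∃ i, x * n ∈ A i ∧ y * n ∈ A i) → (∃ i, x * n ∈ A i ∧ z * n ∈ A i) →
      ∃ i, x * n ∈ A i ∧ y * n ∈ A i ∧ z * n ∈ A i := by
    rintro n ⟨i, h1, h2⟩ ⟨j, h3, h4⟩
    have h5 := uq _ i j h1 h3
    rw [← h5] at h4
    exact ⟨i, h1, h2, h4⟩
  have t2 : ∀ n : ℕ, (∃ i, x * n ∈ A i ∧ y * n ∈ A i) → (∃ i, y * n ∈ A i ∧ z * n ∈ A i) →
      ∃ i, x * n ∈ A i ∧ y * n ∈ A i ∧ z * n ∈ A i := by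
    rintro n ⟨i, h1, h2⟩ ⟨j, h3, h4⟩
    have h5 := uq _ i j h2 h3
    rw [← h5] at h4
    exact ⟨i, h1, h2, h4⟩
  have t3 : ∀ n : ℕ, (∃ i, x * n ∈ A i ∧ z * n ∈ A i) → (∃ i, y * n ∈ A i ∧ z * n ∈ A i) →
      ∃ i, x * n ∈ A i ∧ y * n ∈ A i ∧ z * n ∈ A i := by
    rintro n ⟨i, h1, h2⟩ ⟨j, h3, h4⟩
    have h5 := uq _ i j h2 h4
    rw [← h5] at h3
    exact ⟨i, h1, h3, h2⟩
  have b1 : P ≤ (B.card : ℝ) + 2 * m := by
    rw [hP1, hm1]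
    have hb : (B.card : ℝ) = ∑ n ∈ F, ind (n ∈ B) := by
      rw [← card_ind F fun n => n ∈ B]
      congr 2
      ext n
      rw [Finset.mem_filter]
      exact ⟨fun h => ⟨hBF h, h⟩, fun h => h.2⟩
    rw [hb, Finset.mul_sum, ← Finset.sum_add_distrib]
    refine Finset.sum_le_sum fun n hn => ?_
    by_cases hnB : n ∈ B
    · rw [ind_pos hnB]
      exact pt1 (t1 n) (t2 n) (t3 n)
    · have w1 : ¬ ∃ i, x * n ∈ A i ∧ y * n ∈ A i := by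
        rintro ⟨i, h1, -⟩
        exact hnB (hcell x c1 u1 n hn (hA i h1))
      have w2 : ¬ ∃ i, x * n ∈ A i ∧ z * n ∈ A i := by
        rintro ⟨i, h1, -⟩
        exact hnB (hcell x c1 u1 n hn (hA i h1))
      have w3 : ¬ ∃ i, y * n ∈ A i ∧ z * n ∈ A i := by
        rintro ⟨i, h1, -⟩
        exact hnB (hcell y c3 u2 n hn (hA i h1))
      rw [ind_neg w1, ind_neg w2, ind_neg w3, ind_neg hnB]
      have := ind_nonneg (∃ i, x * n ∈ A i ∧ y * n ∈ A i ∧ z * n ∈ A i)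
      linarith
  have hone : ∀ a : ℕ, 0 < a → ∑ n ∈ F, ind (∃ i, a * n ∈ A i) ≤ ∑ i, ((A i).card : ℝ) := by
    intro a ha
    have h1 : ∀ n ∈ F, ind (∃ i, a * n ∈ A i) = ∑ i, ind (a * n ∈ A i) := fun n _ =>
      (sum_ind _ fun i j h2 h3 => uq _ i j h2 h3).symm
    rw [Finset.sum_congr rfl h1, Finset.sum_comm]
    refine Finset.sum_le_sum fun i _ => ?_
    rw [← card_ind F fun n => a * n ∈ A i]
    exact_mod_cast (XUlm.shift F (A i) ((hA i).trans hBF) a ha).1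
  have b2 : 2 * P ≤ 3 * ∑ i, ((A i).card : ℝ) + 3 * m := by
    have h1 : 2 * P ≤ ∑ n ∈ F, (ind (∃ i, x * n ∈ A i) + ind (∃ i, y * n ∈ A i) +
        ind (∃ i, z * n ∈ A i) +
        3 * ind (∃ i, x * n ∈ A i ∧ y * n ∈ A i ∧ z * n ∈ A i)) := by
      rw [hP1, Finset.mul_sum]
      refine Finset.sum_le_sum fun n _ => pt2 (t1 n) (t2 n) (t3 n) ?_ ?_ ?_ ?_
      · rintro ⟨i, h1, h2⟩; exact ⟨⟨i, h1⟩, ⟨i, h2⟩⟩
      · rintro ⟨i, h1, h2⟩; exact ⟨⟨i, h1⟩, ⟨i, h2⟩⟩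
      · rintro ⟨i, h1, h2⟩; exact ⟨⟨i, h1⟩, ⟨i, h2⟩⟩
      · rintro ⟨i, h1, h2, h3⟩; exact ⟨⟨i, h1⟩, ⟨i, h2⟩, ⟨i, h3⟩⟩
    rw [Finset.sum_add_distrib, Finset.sum_add_distrib, Finset.sum_add_distrib, ← Finset.mul_sum,
      ← hm1] at h1
    have h2 := hone x c1
    have h3 := hone y c3
    have h4 := hone z c5
    linarith
  have hle1 : 3 * ∑ i, ((A i).card : ℝ) ^ 2 - 3 * ε * (F.card : ℝ) ^ 2 ≤ (B.card : ℝ) * P := hle
  exact fin2 (Nat.cast_nonneg _) hm0 hle1 b1 b2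

open scoped Classical in
open IFinP in
/-- Transport to positive integers. -/
theorem qCnt (h : QCntN) : QCnt := by
  intro q E N hq hE ε hε
  obtain ⟨k, δ, hδ, H⟩ := h q E N hq hE ε hε
  refine ⟨k, δ, hδ, ?_⟩
  intro G iG hG φ L fL hLN hL S F B hF hB hd r A hA hdis
  obtain ⟨x, y, z, c1, c2, c3, c4, c5, c6, c7, u1, u2, u3, hle⟩ :=
    H G iG hG φ L fL hLN hL S (F.map IFinP.cc) (B.map IFinP.cc)
    (Finset.map_nonempty.2 hF) (by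
      intro n hn
      obtain ⟨m, _, rfl⟩ := (mem_cc' F n).1 hn
      exact m.pos) (by
      intro n
      rw [mem_cc', mem_cc']
      constructor
      · rintro ⟨m, hm, rfl⟩
        have := (hB m).1 hm
        refine ⟨⟨m, this.1, rfl⟩, ?_⟩
        rw [PNat.coe_toPNat']
        exact this.2
      · rintro ⟨⟨m, hm, rfl⟩, h2⟩
        rw [PNat.coe_toPNat'] at h2
        exact ⟨m, (hB m).2 ⟨hm, h2⟩, rfl⟩) (by
      intro p hp hpp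
      have h1 := hd ⟨p, hpp.pos⟩ hp hpp
      rw [Finset.card_map]
      have h2 := card_filt F ⟨p, hpp.pos⟩
      rw [← h2] at h1
      exact h1) r (fun i => (A i).map IFinP.cc) (fun i => Finset.map_subset_map.2 (hA i))
    (fun i j hij => (Finset.disjoint_map IFinP.cc).2 (hdis i j hij))
  lift x to ℕ+ using c1
  lift y to ℕ+ using c3
  lift z to ℕ+ using c5
  rw [PNat.coe_toPNat'] at u1 u2 u3
  refine ⟨x, y, z, c2, c4, c6, PNat.eq (by push_cast; exact c7), u1, u2, u3, ?_⟩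
  simp only [Finset.card_map] at hle
  have hcard : ((B.map IFinP.cc).filter fun n => ∃ i, (x : ℕ) * n ∈ (A i).map IFinP.cc ∧
      (y : ℕ) * n ∈ (A i).map IFinP.cc ∧ (z : ℕ) * n ∈ (A i).map IFinP.cc).card =
      (B.filter fun n => ∃ i, x * n ∈ A i ∧ y * n ∈ A i ∧ z * n ∈ A i).card := by
    have h : ((B.map IFinP.cc).filter fun n => ∃ i, (x : ℕ) * n ∈ (A i).map IFinP.cc ∧
      (y : ℕ) * n ∈ (A i).map IFinP.cc ∧ (z : ℕ) * n ∈ (A i).map IFinP.cc) =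
        (B.filter fun n => ∃ i, x * n ∈ A i ∧ y * n ∈ A i ∧ z * n ∈ A i).map IFinP.cc := by
      ext n
      rw [Finset.mem_filter, mem_cc' B n, mem_cc' _ n]
      constructor
      · rintro ⟨⟨m, hm, rfl⟩, i, h2, h3, h4⟩
        refine ⟨m, Finset.mem_filter.2 ⟨hm, i, ?_, ?_, ?_⟩, rfl⟩
        · rw [← PNat.mul_coe, mem_cc] at h2
          exact h2
        · rw [← PNat.mul_coe, mem_cc] at h3
          exact h3
        · rw [← PNat.mul_coe, mem_cc] at h4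
          exact h4
      · rintro ⟨m, hm, rfl⟩
        rw [Finset.mem_filter] at hm
        obtain ⟨hm1, i, h2, h3, h4⟩ := hm
        refine ⟨⟨m, hm1, rfl⟩, i, ?_, ?_, ?_⟩
        · rw [← PNat.mul_coe, mem_cc]
          exact h2
        · rw [← PNat.mul_coe, mem_cc]
          exact h3
        · rw [← PNat.mul_coe, mem_cc]
          exact h4
    rw [h, Finset.card_map]
  rw [← hcard]
  exact hle

/-- everything from the two statements of module W -/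
theorem qCnt_of (hPW : PWK) (hP1 : PK1) : QCnt := qCnt (qCntN (qPairs (genQ hPW hP1)))

end Pool.Agent.F0f91f8.KR
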