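import Pool.Agent.Work.MP_0f91f8_co.EF.AvF
import Pool.Agent.Work.MP_0f91f8_co.K.Defs
import Pool.Agent.Work.MP_0f91f8_co.RC.AllE

/-!
# Kronecker form of the collision theorem: kernels, with local information on the triple

From `PWK` and `PK1`: for kernels `ψ i` and a homomorphism `φ` into a finite abelian group there is a
Pythagorean triple `x, y, z` with `φ x = φ y = φ z = 1` and `∑ (ψ x y + ψ x z + ψ y z) ≥ -ε`; every
member of the triple is an `E`-th power times an integer `≡ 1 mod q` (`Loc`).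
-/

set_option autoImplicit false

open Filter Topology MeasureTheory

noncomputable section

namespace Pool.Agent.F0f91f8.KR

open Pool.Agent.F0f91f8.HD Pool.Agent.F0f91f8.RC
open Pool.Agent.Work.MP_0f91f8_co.EF

/-- an `E`-th power times an integer `≡ 1 mod q` -/
def Loc (q E x : ℕ) : Prop := ∃ c m : ℕ, 0 < c ∧ 0 < m ∧ x = c ^ E * m ∧ m ≡ 1 [MOD q]

/-- The general inequality for kernels, at triples of value one with local information. -/
def GenQ : Prop := ∀ (H : Type) (_ : CommGroup H) (_ : Finite H) (φ : ℕ+ →* H) (q E : ℕ), 0 < q →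
  0 < E → ∀ (r : ℕ) (ψ : Fin r → ℕ → ℕ → ℝ), (∀ i, IsPK (ψ i)) → ∀ ε : ℝ, 0 < ε →
  ∃ x y z : ℕ, 0 < x ∧ 0 < y ∧ 0 < z ∧ x ^ 2 + y ^ 2 = z ^ 2 ∧
    φ x.toPNat' = 1 ∧ φ y.toPNat' = 1 ∧ φ z.toPNat' = 1 ∧
    Loc q E x ∧ Loc q E y ∧ Loc q E z ∧
    -ε ≤ ∑ i, (ψ i x y + ψ i x z + ψ i y z)

namespace XQ

theorem loc_one (q E : ℕ) : Loc q E 1 := ⟨1, 1, one_pos, one_pos, by rw [one_pow, one_mul], rfl⟩

theorem loc_mul {q E x y : ℕ} (hx : Loc q E x) (hy : Loc q E y) : Loc q E (x * y) := by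
  obtain ⟨c, m, h1, h2, rfl, h3⟩ := hx
  obtain ⟨d, n, h4, h5, rfl, h6⟩ := hy
  refine ⟨c * d, m * n, Nat.mul_pos h1 h4, Nat.mul_pos h2 h5, ?_, ?_⟩
  · rw [mul_pow]; ring
  · have := h3.mul h6
    rwa [mul_one] at this

theorem loc_pow {q E x : ℕ} (hx : Loc q E x) (n : ℕ) : Loc q E (x ^ n) := by
  induction n with
  | zero => rw [pow_zero]; exact loc_one q E
  | succ n ih => rw [pow_succ]; exact loc_mul ih hx

theorem loc_of_dvd {q E E' x : ℕ} (hE : E ∣ E') (hx : Loc q E' x) : Loc q E x := by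
  obtain ⟨c, m, h1, h2, rfl, h3⟩ := hx
  obtain ⟨d, rfl⟩ := hE
  exact ⟨c ^ d, m, Nat.pow_pos h1, h2, by rw [← pow_mul, mul_comm d E], h3⟩

theorem loc_mod {q E m : ℕ} (hm : 0 < m) (h : m ≡ 1 [MOD q]) : Loc q E m :=
  ⟨1, m, one_pos, hm, by rw [one_pow, one_mul], h⟩

theorem loc_mem {q E w x y z : ℕ} (hE : 0 < E) (hq : 0 < q) (hqw : q ≤ w) (hM : Mem E w x y z) :
    Loc q E x ∧ Loc q E y ∧ Loc q E z := by
  obtain ⟨κ, k, a, n, hκ, hk, ha, hn, ⟨c, hc⟩, hwκ, hka, hn1, rfl, rfl, rfl⟩ := hM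
  have hqw' : q ∣ w.factorial := Nat.dvd_factorial hq hqw
  have h1 : ∀ m : ℕ, 0 < m → m ≡ 1 [MOD w.factorial] → Loc q E m := by
    intro m hm hmm
    exact loc_mod hm (hmm.of_dvd hqw')
  have hκ0 : ∀ t : ℕ, κ * t ≡ 0 [MOD w.factorial] := fun t =>
    (Nat.modEq_zero_iff_dvd.2 (hwκ.mul_right t))
  have hkap : 0 < k * a := Nat.mul_pos hk ha
  have hκn : 0 < κ * n := Nat.mul_pos hκ hn
  have h2 : k * a + κ * n ≡ 1 [MOD w.factorial] := by
    have := hka.add (hκ0 n)
    rwa [add_zero] at this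
  have h3 : k * a + 2 * (κ * n) ≡ 1 [MOD w.factorial] := by
    have := hka.add ((hκ0 n).mul_left 2)
    rwa [mul_zero, add_zero] at this
  refine ⟨?_, ?_, ?_⟩
  · have hcpos : 0 < c := by
      rcases Nat.eq_zero_or_pos c with h | h
      · rw [h, zero_pow hE.ne'] at hc
        omega
      · exact h
    have e : tX κ k a n = (2 * κ) * (n * (k * a + κ * n)) := by
      unfold tX
      ring
    rw [e, hc]
    have h4 : n * (k * a + κ * n) ≡ 1 [MOD w.factorial] := by
      have := hn1.mul h2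
      rwa [mul_one] at this
    exact ⟨c, n * (k * a + κ * n), hcpos, Nat.mul_pos hn (by omega), rfl, h4.of_dvd hqw'⟩
  · have e : tY κ k a n = (k * a) * (k * a + 2 * (κ * n)) := by
      unfold tY
      ring
    rw [e]
    refine h1 _ (Nat.mul_pos hkap (by omega)) ?_
    have := hka.mul h3
    rwa [mul_one] at this
  · have e : tZ κ k a n = (k * a + κ * n) ^ 2 + (κ * n) ^ 2 := by
      unfold tZ
      ring
    rw [e]
    refine h1 _ (by positivity) ?_
    have := (h2.pow 2).add ((hκ0 n).pow 2)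
    rwa [one_pow, zero_pow two_ne_zero, add_zero] at this

open IAvK in
/-- the mean is the mean over a finite family of members -/
theorem rep (E w K M : ℕ) (hE : 1 ≤ E) (hK : 1 ≤ K) (hM : 1 ≤ M) :
    ∃ (ι : Type) (S : Finset ι) (X Y Z : ι → ℕ), S.Nonempty ∧
      (∀ i ∈ S, 0 < X i ∧ 0 < Y i ∧ 0 < Z i ∧ Mem E w (X i) (Y i) (Z i)) ∧
      ∀ Φ : ℕ → ℕ → ℕ → ℂ, AvK E w K M Φ = (∑ i ∈ S, Φ (X i) (Y i) (Z i)) / (S.card : ℂ) := by
  classical
  have hD0 : 0 < DR E w K := DR_pos E w K hK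
  have hQ0 : 0 < w.factorial := Nat.factorial_pos w
  refine ⟨IX w K, SX E w K M,
    fun i => tX (kR E w K i.1.1) (kK E w K i.1.2) (w.factorial * (i.2.2.1 + i.2.2.2) + 1) (nX w K i),
    fun i => tY (kR E w K i.1.1) (kK E w K i.1.2) (w.factorial * (i.2.2.1 + i.2.2.2) + 1) (nX w K i),
    fun i => tZ (kR E w K i.1.1) (kK E w K i.1.2) (w.factorial * (i.2.2.1 + i.2.2.2) + 1) (nX w K i),
    ?_, ?_, ?_⟩
  · have hDM : 1 ≤ DR E w K * M := Nat.succ_le_of_lt (Nat.mul_pos hD0 hM)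
    refine ⟨((fun _ => ⟨0, hK⟩, fun _ => ⟨0, hK⟩), ((1, 1), (1, 1))), ?_⟩
    rw [mem_SX]
    exact ⟨⟨⟨le_rfl, hM⟩, le_rfl, hM⟩, ⟨le_rfl, hDM⟩, le_rfl, hDM⟩
  · intro i hi
    have hkp : 0 < kp w K i.1.1 := XAvF.kp_pos w K _
    have hκ : 0 < kR E w K i.1.1 := by
      unfold kR
      positivity
    have hk : 0 < kK E w K i.1.2 := by
      unfold kK
      exact pow_pos (XAvF.kk_pos w K _) _
    have hn : 0 < nX w K i := by unfold nX; omega
    have ha : 0 < w.factorial * (i.2.2.1 + i.2.2.2) + 1 := Nat.succ_pos _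
    refine ⟨?_, ?_, ?_, ?_⟩
    · show 0 < tX (kR E w K i.1.1) (kK E w K i.1.2) (w.factorial * (i.2.2.1 + i.2.2.2) + 1) (nX w K i)
      unfold tX
      positivity
    · show 0 < tY (kR E w K i.1.1) (kK E w K i.1.2) (w.factorial * (i.2.2.1 + i.2.2.2) + 1) (nX w K i)
      unfold tY
      positivity
    · show 0 < tZ (kR E w K i.1.1) (kK E w K i.1.2) (w.factorial * (i.2.2.1 + i.2.2.2) + 1) (nX w K i)
      unfold tZ
      positivity
    · have hmod : ∀ t : ℕ, w.factorial * t + 1 ≡ 1 [MOD w.factorial] := by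
        intro t
        have e3 : w.factorial * t ≡ 0 [MOD w.factorial] :=
          (Nat.modEq_zero_iff_dvd).2 (Dvd.intro _ rfl)
        have e4 := e3.add_right 1
        rw [zero_add] at e4
        exact e4
      refine ⟨kR E w K i.1.1, kK E w K i.1.2, w.factorial * (i.2.2.1 + i.2.2.2) + 1, nX w K i, hκ,
        hk, ha, hn, ⟨2 * (w.factorial * kp w K i.1.1), ?_⟩, ?_, ?_, ?_, rfl, rfl, rfl⟩
      · unfold kR
        obtain ⟨E', rfl⟩ : ∃ E', E = E' + 1 := ⟨E - 1, by omega⟩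
        rw [Nat.add_sub_cancel]
        ring
      · unfold kR
        refine Dvd.dvd.mul_left ?_ _
        exact (Dvd.intro _ rfl).trans (dvd_pow_self _ (by omega))
      · have e1 : kK E w K i.1.2 ≡ 1 [MOD w.factorial] := by
          unfold kK
          have e2 := (Nat.ModEq.pow_totient (coprime_kk w K i.1.2)).pow E
          rw [one_pow, ← pow_mul, mul_comm] at e2
          exact e2
        have e5 := e1.mul (hmod (i.2.2.1 + i.2.2.2))
        rwa [mul_one] at e5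
      · exact hmod _
  · intro Φ
    have hcard : ((SX E w K M).card : ℂ) = ((M : ℂ) ^ 2 * ((DR E w K * M : ℕ) : ℂ) ^ 2) *
        ((K : ℂ) ^ (w + 1) * (K : ℂ) ^ (K + 1)) := by
      rw [card_SX]
      push_cast
      ring
    rw [hcard, ← div_div]
    unfold AvK
    congr 1
    simp only [SX, Finset.sum_product, Finset.sum_div]
    refine Finset.sum_congr rfl fun e _ => Finset.sum_congr rfl fun e' _ => ?_
    unfold BxR Pool.Agent.F0f91f8.HD.Bx
    simp only [Finset.sum_div]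
    rfl

/-- shifts of the indices of a nested limit -/
theorem nest_shift (P : ℕ → ℕ → ℕ → Prop) (h : Nest P) :
    ∃ (a : ℕ) (b : ℕ → ℕ) (c : ℕ → ℕ → ℕ), (∀ w K M, P (w + a) (K + b w) (M + c w K)) ∧
      ∀ P' : ℕ → ℕ → ℕ → Prop, Nest P' → Nest fun w K M => P' (w + a) (K + b w) (M + c w K) := by
  obtain ⟨a, ha⟩ := eventually_atTop.1 h
  have h1 : ∀ w : ℕ, ∃ b : ℕ, ∀ K ≥ b, ∀ᶠ M in atTop, P (w + a) K M := fun w =>
    eventually_atTop.1 (ha (w + a) (by omega))
  choose b hb using h1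
  have h2 : ∀ w K : ℕ, ∃ c : ℕ, ∀ M ≥ c, P (w + a) (K + b w) M := fun w K =>
    eventually_atTop.1 (hb w (K + b w) (by omega))
  choose c hc using h2
  refine ⟨a, b, c, fun w K M => hc w K (M + c w K) (by omega), fun P' h' => ?_⟩
  have h3 : ∀ᶠ w in atTop, ∀ᶠ K in atTop, ∀ᶠ M in atTop, P' (w + a) K M :=
    (tendsto_add_atTop_nat a).eventually h'
  refine h3.mono fun w hw => ?_
  have h4 : ∀ᶠ K in atTop, ∀ᶠ M in atTop, P' (w + a) (K + b w) M :=
    (tendsto_add_atTop_nat (b w)).eventually hw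
  exact h4.mono fun K hK => (tendsto_add_atTop_nat (c w K)).eventually hK

theorem nest_and {P P' : ℕ → ℕ → ℕ → Prop} (h : Nest P) (h' : Nest P') :
    Nest fun w K M => P w K M ∧ P' w K M := by
  unfold Nest at h h' ⊢
  filter_upwards [h, h'] with w h1 h2
  filter_upwards [h1, h2] with K h3 h4
  filter_upwards [h3, h4] with M h5 h6
  exact ⟨h5, h6⟩

/-- the spectral measures -/
theorem liK : StLiK :=
  pr_LiK Ev_pf Fol_pf Cnt_pf (pr_DeK Ev_pf (Haar_pf Ev_pf))

theorem nest_ge (q : ℕ) : Nest fun w K M => q ≤ w ∧ 1 ≤ K ∧ 1 ≤ M := by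
  unfold Nest
  filter_upwards [eventually_ge_atTop q] with w hw
  filter_upwards [eventually_ge_atTop 1] with K hK
  filter_upwards [eventually_ge_atTop 1] with M hM
  exact ⟨hw, hK, hM⟩

open Classical in
/-- continuity, bound and integral of the weighted mean -/
theorem avQ (h1 : S_Ev) {H : Type} [CommGroup H] (φ : ℕ+ →* H) (E w K M : ℕ) (hE : 1 ≤ E)
    (hK : 1 ≤ K) (hM : 1 ≤ M) :
    (Continuous fun g : GG => (AvK E w K M (wpc φ (ev g))).re) ∧
    (∀ g : GG, |(AvK E w K M (wpc φ (ev g))).re| ≤ 3) ∧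
    ∀ (r : ℕ) (ψ : Fin r → ℕ → ℕ → ℝ) (μ : Fin r → Measure GG),
      (∀ i a b, ψ i a b = ψ i b a) → (∀ i, IsSp (ψ i) (μ i)) → ∀ c ε : ℝ, 0 < c → 0 < ε →
      c ≤ (AvK E w K M (w1 φ)).re →
      -(c * ε) ≤ ∑ i, ∫ g, (AvK E w K M (wpc φ (ev g))).re ∂(μ i) →
      ∃ x y z : ℕ, 0 < x ∧ 0 < y ∧ 0 < z ∧ Mem E w x y z ∧ wt φ x y z ∧
        -ε ≤ ∑ i, (ψ i x y + ψ i x z + ψ i y z) := by
  obtain ⟨ι, S, X, Y, Z, hS, hT, hAv⟩ := rep E w K M hE hK hM
  have hc : (0 : ℝ) < (S.card : ℝ) := by exact_mod_cast hS.card_pos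
  have hcont : ∀ x y z : ℕ, Continuous fun g : GG => wpc φ (ev g) x y z := by
    intro x y z
    unfold wpc
    by_cases h : wt φ x y z
    · simp only [if_pos h]
      exact XAvF.pc_cont h1 x y z
    · simp only [if_neg h]
      exact continuous_const
  have hle3 : ∀ (g : GG) (x y z : ℕ), ‖wpc φ (ev g) x y z‖ ≤ 3 := by
    intro g x y z
    unfold wpc
    split_ifs
    · exact XAvF.pc_le h1 g x y z
    · rw [norm_zero]
      norm_num
  refine ⟨?_, ?_, ?_⟩
  · simp only [hAv]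
    refine Complex.continuous_re.comp (Continuous.div_const ?_ _)
    exact continuous_finsetSum _ fun i _ => hcont _ _ _
  · intro g
    rw [hAv]
    refine (Complex.abs_re_le_norm _).trans ?_
    rw [norm_div, Complex.norm_natCast, div_le_iff₀ hc]
    refine (norm_sum_le _ _).trans ?_
    calc ∑ i ∈ S, ‖wpc φ (ev g) (X i) (Y i) (Z i)‖ ≤ ∑ _i ∈ S, (3 : ℝ) :=
          Finset.sum_le_sum fun i _ => hle3 g _ _ _
      _ = 3 * S.card := by rw [Finset.sum_const, nsmul_eq_mul, mul_comm]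
  · intro r ψ μ hs hsp c ε hc0 hε hmass hint
    have hcard : (S.card : ℂ) = ((S.card : ℝ) : ℂ) := by push_cast; rfl
    have key : ∑ i, ∫ g, (AvK E w K M (wpc φ (ev g))).re ∂(μ i)
        = (∑ s ∈ S, ∑ i, if wt φ (X s) (Y s) (Z s) then
          (ψ i (X s) (Y s) + ψ i (X s) (Z s) + ψ i (Y s) (Z s)) else 0) / S.card := by
      rw [Finset.sum_comm, Finset.sum_div]
      refine Finset.sum_congr rfl fun i _ => ?_
      have := (hsp i).fin
      simp only [hAv]
      have e1 : ∀ g : GG, ((∑ s ∈ S, wpc φ (ev g) (X s) (Y s) (Z s)) /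
          (S.card : ℂ)).re = (∑ s ∈ S, (wpc φ (ev g) (X s) (Y s) (Z s)).re) /
            (S.card : ℝ) := by
        intro g
        rw [hcard, Complex.div_ofReal_re, Complex.re_sum]
      simp only [e1]
      have hre : ∀ s : ι, Integrable (fun g : GG =>
          (wpc φ (ev g) (X s) (Y s) (Z s)).re) (μ i) := fun s => by
        have h2 : Integrable (fun g : GG => wpc φ (ev g) (X s) (Y s) (Z s)) (μ i) :=
          Integrable.of_bound (hcont _ _ _).aestronglyMeasurable 3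
            (Filter.Eventually.of_forall fun g => hle3 g _ _ _)
        exact h2.re
      rw [integral_div, integral_finsetSum _ fun s _ => hre s]
      congr 1
      refine Finset.sum_congr rfl fun s hs' => ?_
      obtain ⟨hx, hy, hz, -⟩ := hT s hs'
      by_cases h : wt φ (X s) (Y s) (Z s)
      · rw [if_pos h]
        have e2 := XAvF.int_pc h1 (ψ i) (μ i) (hs i) (hsp i) (X s) (Y s) (Z s) hx hy hz
        have e3 := integral_re (XAvF.pc_int h1 (μ i) (X s) (Y s) (Z s))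
        rw [e2] at e3
        have e4 : ∀ g : GG, wpc φ (ev g) (X s) (Y s) (Z s) = pc (ev g) (X s) (Y s) (Z s) :=
          fun g => by unfold wpc; rw [if_pos h]
        simp only [e4]
        simpa using e3
      · rw [if_neg h]
        have e4 : ∀ g : GG, wpc φ (ev g) (X s) (Y s) (Z s) = 0 :=
          fun g => by unfold wpc; rw [if_neg h]
        simp only [e4, Complex.zero_re, integral_zero]
    have hm : (AvK E w K M (w1 φ)).re =
        (∑ s ∈ S, if wt φ (X s) (Y s) (Z s) then (1 : ℝ) else 0) / S.card := by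
      rw [hAv, hcard, Complex.div_ofReal_re, Complex.re_sum]
      congr 1
      refine Finset.sum_congr rfl fun s _ => ?_
      unfold w1
      split_ifs
      · exact Complex.one_re
      · exact Complex.zero_re
    rw [hm, le_div_iff₀ hc] at hmass
    rw [key, le_div_iff₀ hc] at hint
    have hex : ∃ s ∈ S, (if wt φ (X s) (Y s) (Z s) then (-ε) else 0) ≤
        (∑ i, if wt φ (X s) (Y s) (Z s) then
          (ψ i (X s) (Y s) + ψ i (X s) (Z s) + ψ i (Y s) (Z s)) else 0) ∧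
        wt φ (X s) (Y s) (Z s) := by
      by_contra hno
      push Not at hno
      have hno' : ∀ s ∈ S, wt φ (X s) (Y s) (Z s) →
          (∑ i, if wt φ (X s) (Y s) (Z s) then
            (ψ i (X s) (Y s) + ψ i (X s) (Z s) + ψ i (Y s) (Z s)) else 0) < -ε := by
        intro s hs' h
        by_contra h'
        push Not at h'
        refine hno s hs' ?_ h
        rw [if_pos h]
        exact h'
      -- there is a member with the property
      have hpos : 0 < ∑ s ∈ S, if wt φ (X s) (Y s) (Z s) then (1 : ℝ) else 0 :=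
        lt_of_lt_of_le (mul_pos hc0 hc) hmass
      obtain ⟨s0, hs0, hs0'⟩ := Finset.exists_ne_zero_of_sum_ne_zero hpos.ne'
      have hw0 : wt φ (X s0) (Y s0) (Z s0) := by
        by_contra h
        exact hs0' (if_neg h)
      have hlt : ∑ s ∈ S, (∑ i, if wt φ (X s) (Y s) (Z s) then
            (ψ i (X s) (Y s) + ψ i (X s) (Z s) + ψ i (Y s) (Z s)) else 0) <
          ∑ s ∈ S, (-ε) * (if wt φ (X s) (Y s) (Z s) then (1 : ℝ) else 0) := by
        refine Finset.sum_lt_sum (fun s hs' => ?_) ⟨s0, hs0, ?_⟩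
        · by_cases h : wt φ (X s) (Y s) (Z s)
          · have := (hno' s hs' h).le
            rw [if_pos h, mul_one]
            exact this
          · simp only [if_neg h, mul_zero, Finset.sum_const_zero, le_refl]
        · have := hno' s0 hs0 hw0
          rw [if_pos hw0, mul_one]
          exact this
      rw [← Finset.mul_sum] at hlt
      nlinarith
    obtain ⟨s, hs', hle, hw⟩ := hex
    obtain ⟨hx, hy, hz, hxyz⟩ := hT s hs'
    simp only [if_pos hw] at hle
    exact ⟨X s, Y s, Z s, hx, hy, hz, hxyz, hw, hle⟩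

end XQ

open XQ in
/-- the general inequality, for exponent `|H|` -/
theorem genQ0 (hPW : PWK) (hP1 : PK1) : ∀ (H : Type) (_ : CommGroup H) (_ : Finite H)
    (φ : ℕ+ →* H) (q : ℕ), 0 < q → ∀ (r : ℕ) (ψ : Fin r → ℕ → ℕ → ℝ), (∀ i, IsPK (ψ i)) →
    ∀ ε : ℝ, 0 < ε →
    ∃ x y z : ℕ, 0 < x ∧ 0 < y ∧ 0 < z ∧ x ^ 2 + y ^ 2 = z ^ 2 ∧
      φ x.toPNat' = 1 ∧ φ y.toPNat' = 1 ∧ φ z.toPNat' = 1 ∧
      Loc q (Nat.card H) x ∧ Loc q (Nat.card H) y ∧ Loc q (Nat.card H) z ∧
      -ε ≤ ∑ i, (ψ i x y + ψ i x z + ψ i y z) := by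
  intro H iH fH φ q hq r ψ hψ ε hε
  have hEv : S_Ev := Ev_pf
  have hH : 0 < Nat.card H := Nat.card_pos
  choose μ hμ using fun i => liK (ψ i) (hψ i)
  have : ∀ i, IsFiniteMeasure (μ i) := fun i => (hμ i).fin
  obtain ⟨c, hc, hmass⟩ := hP1 H iH fH φ
  obtain ⟨a, b, d, hgood, hshift⟩ := nest_shift _ (nest_and hmass (nest_ge q))
  have hav := fun w K M => avQ hEv φ (Nat.card H) (w + a) (K + b w) (M + d w K) hH
    (hgood w K M).2.2.1 (hgood w K M).2.2.2
  have : IsFiniteMeasure (∑ i, μ i) := ⟨by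
    rw [Measure.finsetSum_apply]
    exact ENNReal.sum_lt_top.2 fun i _ => measure_lt_top _ _⟩
  obtain ⟨w, K, M, hF⟩ := Fat_pf (∑ i, μ i)
    (fun w K M g => (AvK (Nat.card H) (w + a) (K + b w) (M + d w K) (wpc φ (ev g))).re) 3
    (fun w K M => (hav w K M).1.measurable)
    (fun w K M g => (hav w K M).2.1 g)
    (by
      intro g δ hδ
      have hcm : CM (ev g) := ⟨(hEv.1 g).zero, (hEv.1 g).mul, (hEv.1 g).norm⟩
      exact hshift _ (hPW H iH fH φ (ev g) hcm δ hδ))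
    (c * ε) (mul_pos hc hε)
  have h1 : ∫ g, (AvK (Nat.card H) (w + a) (K + b w) (M + d w K) (wpc φ (ev g))).re ∂(∑ i, μ i) =
      ∑ i, ∫ g, (AvK (Nat.card H) (w + a) (K + b w) (M + d w K) (wpc φ (ev g))).re ∂(μ i) := by
    have h5 : ∀ i ∈ Finset.univ, Integrable (fun g =>
        (AvK (Nat.card H) (w + a) (K + b w) (M + d w K) (wpc φ (ev g))).re) (μ i) := fun i _ =>
      IAsK.intble (μ i) _ 3 (hav w K M).1.measurable (hav w K M).2.1
    rw [integral_finsetSum_measure h5]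
  rw [h1] at hF
  obtain ⟨x, y, z, hx, hy, hz, hmem, hw, hle⟩ := (hav w K M).2.2 r ψ μ
    (fun i a b => (hψ i).symm a b) hμ c ε hc hε (hgood w K M).1 hF
  obtain ⟨-, -, -, hxyz⟩ := pr_MeP _ _ x y z hmem
  obtain ⟨lx, ly, lz⟩ := loc_mem hH hq (hgood w K M).2.1 hmem
  -- dilation by `x ^ (|H| - 1)`
  have ht : 0 < x ^ (Nat.card H - 1) := pow_pos hx _
  have lt : Loc q (Nat.card H) (x ^ (Nat.card H - 1)) := loc_pow lx _
  have hval : ∀ u : ℕ, 0 < u → φ u.toPNat' = φ x.toPNat' →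
      φ (x ^ (Nat.card H - 1) * u).toPNat' = 1 := by
    intro u hu hux
    have e1 : (x ^ (Nat.card H - 1) * u).toPNat' = x.toPNat' ^ (Nat.card H - 1) * u.toPNat' := by
      apply PNat.coe_injective
      rw [PNat.mul_coe, PNat.pow_coe, Nat.toPNat'_coe, Nat.toPNat'_coe, Nat.toPNat'_coe,
        if_pos (Nat.mul_pos ht hu), if_pos hx, if_pos hu]
    rw [e1, map_mul, map_pow, hux, ← pow_succ, Nat.sub_add_cancel hH]
    exact pow_card_eq_one'
  refine ⟨x ^ (Nat.card H - 1) * x, x ^ (Nat.card H - 1) * y, x ^ (Nat.card H - 1) * z,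
    Nat.mul_pos ht hx, Nat.mul_pos ht hy, Nat.mul_pos ht hz, ?_, hval x hx rfl,
    hval y hy hw.1.symm, hval z hz (hw.1.trans hw.2).symm, loc_mul lt lx, loc_mul lt ly,
    loc_mul lt lz, ?_⟩
  · rw [mul_pow, mul_pow, mul_pow, ← Nat.mul_add, hxyz]
  · refine hle.trans (le_of_eq (Finset.sum_congr rfl fun i _ => ?_))
    rw [(hψ i).hom _ x y ht hx hy, (hψ i).hom _ x z ht hx hz, (hψ i).hom _ y z ht hy hz]

open XQ in
/-- The general inequality for kernels, with local information. -/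
theorem genQ (hPW : PWK) (hP1 : PK1) : GenQ := by
  intro H iH fH φ q E hq hE r ψ hψ ε hε
  have : NeZero E := ⟨hE.ne'⟩
  obtain ⟨x, y, z, hx, hy, hz, hxyz, u1, u2, u3, l1, l2, l3, hle⟩ :=
    genQ0 hPW hP1 (H × Multiplicative (ZMod E)) inferInstance inferInstance
      (φ.prod (1 : ℕ+ →* Multiplicative (ZMod E))) q hq r ψ hψ ε hε
  have hcard : E ∣ Nat.card (H × Multiplicative (ZMod E)) := by
    rw [Nat.card_prod]
    refine Dvd.dvd.mul_left ?_ _
    have : Nat.card (Multiplicative (ZMod E)) = E := by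
      rw [Nat.card_congr Multiplicative.toAdd, Nat.card_zmod]
    rw [this]
  exact ⟨x, y, z, hx, hy, hz, hxyz, congrArg Prod.fst u1, congrArg Prod.fst u2,
    congrArg Prod.fst u3, loc_of_dvd hcard l1, loc_of_dvd hcard l2, loc_of_dvd hcard l3, hle⟩

end Pool.Agent.F0f91f8.KR
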