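import Pool.Agent.Work.MP_0f91f8_co.K.Defs

/-!
# Kronecker form, module W: statements

`PWK` and `PK1` (`K/Defs.lean`) from `Aper3`, `TrivK`, `PWK0` and `HD.PretStmt`. A file `K/I_X.lean`
proves `theorem pr_X : StX` (with hypotheses `(h : StY)` where the docstring says USES).
The docstrings are complete proofs.
-/

set_option autoImplicit false

noncomputable section

namespace Pool.Agent.F0f91f8.KR

open Filter Topology ComplexConjugate
open Pool.Agent.F0f91f8.HD Pool.Agent.F0f91f8.RC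
open scoped BigOperators

/-- characters of a finite abelian group -/
abbrev Ch (H : Type) [CommGroup H] : Type := AddChar (Additive H) ℂ

/-- the completely multiplicative function `ψ ∘ φ` -/
def FC {H : Type} [CommGroup H] (φ : ℕ+ →* H) (ψ : Ch H) (n : ℕ) : ℂ :=
  if 0 < n then ψ (Additive.ofMul (φ n.toPNat')) else 0

/-- EASY. **FCp.** Properties of `FC`. For `m, n > 0` `(m * n).toPNat' = m.toPNat' * n.toPNat'`
(`PNat.eq`, `Nat.toPNat'_coe`); values of characters of a finite group have modulus one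
(`AddChar.norm_apply`); `(ψ a) ^ Nat.card H = ψ (Nat.card H • a) = ψ 0 = 1` (`AddChar.map_nsmul_eq_pow`,
`card_nsmul_eq_zero'`, `Nat.card (Additive H) = Nat.card H`); `AddChar.mul_apply`;
`ψ⁻¹ a = (ψ a)⁻¹ = conj (ψ a)` (`AddChar.inv_apply_eq_conj`, `AddChar.map_neg_eq_conj`). For `n = 0`
everything is `0`. -/
def StFCp : Prop := ∀ (H : Type) (_ : CommGroup H) (_ : Finite H) (φ : ℕ+ →* H),
  (∀ ψ : Ch H, CM (FC φ ψ)) ∧
  (∀ (ψ : Ch H) (n : ℕ), 0 < n → FC φ ψ n ^ Nat.card H = 1) ∧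
  (∀ (ψ ψ' : Ch H) (n : ℕ), FC φ (ψ * ψ') n = FC φ ψ n * FC φ ψ' n) ∧
  (∀ (ψ : Ch H) (n : ℕ), FC φ ψ⁻¹ n = conj (FC φ ψ n)) ∧
  (∀ n : ℕ, 0 < n → FC φ 1 n = 1)

/-- EASY-MEDIUM. **Ex.** Expansion of the weight. The right-hand side is
`(∑ ψ₁, ψ₁ (φ x / φ z)) (∑ ψ₂, ψ₂ (φ y / φ z))` (in additive notation `ψ₁ (a - c) ψ₂ (b - c)`), and
`AddChar.sum_apply_eq_ite` gives `card H` or `0` for each factor (`Finset.sum_mul_sum`). So the value is
`(card H)²` if `φ x = φ z` and `φ y = φ z`, otherwise `0`; `wt φ x y z` is equivalent to this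
condition. `FC φ (ψ₁ * ψ₂)⁻¹ z = ψ₁ (-c) ψ₂ (-c)`. -/
def StEx : Prop := ∀ (H : Type) (_ : CommGroup H) (_ : Finite H) (φ : ℕ+ →* H) (x y z : ℕ),
  0 < x → 0 < y → 0 < z →
  ((Nat.card H : ℂ)) ^ 2 * w1 φ x y z =
    ∑ ψ₁ : Ch H, ∑ ψ₂ : Ch H, FC φ ψ₁ x * FC φ ψ₂ y * FC φ (ψ₁ * ψ₂)⁻¹ z

/-- EASY-MEDIUM. **PrM.** Pretentious functions form a group.
Product: `f ~ χ p^(it)` modulo `q`, `g ~ χ' p^(it')` modulo `q'`. Take the modulus `q q'`, the character
`χ.changeLevel * χ'.changeLevel` and `t + t'`. For a prime `p ∤ q q'` the value of the new character is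
`χ p * χ' p` (`DirichletCharacter.changeLevel_eq_cast_of_dvd`, the class of `p` is a unit), all numbers have
modulus `≤ 1`, so the difference is at most `‖f p - χ p p^(it)‖ + ‖g p - χ' p p^(it')‖` and its square
at most `2 (..)² + 2 (..)²`. The finitely many primes dividing `q q'` do not matter
(`Summable` and finite sets: `summable_of_finite_support` for the difference, or
`Summable.of_norm_bounded_eventually` on the cofinite filter).
`p^(i(t+t')) = p^(it) p^(it')` (`Complex.cpow_add`, `p ≠ 0`), `‖p^(it)‖ = 1`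
(`Complex.norm_natCast_cpow_of_pos`).
Conjugate: `χ⁻¹` and `-t`: `conj (χ a) = χ⁻¹ a` (`MulChar.star_apply'`, `MulChar.star_eq_inv`) and
`conj (p^(it)) = p^(-it)`; the norm does not change under `conj`.
Constant: `q = 1`, `χ = 1`, `t = 0`, every term is `0`. -/
def StPrM : Prop :=
  (∀ f g : ℕ → ℂ, CM f → CM g → Pret f → Pret g → Pret fun n => f n * g n) ∧
  (∀ f : ℕ → ℂ, CM f → Pret f → Pret fun n => conj (f n)) ∧
  (∀ f : ℕ → ℂ, (∀ n : ℕ, 0 < n → f n = 1) → Pret f)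

/-- EASY. **CMm.** Products and conjugates of completely multiplicative functions. -/
def StCMm : Prop :=
  (∀ f g : ℕ → ℂ, CM f → CM g → CM fun n => f n * g n) ∧
  (∀ f : ℕ → ℂ, CM f → CM fun n => conj (f n))

/-- EASY. **AvL.** `AvK` is linear. Unfold `AvK`, `BxR`, `Bx`; `Finset.sum_add_distrib`, `Finset.mul_sum`,
`Finset.sum_comm` (or induction on `s` from the first part). -/
def StAvL : Prop := ∀ E w K M : ℕ,
  (∀ Φ Ψ : ℕ → ℕ → ℕ → ℂ, AvK E w K M (fun x y z => Φ x y z + Ψ x y z) =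
    AvK E w K M Φ + AvK E w K M Ψ) ∧
  (∀ (Φ : ℕ → ℕ → ℕ → ℂ) (c : ℂ), AvK E w K M (fun x y z => c * Φ x y z) = c * AvK E w K M Φ) ∧
  ∀ (ι : Type) (s : Finset ι) (Φ : ι → ℕ → ℕ → ℕ → ℂ),
    AvK E w K M (fun x y z => ∑ i ∈ s, Φ i x y z) = ∑ i ∈ s, AvK E w K M (Φ i)

/-- EASY. **AvP.** `AvK` is a mean over triples of positive integers. The members are positive:
`κ = kR E w K e > 0` and `k = kK E w K e' > 0` (products of positive numbers), `a = w! (v + v') + 1 > 0`,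
`n = w! (u + u') + 1 > 0`, so `tX`, `tY`, `tZ` are positive. First part: `Finset.sum_congr`. Second part:
triangle inequality (`norm_sum_le`), the real part of a real sum. Third part: `BxR _ D _ M 1 = 1` as `D M > 0`
(`DR E w K > 0`), and the number of `e, e'` is `K^(w+1) K^(K+1)`. -/
def StAvP : Prop := ∀ E w K M : ℕ, 0 < K → 0 < M →
  (∀ Φ Ψ : ℕ → ℕ → ℕ → ℂ, (∀ x y z, 0 < x → 0 < y → 0 < z → Φ x y z = Ψ x y z) →
    AvK E w K M Φ = AvK E w K M Ψ) ∧
  (∀ (Φ : ℕ → ℕ → ℕ → ℂ) (g : ℕ → ℕ → ℕ → ℝ),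
    (∀ x y z, 0 < x → 0 < y → 0 < z → ‖Φ x y z‖ ≤ g x y z) →
    ‖AvK E w K M Φ‖ ≤ (AvK E w K M fun x y z => ((g x y z : ℝ) : ℂ)).re) ∧
  AvK E w K M (fun _ _ _ => 1) = 1

/-- EASY. **Nst.** Closure properties of `Nest` (`Filter.Eventually.and`, `eventually_all` for finite types,
`eventually_gt_atTop`, three times). -/
def StNst : Prop :=
  (∀ P Q : ℕ → ℕ → ℕ → Prop, (∀ w K M, 0 < w → 0 < K → 0 < M → P w K M → Q w K M) →
    Nest P → Nest Q) ∧
  (∀ P Q : ℕ → ℕ → ℕ → Prop, Nest P → Nest Q → Nest fun w K M => P w K M ∧ Q w K M) ∧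
  ∀ (ι : Type) (_ : Finite ι) (P : ι → ℕ → ℕ → ℕ → Prop), (∀ i, Nest (P i)) →
    Nest fun w K M => ∀ i, P i w K M

/-- three functions, one value each -/
def t3 (f1 f2 f3 : ℕ → ℂ) (x y z : ℕ) : ℂ := f1 x * f2 y * f3 z

/-- EASY. **Van.** Vanishing terms. For fixed `w` and `K > 0` the average `AvK E w K M (t3 f1 f2 f3)` is a finite
mean (over `e`, `e'`, with a number of terms that does not depend on `M`) of the averages of `Aper3` with
`κ = kR E w K e > 0`, `k = kK E w K e' > 0`, `Q = w! > 0`, `D = DR E w K > 0`, `a₀ = 1`; each tends to `0` as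
`M → ∞` (`tendsto_finset_sum`, `Tendsto.div_const`). So for every `w`, every `K > 0` and all large `M`
the norm is `≤ ε`. USES: `Aper3` (write `pr_Van (h : Aper3) : StVan`). -/
def StVan : Prop := ∀ (E : ℕ) (f1 f2 f3 : ℕ → ℂ), CM f1 → CM f2 → CM f3 → (Aper f1 ∨ Aper f2) →
  ∀ ε : ℝ, 0 < ε → Nest fun w K M => ‖AvK E w K M (t3 f1 f2 f3)‖ ≤ ε

/-- EASY-MEDIUM. **Sur.** Surviving terms. For positive `x, y, z` the values `f1 x, f2 y, f3 z` have modulus
one, so `‖f1 x * f2 y * f3 z - 1‖ ≤ ‖1 - f1 x‖ + ‖1 - f2 y‖ + ‖1 - f3 z‖ ≤ g x y z` with `g = g1 + g2 + g3`,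
`g_j x y z = ‖1 - f_j x‖ + ‖1 - f_j y‖ + ‖1 - f_j z‖`, and
`‖t3 f1 f2 f3 x y z * Ψ x y z - Ψ x y z‖ ≤ C g x y z`. By `TrivK` (for `f1, f2, f3` and `ε / (3 C)`) and `StNst`
the average of `C g` has real part `≤ ε` (`StAvL`; for the sums of real functions cast to `ℂ` use
`push_cast`). `StAvP`, second part, for the difference; `AvK (Φ - Ψ) = AvK Φ - AvK Ψ` from `StAvL`.
USES: `TrivK`, `StAvL`, `StAvP`, `StNst` (write
`pr_Sur (h1 : TrivK) (h2 : StAvL) (h3 : StAvP) (h4 : StNst) : StSur`). -/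
def StSur : Prop := ∀ (E : ℕ), 0 < E → ∀ f1 f2 f3 : ℕ → ℂ, CM f1 → CM f2 → CM f3 →
  Pret f1 → Pret f2 → Pret f3 → (∀ n : ℕ, 0 < n → f1 n ^ E = 1) → (∀ n : ℕ, 0 < n → f2 n ^ E = 1) →
  (∀ n : ℕ, 0 < n → f3 n ^ E = 1) → ∀ (C : ℝ), 0 < C → ∀ Ψ : ℕ → ℕ → ℕ → ℂ,
  (∀ x y z, 0 < x → 0 < y → 0 < z → ‖Ψ x y z‖ ≤ C) → ∀ ε : ℝ, 0 < ε →
  Nest fun w K M =>
    ‖AvK E w K M (fun x y z => t3 f1 f2 f3 x y z * Ψ x y z) - AvK E w K M Ψ‖ ≤ ε

/-- EASY. **Dic.** A completely multiplicative function is aperiodic or pretentious; if `f` is pretentious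
and `f g` (or `conj f * g`) is pretentious then so is `g`, because `g n = conj (f n) * (f n * g n)` for every `n`
(`‖f n‖ = 1` for `n > 0`, and `g 0 = 0`). USES: `PretStmt`, `StPrM`, `StCMm` (write
`pr_Dic (h1 : PretStmt) (h2 : StPrM) (h3 : StCMm) : StDic`). -/
def StDic : Prop :=
  (∀ f : ℕ → ℂ, CM f → Aper f ∨ Pret f) ∧
  (∀ f g : ℕ → ℂ, CM f → CM g → Pret f → ¬ Pret g → Aper fun n => g n * f n) ∧
  (∀ f g : ℕ → ℂ, CM f → CM g → Pret f → ¬ Pret g → Aper fun n => g n * conj (f n)) ∧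
  ∀ f : ℕ → ℂ, CM f → ¬ Pret f → Aper f ∧ Aper fun n => conj (f n)

/-- EASY-MEDIUM. **Pc0.** The terms of the weighted correlation for a pretentious `f`. If `F1` and `F2` (and so
`F3`) are pretentious: `StSur` with `Ψ = pc f`, `C = 3`. Otherwise `F1` or `F2` is not pretentious; the function
`t3 F1 F2 F3 * pc f` is (as a function of `x y z`) the sum of
`t3 (F1 f) (F2 conj f) F3`, `t3 F1 (F2 f) (F3 conj f)` and `t3 (F1 conj f) F2 (F3 f)`. In each of the three the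
first function is aperiodic if `F1` is not pretentious, and the second one is aperiodic if `F2` is not
pretentious (`StDic`); so `StVan` with `ε / 3` (and `StAvL`, `StNst`).
USES: `StCMm`, `StAvL`, `StNst`, `StVan`, `StSur`, `StDic` (write the hypotheses in this order,
`(h1 : StCMm) (h2 : StAvL) (h3 : StNst) (h4 : StVan) (h5 : StSur) (h6 : StDic)`). -/
def StPc0 : Prop := ∀ (E : ℕ), 0 < E → ∀ f F1 F2 F3 : ℕ → ℂ, CM f → CM F1 → CM F2 → CM F3 →
  Pret f → (Pret F1 → Pret F2 → Pret F3) →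
  (∀ n : ℕ, 0 < n → F1 n ^ E = 1) → (∀ n : ℕ, 0 < n → F2 n ^ E = 1) →
  (∀ n : ℕ, 0 < n → F3 n ^ E = 1) → ∀ ε : ℝ, 0 < ε →
  ((Pret F1 ∧ Pret F2) → Nest fun w K M =>
    ‖AvK E w K M (fun x y z => t3 F1 F2 F3 x y z * pc f x y z) - AvK E w K M (pc f)‖ ≤ ε) ∧
  (¬ (Pret F1 ∧ Pret F2) → Nest fun w K M =>
    ‖AvK E w K M (fun x y z => t3 F1 F2 F3 x y z * pc f x y z)‖ ≤ ε)

/-- EASY-MEDIUM. **Pc1.** The terms when no twist is pretentious. `t3 F1 F2 F3 * pc f` is the sum of the same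
three functions as in `StPc0`; the first contains `F1 f` (aperiodic because it is not pretentious), the second `F2 f`
in second position, the third `F1 conj f` in first position (`conj` of the non-pretentious
`conj F1 * f`: last part of `StDic`). `StVan` with `ε / 3`. USES: `StCMm`, `StAvL`, `StNst`, `StVan`, `StDic`
(`(h1 : StCMm) (h2 : StAvL) (h3 : StNst) (h4 : StVan) (h6 : StDic)`). -/
def StPc1 : Prop := ∀ (E : ℕ) (f F1 F2 F3 : ℕ → ℂ), CM f → CM F1 → CM F2 → CM F3 →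
  (¬ Pret fun n => F1 n * f n) → (¬ Pret fun n => F2 n * f n) →
  (¬ Pret fun n => conj (F1 n) * f n) → ∀ ε : ℝ, 0 < ε →
  Nest fun w K M => ‖AvK E w K M (fun x y z => t3 F1 F2 F3 x y z * pc f x y z)‖ ≤ ε

/-- EASY. **Red.** Reduction by a twist: on `wt φ x y z` the three values of `FC φ ψ` are the same number `u`, `‖u‖ = 1`,
and `(u f x) conj (u f y) = f x conj (f y)`. Not on `wt` both sides are `0`. USES: `StFCp`
(write `pr_Red (h : StFCp) : StRed`). -/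
def StRed : Prop := ∀ (H : Type) (_ : CommGroup H) (_ : Finite H) (φ : ℕ+ →* H) (ψ : Ch H)
  (f : ℕ → ℂ) (x y z : ℕ), 0 < x → 0 < y → 0 < z →
  wpc φ (fun n => FC φ ψ n * f n) x y z = wpc φ f x y z

/-- EASY-MEDIUM. **ExA.** Expansion of the averages. `wpc φ f x y z = w1 φ x y z * pc f x y z`, `StEx`, `StAvP` (first part)
and `StAvL` (twice the sum over `Finset.univ`, and the factor `(card H)²`). The second formula is the same without
`pc f`. USES: `StEx`, `StAvL`, `StAvP` (write `pr_ExA (h1 : StEx) (h2 : StAvL) (h3 : StAvP) : StExA`). -/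
def StExA : Prop := ∀ (H : Type) (_ : CommGroup H) (_ : Finite H) (φ : ℕ+ →* H) (f : ℕ → ℂ)
  (E w K M : ℕ), 0 < K → 0 < M →
  ((Nat.card H : ℂ)) ^ 2 * AvK E w K M (wpc φ f) =
    ∑ ψ₁ : Ch H, ∑ ψ₂ : Ch H,
      AvK E w K M (fun x y z => t3 (FC φ ψ₁) (FC φ ψ₂) (FC φ (ψ₁ * ψ₂)⁻¹) x y z * pc f x y z) ∧
  ((Nat.card H : ℂ)) ^ 2 * AvK E w K M (w1 φ) =
    ∑ ψ₁ : Ch H, ∑ ψ₂ : Ch H, AvK E w K M (t3 (FC φ ψ₁) (FC φ ψ₂) (FC φ (ψ₁ * ψ₂)⁻¹))

/-- EASY-MEDIUM. **PWc.** `PWK`. Let `h = card H > 0` and `E = h`. Let `f` be `CM`.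
CASE 1: there is `ψ` with `f0 = FC φ ψ * f` pretentious. By `StRed` and `StAvP` (first part)
`AvK (wpc φ f) = AvK (wpc φ f0)`. Let `s` be the set of pairs `(ψ₁, ψ₂)` with `FC φ ψ₁` and `FC φ ψ₂` pretentious. By `StPc0`
for all pairs (with `η = ε / 2`) and `StNst` (finite intersection over `Ch H × Ch H`) and `StExA`:
`‖h² AvK (wpc φ f0) - s.card * AvK (pc f0)‖ ≤ h² η` (number of pairs: `card (Ch H) = h`, `AddChar.card_eq`, or any
bound: if you do not want to compute it take `η = ε h² / (2 (number of pairs + 1))`). `PWK0` for `f0` gives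
`-ε' ≤ Re AvK (pc f0)`, with `ε' s.card ≤ h² ε / 2`. So `h² Re AvK (wpc φ f) ≥ - h² ε`.
(`F3` is pretentious if `F1`, `F2` are: `FC φ (ψ₁ ψ₂)⁻¹ = conj (FC φ ψ₁ * FC φ ψ₂)`, `StPrM`.)
CASE 2: no twist is pretentious: `StPc1` for all pairs (`conj (FC φ ψ₁) = FC φ ψ₁⁻¹`), `StExA`.
USES (in this order): `PWK0`, `StFCp`, `StPrM`, `StCMm`, `StAvP`, `StNst`, `StPc0`, `StPc1`, `StRed`, `StExA`. -/
def StPWc : Prop := PWK

/-- EASY-MEDIUM. **PK1.** `PK1` with `c = 1 / (2 h²)`, `h = card H`, `E = h`. By `StExA` `h² AvK (w1 φ)` is the sum over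
all pairs of `AvK (t3 F1 F2 F3)`. For a pair with `F1` or `F2` not pretentious (so aperiodic, `StDic`) it is `≤ η` in
norm (`StVan`); for the other pairs it is `η`-close to `AvK 1 = 1` (`StSur` with `Ψ = 1`, `C = 1`; `StAvP`). The
pair `(1, 1)` is of the second kind (`StFCp`, `StPrM`, third part). So the real part of the sum is at least
`1 - (number of pairs) η ≥ 1 / 2`. USES (in this order): `StFCp`, `StPrM`, `StAvP`, `StNst`, `StVan`, `StSur`,
`StDic`, `StExA`. -/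
def StPKo : Prop := PK1

end Pool.Agent.F0f91f8.KR
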