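import Mathlib
import Pool.Agent.Work.MP_0f91f8_co.K.StmtsW

/-!
# Block K, item AvP: `AvK` is a mean over triples of positive integers
-/

set_option autoImplicit false

open Filter Topology

noncomputable section

namespace Pool.Agent.F0f91f8.KR

open Pool.Agent.F0f91f8.HD Pool.Agent.F0f91f8.RC

namespace IAvP

lemma DR_pos (E w K : ℕ) (hK : 1 ≤ K) : 0 < DR E w K := by
  unfold DR
  have := Nat.factorial_pos w
  positivity

lemma kp_pos (w K : ℕ) (e : Fin (w + 1) → Fin K) : 0 < kp w K e := by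
  unfold kp
  refine Finset.prod_pos fun p _ => ?_
  split_ifs with h
  · exact pow_pos h.pos _
  · exact Nat.one_pos

lemma kk_pos (w K : ℕ) (e : Fin (K + 1) → Fin K) : 0 < kk w K e := by
  unfold kk
  refine Finset.prod_pos fun p _ => ?_
  split_ifs with h
  · exact pow_pos h.1.pos _
  · exact Nat.one_pos

/-- the index type of the family -/
abbrev IX (w K : ℕ) : Type :=
  ((Fin (w + 1) → Fin K) × (Fin (K + 1) → Fin K)) × ((ℕ × ℕ) × (ℕ × ℕ))

/-- the index set of the family -/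
def SX (E w K M : ℕ) : Finset (IX w K) := (Finset.univ ×ˢ Finset.univ) ×ˢ
    ((Finset.Icc 1 M ×ˢ Finset.Icc 1 M) ×ˢ
      (Finset.Icc 1 (DR E w K * M) ×ˢ Finset.Icc 1 (DR E w K * M)))

lemma card_SX (E w K M : ℕ) : (SX E w K M).card =
    (K ^ (w + 1) * K ^ (K + 1)) * ((M * M) * ((DR E w K * M) * (DR E w K * M))) := by
  simp only [SX, Finset.card_product, Nat.card_Icc, Nat.add_sub_cancel, Finset.card_univ,
    Fintype.card_pi, Fintype.card_fin, Finset.prod_const]

/-- the parameter `a` of a triple of the family -/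
def aX (w K : ℕ) (i : IX w K) : ℕ := w.factorial * (i.2.2.1 + i.2.2.2) + 1

/-- the parameter `n` of a triple of the family -/
def nX (w K : ℕ) (i : IX w K) : ℕ := w.factorial * (i.2.1.1 + i.2.1.2) + 1

/-- the mean is the mean over a finite family of positive triples -/
lemma rep (E w K M : ℕ) (hK : 1 ≤ K) (hM : 1 ≤ M) :
    ∃ (ι : Type) (S : Finset ι) (X Y Z : ι → ℕ), S.Nonempty ∧
      (∀ i ∈ S, 0 < X i ∧ 0 < Y i ∧ 0 < Z i) ∧
      ∀ Φ : ℕ → ℕ → ℕ → ℂ, AvK E w K M Φ = (∑ i ∈ S, Φ (X i) (Y i) (Z i)) / (S.card : ℂ) := by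
  classical
  have hD0 : 0 < DR E w K := DR_pos E w K hK
  refine ⟨IX w K, SX E w K M,
    fun i => tX (kR E w K i.1.1) (kK E w K i.1.2) (aX w K i) (nX w K i),
    fun i => tY (kR E w K i.1.1) (kK E w K i.1.2) (aX w K i) (nX w K i),
    fun i => tZ (kR E w K i.1.1) (kK E w K i.1.2) (aX w K i) (nX w K i), ?_, ?_, ?_⟩
  · have hDM : 1 ≤ DR E w K * M := Nat.succ_le_of_lt (Nat.mul_pos hD0 hM)
    refine ⟨((fun _ => ⟨0, hK⟩, fun _ => ⟨0, hK⟩), ((1, 1), (1, 1))), ?_⟩
    simp only [SX, Finset.mem_product, Finset.mem_univ, Finset.mem_Icc, true_and]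
    exact ⟨⟨⟨le_rfl, hM⟩, le_rfl, hM⟩, ⟨le_rfl, hDM⟩, le_rfl, hDM⟩
  · intro i _
    have hkp : 0 < kp w K i.1.1 := kp_pos w K _
    have hfac := Nat.factorial_pos w
    have hκ : 0 < kR E w K i.1.1 := by
      unfold kR
      positivity
    have hk : 0 < kK E w K i.1.2 := pow_pos (kk_pos w K _) _
    have hn : 0 < nX w K i := by unfold nX; omega
    have ha : 0 < aX w K i := by unfold aX; omega
    refine ⟨?_, ?_, ?_⟩
    · show 0 < tX (kR E w K i.1.1) (kK E w K i.1.2) (aX w K i) (nX w K i)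
      unfold tX
      positivity
    · show 0 < tY (kR E w K i.1.1) (kK E w K i.1.2) (aX w K i) (nX w K i)
      unfold tY
      positivity
    · show 0 < tZ (kR E w K i.1.1) (kK E w K i.1.2) (aX w K i) (nX w K i)
      unfold tZ
      positivity
  · intro Φ
    have hcard : ((SX E w K M).card : ℂ) = ((M : ℂ) ^ 2 * ((DR E w K * M : ℕ) : ℂ) ^ 2) *
        ((K : ℂ) ^ (w + 1) * (K : ℂ) ^ (K + 1)) := by
      rw [card_SX]
      push_cast
      ring
    rw [hcard, ← div_div]
    unfold AvK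
    congr 1
    simp only [SX, Finset.sum_product, Finset.sum_div]
    refine Finset.sum_congr rfl fun e _ => Finset.sum_congr rfl fun e' _ => ?_
    unfold BxR Pool.Agent.F0f91f8.HD.Bx
    simp only [Finset.sum_div]
    rfl

end IAvP

open IAvP in
/-- [AvP] `AvK` is a mean over triples of positive integers. -/
theorem pr_AvP : StAvP := by
  classical
  intro E w K M hK hM
  obtain ⟨ι, S, X, Y, Z, hS, hpos, hrep⟩ := rep E w K M hK hM
  have hcard : (0 : ℝ) < (S.card : ℝ) := by exact_mod_cast hS.card_pos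
  have hcardC : (S.card : ℂ) ≠ 0 := by exact_mod_cast hS.card_pos.ne'
  refine ⟨fun Φ Ψ h => ?_, fun Φ g h => ?_, ?_⟩
  · rw [hrep, hrep]
    congr 1
    exact Finset.sum_congr rfl fun i hi => h _ _ _ (hpos i hi).1 (hpos i hi).2.1 (hpos i hi).2.2
  · rw [hrep, hrep]
    have h1 : (∑ i ∈ S, ((g (X i) (Y i) (Z i) : ℝ) : ℂ)) / (S.card : ℂ) =
        (((∑ i ∈ S, g (X i) (Y i) (Z i)) / (S.card : ℝ) : ℝ) : ℂ) := by
      push_cast
      rfl
    rw [h1, Complex.ofReal_re, norm_div, Complex.norm_natCast]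
    refine div_le_div_of_nonneg_right ?_ hcard.le
    refine (norm_sum_le _ _).trans (Finset.sum_le_sum fun i hi => ?_)
    exact h _ _ _ (hpos i hi).1 (hpos i hi).2.1 (hpos i hi).2.2
  · rw [hrep]
    simp only [Finset.sum_const, nsmul_eq_mul, mul_one]
    exact div_self hcardC

end Pool.Agent.F0f91f8.KR
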