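import Pool.Agent.Work.MP_0f91f8_co.K.FinK
import Pool.Agent.Work.MP_0f91f8_co.K.I_AvP

/-!
# Kronecker form, module E: the weighted inequality for kernels

`GenW`: for a bounded weight `P ≥ 0` whose weighted correlations are nonnegative in nested limits
and whose mean is bounded below there is, for every finite family of positive semidefinite
homogeneous kernels, a triple of the family with a large weight at which the kernels are not too
negative. Special case: `GenP` from `PWK` and `PK1`.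
-/

set_option autoImplicit false

open Filter Topology MeasureTheory

noncomputable section

namespace Pool.Agent.F0f91f8.KR

open Pool.Agent.F0f91f8.HD Pool.Agent.F0f91f8.RC
open Pool.Agent.Work.MP_0f91f8_co.EF

/-- The weighted inequality for kernels. -/
def GenW : Prop := ∀ (E : ℕ) (P : ℕ → ℕ → ℕ → ℝ) (C c : ℝ), (∀ x y z, 0 ≤ P x y z) →
  (∀ x y z, P x y z ≤ C) →
  (∀ f : ℕ → ℂ, CM f → ∀ ε : ℝ, 0 < ε →
    Nest fun w K M => -ε ≤ (AvK E w K M fun x y z => ((P x y z : ℝ) : ℂ) * pc f x y z).re) →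
  (Nest fun w K M => c ≤ (AvK E w K M fun x y z => ((P x y z : ℝ) : ℂ)).re) →
  0 < c → ∀ (r : ℕ) (κ : Fin r → ℕ → ℕ → ℝ), (∀ i, IsPK (κ i)) → ∀ ε : ℝ, 0 < ε →
  ∃ x y z : ℕ, 0 < x ∧ 0 < y ∧ 0 < z ∧ x ^ 2 + y ^ 2 = z ^ 2 ∧
    c * ε / 2 ≤ P x y z * (∑ i, (κ i x y + κ i x z + κ i y z) + ε)

namespace XW

open IAvP

/-- the mean is the mean over a finite family of Pythagorean triples -/
lemma rep (E w K M : ℕ) (hK : 1 ≤ K) (hM : 1 ≤ M) :
    ∃ (ι : Type) (S : Finset ι) (X Y Z : ι → ℕ), S.Nonempty ∧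
      (∀ i ∈ S, 0 < X i ∧ 0 < Y i ∧ 0 < Z i ∧ X i ^ 2 + Y i ^ 2 = Z i ^ 2) ∧
      ∀ Φ : ℕ → ℕ → ℕ → ℂ, AvK E w K M Φ = (∑ i ∈ S, Φ (X i) (Y i) (Z i)) / (S.card : ℂ) := by
  classical
  have hD0 : 0 < DR E w K := DR_pos E w K hK
  refine ⟨IX w K, SX E w K M,
    fun i => tX (kR E w K i.1.1) (kK E w K i.1.2) (aX w K i) (nX w K i),
    fun i => tY (kR E w K i.1.1) (kK E w K i.1.2) (aX w K i) (nX w K i),
    fun i => tZ (kR E w K i.1.1) (kK E w K i.1.2) (aX w K i) (nX w K i), ?_, ?_, ?_⟩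
  · have hDM : 1 ≤ DR E w K * M := Nat.succ_le_of_lt (Nat.mul_pos hD0 hM)
    refine ⟨((fun _ => ⟨0, hK⟩, fun _ => ⟨0, hK⟩), ((1, 1), (1, 1))), ?_⟩
    simp only [SX, Finset.mem_product, Finset.mem_univ, Finset.mem_Icc, true_and]
    exact ⟨⟨⟨le_rfl, hM⟩, le_rfl, hM⟩, ⟨le_rfl, hDM⟩, le_rfl, hDM⟩
  · intro i _
    have hkp : 0 < kp w K i.1.1 := kp_pos w K _
    have hfac := Nat.factorial_pos w
    have hκ : 0 < kR E w K i.1.1 := by
      unfold kR
      positivity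
    have hk : 0 < kK E w K i.1.2 := pow_pos (kk_pos w K _) _
    have hn : 0 < nX w K i := by unfold nX; omega
    have ha : 0 < aX w K i := by unfold aX; omega
    refine ⟨?_, ?_, ?_, ?_⟩
    · show 0 < tX (kR E w K i.1.1) (kK E w K i.1.2) (aX w K i) (nX w K i)
      unfold tX
      positivity
    · show 0 < tY (kR E w K i.1.1) (kK E w K i.1.2) (aX w K i) (nX w K i)
      unfold tY
      positivity
    · show 0 < tZ (kR E w K i.1.1) (kK E w K i.1.2) (aX w K i) (nX w K i)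
      unfold tZ
      positivity
    · show tX (kR E w K i.1.1) (kK E w K i.1.2) (aX w K i) (nX w K i) ^ 2 +
        tY (kR E w K i.1.1) (kK E w K i.1.2) (aX w K i) (nX w K i) ^ 2 =
        tZ (kR E w K i.1.1) (kK E w K i.1.2) (aX w K i) (nX w K i) ^ 2
      unfold tX tY tZ
      ring
  · intro Φ
    have hcard : ((SX E w K M).card : ℂ) = ((M : ℂ) ^ 2 * ((DR E w K * M : ℕ) : ℂ) ^ 2) *
        ((K : ℂ) ^ (w + 1) * (K : ℂ) ^ (K + 1)) := by
      rw [card_SX]
      push_cast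
      ring
    rw [hcard, ← div_div]
    unfold AvK
    congr 1
    simp only [SX, Finset.sum_product, Finset.sum_div]
    refine Finset.sum_congr rfl fun e _ => Finset.sum_congr rfl fun e' _ => ?_
    unfold BxR Pool.Agent.F0f91f8.HD.Bx
    simp only [Finset.sum_div]
    rfl

/-- real part of a weighted mean -/
lemma re_mean {ι : Type} (S : Finset ι) (b : ι → ℝ) (u : ι → ℂ) :
    ((∑ s ∈ S, ((b s : ℝ) : ℂ) * u s) / (S.card : ℂ)).re =
      (∑ s ∈ S, b s * (u s).re) / (S.card : ℝ) := by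
  have : (S.card : ℂ) = ((S.card : ℝ) : ℂ) := by push_cast; rfl
  rw [this, Complex.div_ofReal_re, Complex.re_sum]
  simp only [Complex.re_ofReal_mul]

/-- facts on the weighted mean for one set of parameters -/
theorem one (h1 : S_Ev) (E w K M : ℕ) (hK : 1 ≤ K) (hM : 1 ≤ M) (P : ℕ → ℕ → ℕ → ℝ) (C : ℝ)
    (hP0 : ∀ x y z, 0 ≤ P x y z) (hPC : ∀ x y z, P x y z ≤ C) :
    (Continuous fun g : GG => (AvK E w K M fun x y z => ((P x y z : ℝ) : ℂ) * pc (ev g) x y z).re) ∧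
    (∀ g : GG, |(AvK E w K M fun x y z => ((P x y z : ℝ) : ℂ) * pc (ev g) x y z).re| ≤ 3 * C) ∧
    ∀ (r : ℕ) (φ : Fin r → ℕ → ℕ → ℝ) (μ : Fin r → Measure GG),
      (∀ i a b, φ i a b = φ i b a) → (∀ i, IsSp (φ i) (μ i)) → ∀ ε : ℝ,
      ∃ x y z : ℕ, 0 < x ∧ 0 < y ∧ 0 < z ∧ x ^ 2 + y ^ 2 = z ^ 2 ∧
        (∑ i, ∫ g, (AvK E w K M fun x y z => ((P x y z : ℝ) : ℂ) * pc (ev g) x y z).re ∂(μ i)) +
          ε * (AvK E w K M fun x y z => ((P x y z : ℝ) : ℂ)).re ≤
        P x y z * (∑ i, (φ i x y + φ i x z + φ i y z) + ε) := by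
  classical
  obtain ⟨ι, S, X, Y, Z, hS, hT, hAv⟩ := rep E w K M hK hM
  have hc : (0 : ℝ) < (S.card : ℝ) := by exact_mod_cast hS.card_pos
  have hform : ∀ g : GG, (AvK E w K M fun x y z => ((P x y z : ℝ) : ℂ) * pc (ev g) x y z).re =
      (∑ s ∈ S, P (X s) (Y s) (Z s) * (pc (ev g) (X s) (Y s) (Z s)).re) / (S.card : ℝ) := by
    intro g
    rw [hAv]
    exact re_mean S (fun s => P (X s) (Y s) (Z s)) fun s => pc (ev g) (X s) (Y s) (Z s)
  refine ⟨?_, ?_, ?_⟩
  · simp only [hform]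
    refine Continuous.div_const ?_ _
    exact continuous_finsetSum _ fun s _ =>
      continuous_const.mul (Complex.continuous_re.comp (XAvF.pc_cont h1 _ _ _))
  · intro g
    rw [hform, abs_div, Nat.abs_cast, div_le_iff₀ hc]
    refine (Finset.abs_sum_le_sum_abs _ _).trans ?_
    calc ∑ s ∈ S, |P (X s) (Y s) (Z s) * (pc (ev g) (X s) (Y s) (Z s)).re| ≤
        ∑ _s ∈ S, (3 * C : ℝ) := by
          refine Finset.sum_le_sum fun s _ => ?_
          rw [abs_mul, abs_of_nonneg (hP0 _ _ _)]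
          have a1 := (Complex.abs_re_le_norm _).trans
            (XAvF.pc_le h1 g (X s) (Y s) (Z s))
          have a2 := hPC (X s) (Y s) (Z s)
          have a3 := hP0 (X s) (Y s) (Z s)
          nlinarith
      _ = 3 * C * S.card := by rw [Finset.sum_const, nsmul_eq_mul, mul_comm]
  · intro r φ μ hs hsp ε
    have key : ∑ i, ∫ g, (AvK E w K M fun x y z => ((P x y z : ℝ) : ℂ) *
          pc (ev g) x y z).re ∂(μ i)
        = (∑ s ∈ S, P (X s) (Y s) (Z s) *
          ∑ i, (φ i (X s) (Y s) + φ i (X s) (Z s) + φ i (Y s) (Z s))) / S.card := by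
      simp only [Finset.mul_sum]
      rw [Finset.sum_comm, Finset.sum_div]
      refine Finset.sum_congr rfl fun i _ => ?_
      have := (hsp i).fin
      simp only [hform]
      have hre : ∀ s : ι, Integrable (fun g : GG =>
          P (X s) (Y s) (Z s) * (pc (ev g) (X s) (Y s) (Z s)).re) (μ i) :=
        fun s => ((XAvF.pc_int h1 (μ i) (X s) (Y s) (Z s)).re).const_mul _
      rw [integral_div, integral_finsetSum _ fun s _ => hre s]
      congr 1
      refine Finset.sum_congr rfl fun s hs' => ?_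
      obtain ⟨hx, hy, hz, -⟩ := hT s hs'
      rw [integral_const_mul]
      congr 1
      have e2 := XAvF.int_pc h1 (φ i) (μ i) (hs i) (hsp i) (X s) (Y s) (Z s) hx hy hz
      have e3 := integral_re (XAvF.pc_int h1 (μ i) (X s) (Y s) (Z s))
      rw [e2] at e3
      simpa using e3
    have key2 : (AvK E w K M fun x y z => ((P x y z : ℝ) : ℂ)).re =
        (∑ s ∈ S, P (X s) (Y s) (Z s)) / (S.card : ℝ) := by
      rw [hAv]
      have h2 := re_mean S (fun s => P (X s) (Y s) (Z s)) fun _ => (1 : ℂ)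
      simpa using h2
    have key3 : (∑ s ∈ S, P (X s) (Y s) (Z s) *
          ∑ i, (φ i (X s) (Y s) + φ i (X s) (Z s) + φ i (Y s) (Z s))) / S.card +
        ε * ((∑ s ∈ S, P (X s) (Y s) (Z s)) / (S.card : ℝ)) =
        (∑ s ∈ S, P (X s) (Y s) (Z s) *
          (∑ i, (φ i (X s) (Y s) + φ i (X s) (Z s) + φ i (Y s) (Z s)) + ε)) / S.card := by
      rw [mul_div_assoc', ← add_div, Finset.mul_sum, ← Finset.sum_add_distrib]
      congr 1
      refine Finset.sum_congr rfl fun s _ => ?_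
      ring
    rw [key, key2, key3]
    obtain ⟨s, hsS, hle⟩ := Finset.exists_le_of_sum_le (s := S)
      (f := fun _ => (∑ s ∈ S, P (X s) (Y s) (Z s) *
          (∑ i, (φ i (X s) (Y s) + φ i (X s) (Z s) + φ i (Y s) (Z s)) + ε)) / S.card)
      (g := fun s => P (X s) (Y s) (Z s) *
          (∑ i, (φ i (X s) (Y s) + φ i (X s) (Z s) + φ i (Y s) (Z s)) + ε)) hS (by
        rw [Finset.sum_const, nsmul_eq_mul, mul_div_cancel₀ _ hc.ne'])
    obtain ⟨q1, q2, q3, q4⟩ := hT s hsS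
    exact ⟨X s, Y s, Z s, q1, q2, q3, q4, hle⟩

/-- choice of thresholds -/
theorem thr (Q : ℕ → ℕ → ℕ → Prop) (h : Nest Q) : ∃ (w0 : ℕ) (K0 : ℕ → ℕ) (M0 : ℕ → ℕ → ℕ),
    ∀ w ≥ w0, ∀ K ≥ K0 w, ∀ M ≥ M0 w K, Q w K M := by
  classical
  obtain ⟨w0, hw⟩ := eventually_atTop.1 h
  have h1 : ∀ w, ∃ K0 : ℕ, w0 ≤ w → ∀ K ≥ K0, ∀ᶠ M in atTop, Q w K M := by
    intro w
    by_cases hw0 : w0 ≤ w
    · obtain ⟨K0, hK⟩ := eventually_atTop.1 (hw w hw0)
      exact ⟨K0, fun _ => hK⟩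
    · exact ⟨0, fun h => absurd h hw0⟩
  choose K0 hK0 using h1
  have h2 : ∀ w K, ∃ M0 : ℕ, w0 ≤ w → K0 w ≤ K → ∀ M ≥ M0, Q w K M := by
    intro w K
    by_cases hw0 : w0 ≤ w ∧ K0 w ≤ K
    · obtain ⟨M0, hM⟩ := eventually_atTop.1 (hK0 w hw0.1 K hw0.2)
      exact ⟨M0, fun _ _ => hM⟩
    · exact ⟨0, fun h h' => absurd ⟨h, h'⟩ hw0⟩
  choose M0 hM0 using h2
  exact ⟨w0, K0, M0, fun w hw K hK M hM => hM0 w K hw hK M hM⟩

theorem intble (μ : Measure GG) [IsFiniteMeasure μ] (f : GG → ℝ) (C : ℝ) (hf : Measurable f)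
    (hC : ∀ g, |f g| ≤ C) : Integrable f μ :=
  Integrable.of_bound hf.aestronglyMeasurable C (Eventually.of_forall fun g => by
    rw [Real.norm_eq_abs]; exact hC g)

end XW

open XW in
/-- the weighted inequality for kernels -/
theorem genW (hEv : S_Ev) (hLi : StLiK) (hFat : S_Fat) : GenW := by
  intro E P C c hP0 hPC hPW hP1 hc r κ hκ ε hε
  choose μ hμ using fun i => hLi (κ i) (hκ i)
  have : ∀ i, IsFiniteMeasure (μ i) := fun i => (hμ i).fin
  obtain ⟨w0, K0, M0, hthr⟩ := thr _ hP1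
  obtain ⟨G, hG⟩ : ∃ G : ℕ → ℕ → ℕ → GG → ℝ, G = fun w K M g =>
      (AvK E (w + w0) (K + K0 (w + w0) + 1)
        (M + M0 (w + w0) (K + K0 (w + w0) + 1) + 1)
        fun x y z => ((P x y z : ℝ) : ℂ) * pc (ev g) x y z).re := ⟨_, rfl⟩
  have hone := fun w K M : ℕ => one hEv E (w + w0) (K + K0 (w + w0) + 1)
    (M + M0 (w + w0) (K + K0 (w + w0) + 1) + 1) (by omega) (by omega) P C hP0 hPC
  have hGm : ∀ w K M, Measurable (G w K M) := fun w K M => by
    rw [hG]
    exact (hone w K M).1.measurable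
  have hGb : ∀ w K M g, |G w K M g| ≤ 3 * C := fun w K M g => by
    rw [hG]
    exact (hone w K M).2.1 g
  have : IsFiniteMeasure (∑ i, μ i) := ⟨by
    rw [Measure.finsetSum_apply]
    exact ENNReal.sum_lt_top.2 fun i _ => measure_lt_top _ _⟩
  obtain ⟨w, K, M, hF⟩ := hFat (∑ i, μ i) G (3 * C) hGm hGb
    (by
      intro g δ hδ
      have hcm : CM (ev g) := ⟨(hEv.1 g).zero, (hEv.1 g).mul, (hEv.1 g).norm⟩
      obtain ⟨w1, hw⟩ := eventually_atTop.1 (hPW (ev g) hcm δ hδ)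
      filter_upwards [eventually_ge_atTop w1] with w hw1
      obtain ⟨K1, hK⟩ := eventually_atTop.1 (hw (w + w0) (by omega))
      filter_upwards [eventually_ge_atTop K1] with K hK1
      obtain ⟨M1, hM⟩ := eventually_atTop.1 (hK (K + K0 (w + w0) + 1) (by omega))
      filter_upwards [eventually_ge_atTop M1] with M hM1
      rw [hG]
      exact hM (M + M0 (w + w0) (K + K0 (w + w0) + 1) + 1) (by omega))
    (c * ε / 2) (by positivity)
  obtain ⟨x, y, z, q1, q2, q3, q4, hle⟩ := (hone w K M).2.2 r κ μ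
    (fun i a b => (hκ i).symm a b) hμ ε
  refine ⟨x, y, z, q1, q2, q3, q4, le_trans ?_ hle⟩
  have e1 : ∫ g, G w K M g ∂(∑ i, μ i) = ∑ i, ∫ g, G w K M g ∂(μ i) := by
    have h5 : ∀ i ∈ Finset.univ, Integrable (fun g => G w K M g) (μ i) := fun i _ =>
      intble (μ i) (G w K M) (3 * C) (hGm w K M) (hGb w K M)
    rw [integral_finsetSum_measure h5]
  have e2 : c ≤ (AvK E (w + w0) (K + K0 (w + w0) + 1)
      (M + M0 (w + w0) (K + K0 (w + w0) + 1) + 1)
      fun x y z => ((P x y z : ℝ) : ℂ)).re :=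
    hthr _ (by omega) _ (by omega) _ (by omega)
  have e3 := mul_le_mul_of_nonneg_left e2 hε.le
  rw [e1] at hF
  simp only [hG] at hF
  linarith

/-- the inequality for kernels at a triple in one fibre -/
theorem genP (hW : GenW) (h1 : PWK) (h2 : PK1) : GenP := by
  classical
  intro H iH iF φ r κ hκ ε hε
  obtain ⟨c, hc, hm⟩ := h2 H iH iF φ
  have e1 : ∀ x y z, (((if wt φ x y z then (1 : ℝ) else 0 : ℝ)) : ℂ) = w1 φ x y z := by
    intro x y z
    unfold w1
    split_ifs <;> simp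
  have e2 : ∀ (f : ℕ → ℂ) (x y z : ℕ), (((if wt φ x y z then (1 : ℝ) else 0 : ℝ)) : ℂ) *
      pc f x y z = wpc φ f x y z := by
    intro f x y z
    unfold wpc
    split_ifs <;> simp
  obtain ⟨x, y, z, q1, q2, q3, q4, hle⟩ := hW (Nat.card H)
    (fun x y z => if wt φ x y z then (1 : ℝ) else 0) 1 c
    (fun x y z => by split_ifs <;> norm_num) (fun x y z => by split_ifs <;> norm_num)
    (fun f hf δ hδ => by
      have h3 := h1 H iH iF φ f hf δ hδ
      simp only [e2 f]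
      exact h3)
    (by
      simp only [e1]
      exact hm) hc r κ hκ ε hε
  have hpos : 0 < c * ε / 2 := by positivity
  by_cases hwt : wt φ x y z
  · refine ⟨x, y, z, q1, q2, q3, q4, hwt, ?_⟩
    simp only [if_pos hwt] at hle
    linarith
  · simp only [if_neg hwt] at hle
    linarith

/-- `GenW` without hypotheses -/
theorem genW_all : GenW :=
  genW Ev_pf (pr_LiK Ev_pf Fol_pf Cnt_pf (pr_DeK Ev_pf (Haar_pf Ev_pf))) Fat_pf

/-- the final form from module W -/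
theorem kCnt_of_W (h1 : PWK) (h2 : PK1) : KCnt := kCnt_of (genP genW_all h1 h2)

end Pool.Agent.F0f91f8.KR
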