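import Pool.Agent.Work.MP_0f91f8_co.RC.B

/-!
# Kronecker form of the collision theorem, module B″, part 1: the integer form for any number of
linear forms

Adaptation of `HD/B3_IG.lean`. `TmU m` is the vanishing of correlations along `m + 1` linear forms
(`U3.StA` is `TmU 3`); `IGm m` is the same with tent weights.
-/

set_option autoImplicit false

namespace Pool.Agent.F0f91f8.K

open Filter Topology ComplexConjugate
open Pool.Agent.F0f91f8.HD
open Pool.Agent.F0f91f8.HD.B2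
open Pool.Agent.F0f91f8.HD.B3
open Pool.Agent.F0f91f8.RC
open Pool.Agent.U3 (ee lf dt sz bx)
open scoped BigOperators Classical

/-- vanishing of the correlations along `m + 1` pairwise independent linear forms: `m` arbitrary
bounded functions, the last one aperiodic -/
def TmU (m : ℕ) : Prop :=
  ∀ g : ℤ → ℂ, Pool.Agent.U3.CM g → Pool.Agent.U3.Aper g → ∀ L : Fin (m + 1) → ℤ × ℤ,
    (∀ i j, i ≠ j → dt (L i) (L j) ≠ 0) →
    ∀ T : ℕ, (∑ i, sz (L i)) ≤ T → ∀ ε : ℝ, 0 < ε → ∃ N0 : ℕ, ∀ N : ℕ, N0 ≤ N →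
      ∀ f : Fin m → ℤ → ℂ, (∀ i, Pool.Agent.U3.Bdd N (f i)) → ∀ A B : ℤ, -(N : ℤ) ≤ A → B ≤ N →
        ‖∑ v ∈ bx (T * N), (∏ i, f i (lf (L i.castSucc) v)) *
          (if lf (L (Fin.last m)) v ∈ Finset.Icc A B then g (lf (L (Fin.last m)) v) else 0)‖ ≤
            ε * (N : ℝ) ^ 2

/-- the integer form with tent weights -/
def IGm (n : ℕ) : Prop := ∀ f : ℕ → ℂ, CM f → Aper f → ∀ l : Fin (n + 1) → ℤ × ℤ,
  (∀ i j, i ≠ j → dt (l i) (l j) ≠ 0) → ∀ (J : ℕ) (m : Fin J → ℤ × ℤ) (D κ : Fin J → ℕ)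
  (c : Fin J → ℤ), (∀ j, 0 < κ j) → ∀ C : ℕ,
  (∀ (M : ℕ) (v : ℤ × ℤ), (∀ j, tent (D j * M) (κ j) (c j) (lf (m j) v) ≠ 0) → v ∈ box (C * M)) →
  ∀ ε : ℝ, 0 < ε → ∃ M₀ : ℕ, ∀ M ≥ M₀, ∀ F : Fin n → ℤ → ℂ, (∀ i s, ‖F i s‖ ≤ 1) →
    ‖∑ v ∈ box (C * M), (∏ j, (tent (D j * M) (κ j) (c j) (lf (m j) v) : ℂ)) *
      (∏ i, F i (lf (l i.castSucc) v)) * f (lf (l (Fin.last n)) v).toNat‖ ≤
      ε * (M : ℝ) ^ 2 * ∏ j, ((D j * M : ℕ) : ℝ)

open Pool.Agent.F0f91f8.HD.B3.XIG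

theorem IGm_pf (n : ℕ) (hA : TmU (n + 2)) (hT : StTen) : IGm (n + 2) := by
  intro f hf hap l hl J m D κ c hκ C hsupp ε hε
  have h01 : (Fin.castSucc 0 : Fin (n + 3)) ≠ Fin.castSucc 1 := by
    intro h
    have := congrArg Fin.val h
    simp at this
  set T : ℕ := ∑ i, sz (l i) with hTdef
  have hsz : ∀ i, sz (l i) ≤ T := fun i =>
    Finset.single_le_sum (f := fun i => sz (l i)) (fun _ _ => Nat.zero_le _) (Finset.mem_univ i)
  have hT1 : 1 ≤ T := (sz_pos (hl (Fin.castSucc 0) (Fin.castSucc 1) h01)).trans (hsz 0)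
  set K : ℕ := T * (C + 1) with hK
  have hK1 : 1 ≤ K := Nat.mul_pos hT1 (Nat.succ_pos _)
  have hK0 : (0 : ℝ) < K := by exact_mod_cast hK1
  set ε' : ℝ := ε / (K : ℝ) ^ 2 with hε'
  have hε'0 : 0 < ε' := div_pos hε (pow_pos hK0 2)
  obtain ⟨N0, hN0⟩ := hA (ext f) (ext_CM hf) (ext_Aper hap) l hl T le_rfl ε' hε'0
  refine ⟨N0, ?_⟩
  intro M hM F hF
  set N : ℕ := K * M with hN
  have hMN : M ≤ N := Nat.le_mul_of_pos_left M hK1
  have hCN : C * M ≤ N := by
    rw [hN, hK]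
    exact Nat.mul_le_mul_right M ((Nat.le_succ C).trans (Nat.le_mul_of_pos_left _ hT1))
  have hsub : box (C * M) ⊆ bx ((T : ℤ) * (N : ℤ)) := by
    intro v hv
    rw [mem_box] at hv
    rw [mem_bx]
    have h1 : ((C * M : ℕ) : ℤ) ≤ (T : ℤ) * (N : ℤ) := by
      have h2 : C * M ≤ T * N := hCN.trans (Nat.le_mul_of_pos_left N hT1)
      exact_mod_cast h2
    exact ⟨hv.1.trans h1, hv.2.trans h1⟩
  have hbd : ∀ v ∈ box (C * M), ∀ i, |lf (l i) v| ≤ (N : ℤ) := by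
    intro v hv i
    rw [mem_box] at hv
    refine (lf_le (l i) v _ hv.1 hv.2).trans ?_
    have h1 : sz (l i) * (C * M) ≤ N := by
      rw [hN, hK, mul_assoc]
      exact Nat.mul_le_mul (hsz i) (Nat.mul_le_mul_right M (Nat.le_succ C))
    exact_mod_cast h1
  -- the truncated functions
  set F' : Fin (n + 2) → ℤ → ℂ := fun i s => if |s| ≤ (N : ℤ) then F i s else 0 with hF'
  set W : ℤ × ℤ → ℂ := fun v => ∏ j, (tent (D j * M) (κ j) (c j) (lf (m j) v) : ℂ) with hW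
  set G : ℤ × ℤ → ℂ := fun v =>
    if lf (l (Fin.last (n + 2))) v ∈ Finset.Icc (1 : ℤ) N then ext f (lf (l (Fin.last (n + 2))) v) else 0 with hG
  have hW0 : ∀ v, v ∉ box (C * M) → W v = 0 := by
    intro v hv
    by_contra h
    apply hv
    refine hsupp M v fun j => ?_
    have h1 := Finset.prod_ne_zero_iff.1 h j (Finset.mem_univ j)
    exact_mod_cast h1
  have e1 : ∑ v ∈ box (C * M), W v * (∏ i, F i (lf (l i.castSucc) v)) * f (lf (l (Fin.last (n + 2))) v).toNat =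
      ∑ v ∈ bx ((T : ℤ) * (N : ℤ)), W v * (∏ i, F' i (lf (l i.castSucc) v)) * G v := by
    rw [← Finset.sum_subset hsub]
    · refine Finset.sum_congr rfl fun v hv => ?_
      have h1 : ∀ i : Fin (n + 2), F i (lf (l i.castSucc) v) = F' i (lf (l i.castSucc) v) := by
        intro i
        simp only [hF']
        rw [if_pos (hbd v hv i.castSucc)]
      have h2 : f (lf (l (Fin.last (n + 2))) v).toNat = G v := by
        simp only [hG, Finset.mem_Icc]
        have h3 := abs_le.1 (hbd v hv (Fin.last (n + 2)))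
        by_cases h4 : 1 ≤ lf (l (Fin.last (n + 2))) v
        · rw [if_pos ⟨h4, h3.2⟩]
          unfold ext
          congr 1
          omega
        · rw [if_neg (fun h => h4 h.1)]
          have h5 : (lf (l (Fin.last (n + 2))) v).toNat = 0 := by omega
          rw [h5, hf.1]
      rw [h2]
      congr 2
      exact Finset.prod_congr rfl fun i _ => h1 i
    · intro v _ hv
      rw [hW0 v hv, zero_mul, zero_mul]
  rw [e1]
  -- the trigonometric polynomials
  set P : ℕ := 1 + ∑ j, (sz (m j) * (T * N) + (c j).natAbs + 2 * κ j * (D j * M)) with hP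
  have hP0 : 0 < P := by omega
  have hPj : ∀ j, sz (m j) * (T * N) + (c j).natAbs + 2 * κ j * (D j * M) < P := by
    intro j
    have h1 : sz (m j) * (T * N) + (c j).natAbs + 2 * κ j * (D j * M) ≤
        ∑ j, (sz (m j) * (T * N) + (c j).natAbs + 2 * κ j * (D j * M)) :=
      Finset.single_le_sum
        (f := fun j => sz (m j) * (T * N) + (c j).natAbs + 2 * κ j * (D j * M))
        (fun _ _ => Nat.zero_le _) (Finset.mem_univ j)
    omega
  choose a ha1 ha2 using fun j => hT (D j * M) (κ j) P (c j) (hκ j) hP0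
  have hD0 : dt (l (Fin.castSucc 0)) (l (Fin.castSucc 1)) ≠ 0 := hl (Fin.castSucc 0) (Fin.castSucc 1) h01
  set α : (Fin J → ℕ) → ℝ := fun k =>
    ∑ j, (k j : ℝ) / P * ((dt (m j) (l (Fin.castSucc 1)) : ℝ) / (dt (l (Fin.castSucc 0)) (l (Fin.castSucc 1)) : ℝ)) with hα
  set β : (Fin J → ℕ) → ℝ := fun k =>
    ∑ j, (k j : ℝ) / P * ((dt (l (Fin.castSucc 0)) (m j) : ℝ) / (dt (l (Fin.castSucc 0)) (l (Fin.castSucc 1)) : ℝ)) with hβ
  have e2 : ∀ v ∈ bx ((T : ℤ) * (N : ℤ)), W v =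
      ∑ k ∈ Fintype.piFinset (fun _ : Fin J => Finset.range P), (∏ j, a j (k j)) *
        ee (α k * (lf (l (Fin.castSucc 0)) v : ℤ) + β k * (lf (l (Fin.castSucc 1)) v : ℤ)) := by
    intro v hv
    rw [mem_bx] at hv
    have h1 : ∀ j, (tent (D j * M) (κ j) (c j) (lf (m j) v) : ℂ) =
        ∑ k ∈ Finset.range P, a j k * ee ((k : ℝ) * (lf (m j) v : ℤ) / P) := by
      intro j
      refine ha2 j _ ?_
      have h2 := lf_le (m j) v _ hv.1 hv.2
      have h3 := hPj j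
      have h4 : (sz (m j) : ℤ) * ((T : ℤ) * (N : ℤ)) + |c j| + 2 * (κ j : ℤ) * ((D j * M : ℕ) : ℤ) <
          (P : ℤ) := by
        rw [← Int.natCast_natAbs (c j)]
        exact_mod_cast h3
      linarith
    simp only [hW]
    rw [Finset.prod_congr rfl fun j _ => h1 j, Finset.prod_univ_sum]
    refine Finset.sum_congr rfl fun k _ => ?_
    rw [Finset.prod_mul_distrib, ← ee_sum]
    congr 2
    simp only [hα, hβ]
    rw [Finset.sum_mul, Finset.sum_mul, ← Finset.sum_add_distrib]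
    refine Finset.sum_congr rfl fun j _ => ?_
    rw [cramer (l (Fin.castSucc 0)) (l (Fin.castSucc 1)) (m j) v hD0]
    ring
  -- the functions of `StA`
  set fk : (Fin J → ℕ) → Fin (n + 2) → ℤ → ℂ := fun k i s =>
    F' i s * ee ((Fin.cons (α k) (Fin.cons (β k) (fun _ => 0)) : Fin (n + 2) → ℝ) i * (s : ℝ)) with hfk
  have hfB : ∀ k i, Pool.Agent.U3.Bdd N (fk k i) := by
    intro k i n
    simp only [hfk, hF']
    refine ⟨?_, ?_⟩
    · rw [norm_mul, norm_ee, mul_one]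
      split_ifs
      · exact hF i n
      · rw [norm_zero]
        exact zero_le_one
    · intro hn
      rw [if_neg (not_le.2 hn), zero_mul]
  have e3 : ∀ (k : Fin J → ℕ) (v : ℤ × ℤ), ∏ i, fk k i (lf (l i.castSucc) v) =
      ee (α k * (lf (l (Fin.castSucc 0)) v : ℤ) + β k * (lf (l (Fin.castSucc 1)) v : ℤ)) *
        ∏ i, F' i (lf (l i.castSucc) v) := by
    intro k v
    simp only [hfk]
    rw [Finset.prod_mul_distrib, mul_comm]
    congr 1
    rw [Fin.prod_univ_succ, Fin.prod_univ_succ, ee_add, ← mul_assoc]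
    have h0 : ∀ i : Fin n, ee ((Fin.cons (α k) (Fin.cons (β k) (fun _ => 0)) : Fin (n + 2) → ℝ)
        i.succ.succ * ((lf (l i.succ.succ.castSucc) v : ℤ) : ℝ)) = 1 := by
      intro i
      rw [Fin.cons_succ, Fin.cons_succ, zero_mul, ee_zero]
    rw [Finset.prod_congr rfl fun i _ => h0 i, Finset.prod_const_one, mul_one]
    rfl
  have hMr : (N : ℝ) = K * M := by
    rw [hN]
    push_cast
    ring
  have hN2 : ε' * (N : ℝ) ^ 2 = ε * (M : ℝ) ^ 2 := by
    rw [hMr, hε']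
    field_simp
  have e4 : ∀ k : Fin J → ℕ, ‖∑ v ∈ bx ((T : ℤ) * (N : ℤ)),
      (∏ i, fk k i (lf (l i.castSucc) v)) * G v‖ ≤ ε * (M : ℝ) ^ 2 := by
    intro k
    rw [← hN2]
    exact hN0 N (hM.trans hMN) (fk k) (hfB k) 1 N (by omega) le_rfl
  have e5 : ∑ v ∈ bx ((T : ℤ) * (N : ℤ)), W v * (∏ i, F' i (lf (l i.castSucc) v)) * G v =
      ∑ k ∈ Fintype.piFinset (fun _ : Fin J => Finset.range P), (∏ j, a j (k j)) *
        ∑ v ∈ bx ((T : ℤ) * (N : ℤ)), (∏ i, fk k i (lf (l i.castSucc) v)) * G v := by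
    simp only [Finset.mul_sum]
    rw [Finset.sum_comm]
    refine Finset.sum_congr rfl fun v hv => ?_
    rw [e2 v hv, Finset.sum_mul, Finset.sum_mul]
    refine Finset.sum_congr rfl fun k _ => ?_
    rw [e3 k v]
    ring
  rw [e5]
  have hM2 : 0 ≤ ε * (M : ℝ) ^ 2 := mul_nonneg hε.le (sq_nonneg _)
  calc ‖∑ k ∈ Fintype.piFinset (fun _ : Fin J => Finset.range P), (∏ j, a j (k j)) *
        ∑ v ∈ bx ((T : ℤ) * (N : ℤ)), (∏ i, fk k i (lf (l i.castSucc) v)) * G v‖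
      ≤ ∑ k ∈ Fintype.piFinset (fun _ : Fin J => Finset.range P),
        (∏ j, ‖a j (k j)‖) * (ε * (M : ℝ) ^ 2) := by
        refine norm_sum_le_of_le _ fun k _ => ?_
        rw [norm_mul, norm_prod]
        exact mul_le_mul_of_nonneg_left (e4 k) (Finset.prod_nonneg fun _ _ => norm_nonneg _)
    _ = (∏ j, ∑ k ∈ Finset.range P, ‖a j k‖) * (ε * (M : ℝ) ^ 2) := by
        rw [Finset.prod_univ_sum, Finset.sum_mul]
    _ ≤ (∏ j, ((D j * M : ℕ) : ℝ)) * (ε * (M : ℝ) ^ 2) := by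
        refine mul_le_mul_of_nonneg_right ?_ hM2
        exact Finset.prod_le_prod (fun j _ => Finset.sum_nonneg fun _ _ => norm_nonneg _)
          fun j _ => ha1 j
    _ = ε * (M : ℝ) ^ 2 * ∏ j, ((D j * M : ℕ) : ℝ) := by ring

end Pool.Agent.F0f91f8.K
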