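import Mathlib
import Pool.Agent.Work.MP_0f91f8_co.K.StmtsW

/-!
# Block K, module W: item AvL, `AvK` is linear
-/

set_option autoImplicit false

namespace Pool.Agent.F0f91f8.KR

open Filter Topology ComplexConjugate
open Pool.Agent.F0f91f8.HD Pool.Agent.F0f91f8.RC
open scoped BigOperators

namespace IAvL

theorem bx_add (Q D a₀ M : ℕ) (G G' : ℕ → ℕ → ℂ) :
    Bx Q D a₀ M (fun a n => G a n + G' a n) = Bx Q D a₀ M G + Bx Q D a₀ M G' := by
  unfold Bx
  simp only [Finset.sum_add_distrib, add_div]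

theorem bx_mul (Q D a₀ M : ℕ) (c : ℂ) (G : ℕ → ℕ → ℂ) :
    Bx Q D a₀ M (fun a n => c * G a n) = c * Bx Q D a₀ M G := by
  unfold Bx
  simp only [← Finset.mul_sum, mul_div_assoc]

theorem av_add (E w K M : ℕ) (Φ Ψ : ℕ → ℕ → ℕ → ℂ) :
    AvK E w K M (fun x y z => Φ x y z + Ψ x y z) = AvK E w K M Φ + AvK E w K M Ψ := by
  unfold AvK BxR
  simp only [bx_add, Finset.sum_add_distrib, add_div]

theorem av_mul (E w K M : ℕ) (Φ : ℕ → ℕ → ℕ → ℂ) (c : ℂ) :
    AvK E w K M (fun x y z => c * Φ x y z) = c * AvK E w K M Φ := by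
  unfold AvK BxR
  simp only [bx_mul, ← Finset.mul_sum, mul_div_assoc]

theorem av_zero (E w K M : ℕ) : AvK E w K M (fun _ _ _ => 0) = 0 := by
  have h := av_mul E w K M (fun _ _ _ => 0) 0
  simpa using h

end IAvL

open IAvL in
theorem pr_AvL : StAvL := by
  classical
  intro E w K M
  refine ⟨av_add E w K M, av_mul E w K M, ?_⟩
  intro ι s Φ
  induction s using Finset.induction_on with
  | empty =>
    simp only [Finset.sum_empty]
    exact av_zero E w K M
  | insert a s ha ih =>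
    simp only [Finset.sum_insert ha]
    rw [av_add E w K M (Φ a) (fun x y z => ∑ i ∈ s, Φ i x y z), ih]

end Pool.Agent.F0f91f8.KR
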