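import Mathlib
import Pool.Agent.Work.MP_0f91f8_co.K.StmtsW

/-!
# Block K, item CMm: products and conjugates of completely multiplicative functions
-/

set_option autoImplicit false

namespace Pool.Agent.F0f91f8.KR

open Filter Topology ComplexConjugate
open Pool.Agent.F0f91f8.HD Pool.Agent.F0f91f8.RC
open scoped BigOperators

theorem pr_CMm : StCMm := by
  constructor
  · rintro f g ⟨f0, fm, f1⟩ ⟨_, gm, g1⟩
    refine ⟨?_, fun m n => ?_, fun n hn => ?_⟩
    · change f 0 * g 0 = 0
      rw [f0, zero_mul]
    · change f (m * n) * g (m * n) = f m * g m * (f n * g n)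
      rw [fm, gm]
      ring
    · change ‖f n * g n‖ = 1
      rw [norm_mul, f1 n hn, g1 n hn, one_mul]
  · rintro f ⟨f0, fm, f1⟩
    refine ⟨?_, fun m n => ?_, fun n hn => ?_⟩
    · change conj (f 0) = 0
      rw [f0, map_zero]
    · change conj (f (m * n)) = conj (f m) * conj (f n)
      rw [fm, map_mul]
    · change ‖conj (f n)‖ = 1
      rw [RCLike.norm_conj, f1 n hn]

end Pool.Agent.F0f91f8.KR
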