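import Mathlib
import Pool.Agent.Work.MP_0f91f8_co.K.StmtsW

/-!
# Item Dic of block K: aperiodic or pretentious, twists
-/

set_option autoImplicit false

namespace Pool.Agent.F0f91f8.KR

open Filter Topology ComplexConjugate
open Pool.Agent.F0f91f8.HD Pool.Agent.F0f91f8.RC
open scoped BigOperators

namespace IDic

theorem mul_conj_one {f : ℕ → ℂ} (hf : CM f) {n : ℕ} (hn : 0 < n) : f n * conj (f n) = 1 := by
  rw [Complex.mul_conj, Complex.normSq_eq_norm_sq, hf.2.2 n hn]
  norm_num

theorem eq1 {f g : ℕ → ℂ} (hf : CM f) (hg : CM g) :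
    (fun n => (g n * f n) * conj (f n)) = g := by
  funext n
  rcases Nat.eq_zero_or_pos n with h | h
  · subst h
    rw [hg.1]
    simp
  · rw [mul_assoc, mul_conj_one hf h, mul_one]

theorem eq2 {f g : ℕ → ℂ} (hf : CM f) (hg : CM g) :
    (fun n => (g n * conj (f n)) * f n) = g := by
  funext n
  rcases Nat.eq_zero_or_pos n with h | h
  · subst h
    rw [hg.1]
    simp
  · rw [mul_assoc, mul_comm (conj (f n)), mul_conj_one hf h, mul_one]

end IDic

theorem pr_Dic (h1 : PretStmt) (h2 : StPrM) (h3 : StCMm) : StDic := by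
  refine ⟨fun f hf => ?_, fun f g hf hg pf pg => ?_, fun f g hf hg pf pg => ?_,
    fun f hf pf => ⟨?_, ?_⟩⟩
  · by_cases h : Aper f
    · exact Or.inl h
    · exact Or.inr (h1 f hf h)
  · by_contra hA
    apply pg
    have hc : CM fun n => g n * f n := h3.1 g f hg hf
    have hp : Pret fun n => g n * f n := h1 _ hc hA
    have hp' := h2.1 (fun n => g n * f n) (fun n => conj (f n)) hc (h3.2 f hf) hp (h2.2.1 f hf pf)
    have e := IDic.eq1 hf hg
    exact e ▸ hp'
  · by_contra hA
    apply pg
    have hc : CM fun n => g n * conj (f n) := h3.1 g (fun n => conj (f n)) hg (h3.2 f hf)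
    have hp : Pret fun n => g n * conj (f n) := h1 _ hc hA
    have hp' := h2.1 (fun n => g n * conj (f n)) f hc hf hp pf
    have e := IDic.eq2 hf hg
    exact e ▸ hp'
  · by_contra hA
    exact pf (h1 f hf hA)
  · by_contra hA
    apply pf
    have hp : Pret fun n => conj (f n) := h1 _ (h3.2 f hf) hA
    have hp' := h2.2.1 (fun n => conj (f n)) (h3.2 f hf) hp
    have e : (fun n => conj (conj (f n))) = f := by
      funext n
      exact Complex.conj_conj _
    exact e ▸ hp'

end Pool.Agent.F0f91f8.KR
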