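import Mathlib
import Pool.Agent.Work.MP_0f91f8_co.K.StmtsW

/-!
# Kronecker form, module W, item Ex: expansion of the weight
-/

set_option autoImplicit false

noncomputable section

namespace Pool.Agent.F0f91f8.KR

open Filter Topology ComplexConjugate
open Pool.Agent.F0f91f8.HD Pool.Agent.F0f91f8.RC
open scoped BigOperators

namespace IEx

variable {H : Type} [CommGroup H]

theorem FC_pos (φ : ℕ+ →* H) (ψ : Ch H) {n : ℕ} (hn : 0 < n) :
    FC φ ψ n = ψ (Additive.ofMul (φ n.toPNat')) := by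
  unfold FC
  rw [if_pos hn]

theorem term (ψ₁ ψ₂ : Ch H) (a b c : Additive H) :
    ψ₁ a * ψ₂ b * (ψ₁ * ψ₂)⁻¹ c = ψ₁ (a - c) * ψ₂ (b - c) := by
  rw [AddChar.inv_apply, AddChar.mul_apply, sub_eq_add_neg, sub_eq_add_neg,
    AddChar.map_add_eq_mul, AddChar.map_add_eq_mul]
  ring

open Classical in
theorem sum_ch [Finite H] (a : Additive H) :
    ∑ ψ : Ch H, ψ a = if a = 0 then (Nat.card H : ℂ) else 0 := by
  have : Fintype (Additive H) := Fintype.ofFinite _
  rw [AddChar.sum_apply_eq_ite]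
  have h : (Fintype.card (Additive H) : ℂ) = (Nat.card H : ℂ) := by
    rw [← Nat.card_eq_fintype_card]
    rfl
  rw [h]

end IEx

open IEx in
theorem pr_Ex : StEx := by
  intro H _ _ φ x y z hx hy hz
  classical
  have h1 : ∀ ψ₁ ψ₂ : Ch H, FC φ ψ₁ x * FC φ ψ₂ y * FC φ (ψ₁ * ψ₂)⁻¹ z =
      ψ₁ (Additive.ofMul (φ x.toPNat') - Additive.ofMul (φ z.toPNat')) *
        ψ₂ (Additive.ofMul (φ y.toPNat') - Additive.ofMul (φ z.toPNat')) := by
    intro ψ₁ ψ₂
    rw [FC_pos φ _ hx, FC_pos φ _ hy, FC_pos φ _ hz, term]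
  simp only [h1]
  rw [← Finset.sum_mul_sum, sum_ch, sum_ch]
  simp only [sub_eq_zero, Additive.ofMul.injective.eq_iff]
  unfold w1 wt
  by_cases h2 : φ y.toPNat' = φ z.toPNat'
  · by_cases h3 : φ x.toPNat' = φ z.toPNat'
    · rw [if_pos ⟨h3.trans h2.symm, h2⟩, if_pos h3, if_pos h2]
      ring
    · rw [if_neg (fun h => h3 (h.1.trans h.2)), if_neg h3]
      ring
  · rw [if_neg (fun h => h2 h.2), if_neg h2]
    ring

end Pool.Agent.F0f91f8.KR
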