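import Mathlib
import Pool.Agent.Work.MP_0f91f8_co.K.StmtsW

/-!
# Kronecker form, module W, item ExA: expansion of the averages
-/

set_option autoImplicit false

noncomputable section

namespace Pool.Agent.F0f91f8.KR

open Filter Topology ComplexConjugate
open Pool.Agent.F0f91f8.HD Pool.Agent.F0f91f8.RC
open scoped BigOperators

namespace IExA

theorem wpc_eq {H : Type} [CommGroup H] (φ : ℕ+ →* H) (f : ℕ → ℂ) (x y z : ℕ) :
    wpc φ f x y z = w1 φ x y z * pc f x y z := by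
  unfold wpc w1
  split_ifs
  · rw [one_mul]
  · rw [zero_mul]

end IExA

theorem pr_ExA (h1 : StEx) (h2 : StAvL) (h3 : StAvP) : StExA := by
  intro H _ _ φ f E w K M hK hM
  obtain ⟨-, hc, hs⟩ := h2 E w K M
  obtain ⟨he, -, -⟩ := h3 E w K M hK hM
  constructor
  · rw [← hc]
    rw [he _ (fun x y z => ∑ ψ₁ : Ch H, ∑ ψ₂ : Ch H,
      t3 (FC φ ψ₁) (FC φ ψ₂) (FC φ (ψ₁ * ψ₂)⁻¹) x y z * pc f x y z)]
    · rw [hs]
      refine Finset.sum_congr rfl fun ψ₁ _ => ?_
      rw [hs]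
    · intro x y z hx hy hz
      rw [IExA.wpc_eq, ← mul_assoc, h1 H inferInstance inferInstance φ x y z hx hy hz,
        Finset.sum_mul]
      refine Finset.sum_congr rfl fun ψ₁ _ => ?_
      rw [Finset.sum_mul]
      rfl
  · rw [← hc]
    rw [he _ (fun x y z => ∑ ψ₁ : Ch H, ∑ ψ₂ : Ch H,
      t3 (FC φ ψ₁) (FC φ ψ₂) (FC φ (ψ₁ * ψ₂)⁻¹) x y z)]
    · rw [hs]
      refine Finset.sum_congr rfl fun ψ₁ _ => ?_
      rw [hs]
    · intro x y z hx hy hz
      rw [h1 H inferInstance inferInstance φ x y z hx hy hz]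
      rfl

end Pool.Agent.F0f91f8.KR
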