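import Mathlib
import Pool.Agent.Work.MP_0f91f8_co.K.StmtsW

/-! # Properties of the functions `FC` -/

set_option autoImplicit false

noncomputable section

namespace Pool.Agent.F0f91f8.KR

open Filter Topology ComplexConjugate
open Pool.Agent.F0f91f8.HD Pool.Agent.F0f91f8.RC
open scoped BigOperators

namespace IFCp

theorem toPNat_mul (m n : ℕ) (hm : 0 < m) (hn : 0 < n) :
    (m * n).toPNat' = m.toPNat' * n.toPNat' := by
  apply PNat.eq
  rw [PNat.mul_coe, Nat.toPNat'_coe, Nat.toPNat'_coe, Nat.toPNat'_coe]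
  rw [if_pos (Nat.mul_pos hm hn), if_pos hm, if_pos hn]

theorem one_toPNat : (1 : ℕ).toPNat' = 1 := rfl

theorem FC_pos {H : Type} [CommGroup H] (φ : ℕ+ →* H) (ψ : Ch H) (n : ℕ) (hn : 0 < n) :
    FC φ ψ n = ψ (Additive.ofMul (φ n.toPNat')) := by
  unfold FC; rw [if_pos hn]

theorem FC_zero {H : Type} [CommGroup H] (φ : ℕ+ →* H) (ψ : Ch H) :
    FC φ ψ 0 = 0 := by
  unfold FC; rw [if_neg (lt_irrefl 0)]

theorem norm_one {H : Type} [CommGroup H] [Finite H] (ψ : Ch H) (a : Additive H) : ‖ψ a‖ = 1 :=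
  AddChar.norm_apply ψ a

theorem inv_conj {H : Type} [CommGroup H] [Finite H] (ψ : Ch H) (a : Additive H) :
    (ψ⁻¹) a = conj (ψ a) := by
  rw [AddChar.inv_apply, AddChar.map_neg_eq_conj]

end IFCp

open IFCp

theorem pr_FCp : StFCp := by
  intro H _ _ φ
  refine ⟨?_, ?_, ?_, ?_, ?_⟩
  · intro ψ
    refine ⟨FC_zero φ ψ, ?_, ?_⟩
    · intro m n
      rcases Nat.eq_zero_or_pos m with rfl | hm
      · rw [Nat.zero_mul, FC_zero, zero_mul]
      · rcases Nat.eq_zero_or_pos n with rfl | hn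
        · rw [Nat.mul_zero, FC_zero, mul_zero]
        · rw [FC_pos φ ψ _ (Nat.mul_pos hm hn), FC_pos φ ψ m hm, FC_pos φ ψ n hn,
            toPNat_mul m n hm hn, map_mul, ofMul_mul, AddChar.map_add_eq_mul]
    · intro n hn
      rw [FC_pos φ ψ n hn]
      exact norm_one ψ _
  · intro ψ n hn
    rw [FC_pos φ ψ n hn, ← AddChar.map_nsmul_eq_pow]
    have h1 : Nat.card H • (Additive.ofMul (φ n.toPNat')) = 0 := by
      rw [← ofMul_pow, pow_card_eq_one', ofMul_one]
    rw [h1, AddChar.map_zero_eq_one]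
  · intro ψ ψ' n
    rcases Nat.eq_zero_or_pos n with rfl | hn
    · simp only [FC_zero, mul_zero]
    · rw [FC_pos φ _ n hn, FC_pos φ _ n hn, FC_pos φ _ n hn, AddChar.mul_apply]
  · intro ψ n
    rcases Nat.eq_zero_or_pos n with rfl | hn
    · simp only [FC_zero, map_zero]
    · rw [FC_pos φ _ n hn, FC_pos φ _ n hn]
      exact inv_conj ψ _
  · intro n hn
    rw [FC_pos φ _ n hn, AddChar.one_apply]

end Pool.Agent.F0f91f8.KR
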