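import Pool.Agent.Work.MP_0f91f8_co.K.StmtsD
import Pool.Agent.Work.MP_0f91f8_co.HD.I_DFi

/-! Kronecker form of the collision theorem, module D″: item KUb (helper80). -/

set_option autoImplicit false

namespace Pool.Agent.F0f91f8.KR

open Filter Topology ComplexConjugate
open Pool.Agent.F0f91f8.HD Pool.Agent.F0f91f8.RC
open scoped BigOperators

namespace IKUb

theorem bxr_le (Q D a₀ M : ℕ) (G : ℕ → ℕ → ℂ) (h : ∀ a n, ‖G a n‖ ≤ 1) :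
    ‖BxR Q D a₀ M G‖ ≤ 1 :=
  DFi.bx_le Q D a₀ M _ fun a _ => h a _

theorem bfk_le (E w K M : ℕ) (G : ℕ → ℕ → ℂ) (h : ∀ a n, ‖G a n‖ ≤ 1) : ‖BFK E w K M G‖ ≤ 1 := by
  unfold BFK
  generalize w.factorial = Q
  generalize DR E w K = D
  exact bxr_le Q D 1 M G h

theorem conj_le {z : ℂ} (h : ‖z‖ ≤ 1) : ‖conj z‖ ≤ 1 := by
  rwa [Complex.norm_conj]

theorem mul_le {z w : ℂ} (h : ‖z‖ ≤ 1) (h' : ‖w‖ ≤ 1) : ‖z * w‖ ≤ 1 := by
  rw [norm_mul]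
  exact mul_le_one₀ h (norm_nonneg _) h'

theorem npow_le {z : ℂ} (h : ‖z‖ ≤ 1) (n : ℕ) : ‖z ^ n‖ ≤ 1 := by
  rw [norm_pow]
  exact pow_le_one₀ (norm_nonneg _) h

end IKUb

open IKUb in
theorem pr_KUb (hTl : StDTl) : StKUb := by
  intro f g t hf hg E w K e' M
  have hT := (hTl g hg).2.2.2.2.2.1 K M
  refine ⟨?_, ?_, ?_⟩
  · unfold UXK
    refine mul_le (mul_le (mul_le (npow_le (DFi.cm_le hf _) _)
      (conj_le (DFi.cm_le hg.cm _))) (mul_le hT.1 (conj_le hT.1))) (bfk_le _ _ _ _ _ ?_)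
    intro a n
    exact mul_le (mul_le (DFi.cm_le hf _) (conj_le (DFi.pow_le _ _)))
      (conj_le (DFi.cm_le hg.cm _))
  · unfold UZK
    refine mul_le (mul_le (npow_le (conj_le (DFi.cm_le hf _)) _)
      (mul_le hT.2 (conj_le hT.1))) (bfk_le _ _ _ _ _ ?_)
    intro a n
    exact mul_le (mul_le (conj_le (DFi.cm_le hf _)) (DFi.pow_le _ _)) (DFi.gP_le hg.cm _ _ _)
  · unfold VYK
    refine mul_le (mul_le hT.1 (conj_le hT.2)) (bfk_le _ _ _ _ _ ?_)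
    intro a n
    exact mul_le (DFi.cm_le hg.cm _) (conj_le (DFi.gP_le hg.cm _ _ _))

end Pool.Agent.F0f91f8.KR
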