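import Pool.Agent.Work.MP_0f91f8_co.K.StmtsD
import Pool.Agent.Work.MP_0f91f8_co.RC.I_RYm
import Pool.Agent.Work.MP_0f91f8_co.RC.I_RVy

/-!
# Kronecker form of the collision theorem, item KV1: the main term of the second correlation is
close to one if the function is close to one at almost all primes
-/

set_option autoImplicit false

namespace Pool.Agent.F0f91f8.KR

open Filter Topology ComplexConjugate
open Pool.Agent.F0f91f8.HD Pool.Agent.F0f91f8.RC
open scoped BigOperators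

namespace IKV1

lemma pt (P T R S c : ℂ) (hP : ‖P‖ = 1) (hT : ‖T‖ = 1) (hR : R = conj S) :
    ‖P * T * R + -1‖ ≤ ‖P - 1‖ + ‖T - c‖ + ‖c - 1‖ + ‖S - 1‖ := by
  have e : P * T * R + -1 = (P - 1) + P * (T - c) + P * (c - 1) + P * T * (R - 1) := by ring
  have hS : ‖R - 1‖ = ‖S - 1‖ := by
    rw [hR, ← Complex.norm_conj (S - 1), map_sub, map_one]
  have h1 : ‖P * (T - c)‖ = ‖T - c‖ := by rw [norm_mul, hP, one_mul]
  have h2 : ‖P * (c - 1)‖ = ‖c - 1‖ := by rw [norm_mul, hP, one_mul]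
  have h3 : ‖P * T * (R - 1)‖ = ‖S - 1‖ := by rw [norm_mul, norm_mul, hP, hT, hS]; ring
  rw [e]
  refine (norm_add_le _ _).trans ?_
  have h4 : ‖(P - 1) + P * (T - c) + P * (c - 1)‖ ≤
      ‖P - 1‖ + ‖P * (T - c)‖ + ‖P * (c - 1)‖ := norm_add₃_le
  rw [h1, h2] at h4
  rw [h3]
  linarith

lemma two (c d : ℂ) (hc : ‖c‖ ≤ 1) : ‖c * conj d - 1‖ ≤ ‖c - 1‖ + ‖d - 1‖ := by
  have e : c * conj d - 1 = c * (conj d - 1) + (c - 1) := by ring
  have hS : ‖conj d - 1‖ = ‖d - 1‖ := by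
    rw [← Complex.norm_conj (d - 1), map_sub, map_one]
  have h3 : ‖c * (conj d - 1)‖ ≤ ‖d - 1‖ := by
    rw [norm_mul, hS]
    exact mul_le_of_le_one_left (norm_nonneg _) hc
  rw [e]
  refine (norm_add_le _ _).trans ?_
  linarith

lemma four (hBx : StDBx) (Q D a₀ M : ℕ) (hD : 0 < D) (hM : 0 < M) (c x1 x2 x3 : ℝ)
    (F1 F2 F3 : ℕ → ℕ → ℝ) (h1 : BR Q D a₀ M F1 ≤ x1) (h2 : BR Q D a₀ M F2 ≤ x2)
    (h3 : BR Q D a₀ M F3 ≤ x3) :
    BR Q D a₀ M (fun a n => F1 a n + F2 a n + c + F3 a n) ≤ x1 + x2 + c + x3 := by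
  obtain ⟨-, -, -, -, hadd, hmul, hone⟩ := hBx Q D a₀ M
  have e0 : BR Q D a₀ M (fun _ _ => c) = c := by
    have := hmul c (fun _ _ => 1)
    rw [(hone hD hM).2, mul_one] at this
    simpa only [mul_one] using this
  have e1 : BR Q D a₀ M (fun a n => F1 a n + F2 a n + c + F3 a n) =
      BR Q D a₀ M F1 + BR Q D a₀ M F2 + c + BR Q D a₀ M F3 := by
    rw [hadd (fun a n => F1 a n + F2 a n + c) F3, hadd (fun a n => F1 a n + F2 a n) (fun _ _ => c),
      hadd F1 F2, e0]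
  rw [e1]
  linarith

end IKV1

/-- Item KV1. -/
theorem pr_KV1 (hBx : StDBx) (hFc : StDFc) (hTl : StDTl) (hLm : StDLm) (hcT : StRcT)
    (hgP : StKgP) : StKV1 := by
  obtain ⟨C1, hC1, hL⟩ := hLm
  refine ⟨C1 + 8, by positivity, ?_⟩
  intro g hg B E w K hB hE hw hK hgp η hη
  have hQ0 : 0 < w.factorial := Nat.factorial_pos w
  have hD0 : 0 < DR E w K := IRVy.dr_pos E w K (by omega)
  have hη3 : 0 < η / 3 := by positivity
  have hpQ : ∀ p : ℕ, p.Prime → p ∣ w.factorial → p ≤ w := fun p hp hd => (hp.dvd_factorial).1 hd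
  obtain ⟨M1, hM1⟩ := hL g hg K 1 1 w.factorial (DR E w K) (by omega) one_pos one_pos hQ0 hD0
    (fun p hp hd => (hpQ p hp (by rwa [one_mul] at hd)).trans hK) (η / 3) hη3
  obtain ⟨M2, hM2⟩ := hgP g hg B w K w.factorial (DR E w K) hB (by omega) hQ0 hD0 hpQ hgp
    (η / 3) hη3
  refine ⟨M1 + M2 + 1, fun M hM => ?_⟩
  have hMp : 0 < M := by omega
  have a1 := (hM1 M (by omega) 1 hQ0).1
  obtain ⟨a2, a3⟩ := hM2 M (by omega) 1 hQ0
  obtain ⟨b1, b2⟩ := hcT g hg B K hB (fun p hp hKp => hgp p hp (by omega)) M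
  obtain ⟨t0, tm, -, -, -, tc, -⟩ := hTl g hg
  have t1 : tl g K ≤ tl g w := tm w K hK
  have t2 : B * tl g K ≤ B * tl g w := mul_le_mul_of_nonneg_left t1 hB
  have t3 : 0 ≤ B * tl g w := mul_nonneg hB (t0 w)
  have her : 0 ≤ er g K := Real.sqrt_nonneg _
  obtain ⟨hc1, hd1⟩ := tc K M
  set c := cL g K M with hc
  set d := cQ g K M with hd
  have hbx := hBx w.factorial (DR E w K) 1 M
  -- the average of `g a * conj (gP n)` is close to one
  have key : ‖BFK E w K M (fun a n => g a * conj (gP g w K n)) - 1‖ ≤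
      (2 * (B * tl g w) + η / 3) + (C1 * er g K + η / 3) + B * tl g K +
        (2 * (B * tl g w) + η / 3) := by
    have e1 : BFK E w K M (fun a n => g a * conj (gP g w K n)) - 1 =
        Bx w.factorial (DR E w K) 1 M (fun a s =>
          g a * conj (gP g w K (w.factorial * s + 1)) + -1) := by
      rw [hbx.1 (fun a s => g a * conj (gP g w K (w.factorial * s + 1))) (fun _ _ => -1)]
      have h := hbx.2.1 (-1) (fun _ _ => 1)
      rw [(hbx.2.2.2.2.2.2 hD0 hMp).1, mul_one] at h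
      rw [h]
      unfold BFK BxR
      ring
    rw [e1]
    refine (hbx.2.2.1 _).trans ?_
    refine le_trans ?_ (IKV1.four hBx w.factorial (DR E w K) 1 M hD0 hMp (B * tl g K) _ _ _
      (fun a _ => ‖gP g w K a - 1‖) (fun a _ => ‖gT g K a - c‖)
      (fun _ s => ‖gP g w K (w.factorial * s + 1) - 1‖) a2 a1 a3)
    refine IRYm.mono _ _ _ _ _ _ fun b s hb hs => ?_
    have hapos : 0 < w.factorial * b + 1 := Nat.succ_pos _
    have hnpos : 0 < w.factorial * s + 1 := Nat.succ_pos _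
    obtain ⟨f1, f2, f3⟩ := hFc g hg.cm w K (w.factorial * b + 1) hapos hK
    have f4 : g (w.factorial * b + 1) =
        gP g w K (w.factorial * b + 1) * gT g K (w.factorial * b + 1) := by
      refine f1 fun p hp hd => ?_
      by_contra hcon
      have h1 : p ∣ w.factorial * b := Dvd.dvd.mul_right ((hp.dvd_factorial).2 (by omega)) b
      have h2 : p ∣ 1 := (Nat.dvd_add_right h1).1 hd
      exact hp.one_lt.ne' (Nat.dvd_one.1 h2)
    have h5 := IKV1.pt (gP g w K (w.factorial * b + 1)) (gT g K (w.factorial * b + 1))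
      (conj (gP g w K (w.factorial * s + 1))) (gP g w K (w.factorial * s + 1)) c f2 f3 rfl
    show ‖g (w.factorial * b + 1) * conj (gP g w K (w.factorial * s + 1)) + -1‖ ≤ _
    rw [f4]
    refine h5.trans ?_
    show _ ≤ ‖gP g w K (w.factorial * b + 1) - 1‖ + ‖gT g K (w.factorial * b + 1) - c‖ +
      B * tl g K + ‖gP g w K (w.factorial * s + 1) - 1‖
    linarith
  have e2 : VYK g E w K M - 1 = c * conj d *
      (BFK E w K M (fun a n => g a * conj (gP g w K n)) - 1) + (c * conj d - 1) := by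
    unfold VYK
    rw [← hc, ← hd]
    ring
  have h6 : ‖c * conj d‖ ≤ 1 := IRVy.mul_le hc1 (IRVy.conj_le hd1)
  have h7 := IKV1.two c d hc1
  rw [e2]
  refine (norm_add_le _ _).trans ?_
  rw [norm_mul]
  have h8 : ‖c * conj d‖ * ‖BFK E w K M (fun a n => g a * conj (gP g w K n)) - 1‖ ≤
      ‖BFK E w K M (fun a n => g a * conj (gP g w K n)) - 1‖ :=
    mul_le_of_le_one_left (norm_nonneg _) h6
  have h9 : 0 ≤ C1 * (B * tl g w) := mul_nonneg hC1.le t3
  nlinarith [h7, h8, key, b1, b2, t2, t3, her, h9]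

end Pool.Agent.F0f91f8.KR
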