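import Mathlib
import Pool.Agent.Work.MP_0f91f8_co.K.StmtsW

/-!
# Kronecker form, item Nst: closure properties of `Nest`
-/

set_option autoImplicit false

namespace Pool.Agent.F0f91f8.KR

open Filter

theorem pr_Nst : StNst := by
  refine ⟨fun P Q h hP => ?_, fun P Q hP hQ => ?_, fun ι _ P hP => ?_⟩
  · unfold Nest at hP ⊢
    filter_upwards [hP, eventually_gt_atTop 0] with w hw hw0
    filter_upwards [hw, eventually_gt_atTop 0] with K hK hK0
    filter_upwards [hK, eventually_gt_atTop 0] with M hM hM0
    exact h w K M hw0 hK0 hM0 hM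
  · unfold Nest at hP hQ ⊢
    filter_upwards [hP, hQ] with w hw1 hw2
    filter_upwards [hw1, hw2] with K hK1 hK2
    filter_upwards [hK1, hK2] with M hM1 hM2
    exact ⟨hM1, hM2⟩
  · unfold Nest at hP ⊢
    filter_upwards [eventually_all.2 hP] with w hw
    filter_upwards [eventually_all.2 hw] with K hK
    exact eventually_all.2 hK

end Pool.Agent.F0f91f8.KR
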