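import Mathlib
import Pool.Agent.Work.MP_0f91f8_co.K.StmtsW

set_option autoImplicit false

noncomputable section

namespace Pool.Agent.F0f91f8.KR

open Filter Topology ComplexConjugate
open Pool.Agent.F0f91f8.HD Pool.Agent.F0f91f8.RC
open scoped BigOperators

namespace IPKo

theorem pret3 (hF : StFCp) (hP : StPrM) (H : Type) [CommGroup H] [Finite H] (φ : ℕ+ →* H)
    (ψ₁ ψ₂ : Ch H) (h1 : Pret (FC φ ψ₁)) (h2 : Pret (FC φ ψ₂)) : Pret (FC φ (ψ₁ * ψ₂)⁻¹) := by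
  obtain ⟨hcm, _, hmul, hinv, _⟩ := hF H inferInstance inferInstance φ
  obtain ⟨p1, p2, _⟩ := hP
  have e : FC φ (ψ₁ * ψ₂)⁻¹ = fun n => conj (FC φ (ψ₁ * ψ₂) n) := funext (fun n => hinv _ n)
  have e2 : FC φ (ψ₁ * ψ₂) = fun n => FC φ ψ₁ n * FC φ ψ₂ n := funext (fun n => hmul _ _ n)
  rw [e]
  apply p2 _ (hcm _)
  rw [e2]
  exact p1 _ _ (hcm _) (hcm _) h1 h2

end IPKo

open Classical in
theorem pr_PKo (hF : StFCp) (hP : StPrM) (hA : StAvP) (hN : StNst) (hV : StVan) (hS : StSur)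
    (hD : StDic) (hE : StExA) : PK1 := by
  intro H _ _ φ
  obtain ⟨hcm, hpow, _, _, hone⟩ := hF H inferInstance inferInstance φ
  set E := Nat.card H with hEd
  have hE0 : 0 < E := Nat.card_pos
  set n : ℕ := (Finset.univ : Finset (Ch H)).card with hn
  have hn0 : 0 < n := Finset.card_pos.2 ⟨1, Finset.mem_univ _⟩
  have hn' : (0 : ℝ) < n := by exact_mod_cast hn0
  set η : ℝ := 1 / (2 * (n : ℝ) ^ 2) with hη
  have hη0 : 0 < η := by positivity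
  have hE' : (0 : ℝ) < E := by exact_mod_cast hE0
  have key : ∀ p : Ch H × Ch H, Nest fun w K M =>
      (if p.1 = 1 then (if p.2 = 1 then (1 : ℝ) else 0) else 0) - η ≤
        (AvK E w K M (t3 (FC φ p.1) (FC φ p.2) (FC φ (p.1 * p.2)⁻¹))).re := by
    rintro ⟨ψ₁, ψ₂⟩
    by_cases hpr : Pret (FC φ ψ₁) ∧ Pret (FC φ ψ₂)
    · have h3 := IPKo.pret3 hF hP H φ ψ₁ ψ₂ hpr.1 hpr.2
      have h4 := hS E hE0 (FC φ ψ₁) (FC φ ψ₂) (FC φ (ψ₁ * ψ₂)⁻¹) (hcm _) (hcm _) (hcm _) hpr.1 hpr.2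
        h3 (fun m hm => hpow _ m hm) (fun m hm => hpow _ m hm) (fun m hm => hpow _ m hm) 1 one_pos
        (fun _ _ _ => 1) (fun _ _ _ _ _ _ => by simp) η hη0
      refine hN.1 _ _ ?_ h4
      intro w K M _ hK hM h5
      have h6 := (hA E w K M hK hM).2.2
      rw [h6] at h5
      have e : (fun x y z => t3 (FC φ ψ₁) (FC φ ψ₂) (FC φ (ψ₁ * ψ₂)⁻¹) x y z * 1) =
          t3 (FC φ ψ₁) (FC φ ψ₂) (FC φ (ψ₁ * ψ₂)⁻¹) := by
        funext x y z
        rw [mul_one]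
      rw [e] at h5
      have h7 := (Complex.abs_re_le_norm _).trans h5
      rw [Complex.sub_re, Complex.one_re, abs_le] at h7
      have h8 : (if ψ₁ = 1 then (if ψ₂ = 1 then (1 : ℝ) else 0) else 0) ≤ 1 := by
        split_ifs <;> norm_num
      change (if ψ₁ = 1 then (if ψ₂ = 1 then (1 : ℝ) else 0) else 0) - η ≤ _
      linarith [h7.1]
    · have hap : Aper (FC φ ψ₁) ∨ Aper (FC φ ψ₂) := by
        rcases hD.1 _ (hcm ψ₁) with h1 | h1
        · exact Or.inl h1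
        · rcases hD.1 _ (hcm ψ₂) with h2 | h2
          · exact Or.inr h2
          · exact absurd ⟨h1, h2⟩ hpr
      have h4 := hV E (FC φ ψ₁) (FC φ ψ₂) (FC φ (ψ₁ * ψ₂)⁻¹) (hcm _) (hcm _) (hcm _) hap η hη0
      refine hN.1 _ _ ?_ h4
      intro w K M _ hK hM h5
      have h7 := (Complex.abs_re_le_norm _).trans h5
      rw [abs_le] at h7
      have h8 : (if ψ₁ = 1 then (if ψ₂ = 1 then (1 : ℝ) else 0) else 0) = 0 := by
        split_ifs with h1 h2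
        · exfalso
          apply hpr
          have h9 : Pret (FC φ (1 : Ch H)) := hP.2.2 _ hone
          exact ⟨by rw [h1]; exact h9, by rw [h2]; exact h9⟩
        · rfl
        · rfl
      change (if ψ₁ = 1 then (if ψ₂ = 1 then (1 : ℝ) else 0) else 0) - η ≤ _
      rw [h8]
      linarith [h7.1]
  have hall := hN.2.2 (Ch H × Ch H) inferInstance _ key
  refine ⟨1 / (2 * (E : ℝ) ^ 2), by positivity, ?_⟩
  refine hN.1 _ _ ?_ hall
  intro w K M _ hK hM h5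
  have h6 := (hE H inferInstance inferInstance φ (fun _ => 0) E w K M hK hM).2
  have h7 := congrArg Complex.re h6
  rw [Complex.re_sum] at h7
  have h8 : ∀ ψ₁ ∈ (Finset.univ : Finset (Ch H)),
      (∑ ψ₂ : Ch H, AvK E w K M (t3 (FC φ ψ₁) (FC φ ψ₂) (FC φ (ψ₁ * ψ₂)⁻¹))).re =
      ∑ ψ₂ : Ch H, (AvK E w K M (t3 (FC φ ψ₁) (FC φ ψ₂) (FC φ (ψ₁ * ψ₂)⁻¹))).re := by
    intro ψ₁ _
    rw [Complex.re_sum]
  rw [Finset.sum_congr rfl h8] at h7
  have h9 : ∑ ψ₁ : Ch H, ∑ ψ₂ : Ch H,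
      ((if ψ₁ = 1 then (if ψ₂ = 1 then (1 : ℝ) else 0) else 0) - η) ≤
      ∑ ψ₁ : Ch H, ∑ ψ₂ : Ch H,
        (AvK E w K M (t3 (FC φ ψ₁) (FC φ ψ₂) (FC φ (ψ₁ * ψ₂)⁻¹))).re :=
    Finset.sum_le_sum fun ψ₁ _ => Finset.sum_le_sum fun ψ₂ _ => h5 (ψ₁, ψ₂)
  have h10 : ∑ ψ₁ : Ch H, ∑ ψ₂ : Ch H,
      ((if ψ₁ = 1 then (if ψ₂ = 1 then (1 : ℝ) else 0) else 0) - η) = 1 / 2 := by
    have e1 : ∀ ψ₁ ∈ (Finset.univ : Finset (Ch H)), ∑ ψ₂ : Ch H,
        ((if ψ₁ = 1 then (if ψ₂ = 1 then (1 : ℝ) else 0) else 0) - η) =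
        (if ψ₁ = 1 then 1 else 0) - n * η := by
      intro ψ₁ _
      rw [Finset.sum_sub_distrib, Finset.sum_const, nsmul_eq_mul, ← hn]
      congr 1
      split_ifs
      · rw [Finset.sum_ite_eq' Finset.univ (1 : Ch H) (fun _ => (1 : ℝ)), if_pos (Finset.mem_univ _)]
      · rw [Finset.sum_const_zero]
    rw [Finset.sum_congr rfl e1, Finset.sum_sub_distrib, Finset.sum_const, nsmul_eq_mul, ← hn,
      Finset.sum_ite_eq' Finset.univ (1 : Ch H) (fun _ => (1 : ℝ)), if_pos (Finset.mem_univ _), hη]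
    field_simp
    ring
  have h11 : (((E : ℂ)) ^ 2 * AvK E w K M (w1 φ)).re = (E : ℝ) ^ 2 * (AvK E w K M (w1 φ)).re := by
    have e : ((E : ℂ)) ^ 2 = (((E : ℝ) ^ 2 : ℝ) : ℂ) := by
      push_cast
      rfl
    rw [e, Complex.re_ofReal_mul]
  rw [h11] at h7
  rw [h10] at h9
  have h12 : 1 / 2 ≤ (E : ℝ) ^ 2 * (AvK E w K M (w1 φ)).re := by
    rw [h7]
    exact h9
  rw [div_le_iff₀ (by positivity)]
  linarith

end Pool.Agent.F0f91f8.KR
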