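import Mathlib
import Pool.Agent.Work.MP_0f91f8_co.K.StmtsW

set_option autoImplicit false

noncomputable section

namespace Pool.Agent.F0f91f8.KR

open Filter Topology ComplexConjugate
open Pool.Agent.F0f91f8.HD Pool.Agent.F0f91f8.RC
open scoped BigOperators

namespace IPWc

theorem pret3 (hF : StFCp) (hP : StPrM) (H : Type) [CommGroup H] [Finite H] (φ : ℕ+ →* H)
    (ψ₁ ψ₂ : Ch H) (h1 : Pret (FC φ ψ₁)) (h2 : Pret (FC φ ψ₂)) : Pret (FC φ (ψ₁ * ψ₂)⁻¹) := by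
  obtain ⟨hcm, _, hmul, hinv, _⟩ := hF H inferInstance inferInstance φ
  obtain ⟨p1, p2, _⟩ := hP
  have e : FC φ (ψ₁ * ψ₂)⁻¹ = fun n => conj (FC φ (ψ₁ * ψ₂) n) := funext (fun n => hinv _ n)
  have e2 : FC φ (ψ₁ * ψ₂) = fun n => FC φ ψ₁ n * FC φ ψ₂ n := funext (fun n => hmul _ _ n)
  rw [e]
  apply p2 _ (hcm _)
  rw [e2]
  exact p1 _ _ (hcm _) (hcm _) h1 h2

/-- the terms of the expansion -/
def T {H : Type} [CommGroup H] (φ : ℕ+ →* H) (f : ℕ → ℂ) (E : ℕ) (p : Ch H × Ch H) (w K M : ℕ) : ℂ :=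
  AvK E w K M (fun x y z => t3 (FC φ p.1) (FC φ p.2) (FC φ (p.1 * p.2)⁻¹) x y z * pc f x y z)

end IPWc

open IPWc in
theorem pr_PWc (hW : PWK0) (hF : StFCp) (hP : StPrM) (hC : StCMm) (hA : StAvP) (hN : StNst)
    (h0 : StPc0) (h1 : StPc1) (hR : StRed) (hE : StExA) : PWK := by
  intro H _ _ φ f hf ε hε
  obtain ⟨hcm, hpow, hmul, hinv, hone⟩ := hF H inferInstance inferInstance φ
  set E := Nat.card H with hEd
  have hE0 : 0 < E := Nat.card_pos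
  have hE1 : (1 : ℝ) ≤ E := by exact_mod_cast hE0
  set n : ℕ := (Finset.univ : Finset (Ch H)).card with hn
  have hn0 : 0 < n := Finset.card_pos.2 ⟨1, Finset.mem_univ _⟩
  have hn' : (0 : ℝ) < n := by exact_mod_cast hn0
  set η : ℝ := ε / (2 * (n : ℝ) ^ 2) with hη
  have hη0 : 0 < η := by positivity
  -- the reduced function and the bound for its terms
  obtain ⟨f0, hf0, hsame, key⟩ : ∃ f0 : ℕ → ℂ, CM f0 ∧
      (∀ w K M : ℕ, 0 < K → 0 < M → AvK E w K M (wpc φ f0) = AvK E w K M (wpc φ f)) ∧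
      ∀ p : Ch H × Ch H, Nest fun w K M => -(2 * η) ≤ (T φ f0 E p w K M).re := by
    by_cases hex : ∃ ψ : Ch H, Pret fun n => FC φ ψ n * f n
    · obtain ⟨ψ, hψ⟩ := hex
      have hcf0 : CM (fun n => FC φ ψ n * f n) := hC.1 _ _ (hcm ψ) hf
      refine ⟨fun n => FC φ ψ n * f n, hcf0, ?_, ?_⟩
      · intro w K M hK hM
        exact (hA E w K M hK hM).1 _ _ fun x y z hx hy hz =>
          hR H inferInstance inferInstance φ ψ f x y z hx hy hz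
      · rintro ⟨ψ₁, ψ₂⟩
        have h3 := h0 E hE0 (fun n => FC φ ψ n * f n) (FC φ ψ₁) (FC φ ψ₂) (FC φ (ψ₁ * ψ₂)⁻¹)
          hcf0 (hcm _) (hcm _) (hcm _) hψ (fun a b => pret3 hF hP H φ ψ₁ ψ₂ a b)
          (fun m hm => hpow _ m hm) (fun m hm => hpow _ m hm) (fun m hm => hpow _ m hm) η hη0
        by_cases hpr : Pret (FC φ ψ₁) ∧ Pret (FC φ ψ₂)
        · have h4 := h3.1 hpr
          have h5 := hW E hE0 _ hcf0 hψ η hη0
          refine hN.1 _ _ ?_ (hN.2.1 _ _ h4 h5)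
          intro w K M _ hK hM h6
          obtain ⟨h7, h8⟩ := h6
          have h9 := (Complex.abs_re_le_norm _).trans h7
          rw [Complex.sub_re, abs_le] at h9
          show -(2 * η) ≤ (AvK E w K M (fun x y z => t3 (FC φ ψ₁) (FC φ ψ₂) (FC φ (ψ₁ * ψ₂)⁻¹) x y z *
            pc (fun n => FC φ ψ n * f n) x y z)).re
          linarith [h9.1]
        · have h4 := h3.2 hpr
          refine hN.1 _ _ ?_ h4
          intro w K M _ hK hM h7
          have h9 := (Complex.abs_re_le_norm _).trans h7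
          rw [abs_le] at h9
          show -(2 * η) ≤ (AvK E w K M (fun x y z => t3 (FC φ ψ₁) (FC φ ψ₂) (FC φ (ψ₁ * ψ₂)⁻¹) x y z *
            pc (fun n => FC φ ψ n * f n) x y z)).re
          linarith [h9.1]
    · have hno : ∀ ψ : Ch H, ¬ Pret fun n => FC φ ψ n * f n := fun ψ hψ => hex ⟨ψ, hψ⟩
      refine ⟨f, hf, fun _ _ _ _ _ => rfl, ?_⟩
      rintro ⟨ψ₁, ψ₂⟩
      have hconj : ¬ Pret fun n => conj (FC φ ψ₁ n) * f n := by
        have e : (fun n => conj (FC φ ψ₁ n) * f n) = fun n => FC φ ψ₁⁻¹ n * f n := by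
          funext m
          rw [hinv]
        rw [e]
        exact hno _
      have h4 := h1 E f (FC φ ψ₁) (FC φ ψ₂) (FC φ (ψ₁ * ψ₂)⁻¹) hf (hcm _) (hcm _) (hcm _)
        (hno ψ₁) (hno ψ₂) hconj η hη0
      refine hN.1 _ _ ?_ h4
      intro w K M _ hK hM h7
      have h9 := (Complex.abs_re_le_norm _).trans h7
      rw [abs_le] at h9
      show -(2 * η) ≤ (AvK E w K M (fun x y z => t3 (FC φ ψ₁) (FC φ ψ₂) (FC φ (ψ₁ * ψ₂)⁻¹) x y z *
        pc f x y z)).re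
      linarith [h9.1]
  have hall := hN.2.2 (Ch H × Ch H) inferInstance _ key
  refine hN.1 _ _ ?_ hall
  intro w K M _ hK hM h5
  have h6 := (hE H inferInstance inferInstance φ f0 E w K M hK hM).1
  rw [hsame w K M hK hM] at h6
  have h7 := congrArg Complex.re h6
  rw [Complex.re_sum] at h7
  have h8 : ∀ ψ₁ ∈ (Finset.univ : Finset (Ch H)),
      (∑ ψ₂ : Ch H, AvK E w K M (fun x y z =>
        t3 (FC φ ψ₁) (FC φ ψ₂) (FC φ (ψ₁ * ψ₂)⁻¹) x y z * pc f0 x y z)).re =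
      ∑ ψ₂ : Ch H, (T φ f0 E (ψ₁, ψ₂) w K M).re := by
    intro ψ₁ _
    rw [Complex.re_sum]
    rfl
  rw [Finset.sum_congr rfl h8] at h7
  have h9 : ∑ ψ₁ : Ch H, ∑ ψ₂ : Ch H, (-(2 * η)) ≤
      ∑ ψ₁ : Ch H, ∑ ψ₂ : Ch H, (T φ f0 E (ψ₁, ψ₂) w K M).re :=
    Finset.sum_le_sum fun ψ₁ _ => Finset.sum_le_sum fun ψ₂ _ => h5 (ψ₁, ψ₂)
  have h10 : ∑ ψ₁ : Ch H, ∑ ψ₂ : Ch H, (-(2 * η)) = -ε := by
    rw [Finset.sum_const, Finset.sum_const, ← hn, nsmul_eq_mul, nsmul_eq_mul, hη]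
    field_simp
  have h11 : (((E : ℂ)) ^ 2 * AvK E w K M (wpc φ f)).re = (E : ℝ) ^ 2 * (AvK E w K M (wpc φ f)).re := by
    have e : ((E : ℂ)) ^ 2 = (((E : ℝ) ^ 2 : ℝ) : ℂ) := by
      push_cast
      rfl
    rw [e, Complex.re_ofReal_mul]
  rw [h11] at h7
  rw [h10] at h9
  have h12 : -ε ≤ (E : ℝ) ^ 2 * (AvK E w K M (wpc φ f)).re := by
    rw [h7]
    exact h9
  by_contra h13
  rw [not_le] at h13
  have h14 : (1 : ℝ) ≤ (E : ℝ) ^ 2 := one_le_pow₀ hE1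
  nlinarith

end Pool.Agent.F0f91f8.KR
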