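import Mathlib
import Pool.Agent.Work.MP_0f91f8_co.K.StmtsW

/-!
# Kronecker form, module W, item Pc0: the terms of the weighted correlation
-/

set_option autoImplicit false

noncomputable section

namespace Pool.Agent.F0f91f8.KR

open Filter Topology ComplexConjugate
open Pool.Agent.F0f91f8.HD Pool.Agent.F0f91f8.RC
open scoped BigOperators

namespace IPc0

theorem pc_le {f : ℕ → ℂ} (hf : CM f) (x y z : ℕ) (hx : 0 < x) (hy : 0 < y) (hz : 0 < z) :
    ‖pc f x y z‖ ≤ 3 := by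
  have h1 : ‖f x * conj (f y)‖ = 1 := by
    rw [norm_mul, RCLike.norm_conj, hf.2.2 x hx, hf.2.2 y hy, mul_one]
  have h2 : ‖f y * conj (f z)‖ = 1 := by
    rw [norm_mul, RCLike.norm_conj, hf.2.2 y hy, hf.2.2 z hz, mul_one]
  have h3 : ‖f z * conj (f x)‖ = 1 := by
    rw [norm_mul, RCLike.norm_conj, hf.2.2 z hz, hf.2.2 x hx, mul_one]
  unfold pc
  refine (norm_add₃_le).trans ?_
  rw [h1, h2, h3]
  norm_num

/-- the three terms -/
theorem split (f F1 F2 F3 : ℕ → ℂ) :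
    (fun x y z => t3 F1 F2 F3 x y z * pc f x y z) = fun x y z =>
      (t3 (fun n => F1 n * f n) (fun n => F2 n * conj (f n)) F3 x y z +
        t3 F1 (fun n => F2 n * f n) (fun n => F3 n * conj (f n)) x y z) +
        t3 (fun n => F1 n * conj (f n)) F2 (fun n => F3 n * f n) x y z := by
  funext x y z
  unfold t3 pc
  ring

end IPc0

open IPc0

theorem pr_Pc0 (h1 : StCMm) (h2 : StAvL) (h3 : StNst) (h4 : StVan) (h5 : StSur) (h6 : StDic) :
    StPc0 := by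
  intro E hE f F1 F2 F3 hf hF1 hF2 hF3 hp h12 e1 e2 e3 ε hε
  refine ⟨?_, ?_⟩
  · rintro ⟨p1, p2⟩
    exact h5 E hE F1 F2 F3 hF1 hF2 hF3 p1 p2 (h12 p1 p2) e1 e2 e3 3 (by norm_num) (pc f)
      (pc_le hf) ε hε
  · intro hn
    obtain ⟨d1, d2, d3, _⟩ := h6
    obtain ⟨m1, m2⟩ := h1
    have hfc : CM fun n => conj (f n) := m2 f hf
    have hA : (Aper (fun n => F1 n * f n) ∧ Aper F1 ∧ Aper fun n => F1 n * conj (f n)) ∨
        (Aper (fun n => F2 n * conj (f n)) ∧ (Aper fun n => F2 n * f n) ∧ Aper F2) := by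
      by_cases p1 : Pret F1
      · have p2 : ¬ Pret F2 := fun p2 => hn ⟨p1, p2⟩
        exact Or.inr ⟨d3 f F2 hf hF2 hp p2, d2 f F2 hf hF2 hp p2, (d1 F2 hF2).resolve_right p2⟩
      · exact Or.inl ⟨d2 f F1 hf hF1 hp p1, (d1 F1 hF1).resolve_right p1, d3 f F1 hf hF1 hp p1⟩
    have hε3 : 0 < ε / 3 := by positivity
    have t1 := h4 E (fun n => F1 n * f n) (fun n => F2 n * conj (f n)) F3 (m1 F1 f hF1 hf)
      (m1 F2 _ hF2 hfc) hF3 (hA.imp (fun h => h.1) fun h => h.1) (ε / 3) hε3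
    have t2 := h4 E F1 (fun n => F2 n * f n) (fun n => F3 n * conj (f n)) hF1
      (m1 F2 f hF2 hf) (m1 F3 _ hF3 hfc) (hA.imp (fun h => h.2.1) fun h => h.2.1) (ε / 3) hε3
    have t3' := h4 E (fun n => F1 n * conj (f n)) F2 (fun n => F3 n * f n)
      (m1 F1 _ hF1 hfc) hF2 (m1 F3 f hF3 hf) (hA.imp (fun h => h.2.2) fun h => h.2.2) (ε / 3) hε3
    refine h3.1 _ _ ?_ (h3.2.1 _ _ (h3.2.1 _ _ t1 t2) t3')
    rintro w K M _ _ _ ⟨⟨a1, a2⟩, a3⟩
    rw [split, (h2 E w K M).1, (h2 E w K M).1]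
    refine norm_add₃_le.trans ?_
    linarith

end Pool.Agent.F0f91f8.KR
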