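import Mathlib
import Pool.Agent.Work.MP_0f91f8_co.K.StmtsW

/-!
# Kronecker form, module W, item Pc1: the terms when no twist is pretentious (helper22)
-/

set_option autoImplicit false

noncomputable section

namespace Pool.Agent.F0f91f8.KR

open Filter Topology ComplexConjugate
open Pool.Agent.F0f91f8.HD Pool.Agent.F0f91f8.RC
open scoped BigOperators

namespace IPc1

/-- the three terms -/
theorem split (f F1 F2 F3 : ℕ → ℂ) :
    (fun x y z => t3 F1 F2 F3 x y z * pc f x y z) = fun x y z =>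
      (t3 (fun n => F1 n * f n) (fun n => F2 n * conj (f n)) F3 x y z +
        t3 F1 (fun n => F2 n * f n) (fun n => F3 n * conj (f n)) x y z) +
        t3 (fun n => F1 n * conj (f n)) F2 (fun n => F3 n * f n) x y z := by
  funext x y z
  unfold t3 pc
  ring

end IPc1

open IPc1

theorem pr_Pc1 (h1 : StCMm) (h2 : StAvL) (h3 : StNst) (h4 : StVan) (h6 : StDic) : StPc1 := by
  intro E f F1 F2 F3 hf hF1 hF2 hF3 p1 p2 p3 ε hε
  obtain ⟨-, -, -, d4⟩ := h6
  obtain ⟨m1, m2⟩ := h1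
  have hfc : CM fun n => conj (f n) := m2 f hf
  have a1 : Aper fun n => F1 n * f n := (d4 _ (m1 F1 f hF1 hf) p1).1
  have a2 : Aper fun n => F2 n * f n := (d4 _ (m1 F2 f hF2 hf) p2).1
  have a3 : Aper fun n => F1 n * conj (f n) := by
    have h := (d4 _ (m1 (fun n => conj (F1 n)) f (m2 F1 hF1) hf) p3).2
    have e : (fun n => conj (conj (F1 n) * f n)) = fun n => F1 n * conj (f n) := by
      funext n
      rw [map_mul, Complex.conj_conj]
    rwa [e] at h
  have hε3 : 0 < ε / 3 := by positivity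
  have t1 := h4 E (fun n => F1 n * f n) (fun n => F2 n * conj (f n)) F3 (m1 F1 f hF1 hf)
    (m1 F2 _ hF2 hfc) hF3 (Or.inl a1) (ε / 3) hε3
  have t2 := h4 E F1 (fun n => F2 n * f n) (fun n => F3 n * conj (f n)) hF1
    (m1 F2 f hF2 hf) (m1 F3 _ hF3 hfc) (Or.inr a2) (ε / 3) hε3
  have t3' := h4 E (fun n => F1 n * conj (f n)) F2 (fun n => F3 n * f n)
    (m1 F1 _ hF1 hfc) hF2 (m1 F3 f hF3 hf) (Or.inl a3) (ε / 3) hε3
  refine h3.1 _ _ ?_ (h3.2.1 _ _ (h3.2.1 _ _ t1 t2) t3')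
  rintro w K M _ _ _ ⟨⟨b1, b2⟩, b3⟩
  rw [split, (h2 E w K M).1, (h2 E w K M).1]
  refine norm_add₃_le.trans ?_
  linarith

end Pool.Agent.F0f91f8.KR
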