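import Mathlib
import Pool.Agent.Work.MP_0f91f8_co.K.StmtsW

/-!
# Kronecker form, module W, item PrM: pretentious functions form a group
-/

set_option autoImplicit false

noncomputable section

namespace Pool.Agent.F0f91f8.KR

open Filter Topology ComplexConjugate
open Pool.Agent.F0f91f8.HD Pool.Agent.F0f91f8.RC
open scoped BigOperators

namespace IPrM

theorem norm_pow_it {p : ℕ} (hp : 0 < p) (t : ℝ) : ‖((p : ℕ) : ℂ) ^ (t * Complex.I)‖ = 1 := by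
  rw [Complex.norm_natCast_cpow_of_pos hp]
  simp

theorem norm_mul_sub (a b c d : ℂ) (hb : ‖b‖ ≤ 1) (hc : ‖c‖ ≤ 1) :
    ‖a * b - c * d‖ ≤ ‖a - c‖ + ‖b - d‖ := by
  have h : a * b - c * d = (a - c) * b + c * (b - d) := by ring
  rw [h]
  refine (norm_add_le _ _).trans (add_le_add ?_ ?_)
  · rw [norm_mul]
    exact mul_le_of_le_one_right (norm_nonneg _) hb
  · rw [norm_mul]
    exact mul_le_of_le_one_left (norm_nonneg _) hc

theorem mul_part (f g : ℕ → ℂ) (_hf : CM f) (hg : CM g) (h1 : Pret f) (h2 : Pret g) :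
    Pret fun n => f n * g n := by
  obtain ⟨q, hq, χ, t, hs⟩ := h1
  obtain ⟨q', hq', χ', t', hs'⟩ := h2
  have hq0 : q ≠ 0 := hq.out
  have hq0' : q' ≠ 0 := hq'.out
  have hqq : q * q' ≠ 0 := Nat.mul_ne_zero hq0 hq0'
  refine ⟨q * q', ⟨hqq⟩, DirichletCharacter.changeLevel (Nat.dvd_mul_right q q') χ *
    DirichletCharacter.changeLevel (Nat.dvd_mul_left q' q) χ', t + t', ?_⟩
  refine Summable.of_norm_bounded_eventually ((hs.mul_left 2).add (hs'.mul_left 2)) ?_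
  have hfin : {p : Nat.Primes | ¬ Nat.Coprime (p : ℕ) (q * q')}.Finite := by
    refine Set.Finite.of_injOn (f := fun p : Nat.Primes => (p : ℕ)) (t := {n | n ∣ q * q'})
      ?_ (fun a _ b _ h => Subtype.ext h) ?_
    · intro p hp
      by_contra hnd
      exact hp ((Nat.Prime.coprime_iff_not_dvd p.2).2 hnd)
    · exact (Set.finite_le_nat (q * q')).subset fun n hn => Nat.le_of_dvd (Nat.pos_of_ne_zero hqq) hn
  refine (hfin.subset ?_)
  intro p hp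
  by_contra hcop
  simp only [Set.mem_ofPred_eq, not_not] at hcop
  apply hp
  have hp0 : 0 < (p : ℕ) := p.2.pos
  have hpR : (0 : ℝ) < ((p : ℕ) : ℝ) := by exact_mod_cast hp0
  have e1 : (DirichletCharacter.changeLevel (Nat.dvd_mul_right q q') χ) ((p : ℕ) : ZMod (q * q')) =
      χ ((p : ℕ) : ZMod q) := by
    have := DirichletCharacter.changeLevel_eq_cast_of_dvd χ (Nat.dvd_mul_right q q')
      (ZMod.unitOfCoprime (p : ℕ) hcop)
    rw [ZMod.coe_unitOfCoprime, ZMod.cast_natCast (Nat.dvd_mul_right q q')] at this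
    exact this
  have e2 : (DirichletCharacter.changeLevel (Nat.dvd_mul_left q' q) χ') ((p : ℕ) : ZMod (q * q')) =
      χ' ((p : ℕ) : ZMod q') := by
    have := DirichletCharacter.changeLevel_eq_cast_of_dvd χ' (Nat.dvd_mul_left q' q)
      (ZMod.unitOfCoprime (p : ℕ) hcop)
    rw [ZMod.coe_unitOfCoprime, ZMod.cast_natCast (Nat.dvd_mul_left q' q)] at this
    exact this
  have e3 : ((p : ℕ) : ℂ) ^ (((t + t' : ℝ) : ℂ) * Complex.I) =
      ((p : ℕ) : ℂ) ^ ((t : ℂ) * Complex.I) * ((p : ℕ) : ℂ) ^ ((t' : ℂ) * Complex.I) := by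
    rw [← Complex.cpow_add _ _ (Nat.cast_ne_zero.2 hp0.ne')]
    congr 1
    push_cast
    ring
  show ‖‖f p * g p - (DirichletCharacter.changeLevel (Nat.dvd_mul_right q q') χ *
    DirichletCharacter.changeLevel (Nat.dvd_mul_left q' q) χ') ((p : ℕ) : ZMod (q * q')) *
      ((p : ℕ) : ℂ) ^ (((t + t' : ℝ) : ℂ) * Complex.I)‖ ^ 2 / ((p : ℕ) : ℝ)‖ ≤ _
  rw [Real.norm_of_nonneg (by positivity), MulChar.mul_apply, e1, e2, e3]
  have e4 : χ ((p : ℕ) : ZMod q) * χ' ((p : ℕ) : ZMod q') *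
      (((p : ℕ) : ℂ) ^ ((t : ℂ) * Complex.I) * ((p : ℕ) : ℂ) ^ ((t' : ℂ) * Complex.I)) =
      (χ ((p : ℕ) : ZMod q) * ((p : ℕ) : ℂ) ^ ((t : ℂ) * Complex.I)) *
      (χ' ((p : ℕ) : ZMod q') * ((p : ℕ) : ℂ) ^ ((t' : ℂ) * Complex.I)) := by ring
  rw [e4]
  have hb : ‖g (p : ℕ)‖ ≤ 1 := (hg.2.2 _ hp0).le
  have hc : ‖χ ((p : ℕ) : ZMod q) * ((p : ℕ) : ℂ) ^ ((t : ℂ) * Complex.I)‖ ≤ 1 := by
    rw [norm_mul, norm_pow_it hp0, mul_one]
    exact DirichletCharacter.norm_le_one χ _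
  have hk := norm_mul_sub (f p) (g p)
    (χ ((p : ℕ) : ZMod q) * ((p : ℕ) : ℂ) ^ ((t : ℂ) * Complex.I))
    (χ' ((p : ℕ) : ZMod q') * ((p : ℕ) : ℂ) ^ ((t' : ℂ) * Complex.I)) hb hc
  set A : ℝ := ‖f (p : ℕ) - χ ((p : ℕ) : ZMod q) * ((p : ℕ) : ℂ) ^ ((t : ℂ) * Complex.I)‖ with hA
  set B : ℝ := ‖g (p : ℕ) - χ' ((p : ℕ) : ZMod q') * ((p : ℕ) : ℂ) ^ ((t' : ℂ) * Complex.I)‖ with hB
  have hsq : ‖f (p : ℕ) * g (p : ℕ) - (χ ((p : ℕ) : ZMod q) * ((p : ℕ) : ℂ) ^ ((t : ℂ) * Complex.I)) *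
      (χ' ((p : ℕ) : ZMod q') * ((p : ℕ) : ℂ) ^ ((t' : ℂ) * Complex.I))‖ ^ 2 ≤ 2 * A ^ 2 + 2 * B ^ 2 := by
    refine (pow_le_pow_left₀ (norm_nonneg _) hk 2).trans ?_
    nlinarith [sq_nonneg (A - B)]
  refine (div_le_div_of_nonneg_right hsq hpR.le).trans (le_of_eq ?_)
  ring

theorem conj_part (f : ℕ → ℂ) (h : Pret f) : Pret fun n => conj (f n) := by
  obtain ⟨q, hq, χ, t, hs⟩ := h
  refine ⟨q, hq, χ⁻¹, -t, ?_⟩
  refine hs.congr fun p => ?_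
  have hp0 : 0 < (p : ℕ) := p.2.pos
  have e1 : χ⁻¹ ((p : ℕ) : ZMod q) = conj (χ ((p : ℕ) : ZMod q)) := by
    rw [← MulChar.star_apply']
    rfl
  have e2 : ((p : ℕ) : ℂ) ^ (((-t : ℝ) : ℂ) * Complex.I) =
      conj (((p : ℕ) : ℂ) ^ ((t : ℂ) * Complex.I)) := by
    have harg : (((p : ℕ) : ℂ)).arg ≠ Real.pi := by
      rw [Complex.natCast_arg]
      exact Real.pi_ne_zero.symm
    have h1 := Complex.cpow_conj ((p : ℕ) : ℂ) ((t : ℂ) * Complex.I) harg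
    rw [Complex.conj_natCast, map_mul, Complex.conj_ofReal, Complex.conj_I] at h1
    rw [← h1]
    congr 1
    push_cast
    ring
  rw [e1, e2, ← map_mul, ← map_sub, RCLike.norm_conj]

theorem one_part (f : ℕ → ℂ) (h : ∀ n : ℕ, 0 < n → f n = 1) : Pret f := by
  refine ⟨1, ⟨one_ne_zero⟩, 1, 0, ?_⟩
  refine summable_zero.congr fun p => ?_
  have hp0 : 0 < (p : ℕ) := p.2.pos
  have e1 : (1 : DirichletCharacter ℂ 1) ((p : ℕ) : ZMod 1) = 1 := by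
    rw [Subsingleton.elim ((p : ℕ) : ZMod 1) 1, map_one]
  rw [h _ hp0, e1]
  simp

end IPrM

theorem pr_PrM : StPrM :=
  ⟨IPrM.mul_part, fun f _ h => IPrM.conj_part f h, IPrM.one_part⟩

end Pool.Agent.F0f91f8.KR
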