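import Mathlib
import Pool.Agent.Work.MP_0f91f8_co.K.StmtsW

/-!
# Kronecker form, module W, item Red: reduction by a twist
-/

set_option autoImplicit false

noncomputable section

namespace Pool.Agent.F0f91f8.KR

open Filter Topology ComplexConjugate
open Pool.Agent.F0f91f8.HD Pool.Agent.F0f91f8.RC
open scoped BigOperators

namespace IRed

theorem tw (u a b : ℂ) (hu : ‖u‖ = 1) : (u * a) * conj (u * b) = a * conj b := by
  have h1 : u * conj u = 1 := by
    rw [Complex.mul_conj, Complex.normSq_eq_norm_sq, hu]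
    norm_num
  rw [map_mul]
  calc u * a * (conj u * conj b) = (u * conj u) * (a * conj b) := by ring
    _ = a * conj b := by rw [h1, one_mul]

end IRed

theorem pr_Red (h : StFCp) : StRed := by
  intro H _ _ φ ψ f x y z hx hy hz
  unfold wpc
  by_cases hw : wt φ x y z
  · rw [if_pos hw, if_pos hw]
    obtain ⟨h1, h2⟩ := hw
    have hxy : FC φ ψ x = FC φ ψ y := by
      unfold FC
      rw [if_pos hx, if_pos hy, h1]
    have hyz : FC φ ψ y = FC φ ψ z := by
      unfold FC
      rw [if_pos hy, if_pos hz, h2]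
    have hn : ‖FC φ ψ z‖ = 1 := ((h H inferInstance inferInstance φ).1 ψ).2.2 z hz
    unfold pc
    beta_reduce
    rw [hxy, hyz, IRed.tw _ _ _ hn, IRed.tw _ _ _ hn, IRed.tw _ _ _ hn]
  · rw [if_neg hw, if_neg hw]

end Pool.Agent.F0f91f8.KR
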