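import Mathlib
import Pool.Agent.Work.MP_0f91f8_co.K.StmtsW

/-!
# Kronecker form, module W, item Sur: surviving terms
-/

set_option autoImplicit false

noncomputable section

namespace Pool.Agent.F0f91f8.KR

open Filter Topology ComplexConjugate
open Pool.Agent.F0f91f8.HD Pool.Agent.F0f91f8.RC
open scoped BigOperators

namespace ISur

/-- the sum of the distances from `1` at the three members -/
def S (f : ℕ → ℂ) (x y z : ℕ) : ℝ := ‖1 - f x‖ + ‖1 - f y‖ + ‖1 - f z‖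

theorem prod_bound {a b c : ℂ} (hb : ‖b‖ = 1) (hc : ‖c‖ = 1) :
    ‖a * b * c - 1‖ ≤ ‖1 - a‖ + ‖1 - b‖ + ‖1 - c‖ := by
  have h : a * b * c - 1 = (a - 1) * b * c + (b - 1) * c + (c - 1) := by ring
  rw [h]
  refine (norm_add₃_le).trans ?_
  rw [norm_mul, norm_mul, norm_mul, hb, hc, mul_one, mul_one, mul_one, norm_sub_rev a, norm_sub_rev b,
    norm_sub_rev c]

theorem pt_bound {f1 f2 f3 : ℕ → ℂ} (c2 : CM f2) (c3 : CM f3) {C : ℝ} (hC : 0 < C)
    {Ψ : ℕ → ℕ → ℕ → ℂ} (hΨ : ∀ x y z, 0 < x → 0 < y → 0 < z → ‖Ψ x y z‖ ≤ C) (x y z : ℕ)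
    (hx : 0 < x) (hy : 0 < y) (hz : 0 < z) :
    ‖t3 f1 f2 f3 x y z * Ψ x y z + (-1) * Ψ x y z‖ ≤ C * (S f1 x y z + (S f2 x y z + S f3 x y z)) := by
  have h : t3 f1 f2 f3 x y z * Ψ x y z + (-1) * Ψ x y z = (f1 x * f2 y * f3 z - 1) * Ψ x y z := by
    unfold t3
    ring
  rw [h, norm_mul, mul_comm]
  have h1 := prod_bound (a := f1 x) (c2.2.2 y hy) (c3.2.2 z hz)
  have h2 : ‖f1 x * f2 y * f3 z - 1‖ ≤ S f1 x y z + (S f2 x y z + S f3 x y z) := by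
    unfold S
    have := norm_nonneg (1 - f1 y)
    have := norm_nonneg (1 - f1 z)
    have := norm_nonneg (1 - f2 x)
    have := norm_nonneg (1 - f2 z)
    have := norm_nonneg (1 - f3 x)
    have := norm_nonneg (1 - f3 y)
    linarith
  exact mul_le_mul (hΨ x y z hx hy hz) h2 (norm_nonneg _) hC.le

end ISur

open ISur in
theorem pr_Sur (h1 : TrivK) (h2 : StAvL) (h3 : StAvP) (h4 : StNst) : StSur := by
  intro E hE f1 f2 f3 c1 c2 c3 p1 p2 p3 e1 e2 e3 C hC Ψ hΨ ε hε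
  have hε' : 0 < ε / (3 * C) := by positivity
  have t1 := h1 E hE f1 c1 p1 e1 _ hε'
  have t2 := h1 E hE f2 c2 p2 e2 _ hε'
  have t3' := h1 E hE f3 c3 p3 e3 _ hε'
  obtain ⟨hmono, hand, -⟩ := h4
  refine hmono _ _ ?_ (hand _ _ t1 (hand _ _ t2 t3'))
  rintro w K M - hK hM ⟨b1, b2, b3⟩
  obtain ⟨l1, l2, -⟩ := h2 E w K M
  obtain ⟨-, q2, -⟩ := h3 E w K M hK hM
  have hsub : AvK E w K M (fun x y z => t3 f1 f2 f3 x y z * Ψ x y z + (-1) * Ψ x y z) =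
      AvK E w K M (fun x y z => t3 f1 f2 f3 x y z * Ψ x y z) - AvK E w K M Ψ := by
    rw [l1 (fun x y z => t3 f1 f2 f3 x y z * Ψ x y z) (fun x y z => (-1) * Ψ x y z), l2 Ψ (-1)]
    ring
  rw [← hsub]
  refine (q2 _ (fun x y z => C * (S f1 x y z + (S f2 x y z + S f3 x y z)))
    (fun x y z hx hy hz => pt_bound c2 c3 hC hΨ x y z hx hy hz)).trans ?_
  have hlin : AvK E w K M (fun x y z => ((C * (S f1 x y z + (S f2 x y z + S f3 x y z)) : ℝ) : ℂ)) =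
      (C : ℂ) * (AvK E w K M (fun x y z => ((S f1 x y z : ℝ) : ℂ)) +
        (AvK E w K M (fun x y z => ((S f2 x y z : ℝ) : ℂ)) + AvK E w K M (fun x y z => ((S f3 x y z : ℝ) : ℂ)))) := by
    rw [← l1 (fun x y z => ((S f2 x y z : ℝ) : ℂ)) (fun x y z => ((S f3 x y z : ℝ) : ℂ)),
      ← l1 (fun x y z => ((S f1 x y z : ℝ) : ℂ))
        (fun x y z => ((S f2 x y z : ℝ) : ℂ) + ((S f3 x y z : ℝ) : ℂ)), ← l2]
    congr 1
    funext x y z
    push_cast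
    ring
  rw [hlin, Complex.re_ofReal_mul, Complex.add_re, Complex.add_re]
  have hb1 : (AvK E w K M (fun x y z => ((S f1 x y z : ℝ) : ℂ))).re ≤ ε / (3 * C) := b1
  have hb2 : (AvK E w K M (fun x y z => ((S f2 x y z : ℝ) : ℂ))).re ≤ ε / (3 * C) := b2
  have hb3 : (AvK E w K M (fun x y z => ((S f3 x y z : ℝ) : ℂ))).re ≤ ε / (3 * C) := b3
  have hsum : (AvK E w K M (fun x y z => ((S f1 x y z : ℝ) : ℂ))).re +
      ((AvK E w K M (fun x y z => ((S f2 x y z : ℝ) : ℂ))).re +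
        (AvK E w K M (fun x y z => ((S f3 x y z : ℝ) : ℂ))).re) ≤ ε / C := by
    have h5 : ε / C = ε / (3 * C) + (ε / (3 * C) + ε / (3 * C)) := by
      field_simp
      ring
    rw [h5]
    exact add_le_add hb1 (add_le_add hb2 hb3)
  calc C * _ ≤ C * (ε / C) := mul_le_mul_of_nonneg_left hsum hC.le
    _ = ε := by field_simp

end Pool.Agent.F0f91f8.KR
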