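import Mathlib
import Pool.Agent.Work.MP_0f91f8_co.K.StmtsW

/-!
# Kronecker form, module W, item Van: vanishing terms
-/

set_option autoImplicit false

noncomputable section

namespace Pool.Agent.F0f91f8.KR

open Filter Topology ComplexConjugate
open Pool.Agent.F0f91f8.HD Pool.Agent.F0f91f8.RC
open scoped BigOperators

namespace IVan

theorem kp_pos (w K : ℕ) (e : Fin (w + 1) → Fin K) : 0 < kp w K e := by
  unfold kp
  refine Finset.prod_pos fun p _ => ?_
  split_ifs with h
  · exact pow_pos h.pos _
  · exact one_pos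

theorem kk_pos (w K : ℕ) (e : Fin (K + 1) → Fin K) : 0 < kk w K e := by
  unfold kk
  refine Finset.prod_pos fun p _ => ?_
  split_ifs with h
  · exact pow_pos h.1.pos _
  · exact one_pos

theorem kR_pos (E w K : ℕ) (e : Fin (w + 1) → Fin K) : 0 < kR E w K e := by
  unfold kR
  have h1 := kp_pos w K e
  have h2 := Nat.factorial_pos w
  positivity

theorem kK_pos (E w K : ℕ) (e' : Fin (K + 1) → Fin K) : 0 < kK E w K e' := by
  unfold kK
  have h1 := kk_pos w K e'
  positivity

theorem DR_pos (E w K : ℕ) (hK : 0 < K) : 0 < DR E w K := by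
  unfold DR
  have h2 := Nat.factorial_pos w
  positivity

end IVan

open IVan in
/-- vanishing terms -/
theorem pr_Van (h : Aper3) : StVan := by
  intro E f1 f2 f3 h1 h2 h3 ha ε hε
  refine Eventually.of_forall fun w => ?_
  filter_upwards [eventually_gt_atTop 0] with K hK
  have key : Tendsto (fun M : ℕ => AvK E w K M (t3 f1 f2 f3)) atTop (𝓝 0) := by
    have h4 : Tendsto (fun M : ℕ => AvK E w K M (t3 f1 f2 f3)) atTop
        (𝓝 ((∑ _e : Fin (w + 1) → Fin K, ∑ _e' : Fin (K + 1) → Fin K, (0 : ℂ)) /
          ((K : ℂ) ^ (w + 1) * (K : ℂ) ^ (K + 1)))) := by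
      unfold AvK
      refine Tendsto.div_const ?_ _
      refine tendsto_finsetSum _ fun e _ => tendsto_finsetSum _ fun e' _ => ?_
      exact h f1 f2 f3 h1 h2 h3 ha (kR E w K e) (kK E w K e') w.factorial (DR E w K) 1
        (kR_pos E w K e) (kK_pos E w K e') (Nat.factorial_pos w) (DR_pos E w K hK)
    simpa using h4
  have h5 := key.norm
  rw [norm_zero] at h5
  exact (h5.eventually (gt_mem_nhds hε)).mono fun M hM => hM.le

end Pool.Agent.F0f91f8.KR
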