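import Pool.Agent.Work.MP_0f91f8_co.K.DefsD
import Pool.Agent.Work.MP_0f91f8_co.RC.StmtsD2

/-!
# Kronecker form of the collision theorem, module D″: statements with complete proofs (helper83)

Item `X`: statement `StX`, file `K/I_X.lean`, theorem `pr_X`, namespace `Pool.Agent.F0f91f8.KR`. The
statements `StD..` are the landed items of `HD/StmtsD.lean`; `StR..` those of `RC/StmtsD1.lean` (namespace
`HD`) and `RC/StmtsD2.lean` (namespace `RC`), all landed. Take them as hypotheses.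
`κ = kR E w K e`, `k = kK E w K e'`, `Q = w!`, `n = Q s + 1`, `a = Q b + 1`, `N(w) = E φ(w!)`.
-/

set_option autoImplicit false

namespace Pool.Agent.F0f91f8.KR

open Filter Topology ComplexConjugate
open Pool.Agent.F0f91f8.HD Pool.Agent.F0f91f8.RC
open scoped BigOperators

/-! ## 1. Algebra of the family -/

/-- [KAv] (EASY, COPY of `RC/I_RAv.lean`) the average of the pair correlations. (hBx : StDBx) -/
def StKAv : Prop := ∀ (f : ℕ → ℂ) (E w K M : ℕ),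
  AvK E w K M (pc f) = (∑ e : Fin (w + 1) → Fin K, ∑ e' : Fin (K + 1) → Fin K,
    (CXK f E w K e e' M + CYK f E w K e e' M + CZK f E w K e e' M)) /
      ((K : ℂ) ^ (w + 1) * (K : ℂ) ^ (K + 1))

/-- [KMo] (EASY) `AvK` is linear, `|AvK Φ| ≤ AvK |Φ|`, commutes with the real part, is monotone (the members of
the family are positive and satisfy `x² + y² = z²`: `tX`, `tY`, `tZ` of positive parameters, `a = w! b + 1 > 0`,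
`n > 0`, `kR`, `kK` positive for `1 ≤ E`), `AvK 1 = 1`. Immediate from the definitions; see `StDBx` and the lemmas of
`HD/I_DBx.lean`, `HD/I_DFi.lean` (`DFi.avg_..`), `IDYm.re` in `HD/I_DYm.lean`. (hBx : StDBx) -/
def StKMo : Prop := ∀ E w K M : ℕ, 1 ≤ E →
  (∀ Φ Ψ : ℕ → ℕ → ℕ → ℂ, AvK E w K M (fun x y z => Φ x y z + Ψ x y z) =
    AvK E w K M Φ + AvK E w K M Ψ) ∧
  (∀ (c : ℂ) (Φ : ℕ → ℕ → ℕ → ℂ), AvK E w K M (fun x y z => c * Φ x y z) = c * AvK E w K M Φ) ∧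
  (∀ Φ : ℕ → ℕ → ℕ → ℂ,
    ‖AvK E w K M Φ‖ ≤ (AvK E w K M fun x y z => ((‖Φ x y z‖ : ℝ) : ℂ)).re) ∧
  (∀ Φ : ℕ → ℕ → ℕ → ℂ,
    (AvK E w K M Φ).re = (AvK E w K M fun x y z => (((Φ x y z).re : ℝ) : ℂ)).re) ∧
  (∀ F G : ℕ → ℕ → ℕ → ℝ, (∀ x y z, 0 < x → 0 < y → 0 < z → x ^ 2 + y ^ 2 = z ^ 2 →
      F x y z ≤ G x y z) →
    (AvK E w K M fun x y z => ((F x y z : ℝ) : ℂ)).re ≤
      (AvK E w K M fun x y z => ((G x y z : ℝ) : ℂ)).re) ∧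
  (1 ≤ K → 1 ≤ M → AvK E w K M (fun _ _ _ => 1) = 1)

/-- [KRe] (EASY) the average of a real function is bounded by the largest of the averages over `a, n`.
(`BR` is the real part of `Bx` of a real function, `DFi.avg_re` or directly.) -/
def StKRe : Prop := ∀ (E w K M : ℕ) (F : ℕ → ℕ → ℕ → ℝ) (c : ℝ), 1 ≤ K →
  (∀ (e : Fin (w + 1) → Fin K) (e' : Fin (K + 1) → Fin K),
    (BRK E w K M fun a n => F (tX (kR E w K e) (kK E w K e') a n)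
      (tY (kR E w K e) (kK E w K e') a n) (tZ (kR E w K e) (kK E w K e') a n)) ≤ c) →
  (AvK E w K M fun x y z => ((F x y z : ℝ) : ℂ)).re ≤ c

/-- [KPr] (EASY) the parameters. `Par` as in `StRPr`: `kK` is the power `E φ(w!) ≥ 1` of `kk`, so it is positive,
coprime to `w!`, its prime divisors are those of `kk`, and `p² ∣ kk ∣ kK`. `kk^(φ(w!)) ≡ 1` mod `w!`
(`Nat.ModEq.pow_totient`), hence `kK ≡ 1`. Last clause: `g kk = ∏ g p ^ (e p + 2)` over the primes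
`w < p ≤ K` (`map_prod`-like induction, `CM`). (hK2 : StRK2) (hPr : StRPr) (hMd : StDMd) -/
def StKPr : Prop := ∀ (E w K : ℕ) (e : Fin (w + 1) → Fin K) (e' : Fin (K + 1) → Fin K),
  1 ≤ E → 2 ≤ w → w ≤ K →
  Par w K (kR E w K e) (kK E w K e') ∧ 0 < DR E w K ∧ K ^ 2 * kR E w K e ≤ DR E w K ∧
  1 ≤ w.factorial ∧
  (∀ p : ℕ, p.Prime → p ∣ kR E w K e * kK E w K e' * w.factorial → p ≤ K) ∧
  (∀ p : ℕ, p.Prime → p ∣ kR E w K e * w.factorial → p ≤ K) ∧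
  (∀ b : ℕ, (kK E w K e' * (w.factorial * b + 1)) % w.factorial = 1 % w.factorial) ∧
  ∀ g : ℕ → ℂ, CM g → g (kK E w K e') = g (kk w K e') ^ (E * Nat.totient w.factorial) ∧
    ((∀ p : ℕ, p.Prime → w < p → g p ^ (E * Nat.totient w.factorial) = 1) →
      g (kK E w K e') = 1)

/-- [KKe] (EASY) averages of `g k` over the exponents `e'`: the second clause of `StDKp` for the `CM` function
`n ↦ g n ^ (E φ(w!))` (`E φ(w!) ≥ 1`; see `RC/I_RKp.lean`) and `g (kK) = g (kk) ^ (E φ(w!))` (as in `StKPr`;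
`CM`). (hKp : StDKp) -/
def StKKe : Prop := ∀ g : ℕ → ℂ, CM g → ∀ E w K p : ℕ, 1 ≤ E → 1 ≤ K → p.Prime →
  g p ^ (E * Nat.totient w.factorial) ≠ 1 → w < p → p ≤ K →
  ‖(∑ e' : Fin (K + 1) → Fin K, g (kK E w K e')) / (K : ℂ) ^ (K + 1)‖ ≤
    2 / (K * ‖1 - g p ^ (E * Nat.totient w.factorial)‖)

/-- [KUb] (EASY) the main terms have modulus at most one (`cm_le`, `gP_le`, `pow_le`, `bx_le` in
`HD/I_DFi.lean`, namespace `DFi`; as in `RC/I_RVy.lean`). (hTl : StDTl) -/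
def StKUb : Prop := ∀ (f g : ℕ → ℂ) (t : ℝ), CM f → G1 g →
  ∀ (E w K : ℕ) (e' : Fin (K + 1) → Fin K) (M : ℕ),
    ‖UXK f g t E w K e' M‖ ≤ 1 ∧ ‖UZK f g t E w K e' M‖ ≤ 1 ∧ ‖VYK g E w K M‖ ≤ 1

/-! ## 2. The three correlations, averaged -/

/-- [KXm] (EASY, COPY of `RC/I_RXm.lean`: `inv0 ..` becomes `1`, `kk w K e'` becomes `kK E w K e'`).
(hBx : StDBx) (hK2 : StRK2) (hPr : StKPr) (hSz : StRSz) (hPq : StRPq) (hLm : StRLm) (hPX : StRPX) -/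
def StKXm : Prop := ∃ C : ℝ, 0 < C ∧ ∀ (f g : ℕ → ℂ) (t : ℝ) (q : ℕ), Dec f g t q →
  ∀ E w K : ℕ, 1 ≤ E → 2 ≤ w → w ≤ K → q ∣ w.factorial → ∀ η : ℝ, 0 < η → ∃ M0 : ℕ, ∀ M ≥ M0,
  ∀ (e : Fin (w + 1) → Fin K) (e' : Fin (K + 1) → Fin K),
    ‖CXK f E w K e e' M - f (kp w K e) ^ E * UXK f g t E w K e' M‖ ≤ C * eT g t w K + η

/-- [KZm] (EASY, COPY of `RC/I_RZm.lean`).
(hBx : StDBx) (hK2 : StRK2) (hPr : StKPr) (hSz : StRSz) (hPq : StRPq) (hLm : StRLm) (hQd : StRQd)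
(hPZ : StRPZ) -/
def StKZm : Prop := ∃ C : ℝ, 0 < C ∧ ∀ (f g : ℕ → ℂ) (t : ℝ) (q : ℕ), Dec f g t q →
  ∀ E w K : ℕ, 1 ≤ E → 2 ≤ w → w ≤ K → q ∣ w.factorial → ∀ η : ℝ, 0 < η → ∃ M0 : ℕ, ∀ M ≥ M0,
  ∀ (e : Fin (w + 1) → Fin K) (e' : Fin (K + 1) → Fin K),
    ‖CZK f E w K e e' M - conj (f (kp w K e)) ^ E * UZK f g t E w K e' M‖ ≤ C * eT g t w K + η

/-- [KYm] (EASY, COPY of `RC/I_RYm.lean`, first clause only).
(hBx : StDBx) (hK2 : StRK2) (hPr : StKPr) (hSz : StRSz) (hPq : StRPq) (hLm : StRLm) (hQd : StRQd)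
(hPY : StRPY) -/
def StKYm : Prop := ∃ C : ℝ, 0 < C ∧ ∀ (f g : ℕ → ℂ) (t : ℝ) (q : ℕ), Dec f g t q →
  ∀ E w K : ℕ, 1 ≤ E → 2 ≤ w → w ≤ K → q ∣ w.factorial → ∀ η : ℝ, 0 < η → ∃ M0 : ℕ, ∀ M ≥ M0,
  ∀ (e : Fin (w + 1) → Fin K) (e' : Fin (K + 1) → Fin K),
    ‖CYK f E w K e e' M - g (kK E w K e') * VYK g E w K M‖ ≤ C * eT g t w K + η

/-! ## 3. Functions which are `1` at almost all primes beyond `w` -/

/-- [Kg1] (EASY-MEDIUM) the part of `g` in `(w, K]` is close to `1` on a linear form `α u + β`, all prime factors of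
`α` are `≤ w`, if `|1 - g p| ≤ B |1 - g p|²` for the primes `p > w`. For `n = α u + β > 0`, by (iii) of `StDEx` and
`|g^v - 1| ≤ v |g - 1|`: `|gP g w K n - 1| ≤ ∑_(w<p≤K) v_p(n) |1 - g p|` and `v_p(n) = #{1 ≤ j ≤ J : p^j ∣ n}` for every
`J ≥ log₂ n`; take `J = log₂ ((α + C0) M)`. For every `p`, `j` the number of `u ≤ M` with `p^j ∣ α u + β` is
`≤ M/p^j + 1` (`α` is invertible modulo `p^j`). So the average is
`≤ ∑_(w<p≤K) |1 - g p| (∑_j p^(-j) + J/M) ≤ ∑ |1 - g p| 2/p + 2 K J/M ≤ 2 B tl g w + 2 K J/M` (`StDTl`), and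
`J/M → 0`. (hEx : StDEx) (hTl : StDTl) -/
def StKg1 : Prop := ∀ g : ℕ → ℂ, G1 g → ∀ (B : ℝ) (w K α C0 : ℕ), 0 ≤ B → 1 ≤ w → 0 < α →
  (∀ p : ℕ, p.Prime → p ∣ α → p ≤ w) →
  (∀ p : ℕ, p.Prime → w < p → ‖1 - g p‖ ≤ B * ‖1 - g p‖ ^ 2) →
  ∀ η : ℝ, 0 < η → ∃ M0 : ℕ, ∀ M ≥ M0, ∀ β ≤ C0 * M,
    (∑ u ∈ Finset.Icc 1 M, ‖gP g w K (α * u + β) - 1‖) / (M : ℝ) ≤ 2 * (B * tl g w) + η

/-- [KgP] (EASY) the same for `a` and `n`. For `a` fix `v'` (and `u`, `u'`) and use `StKg1` with `D M` in place of `M`,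
`α = Q`, `β = Q v' + a₀ ≤ (Q + Q) (D M)`; for `n = Q (u + u') + 1` fix `u'` and use `α = Q`, `β = Q u' + 1`. As in
`HD/I_DLm.lean`, `RC/I_RLm.lean`. (hg1 : StKg1) -/
def StKgP : Prop := ∀ g : ℕ → ℂ, G1 g → ∀ (B : ℝ) (w K Q D : ℕ), 0 ≤ B → 1 ≤ w → 0 < Q → 0 < D →
  (∀ p : ℕ, p.Prime → p ∣ Q → p ≤ w) →
  (∀ p : ℕ, p.Prime → w < p → ‖1 - g p‖ ≤ B * ‖1 - g p‖ ^ 2) →
  ∀ η : ℝ, 0 < η → ∃ M0 : ℕ, ∀ M ≥ M0, ∀ a₀ ≤ Q,
    (BR Q D a₀ M fun a _ => ‖gP g w K a - 1‖) ≤ 2 * (B * tl g w) + η ∧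
    (BR Q D a₀ M fun _ s => ‖gP g w K (Q * s + 1) - 1‖) ≤ 2 * (B * tl g w) + η

/-- [KV1] (EASY-MEDIUM) `VYK` is close to `1`. `a = w! b + 1`, so no prime `≤ w` divides `a` and
`g a = gP g w K a * gT g K a` (`StDFc`). All numbers have modulus one:
`|g a conj gP(n) - 1| ≤ |gP(a) - 1| + |gT(a) - cL| + |cL - 1| + |gP(n) - 1|`. Average: `StKgP` (twice), the first
clause of `StDLm` (with `κ = k = 1`), `StRcT` and `tl g K ≤ tl g w` (`StDTl`). Finally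
`|cL conj cQ - 1| ≤ |cL - 1| + |cQ - 1| ≤ 3 B tl g w`. (`0 < DR E w K`: unfold.)
(hBx : StDBx) (hFc : StDFc) (hTl : StDTl) (hLm : StDLm) (hcT : StRcT) (hgP : StKgP) -/
def StKV1 : Prop := ∃ C : ℝ, 0 < C ∧ ∀ g : ℕ → ℂ, G1 g → ∀ (B : ℝ) (E w K : ℕ), 0 ≤ B → 1 ≤ E →
  2 ≤ w → w ≤ K → (∀ p : ℕ, p.Prime → w < p → ‖1 - g p‖ ≤ B * ‖1 - g p‖ ^ 2) →
  ∀ η : ℝ, 0 < η → ∃ M0 : ℕ, ∀ M ≥ M0,
    ‖VYK g E w K M - 1‖ ≤ C * (er g K + B * tl g w) + η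

/-- [KTp] (EASY) pointwise. `x = 2 κ n m`, `y = (k a) m'`, `m = k a + κ n`, `m' = k a + 2 κ n`; `f (2 κ) = 1`, `g k = 1`.
`n`, `k a`, `m`, `m'`, `z` are `≡ 1` mod `w!` (`StRMd`), so mod `q`: `f x = g n g m`, `f y = g k g a g m' = g a g m'`,
`f z = g z` (`Dec.eq` with `t = 0`; `x ^ 0 = 1`). No prime `≤ w` divides `n`, `a`, `m`, `m'`, `z`, so each of these values of
`g` is `gP g w K * gT g K` (`StDFc`), all of modulus one, and `|1 - u v| ≤ |1 - u| + |1 - v|`. If `p² ∤ n` for all primes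
`p > w` then `gP m = gP m' = gP n`, `gP z = (gP n)²` (`StRSp`), `|1 - u²| ≤ 2 |1 - u|`; otherwise `iPq w n = 1` and use
`|1 - u| ≤ 2`. (hFc : StDFc) (hMd : StRMd) (hSp : StRSp) -/
def StKTp : Prop := ∀ (f g : ℕ → ℂ) (q : ℕ), Dec f g 0 q →
  ∀ w K κ k : ℕ, 2 ≤ w → w ≤ K → q ∣ w.factorial → Par w K κ k → f (2 * κ) = 1 → g k = 1 →
  ∀ M a n : ℕ, (k * a) % w.factorial = 1 % w.factorial → n % w.factorial = 1 % w.factorial →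
    0 < a → 0 < n →
    ‖1 - f (tX κ k a n)‖ + ‖1 - f (tY κ k a n)‖ + ‖1 - f (tZ κ k a n)‖ ≤
      5 * ‖gP g w K n - 1‖ + ‖gP g w K a - 1‖ + 6 * iPq w n + ‖gT g K n - cL g K M‖ +
        ‖gT g K a - cL g K M‖ + ‖gT g K (k * a + κ * n) - cL g K M‖ +
        ‖gT g K (k * a + 2 * (κ * n)) - cL g K M‖ + ‖gT g K (tZ κ k a n) - cQ g K M‖ +
        4 * ‖cL g K M - 1‖ + ‖cQ g K M - 1‖

/-- [KTv] (EASY-MEDIUM) the average of `StKTp`. `f (2 κ) = (f (2 w!) f (k'))^E = 1` (`StRK2`),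
`g (kK) = 1` (last clause of `StKPr`). Average with `StKgP`, `StRPq`, `StRLm` (three
clauses), `StDLm` (first clause, `κ = k = 1`), `StRQd`, `StRcT` (`tl g K ≤ tl g w`); one threshold `M0` for the finitely many
`e, e'` (as in `RC/I_RYm.lean`).
(hBx : StDBx) (hK2 : StRK2) (hPr : StKPr) (hTl : StDTl) (hPq : StRPq) (hLm : StRLm) (hLa : StDLm)
(hQd : StRQd) (hcT : StRcT) (hgP : StKgP) (hTp : StKTp) -/
def StKTv : Prop := ∃ C : ℝ, 0 < C ∧ ∀ (f g : ℕ → ℂ) (q : ℕ), Dec f g 0 q →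
  ∀ E w K : ℕ, 1 ≤ E → 2 ≤ w → w ≤ K → q ∣ w.factorial → (∀ n : ℕ, 0 < n → f n ^ E = 1) →
  (∀ p : ℕ, p.Prime → w < p → g p ^ (E * Nat.totient w.factorial) = 1) →
  ∀ B : ℝ, 0 ≤ B → (∀ p : ℕ, p.Prime → w < p → ‖1 - g p‖ ≤ B * ‖1 - g p‖ ^ 2) →
  ∀ η : ℝ, 0 < η → ∃ M0 : ℕ, ∀ M ≥ M0,
  ∀ (e : Fin (w + 1) → Fin K) (e' : Fin (K + 1) → Fin K),
    (BRK E w K M fun a n => ‖1 - f (tX (kR E w K e) (kK E w K e') a n)‖ +
      ‖1 - f (tY (kR E w K e) (kK E w K e') a n)‖ + ‖1 - f (tZ (kR E w K e) (kK E w K e') a n)‖) ≤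
      C * (eT g 0 w K + B * tl g w) + η

/-! ## 4. Conclusions -/

/-- [KTr] (EASY-MEDIUM) `TrivK`. `Dec f g t q` (`StDDe`), `t = 0` and `g p ^ (φ(q) E) = 1` for `p ∤ q`
(`RC.dec_zero`); for `w ≥ q` also `g p ^ (E φ(w!)) = 1` for `p > w` (`φ(q) ∣ φ(w!)`), `B = φ(q) E` (`StRFv`); `StKTv`, `StKRe`.
(hBL : S_BL) (hDe : StDDe) (hTl : StDTl) (hFv : StRFv) (hRe : StKRe) (hTv : StKTv) -/
def StKTr : Prop := TrivK

/-- [KFi] (MEDIUM) `PWK0`. As `RC/I_RFi.lean`. Case B, `f p ^ E = 1` for all primes: then `f n ^ E = 1` for `n > 0`,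
`Re pc f ≥ 3 - 2 (|1 - f x| + |1 - f y| + |1 - f z|)`, `TrivK`, `StKMo`. Case A, `f p₀ ^ E ≠ 1`: `CXK`, `CZK` by the average
over `e` (`StRKp`). `CYK`: if for every `w` some `p₁ > w` has `g p₁ ^ (E φ(w!)) ≠ 1`: average over `e'` (`StKKe`). If not,
`g p ^ N₁ = 1` for all `p > w₁`, `N₁ = E φ(w₁!)`; for `w ≥ w₁` `g k = 1` and `VYK → 1` (`StKV1` with `B = N₁`, `StRFv`). -/
def StKFi : Prop := PWK0

end Pool.Agent.F0f91f8.KR
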